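import Pool.Agent.ChM.Defs

/-!
# Pull back of tensors of type `(a, b)`

`pw_mul`: `∏ k, ∑ j, f k j = ∑ J, ∏ k, f k (J k)` (`Finset.prod_univ_sum`,
`Fintype.piFinset_univ`; see `tens_ps` and `tact_mul` in `ChP/Tens.lean`).  The rest is matrix
algebra.  `bpoly A v ξ` is the scalar product of `∏ v` with `A *ᵥ ∏ ξ`.
-/

namespace Pool.Agent.ChM

open Matrix Filter Topology Pool.Agent.ChP

variable {a b n m l : ℕ}

theorem pw_mul (p : Matrix (Fin n) (Fin m) ℝ) (q : Matrix (Fin m) (Fin l) ℝ) :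
    pw a (p * q) = pw a p * pw a q := by
  ext I J
  simp only [pw, Matrix.mul_apply]
  rw [Finset.prod_univ_sum, Fintype.piFinset_univ]
  exact Finset.sum_congr rfl fun K _ => Finset.prod_mul_distrib

theorem pw_one : pw a (1 : Matrix (Fin n) (Fin n) ℝ) = 1 := by
  classical
  ext I J
  simp only [pw, Matrix.one_apply]
  by_cases h : I = J
  · subst h
    simp
  · rw [if_neg h]
    obtain ⟨k, hk⟩ : ∃ k, I k ≠ J k := by
      by_contra hcon
      apply h
      funext k
      by_contra h'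
      exact hcon ⟨k, h'⟩
    exact Finset.prod_eq_zero (Finset.mem_univ k) (by rw [if_neg hk])

theorem pw_transpose (p : Matrix (Fin n) (Fin m) ℝ) : (pw a p)ᵀ = pw a pᵀ := by
  rfl

theorem pw_smul (s : ℝ) (p : Matrix (Fin n) (Fin m) ℝ) : pw a (s • p) = s ^ a • pw a p := by
  ext I J
  simp only [pw, Matrix.smul_apply, smul_eq_mul]
  rw [Finset.prod_mul_distrib, Finset.prod_const, Finset.card_univ, Fintype.card_fin]

theorem bpull_bpull {n' : ℕ} (A : BTen a b n) (p : Matrix (Fin n) (Fin m) ℝ)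
    (q : Matrix (Fin m) (Fin n) ℝ) (p' : Matrix (Fin m) (Fin n') ℝ)
    (q' : Matrix (Fin n') (Fin m) ℝ) :
    bpull (bpull A p q) p' q' = bpull A (p * p') (q' * q) := by
  unfold bpull
  rw [pw_mul, pw_mul, Matrix.transpose_mul, Matrix.transpose_mul]
  simp only [Matrix.mul_assoc]

theorem bpull_one (A : BTen a b n) : bpull A 1 1 = A := by
  unfold bpull
  rw [pw_one, pw_one, Matrix.transpose_one, Matrix.transpose_one, Matrix.one_mul, Matrix.mul_one]

theorem bpull_smul (c : ℝ) (A : BTen a b n) (p : Matrix (Fin n) (Fin m) ℝ)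
    (q : Matrix (Fin m) (Fin n) ℝ) : bpull (c • A) p q = c • bpull A p q := by
  unfold bpull
  rw [Matrix.mul_smul, Matrix.smul_mul]

theorem bpull_smul_mat (s t : ℝ) (A : BTen a b n) (p : Matrix (Fin n) (Fin m) ℝ)
    (q : Matrix (Fin m) (Fin n) ℝ) :
    bpull A (s • p) (t • q) = (s ^ a * t ^ b) • bpull A p q := by
  unfold bpull
  rw [pw_smul, pw_smul, Matrix.transpose_smul, Matrix.transpose_smul, Matrix.smul_mul,
    Matrix.smul_mul, Matrix.mul_smul, smul_smul]

private noncomputable def BPull_vpw (a : ℕ) {n : ℕ} (v : Fin n → ℝ) : (Fin a → Fin n) → ℝ :=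
  fun I => ∏ k, v (I k)

private theorem BPull_vpw_mulVec (p : Matrix (Fin n) (Fin m) ℝ) (v : Fin m → ℝ) :
    BPull_vpw a (p *ᵥ v) = pw a p *ᵥ BPull_vpw a v := by
  funext I
  simp only [BPull_vpw, pw, Matrix.mulVec, dotProduct]
  rw [Finset.prod_univ_sum, Fintype.piFinset_univ]
  exact Finset.sum_congr rfl fun K _ => Finset.prod_mul_distrib

private theorem BPull_bpoly_eq (A : BTen a b n) (v ξ : Fin n → ℝ) :
    bpoly A v ξ = BPull_vpw a v ⬝ᵥ (A *ᵥ BPull_vpw b ξ) := by
  simp only [bpoly, BPull_vpw, Matrix.mulVec, dotProduct, Finset.mul_sum]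
  refine Finset.sum_congr rfl fun I _ => Finset.sum_congr rfl fun J _ => ?_
  ring

theorem bpoly_bpull (A : BTen a b n) (p : Matrix (Fin n) (Fin m) ℝ)
    (q : Matrix (Fin m) (Fin n) ℝ) (v ξ : Fin m → ℝ) :
    bpoly (bpull A p q) v ξ = bpoly A (p *ᵥ v) (qᵀ *ᵥ ξ) := by
  rw [BPull_bpoly_eq, BPull_bpoly_eq, BPull_vpw_mulVec, BPull_vpw_mulVec, bpull,
    ← Matrix.mulVec_mulVec, ← Matrix.mulVec_mulVec, Matrix.dotProduct_mulVec,
    Matrix.vecMul_transpose, pw_transpose q]

theorem bpoly_smul (c : ℝ) (A : BTen a b n) (v ξ : Fin n → ℝ) :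
    bpoly (c • A) v ξ = c * bpoly A v ξ := by
  simp only [bpoly, Matrix.smul_apply, smul_eq_mul, Finset.mul_sum]
  refine Finset.sum_congr rfl fun I _ => Finset.sum_congr rfl fun J _ => ?_
  ring

theorem bpoly_smul_left (A : BTen a b n) (s : ℝ) (v ξ : Fin n → ℝ) :
    bpoly A (s • v) ξ = s ^ a * bpoly A v ξ := by
  simp only [bpoly, Pi.smul_apply, smul_eq_mul, Finset.mul_sum, Finset.prod_mul_distrib,
    Finset.prod_const, Finset.card_univ, Fintype.card_fin]
  refine Finset.sum_congr rfl fun I _ => Finset.sum_congr rfl fun J _ => ?_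
  ring

theorem bpoly_smul_right (A : BTen a b n) (s : ℝ) (v ξ : Fin n → ℝ) :
    bpoly A v (s • ξ) = s ^ b * bpoly A v ξ := by
  simp only [bpoly, Pi.smul_apply, smul_eq_mul, Finset.mul_sum, Finset.prod_mul_distrib,
    Finset.prod_const, Finset.card_univ, Fintype.card_fin]
  refine Finset.sum_congr rfl fun I _ => Finset.sum_congr rfl fun J _ => ?_
  ring

private theorem BPull_left_inv (A : BTen a b n) (p : Matrix (Fin n) (Fin m) ℝ)
    (e : Equiv.Perm (Fin a))
    (he : ∀ (I : Fin a → Fin n) (J : Fin b → Fin n), A (fun k => I (e k)) J = A I J)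
    (I : Fin a → Fin m) (J : Fin b → Fin n) :
    ((pw a p)ᵀ * A) (fun k => I (e k)) J = ((pw a p)ᵀ * A) I J := by
  rw [Matrix.mul_apply, Matrix.mul_apply]
  rw [← Equiv.sum_comp (Equiv.arrowCongr e.symm (Equiv.refl (Fin n)))]
  refine Finset.sum_congr rfl fun K _ => ?_
  have h1 : (Equiv.arrowCongr e.symm (Equiv.refl (Fin n))) K = fun k => K (e k) := by
    funext k
    simp [Equiv.arrowCongr]
  rw [h1, he]
  congr 1
  simp only [Matrix.transpose_apply, pw]
  exact Equiv.prod_comp e fun k => p (K k) (I k)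

theorem BSym.bpull {A : BTen a b n} (hA : BSym A) (p : Matrix (Fin n) (Fin m) ℝ)
    (q : Matrix (Fin m) (Fin n) ℝ) : BSym (ChM.bpull A p q) := by
  have hl := fun (e : Equiv.Perm (Fin a)) (I : Fin a → Fin m) (J : Fin b → Fin n) =>
    BPull_left_inv A p e (hA.1 e) I J
  have hr := fun (e : Equiv.Perm (Fin b)) (J : Fin b → Fin m) (I : Fin a → Fin n) =>
    BPull_left_inv Aᵀ qᵀ e (fun K L => hA.2 e L K) J I
  constructor
  · intro e I J
    simp only [ChM.bpull]
    rw [Matrix.mul_apply, Matrix.mul_apply]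
    refine Finset.sum_congr rfl fun L _ => ?_
    rw [hl e I L]
  · intro e I J
    have h1 : ∀ J' : Fin b → Fin m, ChM.bpull A p q I J' =
        ∑ K, (pw a p)ᵀ I K * (((pw b qᵀ)ᵀ * Aᵀ) J' K) := by
      intro J'
      simp only [ChM.bpull]
      rw [Matrix.mul_assoc, Matrix.mul_apply]
      refine Finset.sum_congr rfl fun K _ => ?_
      congr 1
      rw [Matrix.mul_apply, Matrix.mul_apply]
      refine Finset.sum_congr rfl fun L _ => ?_
      simp only [Matrix.transpose_apply, pw]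
      ring
    rw [h1, h1]
    refine Finset.sum_congr rfl fun K _ => ?_
    rw [hr e J K]

theorem BSym.smul {A : BTen a b n} (hA : BSym A) (c : ℝ) : BSym (c • A) := by
  constructor
  · intro e I J
    simp only [Matrix.smul_apply]
    rw [hA.1 e I J]
  · intro e I J
    simp only [Matrix.smul_apply]
    rw [hA.2 e I J]

/-- `trace (A²)` does not change under pull back if `p q = 1`. -/
theorem trace_bpull (A : BTen a a n) (p : Matrix (Fin n) (Fin m) ℝ)
    (q : Matrix (Fin m) (Fin n) ℝ) (h : p * q = 1) :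
    Matrix.trace (bpull A p q * bpull A p q) = Matrix.trace (A * A) := by
  have h1 : (pw a q)ᵀ * (pw a p)ᵀ = 1 := by
    rw [← Matrix.transpose_mul, ← pw_mul, h, pw_one, Matrix.transpose_one]
  unfold bpull
  rw [show (pw a p)ᵀ * A * (pw a q)ᵀ * ((pw a p)ᵀ * A * (pw a q)ᵀ) =
      (pw a p)ᵀ * A * ((pw a q)ᵀ * (pw a p)ᵀ) * A * (pw a q)ᵀ by simp only [Matrix.mul_assoc],
    h1, Matrix.mul_one, Matrix.mul_assoc (pw a p)ᵀ A A, Matrix.trace_mul_comm,
    ← Matrix.mul_assoc, h1, Matrix.one_mul]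

end Pool.Agent.ChM
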