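import Pool.Agent.ChM.BPull
import Pool.Agent.ChP.Tens

/-!
# Bisymmetric tensors and their polynomials

`BSym.ext`: for fixed `v` the tensor `J ↦ ∑ I, A I J * ∏ k, v (I k)` is symmetric with polynomial
`ξ ↦ bpoly A v ξ`; so it is determined by it (`TSym.ext` in `ChP/Tens.lean`); then for fixed `J` the
tensor `I ↦ A I J` is symmetric and determined by its polynomial.
`exists_bsym`: average over the permutations of both groups of indices.
`exists_bmul`: `C K L = A (K ∘ castAdd) (L ∘ castAdd) * B (K ∘ natAdd) (L ∘ natAdd)`.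
-/

namespace Pool.Agent.ChM

open Matrix Filter Topology Pool.Agent.ChP

variable {a b n : ℕ}

theorem BSym.ext {A B : BTen a b n} (hA : BSym A) (hB : BSym B)
    (h : ∀ v ξ, bpoly A v ξ = bpoly B v ξ) : A = B := by
  have hp : ∀ (C : BTen a b n) (v ξ : Fin n → ℝ),
      tpoly (fun J : Fin b → Fin n => ∑ I : Fin a → Fin n, C I J * ∏ k, v (I k)) ξ =
        bpoly C v ξ := by
    intro C v ξ
    unfold tpoly bpoly
    rw [Finset.sum_comm]
    refine Finset.sum_congr rfl fun J _ => ?_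
    rw [Finset.sum_mul]
  have hs : ∀ C : BTen a b n, BSym C → ∀ v : Fin n → ℝ,
      TSym (fun J : Fin b → Fin n => ∑ I : Fin a → Fin n, C I J * ∏ k, v (I k)) := by
    intro C hC v e J
    refine Finset.sum_congr rfl fun I _ => ?_
    rw [hC.2 e I J]
  have h1 : ∀ v : Fin n → ℝ,
      (fun J : Fin b → Fin n => ∑ I : Fin a → Fin n, A I J * ∏ k, v (I k)) =
      (fun J : Fin b → Fin n => ∑ I : Fin a → Fin n, B I J * ∏ k, v (I k)) := by
    intro v
    refine TSym.ext (hs A hA v) (hs B hB v) fun ξ => ?_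
    rw [hp, hp, h v ξ]
  have h2 : ∀ J : Fin b → Fin n, (fun I : Fin a → Fin n => A I J) = fun I => B I J := by
    intro J
    refine TSym.ext (fun e I => hA.1 e I J) (fun e I => hB.1 e I J) fun v => ?_
    exact congrFun (h1 v) J
  funext I J
  exact congrFun (h2 J) I

/-- permutation of the indices -/
private def bsymm_pm (A : BTen a b n) (e : Equiv.Perm (Fin a)) (f : Equiv.Perm (Fin b)) :
    BTen a b n :=
  Matrix.of fun I J => A (fun k => I (e k)) (fun k => J (f k))

private theorem bsymm_pm_apply (A : BTen a b n) (e : Equiv.Perm (Fin a)) (f : Equiv.Perm (Fin b))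
    (I : Fin a → Fin n) (J : Fin b → Fin n) :
    bsymm_pm A e f I J = A (fun k => I (e k)) (fun k => J (f k)) := rfl

private theorem bsymm_perm (A : BTen a b n) (e : Equiv.Perm (Fin a)) (f : Equiv.Perm (Fin b))
    (v ξ : Fin n → ℝ) : bpoly (bsymm_pm A e f) v ξ = bpoly A v ξ := by
  unfold bpoly
  refine Fintype.sum_equiv (Equiv.arrowCongr e.symm (Equiv.refl (Fin n))) _ _ fun I => ?_
  refine Fintype.sum_equiv (Equiv.arrowCongr f.symm (Equiv.refl (Fin n))) _ _ fun J => ?_
  have h1 : (Equiv.arrowCongr e.symm (Equiv.refl (Fin n))) I = fun k => I (e k) := by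
    funext k
    simp [Equiv.arrowCongr]
  have h2 : (Equiv.arrowCongr f.symm (Equiv.refl (Fin n))) J = fun k => J (f k) := by
    funext k
    simp [Equiv.arrowCongr]
  rw [h1, h2, bsymm_pm_apply]
  have h3 : ∏ k, v (I (e k)) = ∏ k, v (I k) := Equiv.prod_comp e (fun k => v (I k))
  have h4 : ∏ k, ξ (J (f k)) = ∏ k, ξ (J k) := Equiv.prod_comp f (fun k => ξ (J k))
  rw [h3, h4]

theorem bpoly_add (A B : BTen a b n) (v ξ : Fin n → ℝ) :
    bpoly (A + B) v ξ = bpoly A v ξ + bpoly B v ξ := by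
  unfold bpoly
  rw [← Finset.sum_add_distrib]
  refine Finset.sum_congr rfl fun I _ => ?_
  rw [← Finset.sum_add_distrib]
  refine Finset.sum_congr rfl fun J _ => ?_
  rw [Matrix.add_apply]
  ring

private theorem bsymm_zero (v ξ : Fin n → ℝ) : bpoly (0 : BTen a b n) v ξ = 0 := by
  unfold bpoly
  refine Finset.sum_eq_zero fun I _ => Finset.sum_eq_zero fun J _ => ?_
  rw [Matrix.zero_apply]
  ring

private theorem bsymm_sum {ι : Type*} (s : Finset ι) (A : ι → BTen a b n) (v ξ : Fin n → ℝ) :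
    bpoly (∑ i ∈ s, A i) v ξ = ∑ i ∈ s, bpoly (A i) v ξ := by
  classical
  induction s using Finset.induction_on with
  | empty => rw [Finset.sum_empty, Finset.sum_empty, bsymm_zero]
  | insert i s hi ih => rw [Finset.sum_insert hi, Finset.sum_insert hi, bpoly_add, ih]

theorem exists_bsym (A : BTen a b n) :
    ∃ B : BTen a b n, BSym B ∧ ∀ v ξ, bpoly B v ξ = bpoly A v ξ := by
  refine ⟨((a.factorial : ℝ) * (b.factorial : ℝ))⁻¹ • ∑ e : Equiv.Perm (Fin a),
    ∑ f : Equiv.Perm (Fin b), bsymm_pm A e f,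
    ⟨?_, ?_⟩, ?_⟩
  · intro e0 I J
    rw [Matrix.smul_apply, Matrix.smul_apply]
    congr 1
    simp only [Matrix.sum_apply, bsymm_pm_apply]
    exact Fintype.sum_equiv (Equiv.mulLeft e0) _ _ fun e => rfl
  · intro f0 I J
    rw [Matrix.smul_apply, Matrix.smul_apply]
    congr 1
    simp only [Matrix.sum_apply, bsymm_pm_apply]
    refine Finset.sum_congr rfl fun e _ => ?_
    exact Fintype.sum_equiv (Equiv.mulLeft f0) _ _ fun e => rfl
  · intro v ξ
    rw [bpoly_smul, bsymm_sum]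
    have h1 : ∀ e ∈ (Finset.univ : Finset (Equiv.Perm (Fin a))),
        bpoly (∑ f : Equiv.Perm (Fin b), bsymm_pm A e f) v ξ =
        (b.factorial : ℝ) * bpoly A v ξ := by
      intro e _
      rw [bsymm_sum, Finset.sum_congr rfl fun f _ => bsymm_perm A e f v ξ, Finset.sum_const,
        Finset.card_univ, Fintype.card_perm, Fintype.card_fin, nsmul_eq_mul]
    rw [Finset.sum_congr rfl h1, Finset.sum_const, Finset.card_univ, Fintype.card_perm,
      Fintype.card_fin, nsmul_eq_mul]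
    have ha : (a.factorial : ℝ) ≠ 0 := by exact_mod_cast a.factorial_ne_zero
    have hb : (b.factorial : ℝ) ≠ 0 := by exact_mod_cast b.factorial_ne_zero
    field_simp

theorem exists_bmul {a' b' : ℕ} (A : BTen a b n) (B : BTen a' b' n) :
    ∃ C : BTen (a + a') (b + b') n, ∀ v ξ, bpoly C v ξ = bpoly A v ξ * bpoly B v ξ := by
  refine ⟨fun K L => A (fun k => K (Fin.castAdd a' k)) (fun k => L (Fin.castAdd b' k)) *
    B (fun k => K (Fin.natAdd a k)) (fun k => L (Fin.natAdd b k)), fun v ξ => ?_⟩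
  unfold bpoly
  rw [Finset.sum_mul_sum]
  rw [← Fintype.sum_prod_type' (f := fun (I : Fin a → Fin n) (I' : Fin a' → Fin n) =>
    (∑ J : Fin b → Fin n, A I J * (∏ k, v (I k)) * ∏ k, ξ (J k)) *
      ∑ J : Fin b' → Fin n, B I' J * (∏ k, v (I' k)) * ∏ k, ξ (J k))]
  refine Fintype.sum_equiv (Fin.appendEquiv a a').symm _ _ fun K => ?_
  rw [Finset.sum_mul_sum]
  rw [← Fintype.sum_prod_type' (f := fun (J : Fin b → Fin n) (J' : Fin b' → Fin n) =>
    (A ((Fin.appendEquiv a a').symm K).1 J * (∏ k, v (((Fin.appendEquiv a a').symm K).1 k)) *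
      ∏ k, ξ (J k)) * (B ((Fin.appendEquiv a a').symm K).2 J' *
      (∏ k, v (((Fin.appendEquiv a a').symm K).2 k)) * ∏ k, ξ (J' k)))]
  refine Fintype.sum_equiv (Fin.appendEquiv b b').symm _ _ fun L => ?_
  rw [Fin.prod_univ_add, Fin.prod_univ_add]
  change _ = A (fun k => K (Fin.castAdd a' k)) (fun k => L (Fin.castAdd b' k)) *
    (∏ k, v (K (Fin.castAdd a' k))) * (∏ k, ξ (L (Fin.castAdd b' k))) *
    (B (fun k => K (Fin.natAdd a k)) (fun k => L (Fin.natAdd b k)) *
    (∏ k, v (K (Fin.natAdd a k))) * (∏ k, ξ (L (Fin.natAdd b k))))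
  ring

/-- limits of bisymmetric tensors are bisymmetric -/
theorem BSym.of_tendsto {A : ℕ → BTen a b n} {A' : BTen a b n} (hA : ∀ m, BSym (A m))
    (h : Tendsto A atTop (𝓝 A')) : BSym A' := by
  have hent : ∀ I J, Tendsto (fun m => A m I J) atTop (𝓝 (A' I J)) := by
    intro I J
    have h1 := tendsto_pi_nhds.1 h I
    exact tendsto_pi_nhds.1 h1 J
  constructor
  · intro e I J
    refine tendsto_nhds_unique (hent _ _) ?_
    refine (hent I J).congr fun m => ?_
    rw [(hA m).1 e I J]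
  · intro e I J
    refine tendsto_nhds_unique (hent _ _) ?_
    refine (hent I J).congr fun m => ?_
    rw [(hA m).2 e I J]

private theorem bsymm_zero_sym : BSym (0 : BTen a b n) := ⟨fun _ _ _ => rfl, fun _ _ _ => rfl⟩

/-- a non-zero bisymmetric tensor of type `(a, b)`, `a ≠ b`, is not invariant under the exchange of
`V` and `V*`: otherwise `2 ^ a * F(v, ξ) = F(2 v, ξ) = F(ξ, 2 v) = 2 ^ b * F(ξ, v)`. -/
theorem asym_of_ne (hab : a ≠ b) {A : BTen a b n} (hA : BSym A) (hA0 : A ≠ 0) :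
    ∃ v ξ, bpoly A v ξ ≠ bpoly A ξ v := by
  by_contra hcon
  push Not at hcon
  apply hA0
  refine hA.ext bsymm_zero_sym fun v ξ => ?_
  rw [bsymm_zero]
  have h1 := hcon ((2 : ℝ) • v) ξ
  rw [bpoly_smul_left, bpoly_smul_right, hcon ξ v] at h1
  have h2 : (2 : ℝ) ^ a ≠ (2 : ℝ) ^ b := by
    intro h
    exact hab (pow_right_injective₀ (by norm_num) (by norm_num) h)
  have h3 : ((2 : ℝ) ^ a - (2 : ℝ) ^ b) * bpoly A v ξ = 0 := by
    rw [sub_mul, h1, sub_self]
  rcases mul_eq_zero.1 h3 with h4 | h4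
  · exact absurd (sub_eq_zero.1 h4) h2
  · exact h4

/-- a non-zero bisymmetric tensor of type `(a, a)` with `trace (A * A) ≤ 0` is not symmetric as a
matrix, so (`BSym.ext` for `A` and `Aᵀ`) it is not invariant under the exchange of `V` and `V*`. -/
theorem asym_of_trace {A : BTen a a n} (hA : BSym A) (hA0 : A ≠ 0)
    (htr : Matrix.trace (A * A) ≤ 0) : ∃ v ξ, bpoly A v ξ ≠ bpoly A ξ v := by
  by_contra hcon
  push Not at hcon
  have hT : BSym Aᵀ := ⟨fun e I J => hA.2 e J I, fun e I J => hA.1 e J I⟩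
  have hp : ∀ v ξ, bpoly Aᵀ v ξ = bpoly A ξ v := by
    intro v ξ
    unfold bpoly
    rw [Finset.sum_comm]
    refine Finset.sum_congr rfl fun J _ => Finset.sum_congr rfl fun I _ => ?_
    rw [Matrix.transpose_apply]
    ring
  have hE : A = Aᵀ := hA.ext hT fun v ξ => by rw [hp, hcon]
  have hsym : ∀ I J, A J I = A I J := fun I J => (congrFun (congrFun hE I) J).symm
  have htr2 : Matrix.trace (A * A) = ∑ I, ∑ J, A I J ^ 2 := by
    rw [Matrix.trace]
    refine Finset.sum_congr rfl fun I _ => ?_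
    rw [Matrix.diag_apply, Matrix.mul_apply]
    refine Finset.sum_congr rfl fun J _ => ?_
    rw [hsym I J, sq]
  apply hA0
  rw [htr2] at htr
  have h1 : ∀ I ∈ (Finset.univ : Finset (Fin a → Fin n)), 0 ≤ ∑ J, A I J ^ 2 :=
    fun I _ => Finset.sum_nonneg fun J _ => sq_nonneg _
  have h2 := (Finset.sum_eq_zero_iff_of_nonneg h1).1 (le_antisymm htr (Finset.sum_nonneg h1))
  funext I J
  have h3 := (Finset.sum_eq_zero_iff_of_nonneg fun J _ => sq_nonneg (A I J)).1
    (h2 I (Finset.mem_univ I)) J (Finset.mem_univ J)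
  exact pow_eq_zero_iff (two_ne_zero) |>.1 h3

end Pool.Agent.ChM
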