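import Pool.Agent.ChM.Bl
import Pool.Agent.ChM.BPull

/-!
# Tensors of type `(a, b)` as tensors of degree `a + b` on `V ⊕ V*`

`tpoly_bten`: exchange the sums; the sum over `K` picks `K = append I J`, and
`∏ k : Fin (a + b), (append v ξ) (append I J k) = (∏ v (I k)) * ∏ ξ (J k)` (`Fin.prod_univ_add`).
`tact_bten`: `tact (bten A) (bd g h) K = ∑ I J, A I J * ∏ k, (bd g h) (append I J k) (K k)`
(`Fin.prod_univ_add`).  If `K` is of the form `append I' J'` use `bd_apply_cc`, `bd_apply_nn`; if
not, some `K (castAdd k)` is a `natAdd` or some `K (natAdd k)` a `castAdd`, and the product is `0`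
by `bd_apply_cn`, `bd_apply_nc`; both sides are `0`.
`bten_tendsto`: `A m I J = bten (A m) (append I J)`, and `bten (A m) K = 0` for all other `K`.
-/

namespace Pool.Agent.ChM

open Matrix Filter Topology Pool.Agent.ChP

variable {a b n : ℕ}

/-- the index of a pair of multi-indices. -/
private def BTen_ci (I : Fin a → Fin n) (J : Fin b → Fin n) : Fin (a + b) → Fin (n + n) :=
  Fin.append (fun k => Fin.castAdd n (I k)) (fun k => Fin.natAdd n (J k))

private lemma BTen_ci_left (I : Fin a → Fin n) (J : Fin b → Fin n) (k : Fin a) :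
    BTen_ci I J (Fin.castAdd b k) = Fin.castAdd n (I k) := by
  unfold BTen_ci
  rw [Fin.append_left]

private lemma BTen_ci_right (I : Fin a → Fin n) (J : Fin b → Fin n) (k : Fin b) :
    BTen_ci I J (Fin.natAdd a k) = Fin.natAdd n (J k) := by
  unfold BTen_ci
  rw [Fin.append_right]

private lemma BTen_ci_inj {I I' : Fin a → Fin n} {J J' : Fin b → Fin n}
    (h : BTen_ci I J = BTen_ci I' J') : I = I' ∧ J = J' := by
  constructor
  · funext k
    have := congrFun h (Fin.castAdd b k)
    rw [BTen_ci_left, BTen_ci_left] at this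
    exact Fin.castAdd_injective n n this
  · funext k
    have := congrFun h (Fin.natAdd a k)
    rw [BTen_ci_right, BTen_ci_right] at this
    exact Fin.natAdd_injective n n this

private lemma BTen_def (A : BTen a b n) (K : Fin (a + b) → Fin (n + n)) :
    bten A K = ∑ I : Fin a → Fin n, ∑ J : Fin b → Fin n, if K = BTen_ci I J then A I J else 0 := rfl

private lemma BTen_sum (A : BTen a b n) (F : (Fin (a + b) → Fin (n + n)) → ℝ) :
    ∑ K, bten A K * F K =
      ∑ I : Fin a → Fin n, ∑ J : Fin b → Fin n, A I J * F (BTen_ci I J) := by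
  have h1 : ∀ K, bten A K * F K = ∑ I : Fin a → Fin n, ∑ J : Fin b → Fin n,
      if K = BTen_ci I J then A I J * F (BTen_ci I J) else 0 := by
    intro K
    rw [BTen_def, Finset.sum_mul]
    apply Finset.sum_congr rfl
    intro I _
    rw [Finset.sum_mul]
    apply Finset.sum_congr rfl
    intro J _
    by_cases h : K = BTen_ci I J
    · rw [if_pos h, if_pos h, h]
    · rw [if_neg h, if_neg h, zero_mul]
  simp only [h1]
  rw [Finset.sum_comm]
  apply Finset.sum_congr rfl
  intro I _
  rw [Finset.sum_comm]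
  apply Finset.sum_congr rfl
  intro J _
  rw [Finset.sum_ite_eq']
  simp

private lemma BTen_ap (A : BTen a b n) (I : Fin a → Fin n) (J : Fin b → Fin n) :
    bten A (BTen_ci I J) = A I J := by
  rw [BTen_def, Finset.sum_eq_single I, Finset.sum_eq_single J, if_pos rfl]
  · intro J' _ hJ'
    rw [if_neg]
    intro h
    exact hJ' (BTen_ci_inj h).2.symm
  · intro h
    exact absurd (Finset.mem_univ _) h
  · intro I' _ hI'
    apply Finset.sum_eq_zero
    intro J' _
    rw [if_neg]
    intro h
    exact hI' (BTen_ci_inj h).1.symm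
  · intro h
    exact absurd (Finset.mem_univ _) h

private lemma BTen_out (A : BTen a b n) (K : Fin (a + b) → Fin (n + n))
    (hK : ∀ I J, K ≠ BTen_ci I J) : bten A K = 0 := by
  rw [BTen_def]
  apply Finset.sum_eq_zero
  intro I _
  apply Finset.sum_eq_zero
  intro J _
  rw [if_neg (hK I J)]

private lemma BTen_range (K : Fin (a + b) → Fin (n + n))
    (h1 : ∀ k : Fin a, ∃ i, K (Fin.castAdd b k) = Fin.castAdd n i)
    (h2 : ∀ k : Fin b, ∃ j, K (Fin.natAdd a k) = Fin.natAdd n j) : ∃ I J, K = BTen_ci I J := by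
  choose I hI using h1
  choose J hJ using h2
  refine ⟨I, J, ?_⟩
  funext k
  refine Fin.addCases (fun k => ?_) (fun k => ?_) k
  · rw [hI, BTen_ci_left]
  · rw [hJ, BTen_ci_right]

theorem bten_append (A : BTen a b n) (I : Fin a → Fin n) (J : Fin b → Fin n) :
    bten A (Fin.append (fun k => Fin.castAdd n (I k)) (fun k => Fin.natAdd n (J k))) = A I J :=
  BTen_ap A I J

theorem tpoly_bten (A : BTen a b n) (v ξ : Fin n → ℝ) :
    tpoly (bten A) (Fin.append v ξ) = bpoly A v ξ := by
  unfold tpoly bpoly
  rw [BTen_sum A (fun K => ∏ k, (Fin.append v ξ) (K k))]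
  apply Finset.sum_congr rfl
  intro I _
  apply Finset.sum_congr rfl
  intro J _
  rw [Fin.prod_univ_add]
  simp only [BTen_ci_left, BTen_ci_right, Fin.append_left, Fin.append_right]
  ring

theorem tact_bten (A : BTen a b n) (g h : Matrix (Fin n) (Fin n) ℝ) :
    tact (bten A) (bd g h) = bten (bpull A g hᵀ) := by
  funext K
  have e1 : tact (bten A) (bd g h) K = ∑ I : Fin a → Fin n, ∑ J : Fin b → Fin n,
      A I J * ((∏ k, bd g h (Fin.castAdd n (I k)) (K (Fin.castAdd b k))) *
        ∏ k, bd g h (Fin.natAdd n (J k)) (K (Fin.natAdd a k))) := by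
    unfold tact
    rw [BTen_sum A (fun K' => ∏ k, bd g h (K' k) (K k))]
    apply Finset.sum_congr rfl
    intro I _
    apply Finset.sum_congr rfl
    intro J _
    rw [Fin.prod_univ_add]
    simp only [BTen_ci_left, BTen_ci_right]
  by_cases h1 : ∀ k : Fin a, ∃ i, K (Fin.castAdd b k) = Fin.castAdd n i
  · by_cases h2 : ∀ k : Fin b, ∃ j, K (Fin.natAdd a k) = Fin.natAdd n j
    · obtain ⟨I', J', rfl⟩ := BTen_range K h1 h2
      rw [e1, BTen_ap]
      unfold bpull
      rw [Matrix.mul_apply]
      simp only [Matrix.mul_apply, Finset.sum_mul]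
      rw [Finset.sum_comm]
      apply Finset.sum_congr rfl
      intro J _
      apply Finset.sum_congr rfl
      intro I _
      simp only [BTen_ci_left, BTen_ci_right, bd_apply_cc, bd_apply_nn, Matrix.transpose_apply, pw]
      ring
    · push Not at h2
      obtain ⟨k, hk⟩ := h2
      have hK : ∃ i, K (Fin.natAdd a k) = Fin.castAdd n i := by
        revert hk
        refine Fin.addCases (fun i _ => ⟨i, rfl⟩) (fun j hj => absurd rfl (hj j)) (K (Fin.natAdd a k))
      obtain ⟨i, hi⟩ := hK
      rw [BTen_out]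
      · rw [e1]
        apply Finset.sum_eq_zero
        intro I _
        apply Finset.sum_eq_zero
        intro J _
        have : ∏ k, bd g h (Fin.natAdd n (J k)) (K (Fin.natAdd a k)) = 0 := by
          apply Finset.prod_eq_zero (Finset.mem_univ k)
          rw [hi, bd_apply_nc]
        rw [this, mul_zero, mul_zero]
      · intro I J hIJ
        apply hk (J k)
        rw [hIJ, BTen_ci_right]
  · push Not at h1
    obtain ⟨k, hk⟩ := h1
    have hK : ∃ j, K (Fin.castAdd b k) = Fin.natAdd n j := by
      revert hk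
      refine Fin.addCases (fun i hi => absurd rfl (hi i)) (fun j _ => ⟨j, rfl⟩)
        (K (Fin.castAdd b k))
    obtain ⟨j, hj⟩ := hK
    rw [BTen_out]
    · rw [e1]
      apply Finset.sum_eq_zero
      intro I _
      apply Finset.sum_eq_zero
      intro J _
      have : ∏ k, bd g h (Fin.castAdd n (I k)) (K (Fin.castAdd b k)) = 0 := by
        apply Finset.prod_eq_zero (Finset.mem_univ k)
        rw [hj, bd_apply_cn]
      rw [this, zero_mul, mul_zero]
    · intro I J hIJ
      apply hk (I k)
      rw [hIJ, BTen_ci_left]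

theorem tact_bten_bl (A : BTen a b n) (g : Matrix (Fin n) (Fin n) ℝ) :
    tact (bten A) (bl g) = bten (bpull A g g⁻¹) := by
  unfold bl
  rw [tact_bten, Matrix.transpose_transpose]

theorem bten_smul (c : ℝ) (A : BTen a b n) : bten (c • A) = c • bten A := by
  funext K
  rw [Pi.smul_apply, BTen_def, BTen_def, Finset.smul_sum]
  apply Finset.sum_congr rfl
  intro I _
  rw [Finset.smul_sum]
  apply Finset.sum_congr rfl
  intro J _
  by_cases h : K = BTen_ci I J
  · rw [if_pos h, if_pos h]
    rfl
  · rw [if_neg h, if_neg h, smul_zero]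

theorem bten_neg (A : BTen a b n) : bten (-A) = -bten A := by
  have := bten_smul (-1) A
  rw [neg_one_smul, neg_one_smul] at this
  exact this

theorem bten_injective : Function.Injective (bten : BTen a b n → Ten (a + b) (n + n)) := by
  intro A B h
  funext I J
  rw [← BTen_ap A, ← BTen_ap B, h]

theorem bten_zero : bten (0 : BTen a b n) = 0 := by
  have := bten_smul 0 (0 : BTen a b n)
  rw [zero_smul, zero_smul] at this
  exact this

theorem bten_tendsto {A : ℕ → BTen a b n} {T' : Ten (a + b) (n + n)}
    (h : Tendsto (fun m => bten (A m)) atTop (𝓝 T')) :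
    ∃ A' : BTen a b n, bten A' = T' ∧ Tendsto A atTop (𝓝 A') := by
  have h' := tendsto_pi_nhds.1 h
  obtain ⟨A', hA'⟩ : ∃ A' : BTen a b n, ∀ I J, A' I J = T' (BTen_ci I J) :=
    ⟨Matrix.of fun I J => T' (BTen_ci I J), fun I J => rfl⟩
  refine ⟨A', ?_, ?_⟩
  · funext K
    by_cases hK : ∃ I J, K = BTen_ci I J
    · obtain ⟨I, J, rfl⟩ := hK
      rw [BTen_ap, hA']
    · have hK' : ∀ I J, K ≠ BTen_ci I J := fun I J hIJ => hK ⟨I, J, hIJ⟩
      rw [BTen_out _ K hK']
      have h1 := h' K
      simp only [BTen_out _ K hK'] at h1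
      exact tendsto_nhds_unique tendsto_const_nhds h1
  · apply tendsto_pi_nhds.2
    intro I
    apply tendsto_pi_nhds.2
    intro J
    have h1 := h' (BTen_ci I J)
    simp only [BTen_ap] at h1
    rw [hA']
    exact h1

end Pool.Agent.ChM
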