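import Pool.Agent.ChM.Defs

/-!
# Block matrices

`bd g h` is block diagonal; everything follows from `Matrix.fromBlocks_multiply`,
`Matrix.fromBlocks_transpose`, `Matrix.det_fromBlocks_zero₂₁` etc. and the reindexing by
`finSumFinEquiv`.  `bl g = bd g (g⁻¹)ᵀ` is multiplicative as `(g h)⁻¹ᵀ = g⁻¹ᵀ h⁻¹ᵀ`
(`Matrix.mul_inv_rev`).
-/

namespace Pool.Agent.ChM

open Matrix Filter Topology Pool.Agent.ChP

variable {n : ℕ}

private theorem Bl_bd_eq (g h : Matrix (Fin n) (Fin n) ℝ) :
    bd g h = (Matrix.fromBlocks g 0 0 h).submatrix finSumFinEquiv.symm finSumFinEquiv.symm := rfl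

theorem bd_apply_cc (g h : Matrix (Fin n) (Fin n) ℝ) (i j : Fin n) :
    bd g h (Fin.castAdd n i) (Fin.castAdd n j) = g i j := by
  simp [Bl_bd_eq]

theorem bd_apply_cn (g h : Matrix (Fin n) (Fin n) ℝ) (i j : Fin n) :
    bd g h (Fin.castAdd n i) (Fin.natAdd n j) = 0 := by
  rw [Bl_bd_eq, Matrix.submatrix_apply, finSumFinEquiv_symm_apply_castAdd,
    finSumFinEquiv_symm_apply_natAdd]
  rfl

theorem bd_apply_nc (g h : Matrix (Fin n) (Fin n) ℝ) (i j : Fin n) :
    bd g h (Fin.natAdd n i) (Fin.castAdd n j) = 0 := by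
  rw [Bl_bd_eq, Matrix.submatrix_apply, finSumFinEquiv_symm_apply_castAdd,
    finSumFinEquiv_symm_apply_natAdd]
  rfl

theorem bd_apply_nn (g h : Matrix (Fin n) (Fin n) ℝ) (i j : Fin n) :
    bd g h (Fin.natAdd n i) (Fin.natAdd n j) = h i j := by
  rw [Bl_bd_eq, Matrix.submatrix_apply, finSumFinEquiv_symm_apply_natAdd,
    finSumFinEquiv_symm_apply_natAdd]
  rfl

private theorem Bl_ext {A B : Matrix (Fin (n + n)) (Fin (n + n)) ℝ}
    (h1 : ∀ i j, A (Fin.castAdd n i) (Fin.castAdd n j) = B (Fin.castAdd n i) (Fin.castAdd n j))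
    (h2 : ∀ i j, A (Fin.castAdd n i) (Fin.natAdd n j) = B (Fin.castAdd n i) (Fin.natAdd n j))
    (h3 : ∀ i j, A (Fin.natAdd n i) (Fin.castAdd n j) = B (Fin.natAdd n i) (Fin.castAdd n j))
    (h4 : ∀ i j, A (Fin.natAdd n i) (Fin.natAdd n j) = B (Fin.natAdd n i) (Fin.natAdd n j)) :
    A = B := by
  ext i j
  induction i using Fin.addCases with
  | left i =>
    induction j using Fin.addCases with
    | left j => exact h1 i j
    | right j => exact h2 i j
  | right i =>
    induction j using Fin.addCases with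
    | left j => exact h3 i j
    | right j => exact h4 i j

theorem bd_mul (g h g' h' : Matrix (Fin n) (Fin n) ℝ) :
    bd g h * bd g' h' = bd (g * g') (h * h') := by
  rw [Bl_bd_eq, Bl_bd_eq, Bl_bd_eq, Matrix.submatrix_mul_equiv, Matrix.fromBlocks_multiply]
  simp

theorem bd_one : bd (1 : Matrix (Fin n) (Fin n) ℝ) 1 = 1 := by
  rw [Bl_bd_eq, Matrix.fromBlocks_one, Matrix.submatrix_one_equiv]

theorem bd_zero : bd (0 : Matrix (Fin n) (Fin n) ℝ) 0 = 0 := by
  rw [Bl_bd_eq, Matrix.fromBlocks_zero, Matrix.submatrix_zero]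
  rfl

theorem bd_add (g h g' h' : Matrix (Fin n) (Fin n) ℝ) :
    bd g h + bd g' h' = bd (g + g') (h + h') := by
  apply Bl_ext <;> intro i j <;>
  simp only [Matrix.add_apply, bd_apply_cc, bd_apply_cn, bd_apply_nc, bd_apply_nn, add_zero]

theorem bd_sub (g h g' h' : Matrix (Fin n) (Fin n) ℝ) :
    bd g h - bd g' h' = bd (g - g') (h - h') := by
  apply Bl_ext <;> intro i j <;>
  simp only [Matrix.sub_apply, bd_apply_cc, bd_apply_cn, bd_apply_nc, bd_apply_nn, sub_zero]

theorem bd_sum {S : Type} [Fintype S] (g h : S → Matrix (Fin n) (Fin n) ℝ) :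
    ∑ s, bd (g s) (h s) = bd (∑ s, g s) (∑ s, h s) := by
  apply Bl_ext <;> intro i j <;>
  simp only [bd_apply_cc, bd_apply_cn, bd_apply_nc, bd_apply_nn, Matrix.sum_apply,
    Finset.sum_const_zero]

theorem bd_transpose (g h : Matrix (Fin n) (Fin n) ℝ) : (bd g h)ᵀ = bd gᵀ hᵀ := by
  apply Bl_ext <;> intro i j <;>
  simp only [Matrix.transpose_apply, bd_apply_cc, bd_apply_cn, bd_apply_nc, bd_apply_nn]

theorem bd_det (g h : Matrix (Fin n) (Fin n) ℝ) : (bd g h).det = g.det * h.det := by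
  rw [Bl_bd_eq, Matrix.det_submatrix_equiv_self, Matrix.det_fromBlocks_zero₂₁]

theorem bd_diagonal (l l' : Fin n → ℝ) :
    bd (diagonal l) (diagonal l') = diagonal (Fin.append l l') := by
  apply Bl_ext <;> intro i j
  · rw [bd_apply_cc]
    by_cases h : i = j
    · subst h; rw [Matrix.diagonal_apply_eq, Matrix.diagonal_apply_eq, Fin.append_left]
    · rw [Matrix.diagonal_apply_ne _ h, Matrix.diagonal_apply_ne]
      intro h'
      exact h (Fin.castAdd_injective _ _ h')
  · rw [bd_apply_cn, Matrix.diagonal_apply_ne]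
    intro h'
    have := congrArg Fin.val h'
    simp at this
    omega
  · rw [bd_apply_nc, Matrix.diagonal_apply_ne]
    intro h'
    have := congrArg Fin.val h'
    simp at this
    omega
  · rw [bd_apply_nn]
    by_cases h : i = j
    · subst h; rw [Matrix.diagonal_apply_eq, Matrix.diagonal_apply_eq, Fin.append_right]
    · rw [Matrix.diagonal_apply_ne _ h, Matrix.diagonal_apply_ne]
      intro h'
      exact h (Fin.natAdd_injective _ _ h')

theorem bd_mulVec (g h : Matrix (Fin n) (Fin n) ℝ) (v ξ : Fin n → ℝ) :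
    bd g h *ᵥ Fin.append v ξ = Fin.append (g *ᵥ v) (h *ᵥ ξ) := by
  ext i
  induction i using Fin.addCases with
  | left i =>
    rw [Fin.append_left]
    simp only [Matrix.mulVec, dotProduct, Fin.sum_univ_add, bd_apply_cc, bd_apply_cn,
      Fin.append_left, Fin.append_right, zero_mul, Finset.sum_const_zero, add_zero]
  | right i =>
    rw [Fin.append_right]
    simp only [Matrix.mulVec, dotProduct, Fin.sum_univ_add, bd_apply_nc, bd_apply_nn,
      Fin.append_left, Fin.append_right, zero_mul, Finset.sum_const_zero, zero_add]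

theorem bl_mul (g h : Matrix (Fin n) (Fin n) ℝ) : bl g * bl h = bl (g * h) := by
  rw [bl, bl, bl, bd_mul, Matrix.mul_inv_rev, Matrix.transpose_mul]

theorem bl_one : bl (1 : Matrix (Fin n) (Fin n) ℝ) = 1 := by
  rw [bl, inv_one, Matrix.transpose_one, bd_one]

theorem bl_transpose (g : Matrix (Fin n) (Fin n) ℝ) : (bl g)ᵀ = bl gᵀ := by
  rw [bl, bl, bd_transpose, Matrix.transpose_nonsing_inv]

theorem bl_det {g : Matrix (Fin n) (Fin n) ℝ} (hg : g.det ≠ 0) : (bl g).det = 1 := by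
  rw [bl, bd_det, Matrix.det_transpose, Matrix.det_nonsing_inv, Ring.inverse_eq_inv',
    mul_inv_cancel₀ hg]

theorem bl_inv {g : Matrix (Fin n) (Fin n) ℝ} (hg : g.det ≠ 0) : (bl g)⁻¹ = bl g⁻¹ := by
  apply Matrix.inv_eq_right_inv
  rw [bl_mul, Matrix.mul_nonsing_inv _ (isUnit_iff_ne_zero.mpr hg), bl_one]

end Pool.Agent.ChM
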