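import Pool.Agent.ChM.Bl
import Pool.Agent.ChP.Spec

/-!
# Block matrices: functional calculus

With `P = U diag(l) Uᵀ` (`exists_spec`, `0 < l` by `posDef_iff_spec`)
`bl P = bd U U * diag (l, l⁻¹) * (bd U U)ᵀ` (`bd_mul`, `bd_diagonal`, `bd_transpose`, as
`P⁻¹ = U diag(l⁻¹) Uᵀ`); use `cfc_conj_diagonal` for `bl P` and for `P`
(`(l⁻¹)^s = (l^s)⁻¹`, `log l⁻¹ = - log l`).  `tendsto_bl`: the inverse is continuous at
invertible matrices (adjugate and determinant are continuous, see `limitRep_tendsto_inv` in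
`ChP/LimitRep.lean`).
-/

namespace Pool.Agent.ChM

open Matrix Filter Topology Pool.Agent.ChP

variable {n : ℕ}

private theorem blspec_inv {U : Matrix (Fin n) (Fin n) ℝ} {m : Fin n → ℝ} (hU1 : U * Uᵀ = 1)
    (hU : Uᵀ * U = 1) (hm : ∀ i, m i ≠ 0) :
    (U * diagonal m * Uᵀ)⁻¹ = U * diagonal (fun i => (m i)⁻¹) * Uᵀ := by
  apply Matrix.inv_eq_right_inv
  calc U * diagonal m * Uᵀ * (U * diagonal (fun i => (m i)⁻¹) * Uᵀ)
      = U * diagonal m * (Uᵀ * U) * diagonal (fun i => (m i)⁻¹) * Uᵀ := by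
        simp only [mul_assoc]
    _ = U * (diagonal m * diagonal (fun i => (m i)⁻¹)) * Uᵀ := by
        rw [hU, mul_one]
        simp only [mul_assoc]
    _ = 1 := by
        have : diagonal m * diagonal (fun i => (m i)⁻¹) = (1 : Matrix (Fin n) (Fin n) ℝ) := by
          rw [diagonal_mul_diagonal, ← diagonal_one]
          congr 1
          funext i
          exact mul_inv_cancel₀ (hm i)
        rw [this, mul_one, hU1]

private theorem blspec_transp (U : Matrix (Fin n) (Fin n) ℝ) (m : Fin n → ℝ) :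
    (U * diagonal m * Uᵀ)ᵀ = U * diagonal m * Uᵀ := by
  rw [transpose_mul, transpose_mul, transpose_transpose, diagonal_transpose, ← mul_assoc]

private theorem blspec_bd (U : Matrix (Fin n) (Fin n) ℝ) (l l' : Fin n → ℝ) :
    bd (U * diagonal l * Uᵀ) (U * diagonal l' * Uᵀ) =
      bd U U * diagonal (Fin.append l l') * (bd U U)ᵀ := by
  rw [bd_transpose, ← bd_diagonal, bd_mul, bd_mul]

private theorem blspec_bl {U : Matrix (Fin n) (Fin n) ℝ} {l : Fin n → ℝ} (hU1 : U * Uᵀ = 1)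
    (hU : Uᵀ * U = 1) (hl : ∀ i, l i ≠ 0) :
    bl (U * diagonal l * Uᵀ) = bd U U * diagonal (Fin.append l (fun i => (l i)⁻¹)) * (bd U U)ᵀ := by
  unfold bl
  rw [blspec_inv hU1 hU hl, blspec_transp, blspec_bd]

private theorem blspec_orth {U : Matrix (Fin n) (Fin n) ℝ} (hU : Uᵀ * U = 1) :
    (bd U U)ᵀ * bd U U = 1 := by
  rw [bd_transpose, bd_mul, hU, bd_one]

private theorem blspec_exists {P : Matrix (Fin n) (Fin n) ℝ} (hP : P.PosDef) :
    ∃ (U : Matrix (Fin n) (Fin n) ℝ) (l : Fin n → ℝ), U * Uᵀ = 1 ∧ Uᵀ * U = 1 ∧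
      P = U * diagonal l * Uᵀ ∧ ∀ i, 0 < l i := by
  have hs : Pᵀ = P := by
    have := hP.1
    rwa [Matrix.IsHermitian, conjTranspose_eq_transpose_of_trivial] at this
  obtain ⟨U, l, hU1, hU, h⟩ := exists_spec P hs
  exact ⟨U, l, hU1, hU, h, (posDef_iff_spec hU h).1 hP⟩

private theorem blspec_append (φ : ℝ → ℝ) (l l' : Fin n → ℝ) :
    (fun i => φ (Fin.append l l' i)) = Fin.append (fun i => φ (l i)) (fun i => φ (l' i)) := by
  funext i
  refine Fin.addCases (fun j => ?_) (fun j => ?_) i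
  · rw [Fin.append_left, Fin.append_left]
  · rw [Fin.append_right, Fin.append_right]

private theorem blspec_cfc {U : Matrix (Fin n) (Fin n) ℝ} {l : Fin n → ℝ} (hU1 : U * Uᵀ = 1)
    (hU : Uᵀ * U = 1) (hl : ∀ i, l i ≠ 0) (φ : ℝ → ℝ) :
    cfc φ (bl (U * diagonal l * Uᵀ)) =
      bd (U * diagonal (fun i => φ (l i)) * Uᵀ) (U * diagonal (fun i => φ ((l i)⁻¹)) * Uᵀ) := by
  rw [cfc_conj_diagonal (blspec_orth hU) (blspec_bl hU1 hU hl) φ, blspec_append, ← blspec_bd]

theorem bl_posDef {P : Matrix (Fin n) (Fin n) ℝ} (hP : P.PosDef) : (bl P).PosDef := by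
  obtain ⟨U, l, hU1, hU, h, hl⟩ := blspec_exists hP
  rw [h]
  refine (posDef_iff_spec (blspec_orth hU) (blspec_bl hU1 hU fun i => (hl i).ne')).2 fun i => ?_
  refine Fin.addCases (fun j => ?_) (fun j => ?_) i
  · rw [Fin.append_left]
    exact hl j
  · rw [Fin.append_right]
    exact inv_pos.2 (hl j)

theorem cfc_bl_rpow {P : Matrix (Fin n) (Fin n) ℝ} (hP : P.PosDef) (s : ℝ) :
    cfc (fun x : ℝ => x ^ s) (bl P) = bl (cfc (fun x : ℝ => x ^ s) P) := by
  obtain ⟨U, l, hU1, hU, h, hl⟩ := blspec_exists hP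
  rw [cfc_conj_diagonal hU h, h, blspec_cfc hU1 hU (fun i => (hl i).ne')]
  unfold bl
  have h2 : ∀ i, l i ^ s ≠ 0 := fun i => (Real.rpow_pos_of_pos (hl i) s).ne'
  rw [blspec_inv hU1 hU h2, blspec_transp]
  congr 4
  funext i
  exact Real.inv_rpow (hl i).le s

theorem lg_bl {P : Matrix (Fin n) (Fin n) ℝ} (hP : P.PosDef) :
    lg (bl P) = bd (lg P) (-lg P) := by
  obtain ⟨U, l, hU1, hU, h, hl⟩ := blspec_exists hP
  unfold lg
  rw [cfc_conj_diagonal hU h, h, blspec_cfc hU1 hU (fun i => (hl i).ne')]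
  congr 1
  have h2 : (fun i => Real.log ((l i)⁻¹)) = fun i => -Real.log (l i) := by
    funext i
    exact Real.log_inv (l i)
  rw [h2]
  have h3 : diagonal (fun i => -Real.log (l i)) = -diagonal (fun i => Real.log (l i)) := by
    rw [diagonal_neg]
  rw [h3, mul_neg, neg_mul]

theorem tendsto_bl {A : ℕ → Matrix (Fin n) (Fin n) ℝ} {L : Matrix (Fin n) (Fin n) ℝ}
    (h : Tendsto A atTop (𝓝 L)) (hL : L.det ≠ 0) :
    Tendsto (fun m => bl (A m)) atTop (𝓝 (bl L)) := by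
  have h1 : Tendsto (fun m => (A m).det) atTop (𝓝 L.det) :=
    ((continuous_id.matrix_det).tendsto L).comp h
  have h2 : Tendsto (fun m => (A m).adjugate) atTop (𝓝 L.adjugate) :=
    ((continuous_id.matrix_adjugate).tendsto L).comp h
  have h3 : Tendsto (fun m => (A m)⁻¹) atTop (𝓝 L⁻¹) := by
    have h3 := (h1.inv₀ hL).smul h2
    simp only [Matrix.inv_def, Ring.inverse_eq_inv']
    exact h3
  have h4 : Continuous fun p : Matrix (Fin n) (Fin n) ℝ × Matrix (Fin n) (Fin n) ℝ => bd p.1 (p.2)ᵀ := by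
    unfold bd
    exact (continuous_fst.matrix_fromBlocks continuous_const continuous_const
      continuous_snd.matrix_transpose).matrix_reindex _ _
  exact (h4.tendsto (L, L⁻¹)).comp (h.prodMk_nhds h3)

end Pool.Agent.ChM
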