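import Pool.Agent.ChM.Dact

/-!
# Removing the central part

Let `𝔩` be the Lie algebra of matrices generated by the symmetric matrices `Y i`
(`LieSubalgebra.lieSpan ℝ (Matrix (Fin n) (Fin n) ℝ) (Set.range Y)`, or work with the submodule
`{X | X ∈ 𝔩}`).  `𝔩` is closed under transposition (the transpose of `[A, B]` is `-[Aᵀ, Bᵀ]`,
induction on the span).  For a matrix `X` let `β X = bd X (-Xᵀ)`, linear in `X`, with
`β (X Z - Z X) = β X * β Z - β Z * β X` and `(β X)ᵀ = β Xᵀ`.  By induction on the Lie span, using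
`dact_bracket`: `dact T (β X) = λ X • T` for all `X ∈ 𝔩`, where
`λ X = (∑ I, T I * dact T (β X) I) / ∑ I, T I ^ 2` is linear in `X`; and `λ (X Z - Z X) = 0` for
`X, Z ∈ 𝔩`.  For antisymmetric `X`, `∑ I, T I * dact T (β X) I = 0` by `dact_adjoint`, so
`λ Xᵀ = λ X` for all `X`.

With the scalar product `trace (X * Zᵀ)` on `𝔩` there is `Z ∈ 𝔩` with `λ X = trace (X * Zᵀ)` for
all `X ∈ 𝔩`.  As `λ Xᵀ = λ X`, also `Zᵀ` represents `λ`, so `Z = Zᵀ`.  For `W ∈ 𝔩` put
`U = W * Z - Z * W ∈ 𝔩`; then `trace (U * Uᵀ) = trace (Uᵀ * (W * Z - Z * W))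
= trace ((Uᵀ * W - W * Uᵀ) * Z) = λ (Uᵀ * W - W * Uᵀ) = 0`, so `Z` commutes with `W`.
Finally `λ Z = trace (Z * Zᵀ)`; if `Z = 0` then `λ = 0` and one can take `s = 0`; otherwise
`s i = μ i / λ Z`.
-/

set_option linter.all false

namespace Pool.Agent.ChM

open Matrix Pool.Agent.ChP

private noncomputable def Central_be {n : ℕ} :
    Matrix (Fin n) (Fin n) ℝ →ₗ[ℝ] Matrix (Fin (n + n)) (Fin (n + n)) ℝ where
  toFun X := bd X (-Xᵀ)
  map_add' X Z := by
    rw [bd_add, transpose_add, neg_add]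
  map_smul' c X := by
    rw [RingHom.id_apply, transpose_smul, ← smul_neg]
    unfold bd
    rw [show (Matrix.fromBlocks (c • X) 0 0 (c • -Xᵀ) :
        Matrix (Fin n ⊕ Fin n) (Fin n ⊕ Fin n) ℝ) = c • Matrix.fromBlocks X 0 0 (-Xᵀ) by
      rw [Matrix.fromBlocks_smul, smul_zero]]
    rfl

private theorem Central_be_apply {n : ℕ} (X : Matrix (Fin n) (Fin n) ℝ) :
    Central_be X = bd X (-Xᵀ) := rfl

private theorem Central_be_t {n : ℕ} (X : Matrix (Fin n) (Fin n) ℝ) :
    (Central_be X)ᵀ = Central_be Xᵀ := by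
  rw [Central_be_apply, Central_be_apply, bd_transpose, transpose_neg]

private theorem Central_be_br {n : ℕ} (X Z : Matrix (Fin n) (Fin n) ℝ) :
    Central_be (X * Z - Z * X) = Central_be X * Central_be Z - Central_be Z * Central_be X := by
  simp only [Central_be_apply]
  rw [bd_mul, bd_mul, bd_sub]
  congr 1
  rw [transpose_sub, transpose_mul, transpose_mul]
  simp only [neg_mul_neg]
  abel

private theorem Central_D_sub {d N : ℕ} (T : Ten d N) (L M : Matrix (Fin N) (Fin N) ℝ) :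
    dact T (L - M) = dact T L - dact T M := by
  have h : L - M = L + (-1 : ℝ) • M := by
    rw [neg_one_smul, sub_eq_add_neg]
  rw [h, dact_add, dact_smul, neg_one_smul, sub_eq_add_neg]

private theorem Central_br {d n : ℕ} {T : Ten d (n + n)} {X Z : Matrix (Fin n) (Fin n) ℝ}
    {a b : ℝ} (hX : dact T (Central_be X) = a • T) (hZ : dact T (Central_be Z) = b • T) :
    dact T (Central_be (X * Z - Z * X)) = 0 := by
  rw [Central_be_br, ← dact_bracket, hX, hZ, dact_smul_left, dact_smul_left, hX, hZ,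
    smul_smul, smul_smul, mul_comm a b, sub_self]

private def Central_g {d n : ℕ} (T : Ten d (n + n)) : Submodule ℝ (Matrix (Fin n) (Fin n) ℝ) where
  carrier := {X | (∃ c : ℝ, dact T (Central_be X) = c • T) ∧
    ∃ c : ℝ, dact T (Central_be Xᵀ) = c • T}
  zero_mem' := by
    refine ⟨⟨0, ?_⟩, ⟨0, ?_⟩⟩
    · have h := dact_smul T 0 (Central_be (0 : Matrix (Fin n) (Fin n) ℝ))
      rw [zero_smul, zero_smul] at h
      rw [map_zero, h, zero_smul]
    · have h := dact_smul T 0 (Central_be (0 : Matrix (Fin n) (Fin n) ℝ))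
      rw [zero_smul, zero_smul] at h
      rw [transpose_zero, map_zero, h, zero_smul]
  add_mem' := by
    rintro X Z ⟨⟨a, ha⟩, ⟨a', ha'⟩⟩ ⟨⟨b, hb⟩, ⟨b', hb'⟩⟩
    refine ⟨⟨a + b, ?_⟩, ⟨a' + b', ?_⟩⟩
    · rw [map_add, dact_add, ha, hb, add_smul]
    · rw [transpose_add, map_add, dact_add, ha', hb', add_smul]
  smul_mem' := by
    rintro c X ⟨⟨a, ha⟩, ⟨a', ha'⟩⟩
    refine ⟨⟨c * a, ?_⟩, ⟨c * a', ?_⟩⟩
    · rw [map_smul, dact_smul, ha, smul_smul]
    · rw [transpose_smul, map_smul, dact_smul, ha', smul_smul]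

private theorem Central_mem {d n : ℕ} {T : Ten d (n + n)} {X : Matrix (Fin n) (Fin n) ℝ} :
    X ∈ Central_g T ↔ (∃ c : ℝ, dact T (Central_be X) = c • T) ∧
      ∃ c : ℝ, dact T (Central_be Xᵀ) = c • T := Iff.rfl

private theorem Central_mem_t {d n : ℕ} {T : Ten d (n + n)} {X : Matrix (Fin n) (Fin n) ℝ}
    (h : X ∈ Central_g T) : Xᵀ ∈ Central_g T := by
  rw [Central_mem] at h ⊢
  rw [transpose_transpose]
  exact ⟨h.2, h.1⟩

private theorem Central_mem_br {d n : ℕ} {T : Ten d (n + n)} {X Z : Matrix (Fin n) (Fin n) ℝ}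
    (hX : X ∈ Central_g T) (hZ : Z ∈ Central_g T) : X * Z - Z * X ∈ Central_g T := by
  rw [Central_mem] at hX hZ ⊢
  obtain ⟨⟨a, ha⟩, ⟨a', ha'⟩⟩ := hX
  obtain ⟨⟨b, hb⟩, ⟨b', hb'⟩⟩ := hZ
  refine ⟨⟨0, ?_⟩, ⟨0, ?_⟩⟩
  · rw [Central_br ha hb, zero_smul]
  · rw [transpose_sub, transpose_mul, transpose_mul, Central_br hb' ha', zero_smul]

private theorem Central_tr0 {n : ℕ} {U : Matrix (Fin n) (Fin n) ℝ}
    (h : Matrix.trace (U * Uᵀ) = 0) : U = 0 := by
  have h1 : Matrix.trace (U * Uᵀ) = ∑ i, ∑ j, U i j ^ 2 := by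
    simp only [Matrix.trace, Matrix.diag_apply, Matrix.mul_apply, Matrix.transpose_apply]
    refine Finset.sum_congr rfl fun i _ => Finset.sum_congr rfl fun j _ => ?_
    ring
  rw [h1] at h
  ext i j
  have h2 := (Finset.sum_eq_zero_iff_of_nonneg
    (fun i _ => Finset.sum_nonneg fun j _ => sq_nonneg (U i j))).1 h i (Finset.mem_univ i)
  have h3 := (Finset.sum_eq_zero_iff_of_nonneg
    (fun j _ => sq_nonneg (U i j))).1 h2 j (Finset.mem_univ j)
  exact pow_eq_zero_iff (two_ne_zero) |>.1 h3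

/-- The pairing. -/
private noncomputable def Central_pair {n : ℕ} (g : Submodule ℝ (Matrix (Fin n) (Fin n) ℝ)) :
    g →ₗ[ℝ] Module.Dual ℝ g where
  toFun Z :=
    { toFun := fun X => Matrix.trace (X.1 * Z.1ᵀ)
      map_add' := fun X X' => by
        rw [Submodule.coe_add, add_mul, Matrix.trace_add]
      map_smul' := fun c X => by
        rw [Submodule.coe_smul, smul_mul_assoc, Matrix.trace_smul]
        rfl }
  map_add' Z Z' := by
    ext X
    simp [mul_add]
  map_smul' c Z := by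
    ext X
    simp

private theorem Central_pair_inj {n : ℕ} (g : Submodule ℝ (Matrix (Fin n) (Fin n) ℝ)) :
    Function.Injective (Central_pair g) := by
  rw [injective_iff_map_eq_zero]
  intro Z hZ
  have h1 : Matrix.trace (Z.1 * Z.1ᵀ) = 0 := by
    have h2 := LinearMap.congr_fun hZ Z
    exact h2
  exact Subtype.ext (Central_tr0 h1)

private theorem Central_pair_surj {n : ℕ} (g : Submodule ℝ (Matrix (Fin n) (Fin n) ℝ)) :
    Function.Surjective (Central_pair g) :=
  (LinearMap.injective_iff_surjective_of_finrank_eq_finrank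
    (Subspace.dual_finrank_eq (K := ℝ) (V := g)).symm).1 (Central_pair_inj g)

theorem exists_central {d n m : ℕ} (T : Ten d (n + n)) (hT0 : T ≠ 0)
    (Y : Fin m → Matrix (Fin n) (Fin n) ℝ) (hY : ∀ i, (Y i)ᵀ = Y i) (μ : Fin m → ℝ)
    (h : ∀ i, dact T (bd (Y i) (-Y i)) = μ i • T) :
    ∃ (Z : Matrix (Fin n) (Fin n) ℝ) (s : Fin m → ℝ), Zᵀ = Z ∧ (∀ i, Z * Y i = Y i * Z) ∧
      ∀ i, dact T (bd (Y i - s i • Z) (-(Y i - s i • Z))) = 0 := by
  classical
  have hS : 0 < ∑ I, T I ^ 2 := by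
    obtain ⟨I0, hI0⟩ : ∃ I0, T I0 ≠ 0 := by
      by_contra hcon
      push Not at hcon
      exact hT0 (funext hcon)
    refine Finset.sum_pos' (fun I _ => sq_nonneg (T I)) ⟨I0, Finset.mem_univ _, ?_⟩
    positivity
  -- the linear form
  let lam : Matrix (Fin n) (Fin n) ℝ →ₗ[ℝ] ℝ :=
    { toFun := fun X => (∑ I, T I * dact T (Central_be X) I) / ∑ I, T I ^ 2
      map_add' := fun X X' => by
        rw [map_add, dact_add, ← add_div]
        congr 1
        rw [← Finset.sum_add_distrib]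
        refine Finset.sum_congr rfl fun I _ => ?_
        rw [Pi.add_apply, mul_add]
      map_smul' := fun c X => by
        rw [map_smul, dact_smul, RingHom.id_apply, smul_eq_mul, ← mul_div_assoc]
        congr 1
        rw [Finset.mul_sum]
        refine Finset.sum_congr rfl fun I _ => ?_
        rw [Pi.smul_apply, smul_eq_mul]
        ring }
  have hlam : ∀ X, lam X = (∑ I, T I * dact T (Central_be X) I) / ∑ I, T I ^ 2 := fun X => rfl
  have hlam1 : ∀ X (c : ℝ), dact T (Central_be X) = c • T → lam X = c := by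
    intro X c hc
    rw [hlam, hc, div_eq_iff hS.ne', Finset.mul_sum]
    refine Finset.sum_congr rfl fun I _ => ?_
    rw [Pi.smul_apply, smul_eq_mul]
    ring
  have hlam2 : ∀ X ∈ Central_g T, dact T (Central_be X) = lam X • T := by
    intro X hX
    obtain ⟨c, hc⟩ := (Central_mem.1 hX).1
    rw [hlam1 X c hc]
    exact hc
  have hlamt : ∀ X, lam Xᵀ = lam X := by
    intro X
    rw [hlam, hlam]
    congr 1
    rw [← Central_be_t, ← dact_adjoint]
    exact Finset.sum_congr rfl fun I _ => mul_comm _ _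
  have hlamb : ∀ X ∈ Central_g T, ∀ Z ∈ Central_g T, lam (X * Z - Z * X) = 0 := by
    intro X hX Z hZ
    refine hlam1 _ 0 ?_
    rw [zero_smul]
    exact Central_br (hlam2 X hX) (hlam2 Z hZ)
  have hYg : ∀ i, Y i ∈ Central_g T := by
    intro i
    rw [Central_mem]
    refine ⟨⟨μ i, ?_⟩, ⟨μ i, ?_⟩⟩
    · rw [Central_be_apply, hY i]
      exact h i
    · rw [hY i, Central_be_apply, hY i]
      exact h i
  have hYl : ∀ i, lam (Y i) = μ i := by
    intro i
    refine hlam1 _ _ ?_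
    rw [Central_be_apply, hY i]
    exact h i
  obtain ⟨Z0, hZ0⟩ := Central_pair_surj (Central_g T) (lam.comp (Central_g T).subtype)
  obtain ⟨Z, hZg⟩ := Z0
  have hZ : ∀ X ∈ Central_g T, Matrix.trace (X * Zᵀ) = lam X := by
    intro X hX
    exact LinearMap.congr_fun hZ0 ⟨X, hX⟩
  have hZt : Zᵀ = Z := by
    have h1 : Central_pair (Central_g T) ⟨Zᵀ, Central_mem_t hZg⟩ =
        Central_pair (Central_g T) ⟨Z, hZg⟩ := by
      rw [hZ0]
      ext X
      have h2 : Central_pair (Central_g T) ⟨Zᵀ, Central_mem_t hZg⟩ X =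
          Matrix.trace (X.1 * Zᵀᵀ) := rfl
      rw [h2, transpose_transpose, ← Matrix.trace_transpose, transpose_mul, Matrix.trace_mul_comm,
        hZ _ (Central_mem_t X.2), hlamt]
      rfl
    exact congrArg Subtype.val (Central_pair_inj _ h1)
  have hcomm : ∀ W ∈ Central_g T, W * Z - Z * W = 0 := by
    intro W hW
    have hU := Central_mem_br hW hZg
    set U := W * Z - Z * W with hUdef
    apply Central_tr0
    have h1 := hZ _ (Central_mem_br (Central_mem_t hU) hW)
    rw [hlamb _ (Central_mem_t hU) _ hW, hZt, sub_mul, Matrix.trace_sub] at h1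
    have h2 : Matrix.trace (W * Uᵀ * Z) = Matrix.trace (Uᵀ * (Z * W)) := by
      rw [Matrix.mul_assoc, Matrix.trace_mul_comm, Matrix.mul_assoc]
    have h3 : Matrix.trace (U * Uᵀ) = Matrix.trace (Uᵀ * (W * Z)) -
        Matrix.trace (Uᵀ * (Z * W)) := by
      rw [Matrix.trace_mul_comm, ← Matrix.trace_sub, ← Matrix.mul_sub, ← hUdef]
    rw [h3, ← h2, ← Matrix.mul_assoc]
    exact h1
  by_cases hZ1 : Z = 0
  · refine ⟨0, fun _ => 0, transpose_zero, fun i => by rw [zero_mul, mul_zero], fun i => ?_⟩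
    have h1 : μ i = 0 := by
      rw [← hYl i, ← hZ _ (hYg i), hZ1, transpose_zero, mul_zero, Matrix.trace_zero]
    rw [smul_zero, sub_zero, h i, h1, zero_smul]
  · have hlz : lam Z ≠ 0 := by
      rw [← hZ Z hZg]
      intro h1
      exact hZ1 (Central_tr0 h1)
    refine ⟨Z, fun i => μ i / lam Z, hZt, fun i => ?_, fun i => ?_⟩
    · exact (sub_eq_zero.1 (hcomm _ (hYg i))).symm
    · have h1 : bd (Y i - (μ i / lam Z) • Z) (-(Y i - (μ i / lam Z) • Z)) =
          Central_be (Y i) - (μ i / lam Z) • Central_be Z := by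
        rw [← map_smul, ← map_sub, Central_be_apply, transpose_sub, transpose_smul, hY i, hZt]
      rw [h1, Central_D_sub, dact_smul, hlam2 _ (hYg i), hlam2 _ hZg, hYl i, smul_smul,
        div_mul_cancel₀ _ hlz, sub_self]

end Pool.Agent.ChM
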