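import Pool.Agent.ChM.Scale

/-!
# Several subquotients in a chain

Version of `exists_subquot` (`ChM/Scale.lean`) for subquotients `W j / ker (π j)`, `j : Fin r`, with
`W i ≤ ker (π j)` for `i < j`.

Let `K j = ker (π j)` as a subspace of `ℝ^n` (`(LinearMap.ker (π j)).map (W j).subtype`), invariant
under `ρ`, so `K 0 ≤ W 0 ≤ K 1 ≤ W 1 ≤ ...`; write `U 0 ≤ U 1 ≤ ... ≤ U (2 r - 1)` for this chain.
Choose projections `P' i` onto `U i` (`exists_projection`) and `P i = P' i * P (i + 1)` (descending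
recursion, `P (2 r - 1) = P' (2 r - 1)`).  Then `P i * P j = P j * P i = P i` for `i ≤ j` and `P i`
is a projection onto `U i`.  Iterate `noEul_block`: `ρ_{i}` is `blockRep ρ_{i+1} (P i)` starting
from `ρ`, down to `ρ₀` (all `P j`, `j > i`, commute with `ρ_i`, the spaces `U j` remain invariant,
and on vectors `v ∈ U j`: `ρ_i γ v - ρ γ v` lies in `U i'` for the `i' < j` already treated ...), or
treat all `i` at once with the conjugation by `∑ i, t^i (P i - P (i - 1))`.  The result is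
`ρ₀ γ = ∑ i, E i * ρ γ * E i` with `E i = P i - P (i - 1)` (`i = 0, ..., 2 r`, `P (-1) = 0`,
`P (2 r) = 1`).

Let `σ j : ℝ^(k j) → W j` be a linear right inverse of `π j`, `P_W j`, `P_K j` the projections
onto `W j`, `K j` in the above family, `p v = (π j (P_W j v))_j`,
`q (x_j)_j = ∑ j, (P_W j - P_K j) (σ j x_j)`.  Then `p * q = 1`: for `i < j`
`P_W i (P_W j - P_K j) = 0`, for `i > j` the vector `(P_W j - P_K j) (...)` is in `W j ≤ K i`, and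
for `i = j` see `exists_subquot`.  The equivariance is checked block by block as in
`exists_subquot`.
-/

namespace Pool.Agent.ChM

open Matrix Filter Topology Pool.Agent.ChP

private theorem Chain_ext {m n : ℕ} {A B : Matrix (Fin m) (Fin n) ℝ}
    (h : ∀ v, A *ᵥ v = B *ᵥ v) : A = B := by
  apply Matrix.toLin'.injective
  apply LinearMap.ext
  intro v
  rw [Matrix.toLin'_apply, Matrix.toLin'_apply]
  exact h v

private theorem Chain_block {n : ℕ} {Γ : Type} [Group Γ] (ρ : Γ →* Matrix (Fin n) (Fin n) ℝ)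
    (P : Matrix (Fin n) (Fin n) ℝ) (hP : P * P = P) (hA : ∀ γ, P * (ρ γ * P) = ρ γ * P)
    (Q : Matrix (Fin n) (Fin n) ℝ) (hQP : Q * P = P) (hPQ : P * Q = P)
    (hQρ : ∀ γ, Q * ρ γ = ρ γ * Q) :
    (∀ γ, Q * blockRep ρ P hP hA γ = blockRep ρ P hP hA γ * Q) ∧
    (∀ γ, (1 - Q) * blockRep ρ P hP hA γ = (1 - Q) * ρ γ) := by
  have hc : Q * (1 - P) = (1 - P) * Q := by
    rw [Matrix.mul_sub, Matrix.sub_mul, hQP, hPQ, Matrix.mul_one, Matrix.one_mul]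
  have h0 : (1 - Q) * P = 0 := by
    rw [Matrix.sub_mul, Matrix.one_mul, hQP, sub_self]
  have h0' : P * (1 - Q) = 0 := by
    rw [Matrix.mul_sub, Matrix.mul_one, hPQ, sub_self]
  constructor
  · intro γ
    show Q * (P * ρ γ * P + (1 - P) * ρ γ * (1 - P)) =
      (P * ρ γ * P + (1 - P) * ρ γ * (1 - P)) * Q
    rw [Matrix.mul_add, Matrix.add_mul]
    congr 1
    · rw [← Matrix.mul_assoc, ← Matrix.mul_assoc, hQP, Matrix.mul_assoc (P * ρ γ) P Q, hPQ]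
    · calc Q * ((1 - P) * ρ γ * (1 - P)) = (Q * (1 - P)) * ρ γ * (1 - P) := by
            simp only [Matrix.mul_assoc]
        _ = (1 - P) * (Q * ρ γ) * (1 - P) := by
            rw [hc]
            simp only [Matrix.mul_assoc]
        _ = (1 - P) * ρ γ * (Q * (1 - P)) := by
            rw [hQρ]
            simp only [Matrix.mul_assoc]
        _ = (1 - P) * ρ γ * (1 - P) * Q := by
            rw [hc]
            simp only [Matrix.mul_assoc]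
  · intro γ
    show (1 - Q) * (P * ρ γ * P + (1 - P) * ρ γ * (1 - P)) = (1 - Q) * ρ γ
    have h1 : (1 - Q) * (1 - P) = 1 - Q := by
      rw [Matrix.mul_sub, h0, Matrix.mul_one, sub_zero]
    have h2 : (1 - Q) * ρ γ = ρ γ * (1 - Q) := by
      rw [Matrix.sub_mul, Matrix.mul_sub, Matrix.one_mul, Matrix.mul_one, hQρ]
    rw [Matrix.mul_add]
    have e1 : (1 - Q) * (P * ρ γ * P) = 0 := by
      rw [← Matrix.mul_assoc, ← Matrix.mul_assoc, h0, Matrix.zero_mul, Matrix.zero_mul]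
    have e2 : (1 - Q) * ((1 - P) * ρ γ * (1 - P)) = (1 - Q) * ρ γ := by
      rw [← Matrix.mul_assoc, ← Matrix.mul_assoc, h1, Matrix.mul_sub, Matrix.mul_one, h2,
        Matrix.mul_assoc, h0, Matrix.mul_zero, sub_zero]
    rw [e1, e2, zero_add]

private theorem Chain_fix {n : ℕ} {Γ : Type} [Group Γ] (ρ : Γ →* Matrix (Fin n) (Fin n) ℝ)
    (P : Matrix (Fin n) (Fin n) ℝ) (hP : P * P = P) (hA : ∀ γ, P * (ρ γ * P) = ρ γ * P)
    (γ : Γ) (w : Fin n → ℝ) (h1 : P *ᵥ w = w) (h2 : P *ᵥ (ρ γ *ᵥ w) = ρ γ *ᵥ w) :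
    blockRep ρ P hP hA γ *ᵥ w = ρ γ *ᵥ w := by
  show (P * ρ γ * P + (1 - P) * ρ γ * (1 - P)) *ᵥ w = ρ γ *ᵥ w
  have h3 : (1 - P) *ᵥ w = 0 := by
    rw [Matrix.sub_mulVec, Matrix.one_mulVec, h1, sub_self]
  rw [Matrix.add_mulVec, ← Matrix.mulVec_mulVec, ← Matrix.mulVec_mulVec, h1,
    ← Matrix.mulVec_mulVec, h3, Matrix.mulVec_zero, add_zero, h2]

private theorem Chain_selfcomm {n : ℕ} {Γ : Type} [Group Γ]
    (ρ : Γ →* Matrix (Fin n) (Fin n) ℝ)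
    (P : Matrix (Fin n) (Fin n) ℝ) (hP : P * P = P) (hA : ∀ γ, P * (ρ γ * P) = ρ γ * P)
    (γ : Γ) : P * blockRep ρ P hP hA γ = blockRep ρ P hP hA γ * P := by
  show P * (P * ρ γ * P + (1 - P) * ρ γ * (1 - P)) =
    (P * ρ γ * P + (1 - P) * ρ γ * (1 - P)) * P
  have h2 : P * (1 - P) = 0 := by rw [Matrix.mul_sub, hP, Matrix.mul_one, sub_self]
  have h3 : (1 - P) * P = 0 := by rw [Matrix.sub_mul, hP, Matrix.one_mul, sub_self]
  rw [Matrix.mul_add, Matrix.add_mul]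
  have e1 : P * (P * ρ γ * P) = P * ρ γ * P := by
    rw [Matrix.mul_assoc P (ρ γ) P, ← Matrix.mul_assoc P P, hP]
  have e2 : P * ((1 - P) * ρ γ * (1 - P)) = 0 := by
    rw [Matrix.mul_assoc (1 - P), ← Matrix.mul_assoc P (1 - P), h2, Matrix.zero_mul]
  have e3 : P * ρ γ * P * P = P * ρ γ * P := by
    rw [Matrix.mul_assoc (P * ρ γ) P P, hP]
  have e4 : (1 - P) * ρ γ * (1 - P) * P = 0 := by
    rw [Matrix.mul_assoc ((1 - P) * ρ γ), h3, Matrix.mul_zero]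
  rw [e1, e2, e3, e4]

private theorem Chain_step {n k : ℕ} {Γ : Type} [Group Γ]
    (ρ : Γ →* Matrix (Fin n) (Fin n) ℝ) (W : Submodule ℝ (Fin n → ℝ))
    (π : W →ₗ[ℝ] (Fin k → ℝ)) (hπ : Function.Surjective π)
    (τ : Γ → Matrix (Fin k) (Fin k) ℝ)
    (hτ : ∀ γ (v : Fin n → ℝ) (hv : v ∈ W), ∃ h : ρ γ *ᵥ v ∈ W,
      π ⟨ρ γ *ᵥ v, h⟩ = τ γ *ᵥ π ⟨v, hv⟩)
    (R : Matrix (Fin n) (Fin n) ℝ) (hRρ : ∀ γ, R * ρ γ = ρ γ * R)
    (hRW : ∀ v ∈ W, R *ᵥ v = v) (hRR : R * R = R) :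
    ∃ (ρ₂ : Γ →* Matrix (Fin n) (Fin n) ℝ) (Q : Matrix (Fin n) (Fin n) ℝ)
      (p : Matrix (Fin k) (Fin n) ℝ) (q : Matrix (Fin n) (Fin k) ℝ),
      Q * Q = Q ∧ (∀ (v : Fin n → ℝ) (hv : v ∈ W), π ⟨v, hv⟩ = 0 → Q *ᵥ v = v) ∧
      (∀ γ, Q * ρ₂ γ = ρ₂ γ * Q) ∧
      (∀ γ (v : Fin n → ℝ) (hv : v ∈ W), π ⟨v, hv⟩ = 0 → ρ₂ γ *ᵥ v = ρ γ *ᵥ v) ∧
      p * q = 1 ∧ (∀ γ, p * ρ₂ γ = τ γ * p) ∧ (∀ γ, ρ₂ γ * q = q * τ γ) ∧
      (∀ κ : Γ →* ℝ, NoEul (scaleRep κ ρ₂) → NoEul (scaleRep κ ρ)) ∧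
      R * Q = Q ∧ Q * R = Q ∧ (∀ γ, R * ρ₂ γ = ρ₂ γ * R) ∧
      (∀ γ, (1 - R) * ρ₂ γ = (1 - R) * ρ γ) ∧ p * Q = 0 ∧ Q * q = 0 ∧ p * R = p ∧
      R * q = q := by
  classical
  have hW : ∀ γ, ∀ v ∈ W, ρ γ *ᵥ v ∈ W := fun γ v hv => (hτ γ v hv).1
  have hτ' : ∀ γ (v : Fin n → ℝ) (hv : v ∈ W),
      π ⟨ρ γ *ᵥ v, hW γ v hv⟩ = τ γ *ᵥ π ⟨v, hv⟩ := fun γ v hv => (hτ γ v hv).2
  obtain ⟨P₀, hP01, hP02⟩ := exists_projection W
  set K : Submodule ℝ (Fin n → ℝ) := (LinearMap.ker π).map W.subtype with hK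
  obtain ⟨P', hP1', hP2'⟩ := exists_projection K
  obtain ⟨P, hPdef⟩ : ∃ P : Matrix (Fin n) (Fin n) ℝ, P = P₀ * R := ⟨_, rfl⟩
  have hP1 : ∀ v, P *ᵥ v ∈ W := by
    intro v
    rw [hPdef, ← Matrix.mulVec_mulVec]
    exact hP01 _
  have hP2 : ∀ v ∈ W, P *ᵥ v = v := by
    intro v hv
    rw [hPdef, ← Matrix.mulVec_mulVec, hRW v hv, hP02 v hv]
  have hPR : P * R = P := by
    rw [hPdef, Matrix.mul_assoc, hRR]
  have hRP : R * P = P := by
    apply Chain_ext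
    intro v
    rw [← Matrix.mulVec_mulVec]
    exact hRW _ (hP1 v)
  have hKW : ∀ v ∈ K, v ∈ W := by
    intro v hv
    rw [hK, Submodule.mem_map] at hv
    obtain ⟨w, -, rfl⟩ := hv
    exact w.2
  have hKπ : ∀ (v : Fin n → ℝ) (hv : v ∈ K), π ⟨v, hKW v hv⟩ = 0 := by
    intro v hv
    have hv' := hv
    rw [hK, Submodule.mem_map] at hv'
    obtain ⟨w, hw, hwv⟩ := hv'
    have : (⟨v, hKW v hv⟩ : W) = w := Subtype.ext hwv.symm
    rw [this]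
    exact LinearMap.mem_ker.1 hw
  have hπK : ∀ (v : Fin n → ℝ) (hv : v ∈ W), π ⟨v, hv⟩ = 0 → v ∈ K := by
    intro v hv h0
    rw [hK, Submodule.mem_map]
    exact ⟨⟨v, hv⟩, LinearMap.mem_ker.2 h0, rfl⟩
  have hρK : ∀ γ, ∀ v ∈ K, ρ γ *ᵥ v ∈ K := by
    intro γ v hv
    apply hπK _ (hW γ v (hKW v hv))
    rw [hτ' γ v (hKW v hv), hKπ v hv, Matrix.mulVec_zero]
  have hPP : P * P = P := by
    apply Chain_ext
    intro v
    rw [← Matrix.mulVec_mulVec]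
    exact hP2 _ (hP1 v)
  have hA : ∀ γ, P * (ρ γ * P) = ρ γ * P := by
    intro γ
    apply Chain_ext
    intro v
    rw [← Matrix.mulVec_mulVec, ← Matrix.mulVec_mulVec]
    exact hP2 _ (hW γ _ (hP1 v))
  obtain ⟨Q, hQ⟩ : ∃ Q : Matrix (Fin n) (Fin n) ℝ, Q = P' * P := ⟨_, rfl⟩
  have hQ1 : ∀ v, Q *ᵥ v ∈ K := by
    intro v
    rw [hQ, ← Matrix.mulVec_mulVec]
    exact hP1' _
  have hQ2 : ∀ v ∈ K, Q *ᵥ v = v := by
    intro v hv
    rw [hQ, ← Matrix.mulVec_mulVec, hP2 v (hKW v hv), hP2' v hv]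
  have hQQ : Q * Q = Q := by
    apply Chain_ext
    intro v
    rw [← Matrix.mulVec_mulVec]
    exact hQ2 _ (hQ1 v)
  have hPQ : P * Q = Q := by
    apply Chain_ext
    intro v
    rw [← Matrix.mulVec_mulVec]
    exact hP2 _ (hKW _ (hQ1 v))
  have hQP : Q * P = Q := by
    rw [hQ, Matrix.mul_assoc, hPP]
  have hRQ : R * Q = Q := by
    apply Chain_ext
    intro v
    rw [← Matrix.mulVec_mulVec]
    exact hRW _ (hKW _ (hQ1 v))
  have hQR : Q * R = Q := by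
    rw [hQ, Matrix.mul_assoc, hPR]
  set ρ₁ := blockRep ρ P hPP hA with hρ₁
  have hρ₁W : ∀ γ, ∀ w ∈ W, ρ₁ γ *ᵥ w = ρ γ *ᵥ w := by
    intro γ w hw
    exact Chain_fix ρ P hPP hA γ w (hP2 w hw) (hP2 _ (hW γ w hw))
  have hρ₁P : ∀ γ, P * ρ₁ γ = ρ₁ γ * P := fun γ => Chain_selfcomm ρ P hPP hA γ
  have hB : ∀ γ, Q * (ρ₁ γ * Q) = ρ₁ γ * Q := by
    intro γ
    apply Chain_ext
    intro v
    rw [← Matrix.mulVec_mulVec, ← Matrix.mulVec_mulVec, hρ₁W γ _ (hKW _ (hQ1 v))]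
    exact hQ2 _ (hρK γ _ (hQ1 v))
  obtain ⟨hR1, hR1'⟩ := Chain_block ρ P hPP hA R hRP hPR hRρ
  obtain ⟨hR2, hR2'⟩ := Chain_block ρ₁ Q hQQ hB R hRQ hQR hR1
  set ρ₀ := blockRep ρ₁ Q hQQ hB with hρ₀
  obtain ⟨σ, hσ⟩ := π.exists_rightInverse_of_surjective (LinearMap.range_eq_top.2 hπ)
  have hσ' : ∀ v, π (σ v) = v := fun v => LinearMap.congr_fun hσ v
  set LP : (Fin n → ℝ) →ₗ[ℝ] (Fin k → ℝ) :=
    π ∘ₗ (LinearMap.codRestrict W (Matrix.mulVecLin P) (fun v => hP1 v)) with hLP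
  have hLPv : ∀ v, LP v = π ⟨P *ᵥ v, hP1 v⟩ := fun v => rfl
  have hLPK : ∀ v ∈ K, LP v = 0 := by
    intro v hv
    rw [hLPv]
    have : (⟨P *ᵥ v, hP1 v⟩ : W) = ⟨v, hKW v hv⟩ := Subtype.ext (hP2 v (hKW v hv))
    rw [this]
    exact hKπ v hv
  have hLPW : ∀ (v : Fin n → ℝ) (hv : v ∈ W), LP v = π ⟨v, hv⟩ := by
    intro v hv
    rw [hLPv]
    have : (⟨P *ᵥ v, hP1 v⟩ : W) = ⟨v, hv⟩ := Subtype.ext (hP2 v hv)
    rw [this]
  have hLPP : ∀ v, LP (P *ᵥ v) = LP v := by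
    intro v
    rw [hLPW _ (hP1 v), hLPv]
  have hLPρ : ∀ γ, ∀ w ∈ W, LP (ρ γ *ᵥ w) = τ γ *ᵥ LP w := by
    intro γ w hw
    rw [hLPW _ (hW γ w hw), hLPW w hw, hτ' γ w hw]
  set Lq : (Fin k → ℝ) →ₗ[ℝ] (Fin n → ℝ) :=
    (Matrix.mulVecLin (P - Q)) ∘ₗ W.subtype ∘ₗ σ with hLq
  have hLqv : ∀ v, Lq v = (P - Q) *ᵥ (σ v : Fin n → ℝ) := fun v => rfl
  have hp : ∀ v, LinearMap.toMatrix' LP *ᵥ v = LP v := by
    intro v
    rw [← Matrix.toLin'_apply, Matrix.toLin'_toMatrix']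
  have hq : ∀ v, LinearMap.toMatrix' Lq *ᵥ v = Lq v := by
    intro v
    rw [← Matrix.toLin'_apply, Matrix.toLin'_toMatrix']
  have hE : ∀ v, (P - Q) *ᵥ v ∈ W := by
    intro v
    rw [Matrix.sub_mulVec]
    exact W.sub_mem (hP1 v) (hKW _ (hQ1 v))
  have hEK : ∀ v ∈ K, (P - Q) *ᵥ v = 0 := by
    intro v hv
    rw [Matrix.sub_mulVec, hP2 v (hKW v hv), hQ2 v hv, sub_self]
  have hLPE : ∀ v, LP ((P - Q) *ᵥ v) = LP v := by
    intro v
    rw [Matrix.sub_mulVec, map_sub, hLPP, hLPK _ (hQ1 v), sub_zero]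
  have hLPσ : ∀ v, LP (σ v : Fin n → ℝ) = v := by
    intro v
    rw [hLPW _ (σ v).2]
    exact hσ' v
  refine ⟨ρ₀, Q, LinearMap.toMatrix' LP, LinearMap.toMatrix' Lq, hQQ, ?_, ?_, ?_, ?_, ?_, ?_, ?_,
    hRQ, hQR, hR2, ?_, ?_, ?_, ?_, ?_⟩
  · intro v hv h0
    exact hQ2 v (hπK v hv h0)
  · exact fun γ => Chain_selfcomm ρ₁ Q hQQ hB γ
  · intro γ v hv h0
    have hvK := hπK v hv h0
    rw [← hρ₁W γ v hv]
    apply Chain_fix ρ₁ Q hQQ hB γ v (hQ2 v hvK)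
    rw [hρ₁W γ v hv]
    exact hQ2 _ (hρK γ v hvK)
  · apply Chain_ext
    intro v
    rw [← Matrix.mulVec_mulVec, hp, hq, hLqv, hLPE, hLPσ, Matrix.one_mulVec]
  · intro γ
    apply Chain_ext
    intro v
    rw [← Matrix.mulVec_mulVec, ← Matrix.mulVec_mulVec, hp, hp]
    show LP ((Q * ρ₁ γ * Q + (1 - Q) * ρ₁ γ * (1 - Q)) *ᵥ v) = _
    rw [Matrix.add_mulVec, map_add]
    have e1 : LP ((Q * ρ₁ γ * Q) *ᵥ v) = 0 := by
      rw [Matrix.mul_assoc, ← Matrix.mulVec_mulVec]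
      exact hLPK _ (hQ1 _)
    have e2 : LP (((1 - Q) * ρ₁ γ * (1 - Q)) *ᵥ v) = LP ((ρ₁ γ * (1 - Q)) *ᵥ v) := by
      rw [Matrix.mul_assoc, ← Matrix.mulVec_mulVec, Matrix.sub_mulVec, Matrix.one_mulVec, map_sub,
        hLPK _ (hQ1 _), sub_zero]
    have e3 : LP ((ρ₁ γ * (1 - Q)) *ᵥ v) = LP (ρ γ *ᵥ ((P - Q) *ᵥ v)) := by
      rw [← hLPP, Matrix.mulVec_mulVec, ← Matrix.mul_assoc, hρ₁P, Matrix.mul_assoc,
        Matrix.mul_sub P 1 Q, Matrix.mul_one, hPQ, ← Matrix.mulVec_mulVec, hρ₁W γ _ (hE v)]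
    rw [e1, zero_add, e2, e3, hLPρ γ _ (hE v), hLPE]
  · intro γ
    apply Chain_ext
    intro v
    rw [← Matrix.mulVec_mulVec, ← Matrix.mulVec_mulVec, hq, hq]
    set w : Fin n → ℝ := Lq v with hw
    have hwW : w ∈ W := by
      rw [hw, hLqv]
      exact hE _
    have hQw : Q *ᵥ w = 0 := by
      rw [hw, hLqv, Matrix.mulVec_mulVec, Matrix.mul_sub, hQP, hQQ, sub_self, Matrix.zero_mulVec]
    have e1 : ρ₀ γ *ᵥ w = (P - Q) *ᵥ (ρ γ *ᵥ w) := by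
      show (Q * ρ₁ γ * Q + (1 - Q) * ρ₁ γ * (1 - Q)) *ᵥ w = _
      have h1 : (1 - Q) *ᵥ w = w := by
        rw [Matrix.sub_mulVec, Matrix.one_mulVec, hQw, sub_zero]
      rw [Matrix.add_mulVec, ← Matrix.mulVec_mulVec, hQw, Matrix.mulVec_zero, zero_add,
        ← Matrix.mulVec_mulVec, h1, ← Matrix.mulVec_mulVec, hρ₁W γ w hwW, Matrix.sub_mulVec,
        Matrix.sub_mulVec, Matrix.one_mulVec, hP2 _ (hW γ w hwW)]
    have e2 : Lq (τ γ *ᵥ v) = (P - Q) *ᵥ (σ (τ γ *ᵥ v) : Fin n → ℝ) := hLqv _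
    rw [e1, e2, ← sub_eq_zero, ← Matrix.mulVec_sub]
    apply hEK
    apply hπK _ (W.sub_mem (hW γ w hwW) (σ (τ γ *ᵥ v)).2)
    rw [← hLPW, map_sub, hLPρ γ w hwW, hLPσ, hw, hLqv, hLPE, hLPσ, sub_self]
  · intro κ h
    exact noEul_block ρ P hPP hA κ (noEul_block ρ₁ Q hQQ hB κ h)
  · intro γ
    exact (hR2' γ).trans (hR1' γ)
  · apply Chain_ext
    intro v
    rw [← Matrix.mulVec_mulVec, hp, hLPK _ (hQ1 v), Matrix.zero_mulVec]
  · apply Chain_ext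
    intro v
    rw [← Matrix.mulVec_mulVec, hq, hLqv, Matrix.mulVec_mulVec, Matrix.mul_sub, hQP, hQQ,
      sub_self, Matrix.zero_mulVec, Matrix.zero_mulVec]
  · apply Chain_ext
    intro v
    rw [← Matrix.mulVec_mulVec, hp, hp, ← hLPP (R *ᵥ v), Matrix.mulVec_mulVec, hPR, hLPP]
  · apply Chain_ext
    intro v
    rw [← Matrix.mulVec_mulVec, hq]
    exact hRW _ (by rw [hLqv]; exact hE _)

private theorem Chain_aux {n : ℕ} {Γ : Type} [Group Γ] : ∀ (r : ℕ) (k : Fin r → ℕ)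
    (ρ : Γ →* Matrix (Fin n) (Fin n) ℝ) (W : Fin r → Submodule ℝ (Fin n → ℝ))
    (π : ∀ j, W j →ₗ[ℝ] (Fin (k j) → ℝ)) (_ : ∀ j, Function.Surjective (π j))
    (_ : ∀ i j, i < j → ∀ v ∈ W i, ∃ h : v ∈ W j, π j ⟨v, h⟩ = 0)
    (τ : Γ → ∀ j, Matrix (Fin (k j)) (Fin (k j)) ℝ)
    (_ : ∀ γ j (v : Fin n → ℝ) (hv : v ∈ W j), ∃ h : ρ γ *ᵥ v ∈ W j,
      π j ⟨ρ γ *ᵥ v, h⟩ = τ γ j *ᵥ π j ⟨v, hv⟩)
    (R : Matrix (Fin n) (Fin n) ℝ) (_ : R * R = R) (_ : ∀ γ, R * ρ γ = ρ γ * R)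
    (_ : ∀ j, ∀ v ∈ W j, R *ᵥ v = v),
    ∃ (ρ₀ : Γ →* Matrix (Fin n) (Fin n) ℝ) (p : ∀ j, Matrix (Fin (k j)) (Fin n) ℝ)
      (q : ∀ j, Matrix (Fin n) (Fin (k j)) ℝ),
      (∀ j, p j * q j = 1) ∧ (∀ i j, i ≠ j → p i * q j = 0) ∧
      (∀ γ j, p j * ρ₀ γ = τ γ j * p j) ∧ (∀ γ j, ρ₀ γ * q j = q j * τ γ j) ∧
      (∀ κ : Γ →* ℝ, NoEul (scaleRep κ ρ₀) → NoEul (scaleRep κ ρ)) ∧
      (∀ γ, R * ρ₀ γ = ρ₀ γ * R) ∧ (∀ γ, (1 - R) * ρ₀ γ = (1 - R) * ρ γ) ∧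
      (∀ j, p j * R = p j) ∧ (∀ j, R * q j = q j) := by
  intro r
  induction r with
  | zero =>
    intro k ρ W π _ _ τ _ R _ hRρ _
    exact ⟨ρ, fun j => j.elim0, fun j => j.elim0, fun j => j.elim0, fun j => j.elim0,
      fun _ j => j.elim0, fun _ j => j.elim0, fun _ h => h, hRρ, fun _ => rfl,
      fun j => j.elim0, fun j => j.elim0⟩
  | succ r ih =>
    intro k ρ W π hπ hch τ hτ R hRR hRρ hRW
    obtain ⟨ρ₂, Q, pL, qL, hQQ, hQK, hQρ, hρK, hpq, hp1, hq1, hE1, hRQ, hQR, hRρ2, hR2, hpQ, hQq,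
      hpR, hRq⟩ := Chain_step ρ (W (Fin.last r)) (π (Fin.last r)) (hπ _)
      (fun γ => τ γ (Fin.last r)) (fun γ v hv => hτ γ (Fin.last r) v hv) R hRρ
      (hRW (Fin.last r)) hRR
    have hlast : ∀ i : Fin r, ∀ v ∈ W i.castSucc, ∃ h : v ∈ W (Fin.last r),
        π (Fin.last r) ⟨v, h⟩ = 0 := fun i => hch i.castSucc (Fin.last r) (Fin.castSucc_lt_last i)
    have hρ2 : ∀ γ (i : Fin r), ∀ v ∈ W i.castSucc, ρ₂ γ *ᵥ v = ρ γ *ᵥ v := by
      intro γ i v hv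
      obtain ⟨h, h0⟩ := hlast i v hv
      exact hρK γ v h h0
    obtain ⟨ρ₀, p', q', h1, h2, h3, h4, h5, h6, h7, h8, h9⟩ := ih (fun i => k i.castSucc) ρ₂
      (fun i => W i.castSucc) (fun i => π i.castSucc) (fun i => hπ i.castSucc)
      (fun i j hij => hch i.castSucc j.castSucc (by simpa using hij))
      (fun γ i => τ γ i.castSucc) (by
        intro γ i v hv
        obtain ⟨h, h0⟩ := hτ γ i.castSucc v hv
        have e := hρ2 γ i v hv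
        refine ⟨by rw [e]; exact h, ?_⟩
        rw [← h0]
        congr 1
        exact Subtype.ext e) Q hQQ hQρ (by
        intro i v hv
        obtain ⟨h, h0⟩ := hlast i v hv
        exact hQK v h h0)
    have hpL : ∀ γ, pL * ρ₀ γ = τ γ (Fin.last r) * pL := by
      intro γ
      have e1 : pL = pL * (1 - Q) := by
        rw [Matrix.mul_sub, hpQ, Matrix.mul_one, sub_zero]
      rw [← hp1]
      calc pL * ρ₀ γ = pL * ((1 - Q) * ρ₀ γ) := by rw [← Matrix.mul_assoc, ← e1]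
        _ = pL * ((1 - Q) * ρ₂ γ) := by rw [h7]
        _ = pL * ρ₂ γ := by rw [← Matrix.mul_assoc, ← e1]
    have hqL : ∀ γ, ρ₀ γ * qL = qL * τ γ (Fin.last r) := by
      intro γ
      have e1 : qL = (1 - Q) * qL := by
        rw [Matrix.sub_mul, hQq, Matrix.one_mul, sub_zero]
      have e2 : ρ₀ γ * (1 - Q) = (1 - Q) * ρ₀ γ := by
        rw [Matrix.sub_mul, Matrix.mul_sub, Matrix.one_mul, Matrix.mul_one, h6]
      have e3 : ρ₂ γ * (1 - Q) = (1 - Q) * ρ₂ γ := by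
        rw [Matrix.sub_mul, Matrix.mul_sub, Matrix.one_mul, Matrix.mul_one, hQρ]
      rw [← hq1]
      calc ρ₀ γ * qL = (ρ₀ γ * (1 - Q)) * qL := by rw [Matrix.mul_assoc, ← e1]
        _ = (ρ₂ γ * (1 - Q)) * qL := by rw [e2, h7, e3]
        _ = ρ₂ γ * qL := by rw [Matrix.mul_assoc, ← e1]
    have hc1 : ∀ i, p' i * qL = 0 := by
      intro i
      rw [← h8 i, Matrix.mul_assoc, hQq, Matrix.mul_zero]
    have hc2 : ∀ i, pL * q' i = 0 := by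
      intro i
      rw [← h9 i, ← Matrix.mul_assoc, hpQ, Matrix.zero_mul]
    have hRQ0 : (1 - R) * (1 - Q) = 1 - R := by
      rw [Matrix.mul_sub, Matrix.mul_one, Matrix.sub_mul, Matrix.one_mul, hRQ, sub_self, sub_zero]
    have hQR0 : (1 - Q) * (1 - R) = 1 - R := by
      rw [Matrix.sub_mul, Matrix.one_mul, Matrix.mul_sub, Matrix.mul_one, hQR, sub_self, sub_zero]
    have hR0 : ∀ γ, (1 - R) * ρ₀ γ = (1 - R) * ρ₂ γ := by
      intro γ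
      calc (1 - R) * ρ₀ γ = (1 - R) * ((1 - Q) * ρ₀ γ) := by rw [← Matrix.mul_assoc, hRQ0]
        _ = (1 - R) * ((1 - Q) * ρ₂ γ) := by rw [h7]
        _ = (1 - R) * ρ₂ γ := by rw [← Matrix.mul_assoc, hRQ0]
    refine ⟨ρ₀, Fin.lastCases (motive := fun j => Matrix (Fin (k j)) (Fin n) ℝ) pL p',
      Fin.lastCases (motive := fun j => Matrix (Fin n) (Fin (k j)) ℝ) qL q',
      ?_, ?_, ?_, ?_, ?_, ?_, ?_, ?_, ?_⟩
    · intro j
      refine Fin.lastCases ?_ (fun i => ?_) j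
      · rw [Fin.lastCases_last, Fin.lastCases_last]
        exact hpq
      · rw [Fin.lastCases_castSucc, Fin.lastCases_castSucc]
        exact h1 i
    · intro i j
      refine Fin.lastCases ?_ (fun i' => ?_) i
      · refine Fin.lastCases ?_ (fun j' => ?_) j
        · intro h
          exact absurd rfl h
        · intro _
          rw [Fin.lastCases_last, Fin.lastCases_castSucc]
          exact hc2 j'
      · refine Fin.lastCases ?_ (fun j' => ?_) j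
        · intro _
          rw [Fin.lastCases_last, Fin.lastCases_castSucc]
          exact hc1 i'
        · intro h
          rw [Fin.lastCases_castSucc, Fin.lastCases_castSucc]
          exact h2 i' j' (fun h' => h (by rw [h']))
    · intro γ j
      refine Fin.lastCases ?_ (fun i => ?_) j
      · rw [Fin.lastCases_last]
        exact hpL γ
      · rw [Fin.lastCases_castSucc]
        exact h3 γ i
    · intro γ j
      refine Fin.lastCases ?_ (fun i => ?_) j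
      · rw [Fin.lastCases_last]
        exact hqL γ
      · rw [Fin.lastCases_castSucc]
        exact h4 γ i
    · exact fun κ h => hE1 κ (h5 κ h)
    · intro γ
      have e1 : ρ₀ γ * (1 - R) = (1 - R) * ρ₀ γ := by
        calc ρ₀ γ * (1 - R) = ρ₀ γ * ((1 - Q) * (1 - R)) := by rw [hQR0]
          _ = ((1 - Q) * ρ₀ γ) * (1 - R) := by
              rw [← Matrix.mul_assoc]
              congr 1
              rw [Matrix.sub_mul, Matrix.mul_sub, Matrix.one_mul, Matrix.mul_one, h6]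
          _ = (1 - Q) * (ρ₂ γ * (1 - R)) := by rw [h7, Matrix.mul_assoc]
          _ = (1 - Q) * ((1 - R) * ρ₂ γ) := by
              congr 1
              rw [Matrix.sub_mul, Matrix.mul_sub, Matrix.one_mul, Matrix.mul_one, hRρ2]
          _ = (1 - R) * ρ₂ γ := by rw [← Matrix.mul_assoc, hQR0]
          _ = (1 - R) * ρ₀ γ := (hR0 γ).symm
      rw [Matrix.sub_mul, Matrix.mul_sub, Matrix.one_mul, Matrix.mul_one] at e1
      exact (sub_right_injective e1).symm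
    · intro γ
      rw [hR0, hR2]
    · intro j
      refine Fin.lastCases ?_ (fun i => ?_) j
      · rw [Fin.lastCases_last]
        exact hpR
      · rw [Fin.lastCases_castSucc, ← h8 i, Matrix.mul_assoc, hQR]
    · intro j
      refine Fin.lastCases ?_ (fun i => ?_) j
      · rw [Fin.lastCases_last]
        exact hRq
      · rw [Fin.lastCases_castSucc, ← h9 i, ← Matrix.mul_assoc, hRQ]

theorem exists_chain {n r : ℕ} {k : Fin r → ℕ} {Γ : Type} [Group Γ]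
    (ρ : Γ →* Matrix (Fin n) (Fin n) ℝ) (W : Fin r → Submodule ℝ (Fin n → ℝ))
    (π : ∀ j, W j →ₗ[ℝ] (Fin (k j) → ℝ)) (hπ : ∀ j, Function.Surjective (π j))
    (hch : ∀ i j, i < j → ∀ v ∈ W i, ∃ h : v ∈ W j, π j ⟨v, h⟩ = 0)
    (τ : Γ → ∀ j, Matrix (Fin (k j)) (Fin (k j)) ℝ)
    (hτ : ∀ γ j (v : Fin n → ℝ) (hv : v ∈ W j), ∃ h : ρ γ *ᵥ v ∈ W j,
      π j ⟨ρ γ *ᵥ v, h⟩ = τ γ j *ᵥ π j ⟨v, hv⟩) :
    ∃ (ρ₀ : Γ →* Matrix (Fin n) (Fin n) ℝ) (p : Matrix (Σ j, Fin (k j)) (Fin n) ℝ)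
      (q : Matrix (Fin n) (Σ j, Fin (k j)) ℝ), p * q = 1 ∧
      (∀ γ, p * ρ₀ γ = Matrix.blockDiagonal' (τ γ) * p) ∧
      (∀ γ, ρ₀ γ * q = q * Matrix.blockDiagonal' (τ γ)) ∧
      ∀ κ : Γ →* ℝ, NoEul (scaleRep κ ρ₀) → NoEul (scaleRep κ ρ) := by
  classical
  obtain ⟨ρ₀, p, q, h1, h2, h3, h4, h5, -⟩ := Chain_aux r k ρ W π hπ hch τ hτ 1
    (Matrix.one_mul 1) (fun γ => by rw [Matrix.one_mul, Matrix.mul_one])
    (fun j v _ => Matrix.one_mulVec v)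
  obtain ⟨P, hP⟩ : ∃ P : Matrix (Σ j, Fin (k j)) (Fin n) ℝ, ∀ s i, P s i = p s.1 s.2 i :=
    ⟨Matrix.of fun s i => p s.1 s.2 i, fun _ _ => rfl⟩
  obtain ⟨Q, hQ⟩ : ∃ Q : Matrix (Fin n) (Σ j, Fin (k j)) ℝ, ∀ i s, Q i s = q s.1 i s.2 :=
    ⟨Matrix.of fun i s => q s.1 i s.2, fun _ _ => rfl⟩
  refine ⟨ρ₀, P, Q, ?_, ?_, ?_, h5⟩
  · ext ⟨i, x⟩ ⟨j, y⟩
    have e1 : (P * Q) ⟨i, x⟩ ⟨j, y⟩ = (p i * q j) x y := by
      rw [Matrix.mul_apply, Matrix.mul_apply]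
      exact Finset.sum_congr rfl fun l _ => by rw [hP, hQ]
    rw [e1]
    by_cases hij : i = j
    · subst hij
      rw [h1]
      by_cases hxy : x = y
      · rw [hxy, Matrix.one_apply_eq, Matrix.one_apply_eq]
      · rw [Matrix.one_apply_ne hxy, Matrix.one_apply_ne]
        intro h
        apply hxy
        simpa using h
    · rw [h2 i j hij, Matrix.one_apply_ne, Matrix.zero_apply]
      intro h
      apply hij
      exact congrArg Sigma.fst h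
  · intro γ
    ext ⟨j, x⟩ i
    have e1 : (P * ρ₀ γ) ⟨j, x⟩ i = (p j * ρ₀ γ) x i := by
      rw [Matrix.mul_apply, Matrix.mul_apply]
      exact Finset.sum_congr rfl fun l _ => by rw [hP]
    rw [e1, h3, Matrix.mul_apply, Matrix.mul_apply, Fintype.sum_sigma]
    rw [Finset.sum_eq_single j]
    · refine Finset.sum_congr rfl fun y _ => ?_
      rw [Matrix.blockDiagonal'_apply_eq, hP]
    · intro j' _ hj'
      refine Finset.sum_eq_zero fun y _ => ?_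
      rw [Matrix.blockDiagonal'_apply_ne _ _ _ (Ne.symm hj'), zero_mul]
    · intro h
      exact absurd (Finset.mem_univ j) h
  · intro γ
    ext i ⟨j, x⟩
    have e1 : (ρ₀ γ * Q) i ⟨j, x⟩ = (ρ₀ γ * q j) i x := by
      rw [Matrix.mul_apply, Matrix.mul_apply]
      exact Finset.sum_congr rfl fun l _ => by rw [hQ]
    rw [e1, h4, Matrix.mul_apply, Matrix.mul_apply, Fintype.sum_sigma]
    rw [Finset.sum_eq_single j]
    · refine Finset.sum_congr rfl fun y _ => ?_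
      rw [Matrix.blockDiagonal'_apply_eq, hQ]
    · intro j' _ hj'
      refine Finset.sum_eq_zero fun y _ => ?_
      rw [Matrix.blockDiagonal'_apply_ne _ _ _ hj', mul_zero]
    · intro h
      exact absurd (Finset.mem_univ j) h

end Pool.Agent.ChM
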