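import Pool.Agent.ChM.CubeSym
import Pool.Agent.ChP.ConeForm

/-!
# The vanishing theorem for the Gaussian cocycle

Version of `Pool.Agent.ChP.CC_DY_eq_zero` with the weaker hypothesis `JJ Y = 0`.
-/

namespace Pool.Agent.ChM

open MeasureTheory Matrix Pool.Agent.ChP

private theorem ConeForm_meas {n : ℕ} : MeasurableSet {u : Fin n → ℝ | ∀ i, 0 < u i} := by
  rw [Set.ofPred_forall]
  exact MeasurableSet.iInter fun i => measurableSet_lt measurable_const (measurable_pi_apply i)

private theorem ConeForm_meas' {n : ℕ} (R : ℝ) :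
    MeasurableSet {u : Fin n → ℝ | ∀ i, 0 < u i ∧ u i < R} := by
  rw [Set.ofPred_forall]
  refine MeasurableSet.iInter fun i => ?_
  exact (measurableSet_lt measurable_const (measurable_pi_apply i)).inter
    (measurableSet_lt (measurable_pi_apply i) measurable_const)

private theorem ConeForm_intble {n : ℕ} (M : Matrix (Fin n) (Fin n) ℝ) (hM : M.det ≠ 0)
    {f : (Fin n → ℝ) → ℝ} (hf : Integrable f) : Integrable (fun u => f (M *ᵥ u)) := by
  have h1 := Real.map_matrix_volume_pi_eq_smul_volume_pi hM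
  have hdet : LinearMap.det (Matrix.toLin' M) ≠ 0 := by
    rwa [LinearMap.det_toLin']
  let e := LinearMap.equivOfDetNeZero (Matrix.toLin' M) hdet
  have hemb : MeasurableEmbedding (Matrix.toLin' M) :=
    e.toContinuousLinearEquiv.toHomeomorph.measurableEmbedding
  have h2 : Integrable f (Measure.map (Matrix.toLin' M) volume) := by
    rw [h1]
    exact hf.smul_measure ENNReal.ofReal_ne_top
  have h3 := hemb.integrable_map_iff.1 h2
  simpa only [Function.comp_def, Matrix.toLin'_apply] using h3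

private theorem ConeForm_mulVec {n : ℕ} (s : Fin n → Fin n → ℝ) (u : Fin n → ℝ) :
    (-(Matrix.of s)ᵀ) *ᵥ u = -(∑ i, u i • s i) := by
  rw [Matrix.neg_mulVec]
  congr 1
  ext b
  simp [Matrix.mulVec, dotProduct, Finset.sum_apply, mul_comm]

private theorem ConeForm_abs_det {n : ℕ} (s : Fin n → Fin n → ℝ) :
    |(-(Matrix.of s)ᵀ).det| = |Matrix.det (Matrix.of s)| := by
  rw [Matrix.det_neg, Matrix.det_transpose, abs_mul, abs_pow, abs_neg, abs_one, one_pow, one_mul]

private theorem ConeForm_det_prod {n : ℕ} (D : Fin n → (Fin n → ℝ) → ℝ)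
    (hD : ∀ i j, Integrable (fun x : Fin n → ℝ => x j * D i x)) :
    Integrable (fun s : Fin n → Fin n → ℝ => Matrix.det (Matrix.of s) * ∏ i, D i (s i)) := by
  have h : (fun s : Fin n → Fin n → ℝ => Matrix.det (Matrix.of s) * ∏ i, D i (s i)) =
      fun s => ∑ σ : Equiv.Perm (Fin n), (((Equiv.Perm.sign σ : ℤ) : ℝ)) *
        ∏ i, (s i (σ i) * D i (s i)) := by
    funext s
    rw [← Matrix.det_transpose, Matrix.det_apply', Finset.sum_mul]
    refine Finset.sum_congr rfl fun σ _ => ?_
    rw [Finset.prod_mul_distrib, mul_assoc]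
    rfl
  rw [h]
  refine integrable_finsetSum _ fun σ _ => ?_
  refine Integrable.const_mul ?_ _
  exact Integrable.fintype_prod (f := fun i (x : Fin n → ℝ) => x (σ i) * D i x)
    fun i => hD i (σ i)

private theorem ConeForm_xDY {n : ℕ} (Y : Matrix (Fin n) (Fin n) ℝ) (j : Fin n) :
    Integrable (fun x : Fin n → ℝ => x j * DY Y x) := by
  have h : (fun x : Fin n → ℝ => x j * DY Y x) = fun x =>
      (x j * ((x ⬝ᵥ (Y *ᵥ x) - Y.trace) / 2)) * gdens (1 : Matrix (Fin n) (Fin n) ℝ) x := by
    funext x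
    unfold DY
    ring
  rw [h]
  set A : ℝ := ∑ a, ∑ b, |Y a b| with hA
  have hA0 : 0 ≤ A := by positivity
  refine integrable_poly_gdens Matrix.PosDef.one _ ?_ (A + |Y.trace|) 3 ?_
  · simp only [dotProduct, Matrix.mulVec]
    fun_prop
  · intro x
    set N : ℝ := ∑ i, |x i| with hN
    have hN0 : 0 ≤ N := by positivity
    have hxj : ∀ i, |x i| ≤ 1 + N := fun i => by
      have h1 : |x i| ≤ N := Finset.single_le_sum (f := fun i => |x i|)
        (fun i _ => abs_nonneg _) (Finset.mem_univ i)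
      linarith
    have hq : |x ⬝ᵥ (Y *ᵥ x)| ≤ A * (1 + N) ^ 2 := by
      have h1 : x ⬝ᵥ (Y *ᵥ x) = ∑ a, ∑ b, x a * (Y a b * x b) := by
        simp only [dotProduct, Matrix.mulVec, Finset.mul_sum]
      rw [h1, hA, Finset.sum_mul]
      refine (Finset.abs_sum_le_sum_abs _ _).trans (Finset.sum_le_sum fun a _ => ?_)
      rw [Finset.sum_mul]
      refine (Finset.abs_sum_le_sum_abs _ _).trans (Finset.sum_le_sum fun b _ => ?_)
      rw [abs_mul, abs_mul]
      calc |x a| * (|Y a b| * |x b|) = |Y a b| * (|x a| * |x b|) := by ring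
        _ ≤ |Y a b| * ((1 + N) * (1 + N)) :=
          mul_le_mul_of_nonneg_left (mul_le_mul (hxj a) (hxj b) (abs_nonneg _) (by linarith))
            (abs_nonneg _)
        _ = |Y a b| * (1 + N) ^ 2 := by ring
    have h1N : 1 ≤ (1 + N) ^ 2 := by nlinarith
    rw [abs_mul, abs_div, abs_two]
    have h2 : |x ⬝ᵥ (Y *ᵥ x) - Y.trace| ≤ (A + |Y.trace|) * (1 + N) ^ 2 := by
      calc |x ⬝ᵥ (Y *ᵥ x) - Y.trace| ≤ |x ⬝ᵥ (Y *ᵥ x)| + |Y.trace| := abs_sub _ _
        _ ≤ A * (1 + N) ^ 2 + |Y.trace| * (1 + N) ^ 2 := by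
          have := abs_nonneg Y.trace
          nlinarith
        _ = _ := by ring
    have h3 : 0 ≤ |x ⬝ᵥ (Y *ᵥ x) - Y.trace| := abs_nonneg _
    calc |x j| * (|x ⬝ᵥ (Y *ᵥ x) - Y.trace| / 2)
        ≤ (1 + N) * ((A + |Y.trace|) * (1 + N) ^ 2) := by
          apply mul_le_mul (hxj j) _ (by positivity) (by linarith)
          linarith
      _ = (A + |Y.trace|) * (1 + N) ^ 3 := by ring

private theorem ConeForm_sm {n : ℕ} (S : Set (Fin n → ℝ)) :
    StronglyMeasurable (fun s : Fin n → Fin n → ℝ => Matrix.det (Matrix.of s) *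
      ∫ u in S, gdens (1 : Matrix (Fin n) (Fin n) ℝ) (∑ i, u i • s i)) := by
  have hdet : Continuous (fun s : Fin n → Fin n → ℝ => Matrix.det (Matrix.of s)) :=
    Continuous.matrix_det (by exact continuous_id)
  refine hdet.stronglyMeasurable.mul ?_
  have hg : Continuous (Function.uncurry fun (s : Fin n → Fin n → ℝ) (u : Fin n → ℝ) =>
      gdens (1 : Matrix (Fin n) (Fin n) ℝ) (∑ i, u i • s i)) := by
    refine (continuous_gdens _).comp ?_
    fun_prop
  exact hg.stronglyMeasurable.integral_prod_right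

theorem CC_DY_eq_zero {n : ℕ} (Y : Fin n → Matrix (Fin n) (Fin n) ℝ) (hY : ∀ i, (Y i)ᵀ = Y i)
    (hJ : JJ Y = 0) :
    CC (Fin.cons (gdens (1 : Matrix (Fin n) (Fin n) ℝ)) (fun i => DY (Y i)) :
      Fin (n + 1) → (Fin n → ℝ) → ℝ) = 0 := by
  rw [CC_cons_gdens (fun i => DY (Y i)) (fun i => integrable_DY (Y i))]
  -- the truncated kernels
  let K : (Fin n → Fin n → ℝ) → ℝ := fun s => Matrix.det (Matrix.of s) *
    ∫ u in {u : Fin n → ℝ | ∀ i, 0 < u i},
      gdens (1 : Matrix (Fin n) (Fin n) ℝ) (∑ i, u i • s i)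
  let KN : ℕ → (Fin n → Fin n → ℝ) → ℝ := fun N s => Matrix.det (Matrix.of s) *
    ∫ u in {u : Fin n → ℝ | ∀ i, 0 < u i ∧ u i < (N : ℝ)},
      gdens (1 : Matrix (Fin n) (Fin n) ℝ) (∑ i, u i • s i)
  have hK : ∀ s, |K s| ≤ 1 := by
    intro s
    change |Matrix.det (Matrix.of s) * ∫ u in {u : Fin n → ℝ | ∀ i, 0 < u i},
      gdens (1 : Matrix (Fin n) (Fin n) ℝ) (∑ i, u i • s i)| ≤ 1
    rw [← integral_eps_cons]
    calc |∫ x : Fin n → ℝ, eps (Fin.cons x s : Fin (n + 1) → Fin n → ℝ) *
          gdens (1 : Matrix (Fin n) (Fin n) ℝ) x|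
        ≤ ∫ x : Fin n → ℝ, |eps (Fin.cons x s : Fin (n + 1) → Fin n → ℝ) *
          gdens (1 : Matrix (Fin n) (Fin n) ℝ) x| := abs_integral_le_integral_abs
      _ ≤ ∫ x : Fin n → ℝ, gdens (1 : Matrix (Fin n) (Fin n) ℝ) x := by
          refine integral_mono_of_nonneg (Filter.Eventually.of_forall fun x => abs_nonneg _)
            (integrable_gdens Matrix.PosDef.one) (Filter.Eventually.of_forall fun x => ?_)
          change |eps (Fin.cons x s : Fin (n + 1) → Fin n → ℝ) *
            gdens (1 : Matrix (Fin n) (Fin n) ℝ) x| ≤ gdens (1 : Matrix (Fin n) (Fin n) ℝ) x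
          rw [abs_mul, abs_of_nonneg (gdens_nonneg _ x)]
          have h1 := abs_eps_le (Fin.cons x s : Fin (n + 1) → Fin n → ℝ)
          have h2 := gdens_nonneg (1 : Matrix (Fin n) (Fin n) ℝ) x
          nlinarith
      _ = 1 := integral_gdens Matrix.PosDef.one
  have hint : ∀ s : Fin n → Fin n → ℝ, Matrix.det (Matrix.of s) ≠ 0 →
      Integrable (fun u : Fin n → ℝ => gdens (1 : Matrix (Fin n) (Fin n) ℝ)
        (∑ i, u i • s i)) := by
    intro s hs
    have hM : (-(Matrix.of s)ᵀ).det ≠ 0 := by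
      rw [← abs_ne_zero, ConeForm_abs_det, abs_ne_zero]
      exact hs
    have h := ConeForm_intble (-(Matrix.of s)ᵀ) hM (integrable_gdens (n := n) Matrix.PosDef.one)
    refine h.congr (Filter.Eventually.of_forall fun u => ?_)
    change gdens (1 : Matrix (Fin n) (Fin n) ℝ) ((-(Matrix.of s)ᵀ) *ᵥ u) = _
    rw [ConeForm_mulVec, gdens_neg]
  have hKN : ∀ N s, |KN N s| ≤ 1 := by
    intro N s
    by_cases hs : Matrix.det (Matrix.of s) = 0
    · change |Matrix.det (Matrix.of s) * _| ≤ 1
      rw [hs, zero_mul, abs_zero]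
      exact zero_le_one
    · refine le_trans ?_ (hK s)
      change |Matrix.det (Matrix.of s) * _| ≤ |Matrix.det (Matrix.of s) * _|
      rw [abs_mul, abs_mul]
      refine mul_le_mul_of_nonneg_left ?_ (abs_nonneg _)
      rw [abs_of_nonneg (setIntegral_nonneg (ConeForm_meas' _) fun u _ => gdens_nonneg _ _),
        abs_of_nonneg (setIntegral_nonneg ConeForm_meas fun u _ => gdens_nonneg _ _)]
      refine setIntegral_mono_set (hint s hs).integrableOn
        (Filter.Eventually.of_forall fun u => gdens_nonneg _ _)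
        (Filter.Eventually.of_forall fun u hu i => (hu i).1)
  have hlim : ∀ s, Filter.Tendsto (fun N => KN N s) Filter.atTop (nhds (K s)) := by
    intro s
    by_cases hs : Matrix.det (Matrix.of s) = 0
    · have h1 : ∀ N, KN N s = 0 := fun N => by
        change Matrix.det (Matrix.of s) * _ = 0
        rw [hs, zero_mul]
      have h2 : K s = 0 := by
        change Matrix.det (Matrix.of s) * _ = 0
        rw [hs, zero_mul]
      rw [h2]
      simp only [h1]
      exact tendsto_const_nhds
    · refine Filter.Tendsto.const_mul _ ?_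
      have hU : (⋃ N : ℕ, {u : Fin n → ℝ | ∀ i, 0 < u i ∧ u i < (N : ℝ)}) =
          {u : Fin n → ℝ | ∀ i, 0 < u i} := by
        ext u
        rw [Set.mem_iUnion]
        constructor
        · rintro ⟨N, hN⟩ i
          exact (hN i).1
        · intro hu
          obtain ⟨N, hN⟩ := exists_nat_gt (∑ i, |u i|)
          refine ⟨N, fun i => ⟨hu i, ?_⟩⟩
          have h1 : |u i| ≤ ∑ i, |u i| := Finset.single_le_sum (f := fun i => |u i|)
            (fun i _ => abs_nonneg _) (Finset.mem_univ i)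
          exact lt_of_le_of_lt ((le_abs_self _).trans h1) hN
      have := tendsto_setIntegral_of_monotone
        (s := fun N : ℕ => {u : Fin n → ℝ | ∀ i, 0 < u i ∧ u i < (N : ℝ)})
        (f := fun u : Fin n → ℝ => gdens (1 : Matrix (Fin n) (Fin n) ℝ) (∑ i, u i • s i))
        (μ := volume) (fun N => ConeForm_meas' _)
        (fun N N' h u hu i => ⟨(hu i).1, lt_of_lt_of_le (hu i).2 (by exact_mod_cast h)⟩)
        (hint s hs).integrableOn
      rw [hU] at this
      exact this
  have hzero : ∀ N : ℕ, ∫ s : Fin n → Fin n → ℝ, KN N s * ∏ i, DY (Y i) (s i) = 0 := by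
    intro N
    let S : Set (Fin n → ℝ) := {u : Fin n → ℝ | ∀ i, 0 < u i ∧ u i < (N : ℝ)}
    have hS : volume S < ⊤ := by
      refine lt_of_le_of_lt (measure_mono (t := Set.Icc (0 : Fin n → ℝ) (fun _ => (N : ℝ))) ?_)
        isCompact_Icc.measure_lt_top
      intro u hu
      exact ⟨fun i => (hu i).1.le, fun i => (hu i).2.le⟩
    have hf1 : Integrable (fun s : Fin n → Fin n → ℝ => Matrix.det (Matrix.of s) *
        ∏ i, DY (Y i) (s i)) :=
      ConeForm_det_prod (fun i => DY (Y i)) fun i j => ConeForm_xDY (Y i) j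
    have hg1 : Integrable (fun _ : Fin n → ℝ => (1 : ℝ)) (volume.restrict S) :=
      (integrableOn_const hS.ne)
    set C : ℝ := (Real.sqrt ((2 * Real.pi) ^ n))⁻¹ with hC
    have hC0 : 0 ≤ C := by positivity
    have hbd : ∀ x : Fin n → ℝ, gdens (1 : Matrix (Fin n) (Fin n) ℝ) x ≤ C := by
      intro x
      rw [gdens_one_eq', ← hC]
      have h1 : Real.exp (-(∑ i, x i ^ 2) / 2) ≤ 1 := by
        rw [Real.exp_le_one_iff]
        have : 0 ≤ ∑ i, x i ^ 2 := by positivity
        linarith
      nlinarith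
    have hF : Integrable (Function.uncurry fun (s : Fin n → Fin n → ℝ) (u : Fin n → ℝ) =>
        Matrix.det (Matrix.of s) * gdens (1 : Matrix (Fin n) (Fin n) ℝ) (∑ i, u i • s i) *
          ∏ i, DY (Y i) (s i)) (volume.prod (volume.restrict S)) := by
      refine Integrable.mono' (((hf1.mul_prod hg1).abs).const_mul C) ?_
        (Filter.Eventually.of_forall fun z => ?_)
      · have hdet : Continuous (fun z : (Fin n → Fin n → ℝ) × (Fin n → ℝ) =>
            Matrix.det (Matrix.of z.1)) := Continuous.matrix_det (by exact continuous_fst)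
        have hg : Continuous (fun z : (Fin n → Fin n → ℝ) × (Fin n → ℝ) =>
            gdens (1 : Matrix (Fin n) (Fin n) ℝ) (∑ i, z.2 i • z.1 i)) := by
          refine (continuous_gdens _).comp ?_
          fun_prop
        have hD : Continuous (fun z : (Fin n → Fin n → ℝ) × (Fin n → ℝ) =>
            ∏ i, DY (Y i) (z.1 i)) := by
          refine continuous_finsetProd _ fun i _ => (continuous_DY (Y i)).comp ?_
          fun_prop
        exact ((hdet.mul hg).mul hD).aestronglyMeasurable
      · simp only [Function.uncurry, mul_one, Real.norm_eq_abs]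
        rw [abs_mul, abs_mul, abs_mul, abs_of_nonneg (gdens_nonneg _ _)]
        have h1 := hbd (∑ i, z.2 i • z.1 i)
        have h2 : 0 ≤ |Matrix.det (Matrix.of z.1)| * |∏ i, DY (Y i) (z.1 i)| := by positivity
        nlinarith
    calc ∫ s : Fin n → Fin n → ℝ, KN N s * ∏ i, DY (Y i) (s i)
        = ∫ s : Fin n → Fin n → ℝ, ∫ u in S, Matrix.det (Matrix.of s) *
            gdens (1 : Matrix (Fin n) (Fin n) ℝ) (∑ i, u i • s i) * ∏ i, DY (Y i) (s i) := by
          refine integral_congr_ae (Filter.Eventually.of_forall fun s => ?_)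
          change (Matrix.det (Matrix.of s) * ∫ u in S,
            gdens (1 : Matrix (Fin n) (Fin n) ℝ) (∑ i, u i • s i)) * ∏ i, DY (Y i) (s i) = _
          rw [← integral_const_mul, ← integral_mul_const]
      _ = ∫ u in S, ∫ s : Fin n → Fin n → ℝ, Matrix.det (Matrix.of s) *
            gdens (1 : Matrix (Fin n) (Fin n) ℝ) (∑ i, u i • s i) * ∏ i, DY (Y i) (s i) :=
          integral_integral_swap hF
      _ = 0 := cube_zero Y hY hJ (N : ℝ)
  have hprod : Integrable (fun s : Fin n → Fin n → ℝ => ∏ i, DY (Y i) (s i)) :=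
    Integrable.fintype_prod (f := fun i => DY (Y i)) fun i => integrable_DY (Y i)
  have hdom := tendsto_integral_of_dominated_convergence
    (F := fun (N : ℕ) (s : Fin n → Fin n → ℝ) => KN N s * ∏ i, DY (Y i) (s i))
    (f := fun s => K s * ∏ i, DY (Y i) (s i)) (μ := volume)
    (fun s => |∏ i, DY (Y i) (s i)|)
    (fun N => ((ConeForm_sm _).aestronglyMeasurable).mul hprod.aestronglyMeasurable)
    hprod.abs
    (fun N => Filter.Eventually.of_forall fun s => by
      rw [Real.norm_eq_abs, abs_mul]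
      have h1 := hKN N s
      have h2 := abs_nonneg (∏ i, DY (Y i) (s i))
      nlinarith)
    (Filter.Eventually.of_forall fun s => (hlim s).mul_const _)
  simp only [hzero] at hdom
  exact tendsto_nhds_unique hdom tendsto_const_nhds

end Pool.Agent.ChM
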