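import Pool.Agent.ChM.Defs
import Pool.Agent.ChP.CoreLim

/-!
# Representations without Euler number: limits, finitely generated subgroups
-/

namespace Pool.Agent.ChM

open MeasureTheory Matrix Filter Topology Pool.Agent.ChP

theorem rep_det_ne_zero {n : ℕ} {Γ : Type*} [Group Γ]
    (ρ : Γ →* Matrix (Fin n) (Fin n) ℝ) (γ : Γ) : (ρ γ).det ≠ 0 := by
  intro h
  have h1 : ρ γ * ρ γ⁻¹ = 1 := by rw [← map_mul, mul_inv_cancel, map_one]
  have h2 := congrArg Matrix.det h1
  rw [Matrix.det_mul, h, zero_mul, Matrix.det_one] at h2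
  exact zero_ne_one h2

theorem rep_inv {n : ℕ} {Γ : Type*} [Group Γ] (ρ : Γ →* Matrix (Fin n) (Fin n) ℝ)
    (γ : Γ) : ρ γ⁻¹ = (ρ γ)⁻¹ := by
  symm
  apply Matrix.inv_eq_right_inv
  rw [← map_mul, mul_inv_cancel, map_one]

/-- If conjugates of `ρ` converge to a representation without Euler number, then `ρ` has no Euler
number. -/
theorem noEul_of_limit {n : ℕ} {Γ : Type} [Group Γ]
    (ρ ρ' : Γ →* Matrix (Fin n) (Fin n) ℝ) (g : ℕ → Matrix (Fin n) (Fin n) ℝ)
    (hg : ∀ N, 0 < (g N).det)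
    (hlim : ∀ γ, Tendsto (fun N => g N * ρ γ * (g N)⁻¹) atTop (𝓝 (ρ' γ)))
    (h : NoEul ρ') : NoEul ρ := by
  intro ι _ t m hW
  have hchi : chi ρ' = chi ρ := by
    funext γ
    simp only [chi, det_of_limit ρ ρ' g hg hlim γ]
  rw [← eul_eq_of_limit ρ ρ' g hg hlim t m hW]
  exact h ι t m (by rw [hchi]; exact hW)

/-- an equivariant map to a subgroup. -/
private theorem core_exists_kappa {Γ : Type} [Group Γ] (H : Subgroup Γ) :
    ∃ κ : Γ → H, ∀ (γ : H) (x : Γ), κ (γ • x) = γ * κ x := by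
  classical
  let rp : Γ → Γ := fun x => (Quotient.mk (QuotientGroup.rightRel H) x).out
  have hrp : ∀ x, x * (rp x)⁻¹ ∈ H := by
    intro x
    have h1 : (QuotientGroup.rightRel H) (rp x) x := Quotient.exact (Quotient.out_eq _)
    rw [QuotientGroup.rightRel_apply] at h1
    exact h1
  refine ⟨fun x => ⟨x * (rp x)⁻¹, hrp x⟩, ?_⟩
  intro γ x
  have h2 : rp (γ • x) = rp x := by
    have : (Quotient.mk (QuotientGroup.rightRel H) (γ • x)) =
        Quotient.mk (QuotientGroup.rightRel H) x := by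
      apply Quotient.sound
      show (QuotientGroup.rightRel H) (γ • x) x
      rw [QuotientGroup.rightRel_apply]
      have h3 : x * (γ • x)⁻¹ = (γ : Γ)⁻¹ := by
        rw [Subgroup.smul_def, smul_eq_mul, _root_.mul_inv_rev, mul_inv_cancel_left]
      rw [h3]
      exact H.inv_mem γ.2
    simp only [rp, this]
  apply Subtype.ext
  simp only [Subgroup.coe_mul, h2]
  rw [Subgroup.smul_def, smul_eq_mul, mul_assoc]

/-- It suffices to consider the finitely generated subgroups. -/
theorem noEul_of_fg {n : ℕ} {Γ : Type} [Group Γ] (ρ : Γ →* Matrix (Fin n) (Fin n) ℝ)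
    (h : ∀ H : Subgroup Γ, (∃ S : Finset H, Subgroup.closure (S : Set H) = ⊤) →
      NoEul (ρ.comp H.subtype)) : NoEul ρ := by
  classical
  intro ι _ t m hW
  obtain ⟨S, hS⟩ := exists_finset_of_WCycle hW
  set H : Subgroup Γ := Subgroup.closure (S : Set Γ) with hH
  set ρ₀ : H →* Matrix (Fin n) (Fin n) ℝ := ρ.comp H.subtype with hρ₀
  obtain ⟨κ, hκ⟩ := core_exists_kappa H
  have hSH : ∀ γ ∈ S, γ ∈ H := fun γ hγ => Subgroup.subset_closure hγ
  have hW1 : WCycle (X := Γ) (chi ρ₀) t m := by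
    intro φ hφ
    apply hS φ
    intro γ hγ y
    exact hφ ⟨γ, hSH γ hγ⟩ y
  have hW2 : WCycle (chi ρ₀) (fun k i => κ (t k i)) m := by
    intro φ hφ
    have := hS (fun y => φ (fun i => κ (y i))) (by
      intro γ hγ y
      have h1 := hφ ⟨γ, hSH γ hγ⟩ (fun i => κ (y i))
      have h2 : (fun i => κ (γ • y i)) =
          (fun i => (⟨γ, hSH γ hγ⟩ : H) • κ (y i)) := by
        funext i
        exact hκ ⟨γ, hSH γ hγ⟩ (y i)
      show φ (fun i => κ (γ • y i)) = _
      rw [h2]
      exact h1)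
    exact this
  have hfg : Subgroup.closure ((S.preimage (Subtype.val : H → Γ)
      (Subtype.val_injective.injOn) : Finset H) : Set H) = ⊤ := by
    rw [Finset.coe_preimage]
    exact Subgroup.closure_closure_coe_preimage
  have h2 : eul ρ₀ (fun k i => κ (t k i)) m = 0 := h H ⟨_, hfg⟩ ι _ m hW2
  rw [← h2]
  unfold eul
  exact CC_indep (X := Γ) ρ₀ t m hW1
    (fun x => push (ρ x) (gdens (1 : Matrix (Fin n) (Fin n) ℝ)))
    (fun x => push (ρ₀ (κ x)) (gdens (1 : Matrix (Fin n) (Fin n) ℝ)))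
    (fun x => integrable_push (rep_det_ne_zero ρ x) (integrable_gdens Matrix.PosDef.one))
    (fun x => integrable_push (rep_det_ne_zero ρ₀ (κ x)) (integrable_gdens Matrix.PosDef.one))
    (fun x => by
      rw [integral_push (rep_det_ne_zero ρ x), integral_gdens Matrix.PosDef.one])
    (fun x => by
      rw [integral_push (rep_det_ne_zero ρ₀ (κ x)), integral_gdens Matrix.PosDef.one])
    (fun γ x => by
      rw [push_push, Subgroup.smul_def, smul_eq_mul, map_mul]
      rfl)
    (fun γ x => by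
      rw [hκ, map_mul, push_push])

/-- The version for a `Γ`-set with an equivariant map `κ` to `Γ` (a free `Γ`-set). -/
theorem NoEul.sum_CC {n : ℕ} {Γ X ι : Type} [Group Γ] [MulAction Γ X] [Fintype ι]
    {ρ : Γ →* Matrix (Fin n) (Fin n) ℝ} (hρ : NoEul ρ)
    (κ : X → Γ) (hκ : ∀ (γ : Γ) (x : X), κ (γ • x) = γ * κ x)
    (t : ι → Fin (n + 1) → X) (m : ι → ℝ) (h : WCycle (chi ρ) t m)
    (μ : X → (Fin n → ℝ) → ℝ) (hi : ∀ x, Integrable (μ x)) (h1 : ∀ x, ∫ y, μ x y = 1)
    (he : ∀ (γ : Γ) (x : X), μ (γ • x) = push (ρ γ) (μ x)) :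
    ∑ k, m k * CC (fun i => μ (t k i)) = 0 := by
  have hW : WCycle (chi ρ) (fun k i => κ (t k i)) m := by
    intro φ hφ
    exact h (fun y => φ (fun i => κ (y i))) (by
      intro γ y
      have h3 := hφ γ (fun i => κ (y i))
      have h2 : (fun i => κ (γ • y i)) = (fun i => γ • κ (y i)) := by
        funext i
        exact hκ γ (y i)
      show φ (fun i => κ (γ • y i)) = _
      rw [h2]
      exact h3)
  have h2 : eul ρ (fun k i => κ (t k i)) m = 0 := hρ ι _ m hW
  rw [← h2]
  unfold eul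
  exact CC_indep ρ t m h μ
    (fun x => push (ρ (κ x)) (gdens (1 : Matrix (Fin n) (Fin n) ℝ)))
    hi
    (fun x => integrable_push (rep_det_ne_zero ρ (κ x)) (integrable_gdens Matrix.PosDef.one))
    h1
    (fun x => by
      rw [integral_push (rep_det_ne_zero ρ (κ x)), integral_gdens Matrix.PosDef.one])
    he
    (fun γ x => by
      rw [hκ, map_mul, push_push])

end Pool.Agent.ChM
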