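import Pool.Agent.ChM.Defs
import Pool.Agent.ChP.CubeSym

/-!
# The truncated integral vanishes

Version of `Pool.Agent.ChP.cube_zero` with the weaker hypothesis `JJ Y = 0`: after the exchange of
two coordinates of the cube the integrand is `det (Y_i η)` times a mixture of Gaussians and of
derivatives of Gaussians, and the integrals over `η` vanish by scaling.
-/

namespace Pool.Agent.ChM

open MeasureTheory Matrix Pool.Agent.ChP

/-! #### functions of polynomial growth -/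

private def cubeSymBd {n : ℕ} (f : (Fin n → ℝ) → ℝ) : Prop :=
  ∃ (C : ℝ) (k : ℕ), 0 ≤ C ∧ ∀ x, |f x| ≤ C * (1 + ∑ i, |x i|) ^ k

private theorem cubeSym_one_le {n : ℕ} (x : Fin n → ℝ) : 1 ≤ 1 + ∑ i, |x i| := by
  have : 0 ≤ ∑ i, |x i| := Finset.sum_nonneg fun i _ => abs_nonneg _
  linarith

private theorem cubeSymBd_const {n : ℕ} (c : ℝ) : cubeSymBd (fun _ : Fin n → ℝ => c) :=
  ⟨|c|, 0, abs_nonneg c, fun x => by rw [pow_zero, mul_one]⟩

private theorem cubeSymBd_coord {n : ℕ} (i : Fin n) : cubeSymBd (fun x : Fin n → ℝ => x i) := by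
  refine ⟨1, 1, zero_le_one, fun x => ?_⟩
  rw [pow_one, one_mul]
  have h1 : |x i| ≤ ∑ i, |x i| :=
    Finset.single_le_sum (f := fun i => |x i|) (fun i _ => abs_nonneg _) (Finset.mem_univ i)
  linarith

private theorem cubeSymBd_mul {n : ℕ} {f g : (Fin n → ℝ) → ℝ} (hf : cubeSymBd f) (hg : cubeSymBd g) :
    cubeSymBd (fun x => f x * g x) := by
  obtain ⟨C, k, hC, h⟩ := hf
  obtain ⟨C', k', hC', h'⟩ := hg
  refine ⟨C * C', k + k', mul_nonneg hC hC', fun x => ?_⟩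
  have h0 := cubeSym_one_le x
  rw [abs_mul, pow_add]
  calc |f x| * |g x| ≤ (C * (1 + ∑ i, |x i|) ^ k) * (C' * (1 + ∑ i, |x i|) ^ k') :=
        mul_le_mul (h x) (h' x) (abs_nonneg _) (by positivity)
    _ = _ := by ring

private theorem cubeSymBd_add {n : ℕ} {f g : (Fin n → ℝ) → ℝ} (hf : cubeSymBd f) (hg : cubeSymBd g) :
    cubeSymBd (fun x => f x + g x) := by
  obtain ⟨C, k, hC, h⟩ := hf
  obtain ⟨C', k', hC', h'⟩ := hg
  refine ⟨C + C', max k k', add_nonneg hC hC', fun x => ?_⟩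
  have h0 := cubeSym_one_le x
  have e1 : (1 + ∑ i, |x i|) ^ k ≤ (1 + ∑ i, |x i|) ^ max k k' :=
    pow_le_pow_right₀ h0 (le_max_left _ _)
  have e2 : (1 + ∑ i, |x i|) ^ k' ≤ (1 + ∑ i, |x i|) ^ max k k' :=
    pow_le_pow_right₀ h0 (le_max_right _ _)
  calc |f x + g x| ≤ |f x| + |g x| := abs_add_le _ _
    _ ≤ C * (1 + ∑ i, |x i|) ^ k + C' * (1 + ∑ i, |x i|) ^ k' := add_le_add (h x) (h' x)
    _ ≤ C * (1 + ∑ i, |x i|) ^ max k k' + C' * (1 + ∑ i, |x i|) ^ max k k' :=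
        add_le_add (mul_le_mul_of_nonneg_left e1 hC) (mul_le_mul_of_nonneg_left e2 hC')
    _ = _ := by ring

private theorem cubeSymBd_abs {n : ℕ} {f : (Fin n → ℝ) → ℝ} (hf : cubeSymBd f) :
    cubeSymBd (fun x => |f x|) := by
  obtain ⟨C, k, hC, h⟩ := hf
  exact ⟨C, k, hC, fun x => by rw [abs_abs]; exact h x⟩

private theorem cubeSymBd_sum {n : ℕ} {ι : Type*} (s : Finset ι) (f : ι → (Fin n → ℝ) → ℝ)
    (hf : ∀ i ∈ s, cubeSymBd (f i)) : cubeSymBd (fun x => ∑ i ∈ s, f i x) := by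
  classical
  induction s using Finset.induction_on with
  | empty => simpa using cubeSymBd_const (n := n) 0
  | insert a s ha ih =>
    have h1 := hf a (Finset.mem_insert_self a s)
    have h2 := ih fun i hi => hf i (Finset.mem_insert_of_mem hi)
    have h3 := cubeSymBd_add h1 h2
    have e : (fun x => ∑ i ∈ insert a s, f i x) = fun x => f a x + ∑ i ∈ s, f i x := by
      funext x
      rw [Finset.sum_insert ha]
    rw [e]
    exact h3

private theorem cubeSymBd_prod {n : ℕ} {ι : Type*} (s : Finset ι) (f : ι → (Fin n → ℝ) → ℝ)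
    (hf : ∀ i ∈ s, cubeSymBd (f i)) : cubeSymBd (fun x => ∏ i ∈ s, f i x) := by
  classical
  induction s using Finset.induction_on with
  | empty => simpa using cubeSymBd_const (n := n) 1
  | insert a s ha ih =>
    have h1 := hf a (Finset.mem_insert_self a s)
    have h2 := ih fun i hi => hf i (Finset.mem_insert_of_mem hi)
    have h3 := cubeSymBd_mul h1 h2
    have e : (fun x => ∏ i ∈ insert a s, f i x) = fun x => f a x * ∏ i ∈ s, f i x := by
      funext x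
      rw [Finset.prod_insert ha]
    rw [e]
    exact h3

private theorem cubeSymBd_mulVec {n : ℕ} (A : Matrix (Fin n) (Fin n) ℝ) (j : Fin n) :
    cubeSymBd (fun x : Fin n → ℝ => (A *ᵥ x) j) := by
  have e : (fun x : Fin n → ℝ => (A *ᵥ x) j) = fun x => ∑ i, A j i * x i := rfl
  rw [e]
  exact cubeSymBd_sum _ _ fun i _ => cubeSymBd_mul (cubeSymBd_const _) (cubeSymBd_coord i)

private theorem cubeSymBd_dot {n : ℕ} (A : Matrix (Fin n) (Fin n) ℝ) :
    cubeSymBd (fun x : Fin n → ℝ => x ⬝ᵥ (A *ᵥ x)) := by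
  have e : (fun x : Fin n → ℝ => x ⬝ᵥ (A *ᵥ x)) = fun x => ∑ i, x i * (A *ᵥ x) i := rfl
  rw [e]
  exact cubeSymBd_sum _ _ fun i _ => cubeSymBd_mul (cubeSymBd_coord i) (cubeSymBd_mulVec A i)

/-- the determinant with `η` in the row `j` -/
private noncomputable def cubeSymD {n : ℕ} (Y : Fin n → Matrix (Fin n) (Fin n) ℝ) (j : Fin n)
    (η : Fin n → ℝ) : ℝ :=
  Matrix.det (Matrix.of (Function.update (fun i => Y i *ᵥ η) j η))

private theorem cubeSym_update_apply {n : ℕ} (Y : Fin n → Matrix (Fin n) (Fin n) ℝ) (j i k : Fin n)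
    (η : Fin n → ℝ) : Function.update (fun i => Y i *ᵥ η) j η i k =
      if i = j then η k else (Y i *ᵥ η) k := by
  by_cases h : i = j
  · subst h
    rw [Function.update_self, if_pos rfl]
  · rw [Function.update_of_ne h, if_neg h]

private theorem cubeSymBd_D {n : ℕ} (Y : Fin n → Matrix (Fin n) (Fin n) ℝ) (j : Fin n) :
    cubeSymBd (cubeSymD Y j) := by
  have e : cubeSymD Y j = fun η => ∑ σ : Equiv.Perm (Fin n), ((Equiv.Perm.sign σ : ℤ) : ℝ) *
      ∏ i, (if σ i = j then η i else (Y (σ i) *ᵥ η) i) := by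
    funext η
    unfold cubeSymD
    rw [Matrix.det_apply']
    refine Finset.sum_congr rfl fun σ _ => ?_
    congr 1
    refine Finset.prod_congr rfl fun i _ => ?_
    rw [Matrix.of_apply, cubeSym_update_apply]
  rw [e]
  refine cubeSymBd_sum _ _ fun σ _ => cubeSymBd_mul (cubeSymBd_const _) (cubeSymBd_prod _ _ fun i _ => ?_)
  by_cases h : σ i = j
  · simp only [if_pos h]
    exact cubeSymBd_coord i
  · simp only [if_neg h]
    exact cubeSymBd_mulVec _ _

private theorem cubeSym_cont_mulVec {n : ℕ} (A : Matrix (Fin n) (Fin n) ℝ) (j : Fin n) :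
    Continuous (fun x : Fin n → ℝ => (A *ᵥ x) j) := by
  have e : (fun x : Fin n → ℝ => (A *ᵥ x) j) = fun x => ∑ i, A j i * x i := rfl
  rw [e]
  exact continuous_finsetSum _ fun i _ => continuous_const.mul (continuous_apply i)

private theorem cubeSym_cont_dot {n : ℕ} (A : Matrix (Fin n) (Fin n) ℝ) :
    Continuous (fun x : Fin n → ℝ => x ⬝ᵥ (A *ᵥ x)) := by
  have e : (fun x : Fin n → ℝ => x ⬝ᵥ (A *ᵥ x)) = fun x => ∑ i, x i * (A *ᵥ x) i := rfl
  rw [e]
  exact continuous_finsetSum _ fun i _ => (continuous_apply i).mul (cubeSym_cont_mulVec A i)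

private theorem cubeSym_cont_D {n : ℕ} (Y : Fin n → Matrix (Fin n) (Fin n) ℝ) (j : Fin n) :
    Continuous (cubeSymD Y j) := by
  unfold cubeSymD
  apply Continuous.matrix_det
  apply continuous_matrix
  intro i k
  by_cases h : i = j
  · have e : (fun η : Fin n → ℝ => Matrix.of (Function.update (fun i => Y i *ᵥ η) j η) i k) =
        fun η => η k := by
      funext η
      rw [Matrix.of_apply, cubeSym_update_apply, if_pos h]
    rw [e]
    exact continuous_apply k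
  · have e : (fun η : Fin n → ℝ => Matrix.of (Function.update (fun i => Y i *ᵥ η) j η) i k) =
        fun η => (Y i *ᵥ η) k := by
      funext η
      rw [Matrix.of_apply, cubeSym_update_apply, if_neg h]
    rw [e]
    exact cubeSym_cont_mulVec _ k

/-- the weight -/
private noncomputable def cubeSymW {n : ℕ} (u η : Fin n → ℝ) : ℝ :=
  ∏ i, (u i * Real.exp (-(u i ^ 2 * (η ⬝ᵥ η)) / 2))

private theorem cubeSym_cube {n : ℕ} (R : ℝ) : {u : Fin n → ℝ | ∀ i, 0 < u i ∧ u i < R} =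
    Set.pi Set.univ fun _ => Set.Ioo 0 R := by
  ext u
  simp only [Set.mem_pi, Set.mem_univ, forall_true_left, Set.mem_Ioo]
  rfl

private theorem cubeSym_cube_meas {n : ℕ} (R : ℝ) :
    MeasurableSet {u : Fin n → ℝ | ∀ i, 0 < u i ∧ u i < R} := by
  rw [cubeSym_cube]
  exact MeasurableSet.univ_pi fun _ => measurableSet_Ioo

private theorem cubeSym_cube_sub {n : ℕ} (R : ℝ) :
    {u : Fin n → ℝ | ∀ i, 0 < u i ∧ u i < R} ⊆ Set.Icc 0 (fun _ => R) :=
  fun _ hu => ⟨fun i => (hu i).1.le, fun i => (hu i).2.le⟩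

private theorem cubeSym_cube_fin {n : ℕ} (R : ℝ) :
    volume {u : Fin n → ℝ | ∀ i, 0 < u i ∧ u i < R} < ⊤ :=
  lt_of_le_of_lt (measure_mono (cubeSym_cube_sub R)) isCompact_Icc.measure_lt_top

private theorem cubeSym_cont_W {n : ℕ} : Continuous fun p : (Fin n → ℝ) × (Fin n → ℝ) =>
    cubeSymW p.1 p.2 := by
  unfold cubeSymW
  refine continuous_finsetProd _ fun i _ => ?_
  have h1 : Continuous fun p : (Fin n → ℝ) × (Fin n → ℝ) => p.1 i :=
    (continuous_apply i).comp continuous_fst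
  have h2 : Continuous fun p : (Fin n → ℝ) × (Fin n → ℝ) => p.2 ⬝ᵥ p.2 := by
    have e : (fun p : (Fin n → ℝ) × (Fin n → ℝ) => p.2 ⬝ᵥ p.2) = fun p => ∑ i, p.2 i * p.2 i := rfl
    rw [e]
    exact continuous_finsetSum _ fun i _ =>
      ((continuous_apply i).comp continuous_snd).mul ((continuous_apply i).comp continuous_snd)
  exact h1.mul (Real.continuous_exp.comp ((((h1.pow 2).mul h2).neg).div_const 2))

private theorem cubeSym_W_bd {n : ℕ} {R : ℝ} {u : Fin n → ℝ} (hu : ∀ i, 0 < u i ∧ u i < R)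
    (η : Fin n → ℝ) : |cubeSymW u η| ≤ |R| ^ n := by
  unfold cubeSymW
  rw [Finset.abs_prod]
  have h1 : ∏ i : Fin n, |u i * Real.exp (-(u i ^ 2 * (η ⬝ᵥ η)) / 2)| ≤ ∏ _i : Fin n, |R| := by
    refine Finset.prod_le_prod (fun i _ => abs_nonneg _) fun i _ => ?_
    have h2 : 0 ≤ η ⬝ᵥ η := by
      have e : η ⬝ᵥ η = ∑ i, η i * η i := rfl
      rw [e]
      exact Finset.sum_nonneg fun i _ => mul_self_nonneg _
    rw [abs_mul, abs_of_pos (Real.exp_pos _), abs_of_pos (hu i).1]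
    have h3 : Real.exp (-(u i ^ 2 * (η ⬝ᵥ η)) / 2) ≤ 1 := by
      rw [Real.exp_le_one_iff]
      have : 0 ≤ u i ^ 2 * (η ⬝ᵥ η) := mul_nonneg (sq_nonneg _) h2
      linarith
    calc u i * Real.exp (-(u i ^ 2 * (η ⬝ᵥ η)) / 2) ≤ u i * 1 :=
          mul_le_mul_of_nonneg_left h3 (hu i).1.le
      _ = u i := mul_one _
      _ ≤ |R| := (hu i).2.le.trans (le_abs_self R)
  refine h1.trans (le_of_eq ?_)
  rw [Finset.prod_const, Finset.card_univ, Fintype.card_fin]

/-- exchange of two coordinates -/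
private theorem cubeSym_sym {n : ℕ} (R : ℝ) (η : Fin n → ℝ) (i j : Fin n) :
    ∫ u in {u : Fin n → ℝ | ∀ i, 0 < u i ∧ u i < R}, u i ^ 2 * cubeSymW u η =
      ∫ u in {u : Fin n → ℝ | ∀ i, 0 < u i ∧ u i < R}, u j ^ 2 * cubeSymW u η := by
  have hmp := volume_measurePreserving_piCongrLeft (fun _ : Fin n => ℝ) (Equiv.swap i j)
  have happ : ∀ (u : Fin n → ℝ) (k : Fin n),
      MeasurableEquiv.piCongrLeft (fun _ : Fin n => ℝ) (Equiv.swap i j) u k =
        u (Equiv.swap i j k) := by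
    intro u k
    have h1 := MeasurableEquiv.piCongrLeft_apply_apply (Equiv.swap i j) (β := fun _ : Fin n => ℝ)
      u (Equiv.swap i j k)
    rw [Equiv.swap_apply_self] at h1
    exact h1
  have hpre : (MeasurableEquiv.piCongrLeft (fun _ : Fin n => ℝ) (Equiv.swap i j)) ⁻¹'
      {u : Fin n → ℝ | ∀ i, 0 < u i ∧ u i < R} = {u : Fin n → ℝ | ∀ i, 0 < u i ∧ u i < R} := by
    ext u
    constructor
    · intro h k
      have h1 := h (Equiv.swap i j k)
      rw [happ, Equiv.swap_apply_self] at h1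
      exact h1
    · intro h k
      rw [happ]
      exact h _
  have h2 := hmp.setIntegral_preimage_emb
    (MeasurableEquiv.piCongrLeft (fun _ : Fin n => ℝ) (Equiv.swap i j)).measurableEmbedding
    (fun u => u i ^ 2 * cubeSymW u η) {u : Fin n → ℝ | ∀ i, 0 < u i ∧ u i < R}
  rw [hpre] at h2
  rw [← h2]
  refine setIntegral_congr_fun (cubeSym_cube_meas R) fun u _ => ?_
  have h3 : cubeSymW (MeasurableEquiv.piCongrLeft (fun _ : Fin n => ℝ) (Equiv.swap i j) u) η =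
      cubeSymW u η := by
    unfold cubeSymW
    simp only [happ]
    exact Equiv.prod_comp (Equiv.swap i j)
      (fun k => u k * Real.exp (-(u k ^ 2 * (η ⬝ᵥ η)) / 2))
  change (MeasurableEquiv.piCongrLeft (fun _ : Fin n => ℝ) (Equiv.swap i j) u i) ^ 2 *
    cubeSymW (MeasurableEquiv.piCongrLeft (fun _ : Fin n => ℝ) (Equiv.swap i j) u) η =
      u j ^ 2 * cubeSymW u η
  rw [h3, happ, Equiv.swap_apply_left]

private theorem cubeSym_int_u {n : ℕ} (R : ℝ) (η : Fin n → ℝ) (j : Fin n) :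
    IntegrableOn (fun u : Fin n → ℝ => u j ^ 2 * cubeSymW u η)
      {u : Fin n → ℝ | ∀ i, 0 < u i ∧ u i < R} := by
  have hc : Continuous fun u : Fin n → ℝ => u j ^ 2 * cubeSymW u η := by
    have h1 : Continuous fun u : Fin n → ℝ => cubeSymW u η :=
      (cubeSym_cont_W (n := n)).comp (continuous_id.prodMk continuous_const)
    exact ((continuous_apply j).pow 2).mul h1
  exact (hc.continuousOn.integrableOn_compact isCompact_Icc).mono_set (cubeSym_cube_sub R)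


/-! #### the determinant itself -/

private theorem cubeSymBd_det {n : ℕ} (Y : Fin n → Matrix (Fin n) (Fin n) ℝ) :
    cubeSymBd (fun η : Fin n → ℝ => Matrix.det (Matrix.of fun i => Y i *ᵥ η)) := by
  have e : (fun η : Fin n → ℝ => Matrix.det (Matrix.of fun i => Y i *ᵥ η)) =
      fun η => ∑ σ : Equiv.Perm (Fin n), ((Equiv.Perm.sign σ : ℤ) : ℝ) *
      ∏ i, (Y (σ i) *ᵥ η) i := by
    funext η
    rw [Matrix.det_apply']
    rfl
  rw [e]
  exact cubeSymBd_sum _ _ fun σ _ => cubeSymBd_mul (cubeSymBd_const _) (cubeSymBd_prod _ _ fun i _ => cubeSymBd_mulVec _ _)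

private theorem cubeSym_cont_det {n : ℕ} (Y : Fin n → Matrix (Fin n) (Fin n) ℝ) :
    Continuous (fun η : Fin n → ℝ => Matrix.det (Matrix.of fun i => Y i *ᵥ η)) := by
  apply Continuous.matrix_det
  apply continuous_matrix
  intro i k
  exact cubeSym_cont_mulVec _ k

private theorem cubeSymBd_q {n : ℕ} : cubeSymBd (fun η : Fin n → ℝ => η ⬝ᵥ η) := by
  have e : (fun x : Fin n → ℝ => x ⬝ᵥ x) = fun x => ∑ i, x i * x i := rfl
  rw [e]
  exact cubeSymBd_sum _ _ fun i _ => cubeSymBd_mul (cubeSymBd_coord i) (cubeSymBd_coord i)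

private theorem cubeSym_cont_q {n : ℕ} : Continuous (fun η : Fin n → ℝ => η ⬝ᵥ η) := by
  have e : (fun x : Fin n → ℝ => x ⬝ᵥ x) = fun x => ∑ i, x i * x i := rfl
  rw [e]
  exact continuous_finsetSum _ fun i _ => (continuous_apply i).mul (continuous_apply i)

private theorem cubeSym_q_nonneg {n : ℕ} (η : Fin n → ℝ) : 0 ≤ η ⬝ᵥ η := by
  have e : η ⬝ᵥ η = ∑ i, η i * η i := rfl
  rw [e]
  exact Finset.sum_nonneg fun i _ => mul_self_nonneg _

private theorem cubeSym_det_smul {n : ℕ} (Y : Fin n → Matrix (Fin n) (Fin n) ℝ) (c : ℝ)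
    (η : Fin n → ℝ) : Matrix.det (Matrix.of fun i => Y i *ᵥ (c • η)) =
      c ^ n * Matrix.det (Matrix.of fun i => Y i *ᵥ η) := by
  have e : (Matrix.of fun i => Y i *ᵥ (c • η)) = c • (Matrix.of fun i => Y i *ᵥ η) := by
    ext i j
    simp [Matrix.mulVec_smul]
  rw [e, Matrix.det_smul, Fintype.card_fin]

private theorem cubeSym_gdens_one {n : ℕ} (η : Fin n → ℝ) :
    gdens (1 : Matrix (Fin n) (Fin n) ℝ) η =
      (Real.sqrt ((2 * Real.pi) ^ n))⁻¹ * Real.exp (-(η ⬝ᵥ η) / 2) := by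
  unfold gdens
  rw [Matrix.det_one, mul_one, inv_one, Matrix.one_mulVec]

/-- scaling -/
private theorem cubeSym_scale {n : ℕ} (Y : Fin n → Matrix (Fin n) (Fin n) ℝ) (hJ : JJ Y = 0) {r : ℝ}
    (hr : 0 ≤ r) : ∫ η : Fin n → ℝ, (Matrix.det (Matrix.of fun i => Y i *ᵥ η) *
      gdens (1 : Matrix (Fin n) (Fin n) ℝ) η) * Real.exp (-(r * (η ⬝ᵥ η)) / 2) = 0 := by
  have hs : 0 < Real.sqrt (1 + r) := Real.sqrt_pos.2 (by linarith)
  set c := Real.sqrt (1 + r) with hc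
  have hc2 : c ^ 2 = 1 + r := Real.sq_sqrt (by linarith)
  have h1 := MeasureTheory.Measure.integral_comp_smul (volume : Measure (Fin n → ℝ))
    (fun η => Matrix.det (Matrix.of fun i => Y i *ᵥ η) *
      gdens (1 : Matrix (Fin n) (Fin n) ℝ) η) c
  have h2 : ∫ η : Fin n → ℝ, Matrix.det (Matrix.of fun i => Y i *ᵥ η) *
      gdens (1 : Matrix (Fin n) (Fin n) ℝ) η = 0 := hJ
  rw [h2, smul_zero] at h1
  have h3 : ∀ η : Fin n → ℝ, Matrix.det (Matrix.of fun i => Y i *ᵥ (c • η)) *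
      gdens (1 : Matrix (Fin n) (Fin n) ℝ) (c • η) =
      c ^ n * ((Matrix.det (Matrix.of fun i => Y i *ᵥ η) *
      gdens (1 : Matrix (Fin n) (Fin n) ℝ) η) * Real.exp (-(r * (η ⬝ᵥ η)) / 2)) := by
    intro η
    rw [cubeSym_det_smul, cubeSym_gdens_one, cubeSym_gdens_one]
    have h4 : Real.exp (-((c • η) ⬝ᵥ (c • η)) / 2) =
        Real.exp (-(η ⬝ᵥ η) / 2) * Real.exp (-(r * (η ⬝ᵥ η)) / 2) := by
      rw [← Real.exp_add]
      congr 1
      rw [smul_dotProduct, dotProduct_smul, smul_eq_mul, smul_eq_mul, ← mul_assoc, ← sq, hc2]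
      ring
    rw [h4]
    ring
  simp only [h3] at h1
  rw [integral_const_mul] at h1
  rcases mul_eq_zero.1 h1 with h5 | h5
  · exact absurd h5 (pow_ne_zero _ hs.ne')
  · exact h5

private theorem cubeSym_intg {n : ℕ} (f : (Fin n → ℝ) → ℝ) (hf : Continuous f) (hb : cubeSymBd f) :
    Integrable (fun η => f η * gdens (1 : Matrix (Fin n) (Fin n) ℝ) η) := by
  obtain ⟨C, k, hC, hCk⟩ := hb
  exact integrable_poly_gdens (P := (1 : Matrix (Fin n) (Fin n) ℝ)) Matrix.PosDef.one _ hf C k hCk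

private theorem cubeSym_cont_exp {n : ℕ} (r : ℝ) :
    Continuous fun η : Fin n → ℝ => Real.exp (-(r * (η ⬝ᵥ η)) / 2) :=
  Real.continuous_exp.comp ((((continuous_const.mul cubeSym_cont_q)).neg).div_const 2)

private theorem cubeSym_exp_le {n : ℕ} {r : ℝ} (hr : 0 ≤ r) (η : Fin n → ℝ) :
    Real.exp (-(r * (η ⬝ᵥ η)) / 2) ≤ 1 := by
  rw [Real.exp_le_one_iff]
  have := mul_nonneg hr (cubeSym_q_nonneg η)
  linarith

private theorem cubeSym_intg' {n : ℕ} (f : (Fin n → ℝ) → ℝ) (hf : Continuous f) (hb : cubeSymBd f) {r : ℝ}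
    (hr : 0 ≤ r) : Integrable (fun η => f η * gdens (1 : Matrix (Fin n) (Fin n) ℝ) η *
      Real.exp (-(r * (η ⬝ᵥ η)) / 2)) := by
  refine (cubeSym_intg f hf hb).norm.mono' ?_ (Filter.Eventually.of_forall fun η => ?_)
  · exact ((hf.mul (continuous_gdens _)).mul (cubeSym_cont_exp r)).aestronglyMeasurable
  · rw [norm_mul]
    have h1 : ‖Real.exp (-(r * (η ⬝ᵥ η)) / 2)‖ ≤ 1 := by
      rw [Real.norm_eq_abs, abs_of_pos (Real.exp_pos _)]
      exact cubeSym_exp_le hr η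
    exact mul_le_of_le_one_right (norm_nonneg _) h1

/-- the derivative of the scaling identity -/
private theorem cubeSym_scale' {n : ℕ} (Y : Fin n → Matrix (Fin n) (Fin n) ℝ) (hJ : JJ Y = 0) {r : ℝ}
    (hr : 0 < r) : ∫ η : Fin n → ℝ, ((Matrix.det (Matrix.of fun i => Y i *ᵥ η) * (η ⬝ᵥ η)) *
      gdens (1 : Matrix (Fin n) (Fin n) ℝ) η) * Real.exp (-(r * (η ⬝ᵥ η)) / 2) = 0 := by
  set D : (Fin n → ℝ) → ℝ := fun η => Matrix.det (Matrix.of fun i => Y i *ᵥ η) with hD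
  have hDc : Continuous D := cubeSym_cont_det Y
  have hDb : cubeSymBd D := cubeSymBd_det Y
  set F : ℝ → (Fin n → ℝ) → ℝ := fun x η => (D η * gdens (1 : Matrix (Fin n) (Fin n) ℝ) η) *
    Real.exp (-(x * (η ⬝ᵥ η)) / 2) with hF
  set F' : ℝ → (Fin n → ℝ) → ℝ := fun x η => (D η * gdens (1 : Matrix (Fin n) (Fin n) ℝ) η) *
    (Real.exp (-(x * (η ⬝ᵥ η)) / 2) * (-(η ⬝ᵥ η) / 2)) with hF'
  have hder := hasDerivAt_integral_of_dominated_loc_of_deriv_le (μ := (volume : Measure (Fin n → ℝ)))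
    (F := F) (F' := F') (x₀ := r) (s := Metric.ball r r)
    (bound := fun η => |(D η * (η ⬝ᵥ η)) * gdens (1 : Matrix (Fin n) (Fin n) ℝ) η|)
    (Metric.ball_mem_nhds r hr)
    (Filter.Eventually.of_forall fun x =>
      ((hDc.mul (continuous_gdens _)).mul (cubeSym_cont_exp x)).aestronglyMeasurable)
    (cubeSym_intg' D hDc hDb hr.le)
    (((hDc.mul (continuous_gdens _)).mul ((cubeSym_cont_exp r).mul
      (cubeSym_cont_q.neg.div_const 2))).aestronglyMeasurable)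
    (Filter.Eventually.of_forall fun η x hx => by
      have hx0 : 0 ≤ x := by
        rw [Metric.mem_ball, Real.dist_eq, abs_lt] at hx
        linarith [hx.1]
      have hq := cubeSym_q_nonneg η
      have h1 : |Real.exp (-(x * (η ⬝ᵥ η)) / 2) * (-(η ⬝ᵥ η) / 2)| ≤ η ⬝ᵥ η := by
        rw [abs_mul, abs_of_pos (Real.exp_pos _), abs_div, abs_neg, abs_of_nonneg hq,
          abs_of_pos (two_pos : (0 : ℝ) < 2)]
        have h2 := cubeSym_exp_le hx0 η
        have h3 : (0 : ℝ) ≤ (η ⬝ᵥ η) / 2 := by linarith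
        calc Real.exp (-(x * (η ⬝ᵥ η)) / 2) * ((η ⬝ᵥ η) / 2) ≤ 1 * ((η ⬝ᵥ η) / 2) :=
              mul_le_mul_of_nonneg_right h2 h3
          _ ≤ η ⬝ᵥ η := by linarith
      change ‖(D η * gdens (1 : Matrix (Fin n) (Fin n) ℝ) η) *
        (Real.exp (-(x * (η ⬝ᵥ η)) / 2) * (-(η ⬝ᵥ η) / 2))‖ ≤
          |(D η * (η ⬝ᵥ η)) * gdens (1 : Matrix (Fin n) (Fin n) ℝ) η|
      rw [Real.norm_eq_abs, abs_mul]
      have h4 : |(D η * (η ⬝ᵥ η)) * gdens (1 : Matrix (Fin n) (Fin n) ℝ) η| =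
          |D η * gdens (1 : Matrix (Fin n) (Fin n) ℝ) η| * (η ⬝ᵥ η) := by
        rw [mul_right_comm, abs_mul, abs_of_nonneg hq]
      rw [h4]
      exact mul_le_mul_of_nonneg_left h1 (abs_nonneg _))
    ((cubeSym_intg (fun η => D η * (η ⬝ᵥ η)) (hDc.mul cubeSym_cont_q) (cubeSymBd_mul hDb cubeSymBd_q)).abs)
    (Filter.Eventually.of_forall fun η x _ => by
      have h1 : HasDerivAt (fun x : ℝ => -(x * (η ⬝ᵥ η)) / 2) (-(η ⬝ᵥ η) / 2) x := by
        have h2 := (((hasDerivAt_id x).mul_const (η ⬝ᵥ η)).neg).div_const 2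
        simpa using h2
      exact (h1.exp).const_mul _)
  have h0 : HasDerivAt (fun x => ∫ η, F x η) 0 r := by
    refine (hasDerivAt_const r (0 : ℝ)).congr_of_eventuallyEq ?_
    filter_upwards [lt_mem_nhds hr] with x hx
    exact cubeSym_scale Y hJ hx.le
  have h5 : ∫ η, F' r η = 0 := hder.2.unique h0
  have h6 : (fun η => F' r η) = fun η => (-1 / 2) * (((D η * (η ⬝ᵥ η)) *
      gdens (1 : Matrix (Fin n) (Fin n) ℝ) η) * Real.exp (-(r * (η ⬝ᵥ η)) / 2)) := by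
    funext η
    simp only [hF']
    ring
  rw [h6, integral_const_mul] at h5
  rcases mul_eq_zero.1 h5 with h7 | h7
  · norm_num at h7
  · exact h7

/-! #### integrability on the product -/

private theorem cubeSym_int_gen {n : ℕ} (R : ℝ) (P : (Fin n → ℝ) → (Fin n → ℝ) → ℝ)
    (B : (Fin n → ℝ) → ℝ) (hP : Continuous (Function.uncurry P)) (hB : Continuous B)
    (hBb : cubeSymBd B) (hPB : ∀ u η, (∀ i, 0 < u i ∧ u i < R) → |P u η| ≤ B η) :
    Integrable (Function.uncurry fun u η => gdens (1 : Matrix (Fin n) (Fin n) ℝ) η *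
        (cubeSymW u η * P u η))
      ((volume.restrict {u : Fin n → ℝ | ∀ i, 0 < u i ∧ u i < R}).prod volume) := by
  have hfin : IsFiniteMeasure
      ((volume : Measure (Fin n → ℝ)).restrict {u : Fin n → ℝ | ∀ i, 0 < u i ∧ u i < R}) := by
    refine ⟨?_⟩
    rw [Measure.restrict_apply_univ]
    exact cubeSym_cube_fin R
  have hh := cubeSym_intg (fun η => |R| ^ n * B η) (continuous_const.mul hB)
    (cubeSymBd_mul (cubeSymBd_const _) hBb)
  have hh2 := hh.comp_snd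
    ((volume : Measure (Fin n → ℝ)).restrict {u : Fin n → ℝ | ∀ i, 0 < u i ∧ u i < R})
  have hcont : Continuous (Function.uncurry fun u η => gdens (1 : Matrix (Fin n) (Fin n) ℝ) η *
        (cubeSymW u η * P u η)) := by
    have h1 : Continuous fun p : (Fin n → ℝ) × (Fin n → ℝ) =>
      gdens (1 : Matrix (Fin n) (Fin n) ℝ) p.2 := (continuous_gdens _).comp continuous_snd
    exact h1.mul (cubeSym_cont_W.mul hP)
  refine hh2.mono' hcont.aestronglyMeasurable ?_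
  rw [Measure.restrict_prod_eq_prod_univ,
    ae_restrict_iff' ((cubeSym_cube_meas R).prod MeasurableSet.univ)]
  refine Filter.Eventually.of_forall fun p hp => ?_
  have hu : ∀ i, 0 < p.1 i ∧ p.1 i < R := hp.1
  obtain ⟨u, η⟩ := p
  change ∀ i, 0 < u i ∧ u i < R at hu
  change ‖gdens (1 : Matrix (Fin n) (Fin n) ℝ) η * (cubeSymW u η * P u η)‖ ≤ (|R| ^ n * B η) *
    gdens (1 : Matrix (Fin n) (Fin n) ℝ) η
  rw [Real.norm_eq_abs, abs_mul, abs_mul, abs_of_nonneg (gdens_nonneg _ _), mul_comm]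
  refine mul_le_mul_of_nonneg_right ?_ (gdens_nonneg _ _)
  exact mul_le_mul (cubeSym_W_bd hu η) (hPB u η hu) (abs_nonneg _) (by positivity)

/-- the polynomial factor -/
private noncomputable def cubeSymP {n : ℕ} (Y : Fin n → Matrix (Fin n) (Fin n) ℝ)
    (u η : Fin n → ℝ) : ℝ :=
  Matrix.det (Matrix.of fun i => Y i *ᵥ η) -
    ∑ j, (u j ^ 2 * (η ⬝ᵥ (Y j *ᵥ η)) / 2) * cubeSymD Y j η

private theorem cubeSym_intP {n : ℕ} (Y : Fin n → Matrix (Fin n) (Fin n) ℝ) (R : ℝ) :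
    Integrable (Function.uncurry fun u η => gdens (1 : Matrix (Fin n) (Fin n) ℝ) η *
        (cubeSymW u η * cubeSymP Y u η))
      ((volume.restrict {u : Fin n → ℝ | ∀ i, 0 < u i ∧ u i < R}).prod volume) := by
  refine cubeSym_int_gen R (cubeSymP Y) (fun η => |Matrix.det (Matrix.of fun i => Y i *ᵥ η)| +
    ∑ j, R ^ 2 / 2 * |(η ⬝ᵥ (Y j *ᵥ η)) * cubeSymD Y j η|) ?_ ?_ ?_ ?_
  · have h1 : Continuous fun p : (Fin n → ℝ) × (Fin n → ℝ) =>
        Matrix.det (Matrix.of fun i => Y i *ᵥ p.2) := (cubeSym_cont_det Y).comp continuous_snd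
    have h3 : Continuous fun p : (Fin n → ℝ) × (Fin n → ℝ) =>
        ∑ j, (p.1 j ^ 2 * (p.2 ⬝ᵥ (Y j *ᵥ p.2)) / 2) * cubeSymD Y j p.2 := by
      refine continuous_finsetSum _ fun j _ => ?_
      have a1 : Continuous fun p : (Fin n → ℝ) × (Fin n → ℝ) => p.1 j :=
        (continuous_apply j).comp continuous_fst
      have a2 : Continuous fun p : (Fin n → ℝ) × (Fin n → ℝ) => p.2 ⬝ᵥ (Y j *ᵥ p.2) :=
        (cubeSym_cont_dot (Y j)).comp continuous_snd
      have a3 : Continuous fun p : (Fin n → ℝ) × (Fin n → ℝ) => cubeSymD Y j p.2 :=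
        (cubeSym_cont_D Y j).comp continuous_snd
      exact (((a1.pow 2).mul a2).div_const 2).mul a3
    exact h1.sub h3
  · exact (cubeSym_cont_det Y).abs.add (continuous_finsetSum _ fun j _ => continuous_const.mul
      ((cubeSym_cont_dot (Y j)).mul (cubeSym_cont_D Y j)).abs)
  · exact cubeSymBd_add (cubeSymBd_abs (cubeSymBd_det Y)) (cubeSymBd_sum _ _ fun j _ => cubeSymBd_mul (cubeSymBd_const _)
      (cubeSymBd_abs (cubeSymBd_mul (cubeSymBd_dot _) (cubeSymBd_D Y j))))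
  · intro u η hu
    unfold cubeSymP
    refine (abs_sub _ _).trans (add_le_add le_rfl ?_)
    refine (Finset.abs_sum_le_sum_abs _ _).trans (Finset.sum_le_sum fun j _ => ?_)
    have e : (u j ^ 2 * (η ⬝ᵥ (Y j *ᵥ η)) / 2) * cubeSymD Y j η =
        u j ^ 2 / 2 * ((η ⬝ᵥ (Y j *ᵥ η)) * cubeSymD Y j η) := by ring
    rw [e, abs_mul]
    refine mul_le_mul_of_nonneg_right ?_ (abs_nonneg _)
    have h2 : 0 ≤ u j ^ 2 / 2 := by positivity
    rw [abs_of_nonneg h2]
    have h3 : u j ^ 2 ≤ R ^ 2 := pow_le_pow_left₀ (hu j).1.le (hu j).2.le 2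
    linarith

private theorem cubeSym_intQ {n : ℕ} (Y : Fin n → Matrix (Fin n) (Fin n) ℝ) (R : ℝ) (i0 : Fin n) :
    Integrable (Function.uncurry fun u η => gdens (1 : Matrix (Fin n) (Fin n) ℝ) η *
        (cubeSymW u η * (Matrix.det (Matrix.of fun i => Y i *ᵥ η) *
          (1 - u i0 ^ 2 * (η ⬝ᵥ η) / 2))))
      ((volume.restrict {u : Fin n → ℝ | ∀ i, 0 < u i ∧ u i < R}).prod volume) := by
  refine cubeSym_int_gen R (fun u η => Matrix.det (Matrix.of fun i => Y i *ᵥ η) *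
          (1 - u i0 ^ 2 * (η ⬝ᵥ η) / 2))
    (fun η => |Matrix.det (Matrix.of fun i => Y i *ᵥ η)| * (1 + R ^ 2 / 2 * (η ⬝ᵥ η)))
    ?_ ?_ ?_ ?_
  · have h1 : Continuous fun p : (Fin n → ℝ) × (Fin n → ℝ) =>
        Matrix.det (Matrix.of fun i => Y i *ᵥ p.2) := (cubeSym_cont_det Y).comp continuous_snd
    have a1 : Continuous fun p : (Fin n → ℝ) × (Fin n → ℝ) => p.1 i0 :=
      (continuous_apply i0).comp continuous_fst
    have a2 : Continuous fun p : (Fin n → ℝ) × (Fin n → ℝ) => p.2 ⬝ᵥ p.2 :=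
      cubeSym_cont_q.comp continuous_snd
    exact h1.mul (continuous_const.sub (((a1.pow 2).mul a2).div_const 2))
  · exact (cubeSym_cont_det Y).abs.mul (continuous_const.add (continuous_const.mul cubeSym_cont_q))
  · exact cubeSymBd_mul (cubeSymBd_abs (cubeSymBd_det Y)) (cubeSymBd_add (cubeSymBd_const 1)
      (cubeSymBd_mul (cubeSymBd_const _) cubeSymBd_q))
  · intro u η hu
    rw [abs_mul]
    refine mul_le_mul_of_nonneg_left ?_ (abs_nonneg _)
    have hq := cubeSym_q_nonneg η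
    have h3 : u i0 ^ 2 ≤ R ^ 2 := pow_le_pow_left₀ (hu i0).1.le (hu i0).2.le 2
    have h4 : 0 ≤ u i0 ^ 2 * (η ⬝ᵥ η) := mul_nonneg (sq_nonneg _) hq
    have h5 : u i0 ^ 2 * (η ⬝ᵥ η) ≤ R ^ 2 * (η ⬝ᵥ η) := mul_le_mul_of_nonneg_right h3 hq
    rw [abs_le]
    constructor <;> linarith

private theorem cubeSym_det' {n : ℕ} (Y : Fin n → Matrix (Fin n) (Fin n) ℝ) (u η : Fin n → ℝ) :
    Matrix.det (Matrix.of fun i j : Fin n => Complex.I *
            ((u i * ((Y i *ᵥ η) j - u i ^ 2 * (η ⬝ᵥ (Y i *ᵥ η)) / 2 * η j) *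
              Real.exp (-(u i ^ 2 * (η ⬝ᵥ η)) / 2) : ℝ) : ℂ)) =
      Complex.I ^ n * ((cubeSymW u η * cubeSymP Y u η : ℝ) : ℂ) := by
  set r : Matrix (Fin n) (Fin n) ℝ := Matrix.of fun i j : Fin n =>
    (u i * ((Y i *ᵥ η) j - u i ^ 2 * (η ⬝ᵥ (Y i *ᵥ η)) / 2 * η j) *
              Real.exp (-(u i ^ 2 * (η ⬝ᵥ η)) / 2)) with hr
  have e1 : (Matrix.of fun i j : Fin n => Complex.I *
            ((u i * ((Y i *ᵥ η) j - u i ^ 2 * (η ⬝ᵥ (Y i *ᵥ η)) / 2 * η j) *
              Real.exp (-(u i ^ 2 * (η ⬝ᵥ η)) / 2) : ℝ) : ℂ)) =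
      Complex.I • (r.map (Complex.ofRealHom)) := by
    ext i j
    rfl
  rw [e1, Matrix.det_smul, Fintype.card_fin]
  congr 1
  have e2 : (r.map Complex.ofRealHom).det = ((r.det : ℝ) : ℂ) := by
    rw [← RingHom.mapMatrix_apply, ← RingHom.map_det]
    rfl
  rw [e2]
  congr 1
  have e3 : r = Matrix.of fun i j : Fin n => (u i * Real.exp (-(u i ^ 2 * (η ⬝ᵥ η)) / 2)) *
      (Matrix.of fun i => (Y i *ᵥ η) - (u i ^ 2 * (η ⬝ᵥ (Y i *ᵥ η)) / 2) • η) i j := by
    ext i j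
    simp only [hr, Matrix.of_apply, Pi.sub_apply, Pi.smul_apply, smul_eq_mul]
    ring
  rw [e3, Matrix.det_mul_column, det_sub_smul_row]
  rfl

private theorem cubeSym_int_W {n : ℕ} (R : ℝ) (η : Fin n → ℝ) :
    IntegrableOn (fun u : Fin n → ℝ => cubeSymW u η)
      {u : Fin n → ℝ | ∀ i, 0 < u i ∧ u i < R} := by
  have hc : Continuous fun u : Fin n → ℝ => cubeSymW u η :=
    (cubeSym_cont_W (n := n)).comp (continuous_id.prodMk continuous_const)
  exact (hc.continuousOn.integrableOn_compact isCompact_Icc).mono_set (cubeSym_cube_sub R)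

private theorem cubeSym_inner' {n : ℕ} (Y : Fin n → Matrix (Fin n) (Fin n) ℝ) (R : ℝ) (i0 : Fin n)
    (η : Fin n → ℝ) :
    ∫ u in {u : Fin n → ℝ | ∀ i, 0 < u i ∧ u i < R},
      gdens (1 : Matrix (Fin n) (Fin n) ℝ) η * (cubeSymW u η * cubeSymP Y u η) =
    ∫ u in {u : Fin n → ℝ | ∀ i, 0 < u i ∧ u i < R},
      gdens (1 : Matrix (Fin n) (Fin n) ℝ) η * (cubeSymW u η *
        (Matrix.det (Matrix.of fun i => Y i *ᵥ η) * (1 - u i0 ^ 2 * (η ⬝ᵥ η) / 2))) := by
  set g := gdens (1 : Matrix (Fin n) (Fin n) ℝ) η with hg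
  set D := Matrix.det (Matrix.of fun i => Y i *ᵥ η) with hD
  have e1 : ∀ u : Fin n → ℝ, g * (cubeSymW u η * cubeSymP Y u η) = g * D * cubeSymW u η +
      ∑ j, (-g / 2 * ((η ⬝ᵥ (Y j *ᵥ η)) * cubeSymD Y j η)) * (u j ^ 2 * cubeSymW u η) := by
    intro u
    unfold cubeSymP
    rw [mul_sub, mul_sub, sub_eq_add_neg, Finset.mul_sum, Finset.mul_sum, ← Finset.sum_neg_distrib]
    congr 1
    · ring
    · refine Finset.sum_congr rfl fun j _ => ?_
      ring
  have e2 : ∀ u : Fin n → ℝ, g * (cubeSymW u η * (D * (1 - u i0 ^ 2 * (η ⬝ᵥ η) / 2))) =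
      g * D * cubeSymW u η + (-g / 2 * ((η ⬝ᵥ η) * D)) * (u i0 ^ 2 * cubeSymW u η) := by
    intro u
    ring
  simp only [e1, e2]
  rw [integral_add ((cubeSym_int_W R η).const_mul _)
      (integrable_finsetSum _ fun j _ => (cubeSym_int_u R η j).const_mul _),
    integral_add ((cubeSym_int_W R η).const_mul _) ((cubeSym_int_u R η i0).const_mul _),
    integral_finsetSum _ fun j _ => (cubeSym_int_u R η j).const_mul _]
  congr 1
  simp only [integral_const_mul]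
  have e3 : ∀ j : Fin n, ∫ u in {u : Fin n → ℝ | ∀ i, 0 < u i ∧ u i < R}, u j ^ 2 * cubeSymW u η =
      ∫ u in {u : Fin n → ℝ | ∀ i, 0 < u i ∧ u i < R}, u i0 ^ 2 * cubeSymW u η :=
    fun j => cubeSym_sym R η j i0
  simp only [e3]
  rw [← Finset.sum_mul, ← Finset.mul_sum]
  have e4 : ∑ j, (η ⬝ᵥ (Y j *ᵥ η)) * cubeSymD Y j η = (η ⬝ᵥ η) * D :=
    sum_dot_mul_det_update (fun i => Y i *ᵥ η) η η
  rw [e4]

private theorem cubeSym_W_eq {n : ℕ} (u η : Fin n → ℝ) : cubeSymW u η =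
    (∏ i, u i) * Real.exp (-((∑ i, u i ^ 2) * (η ⬝ᵥ η)) / 2) := by
  unfold cubeSymW
  rw [Finset.prod_mul_distrib, ← Real.exp_sum]
  congr 2
  rw [Finset.sum_mul, ← Finset.sum_neg_distrib, Finset.sum_div]

private theorem cubeSym_outer {n : ℕ} (Y : Fin n → Matrix (Fin n) (Fin n) ℝ) (hJ : JJ Y = 0)
    (i0 : Fin n) {R : ℝ} {u : Fin n → ℝ} (hu : ∀ i, 0 < u i ∧ u i < R) :
    ∫ η : Fin n → ℝ, gdens (1 : Matrix (Fin n) (Fin n) ℝ) η * (cubeSymW u η *
        (Matrix.det (Matrix.of fun i => Y i *ᵥ η) * (1 - u i0 ^ 2 * (η ⬝ᵥ η) / 2))) = 0 := by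
  have hr : 0 < ∑ i, u i ^ 2 :=
    Finset.sum_pos (fun i _ => pow_pos (hu i).1 2) ⟨i0, Finset.mem_univ _⟩
  set r := ∑ i, u i ^ 2 with hrd
  have e : ∀ η : Fin n → ℝ, gdens (1 : Matrix (Fin n) (Fin n) ℝ) η * (cubeSymW u η *
        (Matrix.det (Matrix.of fun i => Y i *ᵥ η) * (1 - u i0 ^ 2 * (η ⬝ᵥ η) / 2))) =
      (∏ i, u i) * ((Matrix.det (Matrix.of fun i => Y i *ᵥ η) *
        gdens (1 : Matrix (Fin n) (Fin n) ℝ) η) * Real.exp (-(r * (η ⬝ᵥ η)) / 2)) -
      ((∏ i, u i) * (u i0 ^ 2 / 2)) * (((Matrix.det (Matrix.of fun i => Y i *ᵥ η) * (η ⬝ᵥ η)) *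
        gdens (1 : Matrix (Fin n) (Fin n) ℝ) η) * Real.exp (-(r * (η ⬝ᵥ η)) / 2)) := by
    intro η
    rw [cubeSym_W_eq, ← hrd]
    ring
  simp only [e]
  rw [integral_sub, integral_const_mul, integral_const_mul, cubeSym_scale Y hJ hr.le,
    cubeSym_scale' Y hJ hr, mul_zero, mul_zero, sub_zero]
  · exact (cubeSym_intg' _ (cubeSym_cont_det Y) (cubeSymBd_det Y) hr.le).const_mul _
  · exact (cubeSym_intg' (fun η : Fin n → ℝ => Matrix.det (Matrix.of fun i => Y i *ᵥ η) * (η ⬝ᵥ η))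
      ((cubeSym_cont_det Y).mul cubeSym_cont_q) (cubeSymBd_mul (cubeSymBd_det Y) cubeSymBd_q) hr.le).const_mul _

private theorem cubeSym_zero {n : ℕ} (Y : Fin n → Matrix (Fin n) (Fin n) ℝ) (hJ : JJ Y = 0) (R : ℝ) :
    ∫ u in {u : Fin n → ℝ | ∀ i, 0 < u i ∧ u i < R}, ∫ η : Fin n → ℝ,
      gdens (1 : Matrix (Fin n) (Fin n) ℝ) η * (cubeSymW u η * cubeSymP Y u η) = 0 := by
  rcases isEmpty_or_nonempty (Fin n) with hemp | ⟨⟨i0⟩⟩
  · have h1 : ∀ u : Fin n → ℝ, ∫ η : Fin n → ℝ,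
        gdens (1 : Matrix (Fin n) (Fin n) ℝ) η * (cubeSymW u η * cubeSymP Y u η) = 0 := by
      intro u
      have h2 : ∀ η : Fin n → ℝ, gdens (1 : Matrix (Fin n) (Fin n) ℝ) η *
          (cubeSymW u η * cubeSymP Y u η) = Matrix.det (Matrix.of fun i => Y i *ᵥ η) *
            gdens (1 : Matrix (Fin n) (Fin n) ℝ) η := by
        intro η
        unfold cubeSymW cubeSymP
        rw [Finset.sum_of_isEmpty, Finset.prod_of_isEmpty]
        ring
      simp only [h2]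
      exact hJ
    simp only [h1, integral_zero]
  · rw [integral_integral_swap (cubeSym_intP Y R)]
    simp only [cubeSym_inner' Y R i0]
    rw [← integral_integral_swap (cubeSym_intQ Y R i0)]
    rw [setIntegral_congr_fun (cubeSym_cube_meas R) (g := fun _ => (0 : ℝ))
      (fun u hu => cubeSym_outer Y hJ i0 hu)]
    exact integral_zero _ _

theorem cube_zero {n : ℕ} (Y : Fin n → Matrix (Fin n) (Fin n) ℝ) (hY : ∀ i, (Y i)ᵀ = Y i)
    (hJ : JJ Y = 0) (R : ℝ) :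
    ∫ u in {u : Fin n → ℝ | ∀ i, 0 < u i ∧ u i < R},
      ∫ s : Fin n → Fin n → ℝ, Matrix.det (Matrix.of s) *
        gdens (1 : Matrix (Fin n) (Fin n) ℝ) (∑ i, u i • s i) * ∏ i, DY (Y i) (s i) = 0 := by
  have hC : ∀ u : Fin n → ℝ,
      ((∫ s : Fin n → Fin n → ℝ, Matrix.det (Matrix.of s) *
        gdens (1 : Matrix (Fin n) (Fin n) ℝ) (∑ i, u i • s i) * ∏ i, DY (Y i) (s i) : ℝ) : ℂ) =
      ((((Real.sqrt ((2 * Real.pi) ^ n))⁻¹ : ℝ) : ℂ) * Complex.I ^ n) *
        ((∫ η : Fin n → ℝ, gdens (1 : Matrix (Fin n) (Fin n) ℝ) η *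
          (cubeSymW u η * cubeSymP Y u η) : ℝ) : ℂ) := by
    intro u
    rw [det_exp Y hY u, mul_assoc]
    congr 1
    rw [← integral_complex_ofReal, ← integral_const_mul]
    refine integral_congr_ae (Filter.Eventually.of_forall fun η => ?_)
    change ((gdens (1 : Matrix (Fin n) (Fin n) ℝ) η : ℝ) : ℂ) * _ =
      Complex.I ^ n * ((gdens (1 : Matrix (Fin n) (Fin n) ℝ) η *
          (cubeSymW u η * cubeSymP Y u η) : ℝ) : ℂ)
    rw [cubeSym_det' Y u η]
    push_cast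
    ring
  have hzero := cubeSym_zero Y hJ R
  have hfin : ((∫ u in {u : Fin n → ℝ | ∀ i, 0 < u i ∧ u i < R},
      ∫ s : Fin n → Fin n → ℝ, Matrix.det (Matrix.of s) *
        gdens (1 : Matrix (Fin n) (Fin n) ℝ) (∑ i, u i • s i) * ∏ i, DY (Y i) (s i) : ℝ) : ℂ) =
        0 := by
    rw [← integral_complex_ofReal]
    rw [integral_congr_ae (Filter.Eventually.of_forall hC), integral_const_mul]
    have e2 : ∫ u in {u : Fin n → ℝ | ∀ i, 0 < u i ∧ u i < R},
        ((∫ η : Fin n → ℝ, gdens (1 : Matrix (Fin n) (Fin n) ℝ) η *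
          (cubeSymW u η * cubeSymP Y u η) : ℝ) : ℂ) =
        ((∫ u in {u : Fin n → ℝ | ∀ i, 0 < u i ∧ u i < R},
          ∫ η : Fin n → ℝ, gdens (1 : Matrix (Fin n) (Fin n) ℝ) η *
          (cubeSymW u η * cubeSymP Y u η) : ℝ) : ℂ) :=
      integral_ofReal
    rw [e2, hzero, Complex.ofReal_zero, mul_zero]
  exact_mod_cast hfin

end Pool.Agent.ChM
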