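import Pool.Agent.ChM.TenPoly

/-!
# The infinitesimal action on tensors

`dact T L` is the derivative of `tact T (exp (s L))` at `s = 0`.

`dact_bracket`: for `k ≠ k'` the terms of `dact (dact T L) M` and `dact (dact T M) L` cancel; for
`k = k'` one gets the matrix product.
`dact_lg`: `tact T (P^s) = c^s • T` for all real `s` (with `G = U diag(l) Uᵀ` and `T' = tact T U`,
`∏ k, l (I k) = c` whenever `T' I ≠ 0`, see `ChP/PSet.lean`; this also shows `0 < c`); so with
`T' = tact T U`: `dact T (lg G) = tact (dact T' (diag (log l))) Uᵀ` and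
`dact T' (diag (log l)) I = (∑ k, log (l (I k))) * T' I = log c * T' I`.
(`dact (tact T U) M = tact (dact T (U M Uᵀ)) U` for orthogonal `U`; or differentiate.)
`tpoly_dact`: substitute `I' = update I k j`.
`rot_tz_zp`: `rot Y (zp a) = C Complex.I * ∑ b, C (bd Y (-Y) a b) * zp b` and the Leibniz rule for
products, as in the proof of `rot_qp` in `ChM/TenPoly.lean`; then the same substitution as in
`tpoly_dact`.
-/

namespace Pool.Agent.ChM

open Matrix MvPolynomial Pool.Agent.ChP

variable {d N n : ℕ}

/-- the infinitesimal action -/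
noncomputable def dact (T : Ten d N) (L : Matrix (Fin N) (Fin N) ℝ) : Ten d N :=
  fun I => ∑ k : Fin d, ∑ j : Fin N, T (Function.update I k j) * L j (I k)

theorem dact_add (T : Ten d N) (L M : Matrix (Fin N) (Fin N) ℝ) :
    dact T (L + M) = dact T L + dact T M := by
  funext I
  simp only [dact, Matrix.add_apply, mul_add, Finset.sum_add_distrib, Pi.add_apply]

theorem dact_smul (T : Ten d N) (c : ℝ) (L : Matrix (Fin N) (Fin N) ℝ) :
    dact T (c • L) = c • dact T L := by
  funext I
  simp only [dact, Matrix.smul_apply, smul_eq_mul, Pi.smul_apply, Finset.mul_sum]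
  exact Finset.sum_congr rfl fun k _ => Finset.sum_congr rfl fun j _ => by ring

theorem dact_smul_left (T : Ten d N) (c : ℝ) (L : Matrix (Fin N) (Fin N) ℝ) :
    dact (c • T) L = c • dact T L := by
  funext I
  simp only [dact, smul_eq_mul, Pi.smul_apply, Finset.mul_sum]
  exact Finset.sum_congr rfl fun k _ => Finset.sum_congr rfl fun j _ => by ring

/-- the terms of a double action at two different places -/
private noncomputable def Dact_F (T : Ten d N) (L M : Matrix (Fin N) (Fin N) ℝ)
    (I : Fin d → Fin N) : ℝ :=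
  ∑ k : Fin d, ∑ k' : Fin d, ∑ j : Fin N, ∑ j' : Fin N,
    if k' = k then 0 else
      T (Function.update (Function.update I k j) k' j') * L j' (I k') * M j (I k)

private theorem Dact_F_swap (T : Ten d N) (L M : Matrix (Fin N) (Fin N) ℝ)
    (I : Fin d → Fin N) : Dact_F T L M I = Dact_F T M L I := by
  unfold Dact_F
  rw [Finset.sum_comm]
  refine Finset.sum_congr rfl fun k _ => Finset.sum_congr rfl fun k' _ => ?_
  rw [Finset.sum_comm]
  refine Finset.sum_congr rfl fun j _ => Finset.sum_congr rfl fun j' _ => ?_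
  by_cases h : k = k'
  · rw [if_pos h, if_pos h.symm]
  · rw [if_neg h, if_neg (Ne.symm h), Function.update_comm h]
    ring

private theorem Dact_dd (T : Ten d N) (L M : Matrix (Fin N) (Fin N) ℝ) (I : Fin d → Fin N) :
    dact (dact T L) M I = dact T (L * M) I + Dact_F T L M I := by
  unfold dact Dact_F
  rw [← Finset.sum_add_distrib]
  refine Finset.sum_congr rfl fun k _ => ?_
  have h1 : ∀ j : Fin N, (∑ k' : Fin d, ∑ j' : Fin N,
      T (Function.update (Function.update I k j) k' j') * L j' (Function.update I k j k')) *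
        M j (I k) =
      ∑ j' : Fin N, T (Function.update I k j') * (L j' j * M j (I k)) +
      ∑ k' : Fin d, ∑ j' : Fin N, if k' = k then 0 else
        T (Function.update (Function.update I k j) k' j') * L j' (I k') * M j (I k) := by
    intro j
    rw [← Finset.add_sum_erase Finset.univ _ (Finset.mem_univ k),
      ← Finset.add_sum_erase Finset.univ (fun k' : Fin d => ∑ j' : Fin N, if k' = k then (0 : ℝ)
        else T (Function.update (Function.update I k j) k' j') * L j' (I k') * M j (I k))
        (Finset.mem_univ k)]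
    simp only [if_true, Finset.sum_const_zero, zero_add, add_mul]
    congr 1
    · rw [Finset.sum_mul]
      refine Finset.sum_congr rfl fun j' _ => ?_
      rw [Function.update_self, Function.update_idem]
      ring
    · rw [Finset.sum_mul]
      refine Finset.sum_congr rfl fun k' hk' => ?_
      have hne : k' ≠ k := Finset.ne_of_mem_erase hk'
      rw [Finset.sum_mul]
      refine Finset.sum_congr rfl fun j' _ => ?_
      rw [if_neg hne, Function.update_of_ne hne]
  rw [Finset.sum_congr rfl fun j _ => h1 j, Finset.sum_add_distrib]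
  congr 1
  · rw [Finset.sum_comm]
    refine Finset.sum_congr rfl fun j' _ => ?_
    rw [Matrix.mul_apply, Finset.mul_sum]
  · rw [Finset.sum_comm]

theorem dact_bracket (T : Ten d N) (L M : Matrix (Fin N) (Fin N) ℝ) :
    dact (dact T L) M - dact (dact T M) L = dact T (L * M - M * L) := by
  funext I
  have h : dact T (L * M) I = dact T (L * M - M * L) I + dact T (M * L) I := by
    rw [← Pi.add_apply, ← dact_add, sub_add_cancel]
  rw [Pi.sub_apply, Dact_dd, Dact_dd, Dact_F_swap T M L, h]
  ring

/-- The substitution. -/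
private theorem Dact_inv {A : Type} [AddCommMonoid A] (k : Fin d)
    (H : (Fin d → Fin N) → (Fin d → Fin N) → A) :
    ∑ I : Fin d → Fin N, ∑ j : Fin N, H (Function.update I k j) I =
      ∑ I : Fin d → Fin N, ∑ j : Fin N, H I (Function.update I k j) := by
  rw [← Fintype.sum_prod_type', ← Fintype.sum_prod_type']
  have hi : Function.Involutive (fun p : (Fin d → Fin N) × Fin N =>
      ((Function.update p.1 k p.2, p.1 k) : (Fin d → Fin N) × Fin N)) := by
    rintro ⟨I, j⟩
    simp
  refine Fintype.sum_equiv hi.toPerm _ _ ?_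
  rintro ⟨I, j⟩
  simp [Function.Involutive.toPerm]

private theorem Dact_sub {A : Type} [CommRing A] (φ : ℝ →+* A) (T : Ten d N)
    (L : Matrix (Fin N) (Fin N) ℝ) (S : (Fin d → Fin N) → A) :
    ∑ I : Fin d → Fin N, φ (dact T L I) * S I =
      ∑ I : Fin d → Fin N, φ (T I) * ∑ k : Fin d, ∑ j : Fin N,
        φ (L (I k) j) * S (Function.update I k j) := by
  unfold dact
  simp only [map_sum, map_mul, Finset.sum_mul, Finset.mul_sum]
  rw [Finset.sum_comm]
  conv_rhs => rw [Finset.sum_comm]
  refine Finset.sum_congr rfl fun k _ => ?_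
  have h := Dact_inv (N := N) k
    (fun A B : Fin d → Fin N => φ (T A) * φ (L (A k) (B k)) * S B)
  simp only [Function.update_self] at h
  rw [h]
  refine Finset.sum_congr rfl fun I _ => Finset.sum_congr rfl fun j _ => ?_
  ring

theorem dact_adjoint (T S : Ten d N) (L : Matrix (Fin N) (Fin N) ℝ) :
    ∑ I, dact T L I * S I = ∑ I, T I * dact S Lᵀ I := by
  have h := Dact_sub (RingHom.id ℝ) T L S
  simp only [RingHom.id_apply] at h
  rw [h]
  refine Finset.sum_congr rfl fun I _ => ?_
  unfold dact
  congr 1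
  refine Finset.sum_congr rfl fun k _ => Finset.sum_congr rfl fun j _ => ?_
  rw [Matrix.transpose_apply]
  ring

private theorem Dact_prod_update {A : Type} [CommMonoid A] (k : Fin d) (j : Fin N)
    (I : Fin d → Fin N) (f : Fin d → Fin N → A) :
    ∏ m, f m (Function.update I k j m) = f k j * ∏ m ∈ Finset.univ.erase k, f m (I m) := by
  rw [← Finset.mul_prod_erase Finset.univ _ (Finset.mem_univ k), Function.update_self]
  congr 1
  refine Finset.prod_congr rfl fun m hm => ?_
  rw [Function.update_of_ne (Finset.ne_of_mem_erase hm)]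

private theorem Dact_tact (T : Ten d N) {g L M : Matrix (Fin N) (Fin N) ℝ}
    (h : L * g = g * M) : tact (dact T L) g = dact (tact T g) M := by
  funext I
  have h1 := Dact_sub (RingHom.id ℝ) T L (fun J => ∏ m, g (J m) (I m))
  simp only [RingHom.id_apply] at h1
  have h2 : tact (dact T L) g I = ∑ J : Fin d → Fin N, dact T L J * ∏ m, g (J m) (I m) := rfl
  rw [h2, h1]
  have h3 : dact (tact T g) M I = ∑ k : Fin d, ∑ j : Fin N,
      (∑ J : Fin d → Fin N, T J * ∏ m, g (J m) (Function.update I k j m)) * M j (I k) := rfl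
  rw [h3]
  simp only [Finset.sum_mul]
  have h4 : ∀ k : Fin d, ∑ j : Fin N, ∑ J : Fin d → Fin N,
      T J * (∏ m, g (J m) (Function.update I k j m)) * M j (I k) =
      ∑ J : Fin d → Fin N, T J * ∑ j : Fin N, L (J k) j *
        ∏ m, g (Function.update J k j m) (I m) := by
    intro k
    rw [Finset.sum_comm]
    refine Finset.sum_congr rfl fun J _ => ?_
    have h5 : ∀ j : Fin N, ∏ m, g (J m) (Function.update I k j m) =
        g (J k) j * ∏ m ∈ Finset.univ.erase k, g (J m) (I m) := fun j =>
      Dact_prod_update k j I (fun m a => g (J m) a)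
    have h6 : ∀ j : Fin N, ∏ m, g (Function.update J k j m) (I m) =
        g j (I k) * ∏ m ∈ Finset.univ.erase k, g (J m) (I m) := fun j =>
      Dact_prod_update k j J (fun m a => g a (I m))
    simp only [h5, h6]
    have h7 : ∑ j, L (J k) j * g j (I k) = ∑ j, g (J k) j * M j (I k) := by
      rw [← Matrix.mul_apply, ← Matrix.mul_apply, h]
    calc ∑ j, T J * (g (J k) j * ∏ m ∈ Finset.univ.erase k, g (J m) (I m)) * M j (I k)
        = T J * ((∑ j, g (J k) j * M j (I k)) * ∏ m ∈ Finset.univ.erase k, g (J m) (I m)) := by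
          rw [Finset.sum_mul, Finset.mul_sum]
          exact Finset.sum_congr rfl fun j _ => by ring
      _ = T J * ∑ j, L (J k) j * (g j (I k) * ∏ m ∈ Finset.univ.erase k, g (J m) (I m)) := by
          rw [← h7, Finset.sum_mul]
          congr 1
          exact Finset.sum_congr rfl fun j _ => by ring
  rw [Finset.sum_congr rfl fun k _ => h4 k, Finset.sum_comm]
  refine Finset.sum_congr rfl fun J _ => ?_
  rw [Finset.mul_sum]

private theorem Dact_diag (T : Ten d N) (m : Fin N → ℝ) (I : Fin d → Fin N) :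
    dact T (diagonal m) I = (∑ k, m (I k)) * T I := by
  unfold dact
  rw [Finset.sum_mul]
  refine Finset.sum_congr rfl fun k _ => ?_
  rw [Finset.sum_eq_single (I k)]
  · rw [Matrix.diagonal_apply_eq, Function.update_eq_self]
    ring
  · intro j _ hj
    rw [Matrix.diagonal_apply_ne _ hj, mul_zero]
  · intro hn
    exact absurd (Finset.mem_univ _) hn

private theorem Dact_zero (g : Matrix (Fin N) (Fin N) ℝ) : tact (0 : Ten d N) g = 0 := by
  funext I
  simp [tact]

private theorem Dact_T' {T : Ten d N} (h0 : T ≠ 0) {U : Matrix (Fin N) (Fin N) ℝ}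
    (hU : U * Uᵀ = 1) : ∃ I, tact T U I ≠ 0 := by
  by_contra h
  push Not at h
  apply h0
  have h1 : tact T U = 0 := funext h
  rw [← tact_one T, ← hU, ← tact_mul, h1, Dact_zero]

private theorem Dact_prod {T : Ten d N} {U : Matrix (Fin N) (Fin N) ℝ} {l : Fin N → ℝ}
    (hU' : Uᵀ * U = 1) {c : ℝ} (h : tact T (U * diagonal l * Uᵀ) = c • T)
    {I : Fin d → Fin N} (hI : tact T U I ≠ 0) : ∏ k, l (I k) = c := by
  have h1 : tact (tact T (U * diagonal l * Uᵀ)) U = tact (tact T U) (diagonal l) := by
    rw [tact_mul, tact_mul, mul_assoc, hU', mul_one]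
  rw [h, tact_smul] at h1
  have h2 := congrFun h1 I
  rw [tact_diagonal] at h2
  simp only [Pi.smul_apply, smul_eq_mul] at h2
  exact (mul_right_cancel₀ hI h2).symm

theorem dact_lg {T : Ten d N} (hT0 : T ≠ 0) {G : Matrix (Fin N) (Fin N) ℝ} (hG : G.PosDef)
    {c : ℝ} (h : tact T G = c • T) : 0 < c ∧ dact T (lg G) = Real.log c • T := by
  obtain ⟨U, l, h1, h2, h3⟩ := exists_spec G (by
    have := hG.isHermitian
    rwa [IsHermitian, conjTranspose_eq_transpose_of_trivial] at this)
  have h4 : ∀ i, 0 < l i := (posDef_iff_spec h2 h3).1 hG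
  have h5 : tact T (U * diagonal l * Uᵀ) = c • T := by rw [← h3]; exact h
  obtain ⟨I₀, hI₀⟩ := Dact_T' hT0 h1
  have hc : 0 < c := by
    rw [← Dact_prod h2 h5 hI₀]
    exact Finset.prod_pos fun k _ => h4 _
  refine ⟨hc, ?_⟩
  have h6 : lg G = U * diagonal (fun i => Real.log (l i)) * Uᵀ := cfc_conj_diagonal h2 h3 Real.log
  have h7 : lg G * U = U * diagonal (fun i => Real.log (l i)) := by
    rw [h6, mul_assoc, h2, mul_one]
  have h8 := Dact_tact T h7
  have h9 : dact (tact T U) (diagonal (fun i => Real.log (l i))) = Real.log c • tact T U := by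
    funext I
    rw [Dact_diag, Pi.smul_apply, smul_eq_mul]
    by_cases hI : tact T U I = 0
    · rw [hI, mul_zero, mul_zero]
    · rw [← Dact_prod h2 h5 hI, Real.log_prod (fun k _ => (h4 _).ne')]
  rw [h9] at h8
  have h10 : tact (tact (dact T (lg G)) U) Uᵀ = tact (Real.log c • tact T U) Uᵀ := by rw [h8]
  rwa [tact_mul, tact_smul, tact_mul, h1, tact_one, tact_one] at h10

private theorem Dact_leib {N : ℕ}
    (D : Derivation ℂ (MvPolynomial (Fin N) ℂ) (MvPolynomial (Fin N) ℂ)) {ι : Type}
    [DecidableEq ι] (s : Finset ι) (f : ι → MvPolynomial (Fin N) ℂ) :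
    D (∏ i ∈ s, f i) = ∑ k ∈ s, D (f k) * ∏ j ∈ s.erase k, f j := by
  induction s using Finset.induction_on with
  | empty => simp
  | insert a s ha ih =>
    rw [Finset.prod_insert ha, Derivation.leibniz, ih, Finset.sum_insert ha,
      Finset.erase_insert ha, smul_eq_mul, smul_eq_mul, add_comm]
    congr 1
    · ring
    · rw [Finset.mul_sum]
      refine Finset.sum_congr rfl fun k hk => ?_
      have hne : k ≠ a := fun h => ha (h ▸ hk)
      rw [Finset.erase_insert_of_ne hne.symm, Finset.prod_insert (by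
        intro h
        exact ha (Finset.mem_of_mem_erase h))]
      ring

private theorem Dact_D_tz {d N : ℕ}
    (D : Derivation ℂ (MvPolynomial (Fin N) ℂ) (MvPolynomial (Fin N) ℂ)) (T : Ten d N)
    (z : Fin N → MvPolynomial (Fin N) ℂ) (L : Matrix (Fin N) (Fin N) ℝ) (c : ℂ)
    (h : ∀ a, D (z a) = C c * ∑ b, C ((L a b : ℝ) : ℂ) * z b) :
    D (tz T z) = C c * tz (dact T L) z := by
  have h1 := Dact_sub ((C : ℂ →+* MvPolynomial (Fin N) ℂ).comp Complex.ofRealHom) T L
    (fun I => ∏ m, z (I m))
  simp only [RingHom.comp_apply, Complex.ofRealHom_eq_coe] at h1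
  have h1' : tz (dact T L) z = ∑ I : Fin d → Fin N, C ((T I : ℝ) : ℂ) *
      ∑ k : Fin d, (∑ b, C ((L (I k) b : ℝ) : ℂ) * z b) *
        ∏ j ∈ Finset.univ.erase k, z (I j) := by
    unfold tz
    rw [h1]
    refine Finset.sum_congr rfl fun I _ => ?_
    congr 1
    refine Finset.sum_congr rfl fun k _ => ?_
    rw [Finset.sum_mul]
    refine Finset.sum_congr rfl fun b _ => ?_
    have h2 : ∏ m, z (Function.update I k b m) =
        z b * ∏ m ∈ Finset.univ.erase k, z (I m) :=
      Dact_prod_update k b I (fun _ a => z a)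
    rw [h2]
    ring
  rw [h1']
  unfold tz
  rw [map_sum, Finset.mul_sum]
  refine Finset.sum_congr rfl fun I _ => ?_
  rw [Derivation.leibniz, Dact_leib D Finset.univ (fun k => z (I k)), smul_eq_mul,
    smul_eq_mul]
  have h3 : D (C ((T I : ℝ) : ℂ)) = 0 := by
    rw [← MvPolynomial.algebraMap_eq, Derivation.map_algebraMap]
  rw [h3, mul_zero, add_zero, Finset.mul_sum, Finset.mul_sum, Finset.mul_sum]
  refine Finset.sum_congr rfl fun k _ => ?_
  rw [h (I k)]
  ring

/-- the two substitutions at once -/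
private noncomputable def Dact_zc {n : ℕ} (c : ℂ) :
    Fin (n + n) → MvPolynomial (Fin (n + n)) ℂ :=
  Fin.append (fun i => X (Fin.castAdd n i) + C c * X (Fin.natAdd n i))
    (fun i => X (Fin.castAdd n i) - C c * X (Fin.natAdd n i))

private theorem Dact_zp {n : ℕ} : (zp : Fin (n + n) → _) = Dact_zc Complex.I := rfl

private theorem Dact_zm {n : ℕ} : (zm : Fin (n + n) → _) = Dact_zc (-Complex.I) := by
  funext a
  unfold zm Dact_zc
  refine Fin.addCases (fun i => ?_) (fun i => ?_) a
  · rw [Fin.append_left, Fin.append_left, map_neg]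
    ring
  · rw [Fin.append_right, Fin.append_right, map_neg]
    ring

private theorem Dact_rot_zc {n : ℕ} (Y : Matrix (Fin n) (Fin n) ℝ) {c : ℂ} (hc : c * c = -1)
    (a : Fin (n + n)) : rot Y (Dact_zc c a) =
      C c * ∑ b, C ((bd Y (-Y) a b : ℝ) : ℂ) * Dact_zc c b := by
  have hC : (C c : MvPolynomial (Fin (n + n)) ℂ) * C c = -1 := by
    rw [← C_mul, hc, C_neg, C_1]
  have hD : rot Y (C c) = 0 := by
    rw [← MvPolynomial.algebraMap_eq, Derivation.map_algebraMap]
  have hx : ∀ i : Fin n, rot Y (X (Fin.castAdd n i)) =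
      -∑ j, C ((Y i j : ℝ) : ℂ) * X (Fin.natAdd n j) := fun i => by
    unfold rot
    rw [mkDerivation_X, Fin.append_left]
  have hy : ∀ i : Fin n, rot Y (X (Fin.natAdd n i)) =
      ∑ j, C ((Y i j : ℝ) : ℂ) * X (Fin.castAdd n j) := fun i => by
    unfold rot
    rw [mkDerivation_X, Fin.append_right]
  rw [Fin.sum_univ_add]
  unfold Dact_zc
  refine Fin.addCases (fun i => ?_) (fun i => ?_) a
  · simp only [Fin.append_left, Fin.append_right, bd_apply_cc, bd_apply_cn, Complex.ofReal_zero,
      C_0, zero_mul, Finset.sum_const_zero, add_zero]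
    rw [map_add, Derivation.leibniz, hD, hx, hy, smul_zero, add_zero, smul_eq_mul]
    simp only [mul_add, Finset.sum_add_distrib]
    rw [Finset.mul_sum, Finset.mul_sum, ← Finset.sum_neg_distrib, ← Finset.sum_add_distrib,
      ← Finset.sum_add_distrib]
    refine Finset.sum_congr rfl fun j _ => ?_
    linear_combination (-(C ((Y i j : ℝ) : ℂ) * X (Fin.natAdd n j))) * hC
  · simp only [Fin.append_left, Fin.append_right, bd_apply_nc, bd_apply_nn, Complex.ofReal_zero,
      C_0, zero_mul, Finset.sum_const_zero, zero_add, Matrix.neg_apply, Complex.ofReal_neg, C_neg]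
    rw [map_sub, Derivation.leibniz, hD, hx, hy, smul_zero, add_zero, smul_eq_mul]
    simp only [mul_sub, Finset.sum_sub_distrib]
    rw [Finset.mul_sum, Finset.mul_sum, Finset.mul_sum, ← Finset.sum_neg_distrib,
      ← Finset.sum_sub_distrib, ← Finset.sum_sub_distrib]
    refine Finset.sum_congr rfl fun j _ => ?_
    linear_combination (-(C ((Y i j : ℝ) : ℂ) * X (Fin.natAdd n j))) * hC

theorem rot_tz_zp (T : Ten d (n + n)) (Y : Matrix (Fin n) (Fin n) ℝ) :
    rot Y (tz T zp) = C Complex.I * tz (dact T (bd Y (-Y))) zp := by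
  rw [Dact_zp]
  exact Dact_D_tz (rot Y) T _ _ Complex.I (Dact_rot_zc Y Complex.I_mul_I)

theorem rot_tz_zm (T : Ten d (n + n)) (Y : Matrix (Fin n) (Fin n) ℝ) :
    rot Y (tz T zm) = -(C Complex.I * tz (dact T (bd Y (-Y))) zm) := by
  rw [Dact_zm]
  have h := Dact_D_tz (rot Y) T (Dact_zc (-Complex.I)) _ (-Complex.I)
    (Dact_rot_zc Y (by rw [neg_mul_neg, Complex.I_mul_I]))
  rw [h, C_neg, neg_mul]

end Pool.Agent.ChM
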