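import Pool.Agent.ChP.Defs

/-!
# Operators on polynomials commuting with the linear holonomy: definitions
-/

namespace Pool.Agent.ChM

open MeasureTheory Matrix Pool.Agent.ChP

/-- The Euler number of every weak cycle vanishes. -/
def NoEul {n : ℕ} {Γ : Type} [Group Γ] (ρ : Γ →* Matrix (Fin n) (Fin n) ℝ) : Prop :=
  ∀ (ι : Type) [Fintype ι] (t : ι → Fin (n + 1) → Γ) (m : ι → ℝ),
    WCycle (chi ρ) t m → eul ρ t m = 0

/-- The Gaussian mean of `det (Y_1 η, ..., Y_n η)`. -/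
noncomputable def JJ {n : ℕ} (Y : Fin n → Matrix (Fin n) (Fin n) ℝ) : ℝ :=
  ∫ η : Fin n → ℝ, Matrix.det (Matrix.of fun i => Y i *ᵥ η) *
    gdens (1 : Matrix (Fin n) (Fin n) ℝ) η

/-- A set of positive definite matrices for which the doubling argument works. -/
structure Good {n : ℕ} (S : Set (Matrix (Fin n) (Fin n) ℝ)) : Prop where
  pos : ∀ P ∈ S, P.PosDef
  one : 1 ∈ S
  pw : ∀ P ∈ S, ∀ s : ℝ, cfc (fun x : ℝ => x ^ s) P ∈ S
  conj : ∀ P ∈ S, ∀ Q ∈ S, P * Q * P ∈ S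
  tan : ∀ P : Fin n → Matrix (Fin n) (Fin n) ℝ, (∀ i, P i ∈ S) → JJ (fun i => lg (P i)) = 0

/-- Block diagonal matrices. -/
noncomputable def bd {n : ℕ} (g h : Matrix (Fin n) (Fin n) ℝ) :
    Matrix (Fin (n + n)) (Fin (n + n)) ℝ :=
  Matrix.reindex finSumFinEquiv finSumFinEquiv (Matrix.fromBlocks g 0 0 h)

/-- The action of `g` on the sum of the space and its dual. -/
noncomputable def bl {n : ℕ} (g : Matrix (Fin n) (Fin n) ℝ) :
    Matrix (Fin (n + n)) (Fin (n + n)) ℝ :=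
  bd g (g⁻¹)ᵀ

/-- The positive definite matrices `P` such that `bl P` fixes the tensor `T`. -/
def SM {d n : ℕ} (T : Ten d (n + n)) : Set (Matrix (Fin n) (Fin n) ℝ) :=
  {P | P.PosDef ∧ tact T (bl P) = T}

/-! ### Tensors of type `(a, b)` -/

/-- Tensors with `a` covariant and `b` contravariant indices. -/
abbrev BTen (a b n : ℕ) := Matrix (Fin a → Fin n) (Fin b → Fin n) ℝ

/-- symmetric in both groups of indices -/
def BSym {a b n : ℕ} (A : BTen a b n) : Prop :=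
  (∀ (e : Equiv.Perm (Fin a)) (I : Fin a → Fin n) (J : Fin b → Fin n),
    A (fun k => I (e k)) J = A I J) ∧
  (∀ (e : Equiv.Perm (Fin b)) (I : Fin a → Fin n) (J : Fin b → Fin n),
    A I (fun k => J (e k)) = A I J)

/-- the polynomial of a tensor of type `(a, b)` on `V × V*` -/
noncomputable def bpoly {a b n : ℕ} (A : BTen a b n) (v ξ : Fin n → ℝ) : ℝ :=
  ∑ I : Fin a → Fin n, ∑ J : Fin b → Fin n, A I J * (∏ k, v (I k)) * ∏ k, ξ (J k)

/-- the matrix of `p ⊗ ... ⊗ p` -/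
noncomputable def pw {n m : ℕ} (a : ℕ) (p : Matrix (Fin n) (Fin m) ℝ) :
    Matrix (Fin a → Fin n) (Fin a → Fin m) ℝ :=
  fun I J => ∏ k, p (I k) (J k)

/-- Pull back of a tensor of type `(a, b)`:  `v ↦ p v` in the covariant, `ξ ↦ qᵀ ξ` in the
contravariant indices. -/
noncomputable def bpull {a b n m : ℕ} (A : BTen a b n) (p : Matrix (Fin n) (Fin m) ℝ)
    (q : Matrix (Fin m) (Fin n) ℝ) : BTen a b m :=
  (pw a p)ᵀ * A * (pw b q)ᵀ

/-- The tensor of degree `a + b` on `V ⊕ V*` of a tensor of type `(a, b)`. -/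
noncomputable def bten {a b n : ℕ} (A : BTen a b n) : Ten (a + b) (n + n) := fun K =>
  ∑ I : Fin a → Fin n, ∑ J : Fin b → Fin n,
    if K = Fin.append (fun k => Fin.castAdd n (I k)) (fun k => Fin.natAdd n (J k)) then A I J else 0

end Pool.Agent.ChM
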