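import Mathlib

/-!
# Diagonalisability from positivity of the trace form

`iSup_eigenspace_of_form`: let `p = minpoly ℝ E`.  If an irreducible monic polynomial `r` divides
`p` twice, `p = r ^ 2 * g`, put `q = r * g`: then `aeval E q ≠ 0` (smaller degree than `p`) and
`aeval E (q * q) = 0`, so `t (q * q) = 0 < t (q * q)`.  So `p` is squarefree.  An irreducible factor
`r` of `p` has degree at most `2` (`Irreducible.degree_le_two`); if its degree is `2`,
`r = (X - α)² + β²` with `β ≠ 0`, `p = r * g`; put `q = (X - α) * g`: `aeval E q ≠ 0`, and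
`q * q = r * g * g - β² g * g`, so `t (q * q) = - β² t (g * g) < 0`, a contradiction.
So `p` is a product of distinct factors `X - λ`, and the space is the sum of the kernels
(`Polynomial.sup_ker_aeval_eq_ker_aeval_mul_of_coprime`, or a Mathlib result on semisimple /
diagonalisable endomorphisms such as `Module.End.IsFinitelySemisimple`, `Module.End.iSup_...`).
(Alternative: `ℝ[E]` with the scalar product `(F, G) ↦ t (F G)` and the spectral theorem for
multiplication by `E`.)

`comm_of_trace_pos`: let `A, B ∈ S`.  By the first part, `A` is diagonalisable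
(`t q = trace (aeval A q)` restricted to polynomials without constant term, or apply the same
argument directly to the minimal polynomial of `A`, multiplying all the polynomials `q` by `X`:
`A q(A) ∈ S`).  For eigenvalues `s ≠ t` of `A` let `e_s, e_t` be the spectral projections,
polynomials in `A`, without constant term if the eigenvalue is not `0`.  Then
`N = e_s * B * e_t ∈ S` (one of `s, t` may be `0`; `e_0 = 1 - ∑ e_s`, and
`e_s * B * e_0 = e_s * B - ∑ ... ∈ S`), `N * N = 0`, so `trace (N * N) = 0` and `N = 0`.  Summing,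
`B` commutes with the spectral projections, so with `A`.
-/

namespace Pool.Agent.ChM

open Matrix Polynomial

private theorem Diag_split (n : ℕ) : ∀ (p : ℝ[X]) (t : ℝ[X] →ₗ[ℝ] ℝ), p.natDegree = n → p ≠ 0 →
    (∀ q, p ∣ q → t q = 0) → (∀ q, ¬ p ∣ q → 0 < t (q * q)) →
    ∃ s : Finset ℝ, p ∣ ∏ μ ∈ s, (X - C μ) := by
  induction n with
  | zero =>
    intro p t hn hp _ _
    refine ⟨∅, ?_⟩
    rw [Finset.prod_empty]
    rw [Polynomial.natDegree_eq_zero] at hn
    obtain ⟨x, hx⟩ := hn
    have hx0 : x ≠ 0 := by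
      rintro rfl
      apply hp
      rw [← hx, C_0]
    rw [← hx]
    exact (Polynomial.isUnit_C.2 hx0.isUnit).dvd
  | succ n ih =>
    intro p t hn hp h1 h2
    have hdeg : 0 < degree (p.map (algebraMap ℝ ℂ)) := by
      rw [Polynomial.degree_map]
      exact Polynomial.natDegree_pos_iff_degree_pos.1 (by omega)
    obtain ⟨z, hz⟩ := Complex.exists_root hdeg
    have hz' : aeval z p = 0 := by
      rw [Polynomial.IsRoot, Polynomial.eval_map] at hz
      exact hz
    by_cases him : z.im = 0
    · -- a real root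
      have hroot : p.IsRoot z.re := by
        have h3 : (algebraMap ℝ ℂ) z.re = z := by
          apply Complex.ext
          · simp
          · simp [him]
        rw [← h3, Polynomial.aeval_algebraMap_apply] at hz'
        have h4 : (aeval z.re) p = 0 := (map_eq_zero_iff _ (algebraMap ℝ ℂ).injective).1 hz'
        rw [Polynomial.coe_aeval_eq_eval] at h4
        exact h4
      obtain ⟨g, hg⟩ := Polynomial.dvd_iff_isRoot.2 hroot
      set μ := z.re with hμ
      have hg0 : g ≠ 0 := by
        rintro rfl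
        exact hp (by rw [hg, mul_zero])
      have hX0 : (X - C μ : ℝ[X]) ≠ 0 := X_sub_C_ne_zero μ
      have hgn : g.natDegree = n := by
        have h3 := congrArg natDegree hg
        rw [natDegree_mul hX0 hg0, natDegree_X_sub_C, hn] at h3
        omega
      obtain ⟨s, hs⟩ := ih g (t.comp (LinearMap.mulLeft ℝ ((X - C μ) ^ 2))) hgn hg0
        (by
          intro q hq
          rw [LinearMap.comp_apply, LinearMap.mulLeft_apply]
          apply h1
          obtain ⟨c, rfl⟩ := hq
          rw [hg]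
          exact ⟨(X - C μ) * c, by ring⟩)
        (by
          intro q hq
          rw [LinearMap.comp_apply, LinearMap.mulLeft_apply]
          have h3 := h2 ((X - C μ) * q) (by
            intro hc
            apply hq
            rw [hg] at hc
            exact (mul_dvd_mul_iff_left hX0).1 hc)
          have h4 : (X - C μ) * q * ((X - C μ) * q) = (X - C μ) ^ 2 * (q * q) := by ring
          rwa [h4] at h3)
      by_cases hμs : μ ∈ s
      · refine ⟨s, ?_⟩
        by_contra hc
        have h3 := h2 _ hc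
        have h4 : p ∣ (∏ μ ∈ s, (X - C μ)) * ∏ μ ∈ s, (X - C μ) := by
          rw [hg]
          exact mul_dvd_mul (Finset.dvd_prod_of_mem (fun μ => (X - C μ : ℝ[X])) hμs) hs
        rw [h1 _ h4] at h3
        exact lt_irrefl _ h3
      · refine ⟨insert μ s, ?_⟩
        rw [Finset.prod_insert hμs, hg]
        exact mul_dvd_mul_left _ hs
    · -- two complex conjugate roots
      exfalso
      obtain ⟨g, hg⟩ := Polynomial.quadratic_dvd_of_aeval_eq_zero_im_ne_zero p hz' him
      have hg0 : g ≠ 0 := by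
        rintro rfl
        exact hp (by rw [hg, mul_zero])
      have hr : (X ^ 2 - C (2 * z.re) * X + C (‖z‖ ^ 2) : ℝ[X]).natDegree = 2 := by
        compute_degree!
      have hr0 : (X ^ 2 - C (2 * z.re) * X + C (‖z‖ ^ 2) : ℝ[X]) ≠ 0 := by
        intro hc
        rw [hc] at hr
        simp at hr
      have hpn : p.natDegree = 2 + g.natDegree := by
        rw [hg, natDegree_mul hr0 hg0, hr]
      have hng : ¬ p ∣ g := by
        intro hc
        have := natDegree_le_of_dvd hc hg0
        omega
      have hq0 : (X - C z.re) * g ≠ 0 := mul_ne_zero (X_sub_C_ne_zero _) hg0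
      have hnq : ¬ p ∣ (X - C z.re) * g := by
        intro hc
        have h3 := natDegree_le_of_dvd hc hq0
        rw [natDegree_mul (X_sub_C_ne_zero _) hg0, natDegree_X_sub_C] at h3
        omega
      have h3 := h2 _ hnq
      have h4 := h2 _ hng
      have hnorm : ‖z‖ ^ 2 = z.re ^ 2 + z.im ^ 2 := by
        rw [← Complex.normSq_eq_norm_sq, Complex.normSq_apply]
        ring
      have h5 : (X - C z.re) * g * ((X - C z.re) * g) = p * g - (z.im ^ 2) • (g * g) := by
        rw [hg, hnorm, smul_eq_C_mul]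
        simp only [C_add, C_mul, C_pow, C_ofNat]
        ring
      rw [h5, map_sub, map_smul, h1 _ (dvd_mul_right _ _), smul_eq_mul] at h3
      have h6 : 0 < z.im ^ 2 := by positivity
      nlinarith [mul_pos h6 h4]

private theorem Diag_basis_mul (s : Finset ℝ) (μ : ℝ) (hμ : μ ∈ s) :
    ∃ c : ℝ, (X - C μ) * Lagrange.basis s id μ = C c * ∏ l ∈ s, (X - C l) := by
  refine ⟨∏ l ∈ s.erase μ, (μ - l)⁻¹, ?_⟩
  unfold Lagrange.basis Lagrange.basisDivisor
  rw [Finset.prod_mul_distrib, ← Finset.mul_prod_erase s _ hμ, map_prod]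
  simp only [id]
  ring

private theorem Diag_basis_dvd (s : Finset ℝ) (μ ν : ℝ) (hν : ν ∈ s) (hne : μ ≠ ν) :
    (X - C ν) ∣ Lagrange.basis s id μ := by
  unfold Lagrange.basis
  have h1 : Lagrange.basisDivisor (id μ) (id ν) ∣
      ∏ j ∈ s.erase μ, Lagrange.basisDivisor (id μ) (id j) :=
    Finset.dvd_prod_of_mem (fun j => Lagrange.basisDivisor (id μ) (id j))
      (Finset.mem_erase.2 ⟨hne.symm, hν⟩)
  refine dvd_trans ?_ h1
  unfold Lagrange.basisDivisor
  exact Dvd.intro_left _ rfl

private theorem Diag_sum (s : Finset ℝ) (hs : s.Nonempty) :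
    ∑ μ ∈ s, Lagrange.basis s id μ = (1 : ℝ[X]) :=
  Lagrange.sum_basis (Set.injOn_id _) hs

theorem iSup_eigenspace_of_form {V : Type*} [AddCommGroup V] [Module ℝ V]
    [FiniteDimensional ℝ V] (E : Module.End ℝ V) (t : ℝ[X] →ₗ[ℝ] ℝ)
    (h1 : ∀ q : ℝ[X], aeval E q = 0 → t q = 0)
    (h2 : ∀ q : ℝ[X], aeval E q ≠ 0 → 0 < t (q * q)) :
    ⨆ μ : ℝ, E.eigenspace μ = ⊤ := by
  have hint : IsIntegral ℝ E := Algebra.IsIntegral.isIntegral E
  have hdvd : ∀ q : ℝ[X], minpoly ℝ E ∣ q ↔ aeval E q = 0 := fun q => minpoly.dvd_iff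
  obtain ⟨s, hs⟩ := Diag_split _ (minpoly ℝ E) t rfl (minpoly.ne_zero hint)
    (fun q hq => h1 q ((hdvd q).1 hq)) (fun q hq => h2 q (fun hc => hq ((hdvd q).2 hc)))
  have hs0 : aeval E (∏ μ ∈ s, (X - C μ)) = 0 := (hdvd _).1 hs
  rw [eq_top_iff]
  intro v _
  rcases s.eq_empty_or_nonempty with hse | hsne
  · rw [hse, Finset.prod_empty, map_one] at hs0
    have h3 : v = 0 := by
      have := LinearMap.congr_fun hs0 v
      simpa using this
    rw [h3]
    exact Submodule.zero_mem _
  · have h3 : v = ∑ μ ∈ s, aeval E (Lagrange.basis s id μ) v := by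
      have h4 := congrArg (aeval E) (Diag_sum s hsne)
      rw [map_sum, map_one] at h4
      have h5 := LinearMap.congr_fun h4 v
      rw [LinearMap.sum_apply] at h5
      rw [h5]
      rfl
    rw [h3]
    refine Submodule.sum_mem _ fun μ hμ => ?_
    refine Submodule.mem_iSup_of_mem μ ?_
    rw [Module.End.mem_eigenspace_iff]
    obtain ⟨c, hc⟩ := Diag_basis_mul s μ hμ
    have h4 := congrArg (aeval E) hc
    rw [map_mul, map_mul, hs0, mul_zero, map_sub, aeval_X, aeval_C] at h4
    have h5 := LinearMap.congr_fun h4 v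
    rw [Module.End.mul_apply, LinearMap.sub_apply, Module.algebraMap_end_apply,
      LinearMap.zero_apply] at h5
    exact sub_eq_zero.1 h5

private theorem Diag_mem {ι : Type*} [Fintype ι] [DecidableEq ι]
    (S : NonUnitalSubalgebra ℝ (Matrix ι ι ℝ)) (A : Matrix ι ι ℝ) (hA : A ∈ S) (q : ℝ[X]) :
    A * aeval A q ∈ S := by
  have hpow : ∀ n : ℕ, A ^ (n + 1) ∈ S := by
    intro n
    induction n with
    | zero => rwa [zero_add, pow_one]
    | succ n ih =>
      rw [pow_succ]
      exact mul_mem ih hA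
  induction q using Polynomial.induction_on' with
  | add p q hp hq =>
    rw [map_add, mul_add]
    exact add_mem hp hq
  | monomial n a =>
    rw [aeval_monomial, ← Algebra.smul_def, mul_smul_comm, ← pow_succ']
    exact SMulMemClass.smul_mem a (hpow n)

private theorem Diag_sq {ι : Type*} [Fintype ι] [DecidableEq ι]
    (S : NonUnitalSubalgebra ℝ (Matrix ι ι ℝ))
    (h : ∀ A ∈ S, A ≠ 0 → 0 < Matrix.trace (A * A)) (N : Matrix ι ι ℝ) (hN : N ∈ S)
    (h0 : N * N = 0) : N = 0 := by
  by_contra hc
  have := h N hN hc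
  rw [h0, Matrix.trace_zero] at this
  exact lt_irrefl _ this

/-- Idempotents of `S` are central. -/
private theorem Diag_idem {ι : Type*} [Fintype ι] [DecidableEq ι]
    (S : NonUnitalSubalgebra ℝ (Matrix ι ι ℝ))
    (h : ∀ A ∈ S, A ≠ 0 → 0 < Matrix.trace (A * A)) (e B : Matrix ι ι ℝ) (he : e ∈ S)
    (hB : B ∈ S) (hee : e * e = e) : e * B = B * e := by
  have h1 : e * B - e * B * e = 0 := by
    apply Diag_sq S h
    · exact sub_mem (mul_mem he hB) (mul_mem (mul_mem he hB) he)
    · have e1 : (e * B - e * B * e) * (e * B - e * B * e) =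
          e * B * (e * B) - e * B * (e * B) * e - e * B * (e * e) * B + e * B * (e * e) * B * e := by
        noncomm_ring
      rw [e1, hee]
      noncomm_ring
  have h2 : B * e - e * B * e = 0 := by
    apply Diag_sq S h
    · exact sub_mem (mul_mem hB he) (mul_mem (mul_mem he hB) he)
    · have e1 : (B * e - e * B * e) * (B * e - e * B * e) =
          B * e * B * e - B * (e * e) * B * e - e * B * e * B * e + e * B * (e * e) * B * e := by
        noncomm_ring
      rw [e1, hee]
      noncomm_ring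
  rw [sub_eq_zero] at h1 h2
  rw [h1, h2]

theorem comm_of_trace_pos {ι : Type*} [Fintype ι] [DecidableEq ι]
    (S : NonUnitalSubalgebra ℝ (Matrix ι ι ℝ))
    (h : ∀ A ∈ S, A ≠ 0 → 0 < Matrix.trace (A * A)) (A B : Matrix ι ι ℝ) (hA : A ∈ S)
    (hB : B ∈ S) : A * B = B * A := by
  have hcom : ∀ q : ℝ[X], A * aeval A q = aeval A q * A := by
    intro q
    have h3 : aeval A (X * q) = aeval A (q * X) := by rw [mul_comm]
    rwa [map_mul, map_mul, aeval_X] at h3
  -- the ideal of the `q` with `A q(A) = 0`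
  let J : Ideal ℝ[X] :=
    { carrier := {q | A * aeval A q = 0}
      add_mem' := by
        intro a b ha hb
        simp only [Set.mem_setOf_eq] at ha hb ⊢
        rw [map_add, mul_add, ha, hb, add_zero]
      zero_mem' := by simp
      smul_mem' := by
        intro c x hx
        simp only [Set.mem_setOf_eq] at hx ⊢
        rw [smul_eq_mul, map_mul, ← mul_assoc, hcom c, mul_assoc, hx, mul_zero] }
  have hJ : ∀ q, q ∈ J ↔ A * aeval A q = 0 := fun q => Iff.rfl
  have hdvd : ∀ q, Submodule.IsPrincipal.generator J ∣ q ↔ A * aeval A q = 0 := fun q => by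
    rw [← hJ, Submodule.IsPrincipal.mem_iff_generator_dvd]
  have hp0 : Submodule.IsPrincipal.generator J ≠ 0 := by
    intro hc
    have hint : IsIntegral ℝ A := Algebra.IsIntegral.isIntegral A
    have h3 := (hdvd (minpoly ℝ A)).2 (by rw [minpoly.aeval, mul_zero])
    rw [hc, zero_dvd_iff] at h3
    exact minpoly.ne_zero hint h3
  let t : ℝ[X] →ₗ[ℝ] ℝ := (Matrix.traceLinearMap ι ℝ ℝ).comp
    ((LinearMap.mulLeft ℝ (A * A)).comp (aeval A).toLinearMap)
  have ht : ∀ q, t q = Matrix.trace (A * A * aeval A q) := fun q => rfl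
  obtain ⟨s, hs⟩ := Diag_split _ (Submodule.IsPrincipal.generator J) t rfl hp0
    (by
      intro q hq
      rw [ht, mul_assoc, (hdvd q).1 hq, mul_zero, Matrix.trace_zero])
    (by
      intro q hq
      have h3 : A * aeval A q ≠ 0 := fun hc => hq ((hdvd q).2 hc)
      have h4 := h _ (Diag_mem S A hA q) h3
      rw [ht, map_mul]
      have h5 : A * A * (aeval A q * aeval A q) = A * aeval A q * (A * aeval A q) := by
        calc A * A * (aeval A q * aeval A q) = A * (A * aeval A q) * aeval A q := by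
              simp only [mul_assoc]
          _ = A * (aeval A q * A) * aeval A q := by rw [hcom q]
          _ = A * aeval A q * (A * aeval A q) := by simp only [mul_assoc]
      rwa [h5])
  have hs0 : A * aeval A (∏ μ ∈ s, (X - C μ)) = 0 := (hdvd _).1 hs
  -- a set containing `0`
  obtain ⟨r, hr0, hr⟩ : ∃ r : Finset ℝ, (0 : ℝ) ∈ r ∧ aeval A (∏ μ ∈ r, (X - C μ)) = 0 := by
    by_cases h0 : (0 : ℝ) ∈ s
    · refine ⟨s, h0, ?_⟩
      have h3 : (∏ μ ∈ s, (X - C μ) : ℝ[X]) = X * ∏ μ ∈ s.erase 0, (X - C μ) := by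
        rw [← Finset.mul_prod_erase s _ h0, C_0, sub_zero]
      have h4 : aeval A (∏ μ ∈ s, (X - C μ) : ℝ[X]) =
          A * aeval A (∏ μ ∈ s.erase 0, (X - C μ) : ℝ[X]) := by
        rw [h3, map_mul, aeval_X]
      apply Diag_sq S h
      · rw [h4]
        exact Diag_mem S A hA _
      · nth_rewrite 1 [h4]
        rw [hcom, mul_assoc, hs0, mul_zero]
    · refine ⟨insert 0 s, Finset.mem_insert_self _ _, ?_⟩
      rw [Finset.prod_insert h0, C_0, sub_zero, map_mul, aeval_X, hs0]
  have hrne : r.Nonempty := ⟨0, hr0⟩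
  set e : ℝ → Matrix ι ι ℝ := fun μ => aeval A (Lagrange.basis r id μ) with he
  have hsum : ∑ μ ∈ r, e μ = 1 := by
    have h4 := congrArg (aeval A) (Diag_sum r hrne)
    rw [map_sum, map_one] at h4
    exact h4
  have hAe : ∀ μ ∈ r, A * e μ = μ • e μ := by
    intro μ hμ
    obtain ⟨c, hc⟩ := Diag_basis_mul r μ hμ
    have h4 := congrArg (aeval A) hc
    rw [map_mul, map_mul, hr, mul_zero, map_sub, aeval_X, aeval_C, sub_mul, sub_eq_zero,
      ← Algebra.smul_def] at h4
    exact h4
  have hmul0 : ∀ μ ∈ r, ∀ ν ∈ r, μ ≠ ν → e μ * e ν = 0 := by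
    intro μ hμ ν hν hne
    obtain ⟨g, hg⟩ := Diag_basis_dvd r μ ν hν hne
    have h4 : e μ = aeval A g * (A - algebraMap ℝ _ ν) := by
      simp only [he]
      rw [hg, mul_comm, map_mul, map_sub, aeval_X, aeval_C]
    rw [h4, mul_assoc, sub_mul, hAe ν hν, ← Algebra.smul_def, sub_self, mul_zero]
  have hidem : ∀ μ ∈ r, e μ * e μ = e μ := by
    intro μ hμ
    have h4 : e μ * ∑ ν ∈ r, e ν = e μ := by rw [hsum, mul_one]
    rw [Finset.mul_sum, Finset.sum_eq_single μ (fun ν hν hne => hmul0 μ hμ ν hν hne.symm)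
      (fun hc => absurd hμ hc)] at h4
    exact h4
  have hmem : ∀ μ ∈ r, μ ≠ 0 → e μ ∈ S := by
    intro μ hμ hne
    obtain ⟨g, hg⟩ := Diag_basis_dvd r μ 0 hr0 hne
    have h4 : e μ = A * aeval A g := by
      simp only [he]
      rw [hg, C_0, sub_zero, map_mul, aeval_X]
    rw [h4]
    exact Diag_mem S A hA g
  have hAsum : A = ∑ μ ∈ r, μ • e μ := by
    calc A = A * ∑ μ ∈ r, e μ := by rw [hsum, mul_one]
      _ = ∑ μ ∈ r, μ • e μ := by
        rw [Finset.mul_sum]
        exact Finset.sum_congr rfl hAe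
  have hfin : ∀ μ ∈ r, (μ • e μ) * B = B * (μ • e μ) := by
    intro μ hμ
    by_cases hμ0 : μ = 0
    · rw [hμ0, zero_smul, zero_mul, mul_zero]
    · rw [smul_mul_assoc, mul_smul_comm, Diag_idem S h (e μ) B (hmem μ hμ hμ0) hB (hidem μ hμ)]
  rw [hAsum, Finset.sum_mul, Finset.mul_sum]
  exact Finset.sum_congr rfl hfin

end Pool.Agent.ChM
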