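import Pool.Agent.ChM.PolyOp
import Pool.Agent.ChM.Diag

/-!
# Algebras of graded operators on the polynomial ring with positive trace form

Fix `a` and let `V_a = homogeneousSubmodule (Fin k) ℝ a`, a finite dimensional space (spanned by the
finitely many `Xw J`, `eq_sum_words`).  Every `E ∈ 𝒜` maps `V_a` to itself; let `E_a` be the
restriction (`LinearMap.restrict`).  Put `t q = trace (opT a a (aeval E q))`, linear in `q`
(`opT_add`, `opT_smul`).  If `aeval E_a q = 0` then `aeval E q` is `0` on `V_a`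
(`(aeval E q) f = (aeval E_a q) f` for `f ∈ V_a`) so
`opT a a (aeval E q) = 0` (`opT_eq_zero_of`) and `t q = 0`.  If `aeval E_a q ≠ 0` then
`opT a a (aeval E q) ≠ 0` (`opT_eq_zero`, as `aeval E q` preserves `V_a`), and by `opT_comp`
`t (q * q) = trace (opT a a (aeval E q) * opT a a (aeval E q)) > 0`.  So by
`iSup_eigenspace_of_form` `V_a` is the sum of the eigenspaces of `E_a`, which are contained in those
of `E`.  Every polynomial is the sum of its homogeneous components.

Commutativity: the set of the matrices `opT a a E`, `E ∈ 𝒜`, is a non-unital subalgebra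
(`opT_comp`, `opT_add`, `opT_smul`), commutative by `comm_of_trace_pos`; so
`opT a a (E * F - F * E) = 0` for all `a` and `E * F - F * E` vanishes on `V_a` by `opT_eq_zero`.
-/

namespace Pool.Agent.ChM

open Matrix MvPolynomial Pool.Agent.ChP

variable {k : ℕ}

private theorem polyMain_fd (a : ℕ) :
    FiniteDimensional ℝ (homogeneousSubmodule (Fin k) ℝ a) := by
  have hfd : FiniteDimensional ℝ
      (Submodule.span ℝ (Set.range (Xw : (Fin a → Fin k) → MvPolynomial (Fin k) ℝ))) :=
    FiniteDimensional.span_of_finite ℝ (Set.finite_range _)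
  apply Submodule.finiteDimensional_of_le (S₂ :=
    Submodule.span ℝ (Set.range (Xw : (Fin a → Fin k) → MvPolynomial (Fin k) ℝ)))
  intro f hf
  rw [mem_homogeneousSubmodule] at hf
  rw [eq_sum_words hf]
  exact Submodule.sum_mem _ (fun I _ =>
    Submodule.smul_mem _ _ (Submodule.subset_span ⟨I, rfl⟩))

private theorem polyMain_aeval (a : ℕ) (E : Module.End ℝ (MvPolynomial (Fin k) ℝ))
    (hE : ∀ f ∈ homogeneousSubmodule (Fin k) ℝ a, E f ∈ homogeneousSubmodule (Fin k) ℝ a)
    (q : Polynomial ℝ) (f : homogeneousSubmodule (Fin k) ℝ a) :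
    ((Polynomial.aeval (E.restrict hE) q) f : MvPolynomial (Fin k) ℝ) =
      (Polynomial.aeval E q) (f : MvPolynomial (Fin k) ℝ) := by
  have hpow : ∀ (n : ℕ) (f : homogeneousSubmodule (Fin k) ℝ a),
      (((E.restrict hE) ^ n) f : MvPolynomial (Fin k) ℝ) = (E ^ n) (f : MvPolynomial (Fin k) ℝ) := by
    intro n
    induction n with
    | zero => intro f; simp
    | succ n ih =>
      intro f
      rw [pow_succ, pow_succ, Module.End.mul_apply, Module.End.mul_apply, ih]
      rfl
  induction q using Polynomial.induction_on' with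
  | add p q hp hq =>
    rw [map_add, map_add, LinearMap.add_apply, LinearMap.add_apply, Submodule.coe_add, hp, hq]
  | monomial n c =>
    rw [Polynomial.aeval_monomial, Polynomial.aeval_monomial, Module.End.mul_apply,
      Module.End.mul_apply, Module.algebraMap_end_apply, Module.algebraMap_end_apply,
      Submodule.coe_smul, hpow]

private theorem polyMain_all (P : MvPolynomial (Fin k) ℝ → Prop) (h0 : P 0)
    (hadd : ∀ f g, P f → P g → P (f + g))
    (h : ∀ (a : ℕ) (f : MvPolynomial (Fin k) ℝ), f.IsHomogeneous a → P f)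
    (f : MvPolynomial (Fin k) ℝ) : P f := by
  rw [← sum_homogeneousComponent f]
  induction Finset.range (f.totalDegree + 1) using Finset.induction_on with
  | empty => simpa using h0
  | insert a s ha ih =>
    rw [Finset.sum_insert ha]
    exact hadd _ _ (h a _ (homogeneousComponent_isHomogeneous a f)) ih

theorem iSup_eigenspace_of_graded (𝒜 : Subalgebra ℝ (Module.End ℝ (MvPolynomial (Fin k) ℝ)))
    (hgr : ∀ E ∈ 𝒜, ∀ (b : ℕ) (f : MvPolynomial (Fin k) ℝ), f.IsHomogeneous b →
      (E f).IsHomogeneous b)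
    (htr : ∀ E ∈ 𝒜, ∀ a : ℕ, opT a a E ≠ 0 → 0 < Matrix.trace (opT a a E * opT a a E))
    (E : Module.End ℝ (MvPolynomial (Fin k) ℝ)) (hE : E ∈ 𝒜) :
    ⨆ μ : ℝ, E.eigenspace μ = ⊤ := by
  have hmem : ∀ q : Polynomial ℝ, Polynomial.aeval E q ∈ 𝒜 := by
    intro q
    exact (Algebra.adjoin_le (Set.singleton_subset_iff.2 hE))
      (Polynomial.aeval_mem_adjoin_singleton ℝ E)
  rw [eq_top_iff]
  intro f _
  refine polyMain_all (fun f => f ∈ ⨆ μ : ℝ, E.eigenspace μ) (Submodule.zero_mem _)
    (fun f g hf hg => Submodule.add_mem _ hf hg) ?_ f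
  intro a f hf
  have hEa : ∀ f ∈ homogeneousSubmodule (Fin k) ℝ a, E f ∈ homogeneousSubmodule (Fin k) ℝ a := by
    intro f hf
    rw [mem_homogeneousSubmodule] at hf ⊢
    exact hgr E hE a f hf
  have hfd := polyMain_fd (k := k) a
  let t : Polynomial ℝ →ₗ[ℝ] ℝ :=
    { toFun := fun q => Matrix.trace (opT a a (Polynomial.aeval E q))
      map_add' := by
        intro p q
        rw [map_add]
        erw [opT_add]
        rw [Matrix.trace_add]
      map_smul' := by
        intro c q
        rw [map_smul]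
        erw [opT_smul]
        rw [Matrix.trace_smul]
        rfl }
  have key := iSup_eigenspace_of_form (E.restrict hEa) t
    (by
      intro q hq
      have h1 : opT a a (Polynomial.aeval E q) = 0 := by
        apply opT_eq_zero_of
        intro f hf
        have h2 := polyMain_aeval a E hEa q ⟨f, (mem_homogeneousSubmodule a f).2 hf⟩
        rw [hq] at h2
        simpa using h2.symm
      change Matrix.trace (opT a a (Polynomial.aeval E q)) = 0
      rw [h1, Matrix.trace_zero])
    (by
      intro q hq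
      have h1 : opT a a (Polynomial.aeval E q) ≠ 0 := by
        intro h0
        apply hq
        ext1 f
        apply Subtype.ext
        rw [polyMain_aeval]
        have hf2 : (f : MvPolynomial (Fin k) ℝ).IsHomogeneous a :=
          (mem_homogeneousSubmodule a _).1 f.2
        have h2 := opT_eq_zero _ h0 (f : MvPolynomial (Fin k) ℝ) hf2
        have h3 := hgr _ (hmem q) a _ hf2
        rw [homogeneousComponent_of_mem ((mem_homogeneousSubmodule a _).2 h3), if_pos rfl] at h2
        rw [h2]
        rfl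
      have h2 := htr _ (hmem q) a h1
      change 0 < Matrix.trace (opT a a (Polynomial.aeval E (q * q)))
      rw [map_mul]
      have h3 : opT a a (Polynomial.aeval E q * Polynomial.aeval E q) =
          opT a a (Polynomial.aeval E q) * opT a a (Polynomial.aeval E q) :=
        opT_comp _ _ (fun f hf => hgr _ (hmem q) a f hf)
      rw [h3]
      exact h2)
  have h4 : (⟨f, (mem_homogeneousSubmodule a f).2 hf⟩ : homogeneousSubmodule (Fin k) ℝ a) ∈
      ⨆ μ : ℝ, Module.End.eigenspace (E.restrict hEa) μ := by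
    rw [key]; exact Submodule.mem_top
  have h5 : f ∈ (⨆ μ : ℝ, Module.End.eigenspace (E.restrict hEa) μ).map
      (homogeneousSubmodule (Fin k) ℝ a).subtype := ⟨_, h4, rfl⟩
  rw [Submodule.map_iSup] at h5
  have h6 : (⨆ μ : ℝ, (Module.End.eigenspace (E.restrict hEa) μ).map
      (homogeneousSubmodule (Fin k) ℝ a).subtype) ≤ ⨆ μ : ℝ, E.eigenspace μ := by
    refine iSup_mono fun μ => ?_
    rintro x ⟨y, hy, rfl⟩
    have hy' : (E.restrict hEa) y = μ • y := Module.End.mem_eigenspace_iff.1 hy
    rw [Module.End.mem_eigenspace_iff]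
    exact congrArg Subtype.val hy'
  exact h6 h5

theorem comm_of_graded (𝒜 : Subalgebra ℝ (Module.End ℝ (MvPolynomial (Fin k) ℝ)))
    (hgr : ∀ E ∈ 𝒜, ∀ (b : ℕ) (f : MvPolynomial (Fin k) ℝ), f.IsHomogeneous b →
      (E f).IsHomogeneous b)
    (htr : ∀ E ∈ 𝒜, ∀ a : ℕ, opT a a E ≠ 0 → 0 < Matrix.trace (opT a a E * opT a a E))
    (E F : Module.End ℝ (MvPolynomial (Fin k) ℝ)) (hE : E ∈ 𝒜) (hF : F ∈ 𝒜) :
    E * F = F * E := by
  have hmul : ∀ (a : ℕ) (G H : Module.End ℝ (MvPolynomial (Fin k) ℝ)), H ∈ 𝒜 →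
      opT a a (G * H) = opT a a G * opT a a H := by
    intro a G H hH
    exact opT_comp G H (fun f hf => hgr H hH a f hf)
  have hadd : ∀ (a : ℕ) (G H : Module.End ℝ (MvPolynomial (Fin k) ℝ)),
      opT a a (G + H) = opT a a G + opT a a H := fun a G H => opT_add G H
  have hsmul : ∀ (a : ℕ) (c : ℝ) (G : Module.End ℝ (MvPolynomial (Fin k) ℝ)),
      opT a a (c • G) = c • opT a a G := fun a c G => opT_smul G c
  have hcomm : ∀ a : ℕ, opT a a (E * F) = opT a a (F * E) := by
    intro a
    let S : NonUnitalSubalgebra ℝ (Matrix (Fin a → Fin k) (Fin a → Fin k) ℝ) :=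
      { carrier := {A | ∃ G ∈ 𝒜, opT a a G = A}
        add_mem' := by
          rintro _ _ ⟨G, hG, rfl⟩ ⟨H, hH, rfl⟩
          exact ⟨G + H, 𝒜.add_mem hG hH, hadd a G H⟩
        zero_mem' := by
          refine ⟨0, 𝒜.zero_mem, ?_⟩
          exact opT_eq_zero_of _ (fun f _ => rfl)
        mul_mem' := by
          rintro _ _ ⟨G, hG, rfl⟩ ⟨H, hH, rfl⟩
          exact ⟨G * H, 𝒜.mul_mem hG hH, hmul a G H hH⟩
        smul_mem' := by
          rintro c _ ⟨G, hG, rfl⟩
          exact ⟨c • G, 𝒜.smul_mem hG c, hsmul a c G⟩ }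
    rw [hmul a E F hF, hmul a F E hE]
    refine comm_of_trace_pos S ?_ _ _ ⟨E, hE, rfl⟩ ⟨F, hF, rfl⟩
    rintro _ ⟨G, hG, rfl⟩ hne
    exact htr G hG a hne
  have hD : E * F - F * E ∈ 𝒜 := 𝒜.sub_mem (𝒜.mul_mem hE hF) (𝒜.mul_mem hF hE)
  have hzero : ∀ a : ℕ, opT a a (E * F - F * E) = 0 := by
    intro a
    have h1 : E * F - F * E = E * F + (-1 : ℝ) • (F * E) := by
      rw [sub_eq_add_neg]
      congr 1
      exact (neg_one_smul ℝ (F * E)).symm
    rw [h1, hadd, hsmul, hcomm a]
    ext I J
    simp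
  have hall : ∀ f : MvPolynomial (Fin k) ℝ, (E * F - F * E) f = 0 := by
    intro f
    refine polyMain_all (fun f => (E * F - F * E) f = 0) (map_zero _)
      (fun f g hf hg => by rw [map_add, hf, hg, add_zero]) ?_ f
    intro a f hf
    have h2 := opT_eq_zero _ (hzero a) f hf
    have h3 := hgr _ hD a f hf
    rwa [homogeneousComponent_of_mem ((mem_homogeneousSubmodule a _).2 h3), if_pos rfl] at h2
  apply sub_eq_zero.1
  exact LinearMap.ext hall

end Pool.Agent.ChM
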