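import Pool.Agent.ChM.PolyDefs
import Pool.Agent.ChM.BSymm

/-!
# The tensors of an operator on polynomials

For a word `J : Fin b → Fin k` let `Xw J = ∏ j, X (J j)`, of content `wt J`; `nw I` is the number
of words with the same content as `I`.  The operator `E` on `ℝ[x_1, ..., x_k]` has the tensors
`opT a b E I J = coeff (wt I) (E (Xw J)) / nw I` of type `(a, b)`.  For a homogeneous `f` of degree
`a` one has `f = ∑ I, (coeff (wt I) f / nw I) • Xw I` (words with equal content have equal `Xw`),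
and `(∑ i, C (ξ i) * X i) ^ b = ∑ J, (∏ j, ξ (J j)) • Xw J`; this gives `bpoly_opT`.

`bpull_opT`: by `BSym.ext` it suffices to compare the polynomials.  Put `ζ = (g⁻¹)ᵀ ξ`, so
`ξ = gᵀ ζ` and `polySubst ℝ g (∑ i, C (ζ i) * X i) = ∑ i, C (ξ i) * X i`.  Then by `bpoly_bpull`
and `bpoly_opT` (`homogeneousComponent` commutes with `polySubst`, and
`eval v (polySubst ℝ g f) = eval (g *ᵥ v) f`)
`bpoly (bpull (opT a b E) g g⁻¹) v ξ = eval (g *ᵥ v) (hom_a (E (ζ ^ b)))
= eval v (hom_a (polySubst g (E (ζ ^ b)))) = eval v (hom_a (E (polySubst g (ζ ^ b))))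
= eval v (hom_a (E (ξ ^ b)))`.

`opT_comp`: `F (Xw J) = ∑ L, opT a a F L J • Xw L` as `F (Xw J)` is homogeneous of degree `a`.
-/

namespace Pool.Agent.ChM

open Matrix MvPolynomial Pool.Agent.ChP

/-- the content of a word -/
noncomputable def wt {a k : ℕ} (I : Fin a → Fin k) : Fin k →₀ ℕ := ∑ j, Finsupp.single (I j) 1

/-- the number of words with the same content -/
noncomputable def nw {a k : ℕ} (I : Fin a → Fin k) : ℕ :=
  Nat.card {I' : Fin a → Fin k // wt I' = wt I}

/-- the monomial of a word -/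
noncomputable def Xw {a k : ℕ} (J : Fin a → Fin k) : MvPolynomial (Fin k) ℝ := ∏ j, X (J j)

/-- the tensor of an operator -/
noncomputable def opT {k : ℕ} (a b : ℕ)
    (E : MvPolynomial (Fin k) ℝ →ₗ[ℝ] MvPolynomial (Fin k) ℝ) : BTen a b k :=
  fun I J => coeff (wt I) (E (Xw J)) / nw I

variable {k a b : ℕ} (E F : MvPolynomial (Fin k) ℝ →ₗ[ℝ] MvPolynomial (Fin k) ℝ)

private theorem PolyOp_word {n : ℕ} (d : ℕ) : ∀ m : Fin n →₀ ℕ, (∑ i, m i) = d →
    ∃ I : Fin d → Fin n, (∑ k, Finsupp.single (I k) 1 : Fin n →₀ ℕ) = m := by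
  classical
  induction d with
  | zero =>
    intro m hm
    refine ⟨Fin.elim0, ?_⟩
    ext i
    have h1 : m i ≤ ∑ j, m j := Finset.single_le_sum (fun _ _ => Nat.zero_le _) (Finset.mem_univ i)
    rw [hm] at h1
    simp
    omega
  | succ d ih =>
    intro m hm
    have hex : ∃ i, m i ≠ 0 := by
      by_contra hcon
      push Not at hcon
      rw [Finset.sum_eq_zero fun i _ => hcon i] at hm
      omega
    obtain ⟨i, hi⟩ := hex
    have hle : Finsupp.single i 1 ≤ m := by
      rw [Finsupp.single_le_iff]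
      omega
    have hdec : m - Finsupp.single i 1 + Finsupp.single i 1 = m := tsub_add_cancel_of_le hle
    have hsum : (∑ j, (m - Finsupp.single i 1 : Fin n →₀ ℕ) j) = d := by
      have h1 : (∑ j, (m - Finsupp.single i 1 + Finsupp.single i 1 : Fin n →₀ ℕ) j) = d + 1 := by
        rw [hdec, hm]
      simp only [Finsupp.add_apply, Finset.sum_add_distrib] at h1
      have h2 : (∑ j, (Finsupp.single i 1 : Fin n →₀ ℕ) j) = 1 := by
        simp [Finsupp.single_apply]
      omega
    obtain ⟨I, hI⟩ := ih _ hsum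
    refine ⟨Fin.cons i I, ?_⟩
    rw [Fin.sum_univ_succ]
    simp only [Fin.cons_zero, Fin.cons_succ]
    rw [hI, add_comm]
    exact hdec

private theorem PolyOp_deg {n : ℕ} (m : Fin n →₀ ℕ) : m.degree = ∑ i, m i := by
  rw [Finsupp.degree_eq_sum]

private theorem PolyOp_wt_deg {a k : ℕ} (I : Fin a → Fin k) : (wt I).degree = a := by
  unfold wt
  rw [map_sum]
  simp

private theorem PolyOp_Xw {a k : ℕ} (J : Fin a → Fin k) :
    Xw J = monomial (wt J) (1 : ℝ) := by
  unfold Xw wt
  rw [monomial_sum_one]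
  rfl

private theorem PolyOp_Xw_hom {a k : ℕ} (J : Fin a → Fin k) : (Xw J).IsHomogeneous a := by
  rw [PolyOp_Xw]
  apply isHomogeneous_monomial
  exact PolyOp_wt_deg J

private theorem PolyOp_eval_Xw {a k : ℕ} (J : Fin a → Fin k) (v : Fin k → ℝ) :
    eval v (Xw J) = ∏ j, v (J j) := by
  unfold Xw
  rw [map_prod]
  simp

private theorem PolyOp_wt_perm {a k : ℕ} (e : Equiv.Perm (Fin a)) (I : Fin a → Fin k) :
    wt (fun j => I (e j)) = wt I := by
  unfold wt
  exact Equiv.sum_comp e fun j => Finsupp.single (I j) 1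

private theorem PolyOp_Xw_perm {a k : ℕ} (e : Equiv.Perm (Fin a)) (I : Fin a → Fin k) :
    Xw (fun j => I (e j)) = Xw I := by
  unfold Xw
  exact Equiv.prod_comp e fun j => X (I j)

theorem eval_polySubst (A : Matrix (Fin k) (Fin k) ℝ) (f : MvPolynomial (Fin k) ℝ)
    (v : Fin k → ℝ) : eval v (polySubst ℝ A f) = eval (A *ᵥ v) f := by
  have h : (aeval v : MvPolynomial (Fin k) ℝ →ₐ[ℝ] ℝ).comp (polySubst ℝ A) =
      aeval (A *ᵥ v) := by
    apply MvPolynomial.algHom_ext
    intro i
    rw [AlgHom.comp_apply]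
    unfold polySubst
    rw [aeval_X, aeval_X, map_sum]
    simp [Matrix.mulVec, dotProduct]
  have h1 := AlgHom.congr_fun h f
  rw [AlgHom.comp_apply] at h1
  have h2 : ∀ (w : Fin k → ℝ) (p : MvPolynomial (Fin k) ℝ), aeval w p = eval w p := by
    intro w p
    rw [← coe_aeval_eq_eval]
    rfl
  rwa [h2, h2] at h1

theorem isHomogeneous_polySubst (A : Matrix (Fin k) (Fin k) ℝ) {f : MvPolynomial (Fin k) ℝ}
    {d : ℕ} (hf : f.IsHomogeneous d) : (polySubst ℝ A f).IsHomogeneous d := by
  unfold polySubst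
  have h := hf.aeval (n := 1) (fun i => ∑ j, C (algebraMap ℝ ℝ (A i j)) * X j) (by
    intro i
    apply IsHomogeneous.sum
    intro j _
    have := (isHomogeneous_C (Fin k) (algebraMap ℝ ℝ (A i j))).mul (isHomogeneous_X ℝ j)
    rwa [zero_add] at this)
  rwa [one_mul] at h

theorem homogeneousComponent_polySubst (A : Matrix (Fin k) (Fin k) ℝ)
    (f : MvPolynomial (Fin k) ℝ) (d : ℕ) :
    homogeneousComponent d (polySubst ℝ A f) = polySubst ℝ A (homogeneousComponent d f) := by
  have h1 : ∀ i, homogeneousComponent d (polySubst ℝ A (homogeneousComponent i f)) =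
      if d = i then polySubst ℝ A (homogeneousComponent i f) else 0 := by
    intro i
    exact homogeneousComponent_of_mem (isHomogeneous_polySubst A
      (homogeneousComponent_isHomogeneous i f))
  conv_lhs => rw [← sum_homogeneousComponent f, map_sum, map_sum]
  rw [Finset.sum_congr rfl fun i _ => h1 i, Finset.sum_ite_eq]
  split_ifs with h
  · rfl
  · rw [Finset.mem_range, not_lt] at h
    rw [homogeneousComponent_eq_zero d f (by omega), map_zero]

private theorem PolyOp_nw_pos {a k : ℕ} (I : Fin a → Fin k) : 0 < nw I := by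
  unfold nw
  rw [Nat.card_pos_iff]
  exact ⟨⟨⟨I, rfl⟩⟩, Subtype.finite⟩

theorem eq_sum_words {f : MvPolynomial (Fin k) ℝ} (hf : f.IsHomogeneous a) :
    f = ∑ I : Fin a → Fin k, (coeff (wt I) f / nw I) • Xw I := by
  classical
  ext m
  rw [coeff_sum]
  have h1 : ∀ I : Fin a → Fin k, coeff m ((coeff (wt I) f / nw I) • Xw I) =
      if wt I = m then coeff m f / nw I else 0 := by
    intro I
    rw [coeff_smul, PolyOp_Xw, coeff_monomial]
    split_ifs with h
    · rw [smul_eq_mul, mul_one, h]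
    · rw [smul_zero]
  rw [Finset.sum_congr rfl fun I _ => h1 I, ← Finset.sum_filter]
  by_cases hm : ∃ I : Fin a → Fin k, wt I = m
  · obtain ⟨I0, hI0⟩ := hm
    have h2 : ∀ I ∈ Finset.univ.filter (fun I : Fin a → Fin k => wt I = m),
        coeff m f / (nw I : ℝ) = coeff m f / (nw I0 : ℝ) := by
      intro I hI
      rw [Finset.mem_filter] at hI
      have : nw I = nw I0 := by
        unfold nw
        rw [hI.2, hI0]
      rw [this]
    rw [Finset.sum_congr rfl h2, Finset.sum_const, nsmul_eq_mul]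
    have h3 : (Finset.univ.filter (fun I : Fin a → Fin k => wt I = m)).card = nw I0 := by
      unfold nw
      rw [hI0, Nat.card_eq_fintype_card, Fintype.card_subtype]
    have h4 : (nw I0 : ℝ) ≠ 0 := by
      have := PolyOp_nw_pos I0
      positivity
    rw [h3, mul_div_cancel₀ _ h4]
  · have h2 : coeff m f = 0 := by
      by_contra hne
      apply hm
      have h3 : m.degree = a := by
        by_contra hd
        exact hne (hf.coeff_eq_zero hd)
      rw [PolyOp_deg] at h3
      exact PolyOp_word a m h3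
    rw [h2]
    simp

theorem opT_bsym : BSym (opT a b E) := by
  refine ⟨fun e I J => ?_, fun e I J => ?_⟩
  · unfold opT nw
    rw [PolyOp_wt_perm]
  · unfold opT
    rw [PolyOp_Xw_perm]

private theorem PolyOp_word_sum (g : MvPolynomial (Fin k) ℝ) (v : Fin k → ℝ) :
    ∑ I : Fin a → Fin k, coeff (wt I) g / nw I * ∏ j, v (I j) =
      eval v (homogeneousComponent a g) := by
  have h1 := eq_sum_words (homogeneousComponent_isHomogeneous a g)
  have h2 := congrArg (eval v) h1
  rw [h2, map_sum]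
  refine Finset.sum_congr rfl fun I _ => ?_
  rw [smul_eval, PolyOp_eval_Xw, coeff_homogeneousComponent, if_pos (PolyOp_wt_deg I)]

private theorem PolyOp_pow (ξ : Fin k → ℝ) :
    (∑ i, C (ξ i) * X i : MvPolynomial (Fin k) ℝ) ^ b =
      ∑ J : Fin b → Fin k, (∏ j, ξ (J j)) • Xw J := by
  have h1 : (∑ i, C (ξ i) * X i : MvPolynomial (Fin k) ℝ) ^ b =
      ∏ _j : Fin b, ∑ i, C (ξ i) * X i := by
    rw [Finset.prod_const, Finset.card_univ, Fintype.card_fin]
  rw [h1, Finset.prod_univ_sum, Fintype.piFinset_univ]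
  refine Finset.sum_congr rfl fun J _ => ?_
  rw [Finset.prod_mul_distrib, smul_eq_C_mul, map_prod]
  rfl

theorem bpoly_opT (v ξ : Fin k → ℝ) :
    bpoly (opT a b E) v ξ =
      eval v (homogeneousComponent a (E ((∑ i, C (ξ i) * X i) ^ b))) := by
  rw [PolyOp_pow, map_sum, map_sum, map_sum]
  unfold bpoly
  rw [Finset.sum_comm]
  refine Finset.sum_congr rfl fun J _ => ?_
  rw [map_smul, map_smul, smul_eval, ← PolyOp_word_sum, Finset.mul_sum]
  refine Finset.sum_congr rfl fun I _ => ?_
  unfold opT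
  ring

private theorem PolyOp_subst_lin (g : Matrix (Fin k) (Fin k) ℝ) (ζ : Fin k → ℝ) :
    polySubst ℝ g (∑ i, C (ζ i) * X i) = ∑ i, C ((gᵀ *ᵥ ζ) i) * X i := by
  unfold polySubst
  rw [map_sum]
  have h1 : ∀ i, aeval (fun i => ∑ j, C (algebraMap ℝ ℝ (g i j)) * X j) (C (ζ i) * X i) =
      ∑ j, C (g i j * ζ i) * (X j : MvPolynomial (Fin k) ℝ) := by
    intro i
    rw [map_mul, aeval_X, ← algebraMap_eq, AlgHom.commutes, Finset.mul_sum]
    refine Finset.sum_congr rfl fun j _ => ?_
    simp only [algebraMap_eq, Algebra.algebraMap_self, RingHom.id_apply, C_mul]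
    ring
  rw [Finset.sum_congr rfl fun i _ => h1 i, Finset.sum_comm]
  refine Finset.sum_congr rfl fun j _ => ?_
  rw [← Finset.sum_mul, ← map_sum]
  rfl

theorem bpull_opT {g : Matrix (Fin k) (Fin k) ℝ} (hg : g.det ≠ 0)
    (h : ∀ f, E (polySubst ℝ g f) = polySubst ℝ g (E f)) :
    bpull (opT a b E) g g⁻¹ = opT a b E := by
  apply BSym.ext ((opT_bsym E).bpull _ _) (opT_bsym E)
  intro v ξ
  rw [bpoly_bpull, bpoly_opT, bpoly_opT, ← eval_polySubst, ← homogeneousComponent_polySubst, ← h,
    map_pow, PolyOp_subst_lin, mulVec_mulVec]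
  have hu : IsUnit g.det := isUnit_iff_ne_zero.2 hg
  rw [← transpose_mul, Matrix.nonsing_inv_mul g hu, transpose_one, one_mulVec]

theorem opT_eq_zero (h : opT a b E = 0) (f : MvPolynomial (Fin k) ℝ) (hf : f.IsHomogeneous b) :
    homogeneousComponent a (E f) = 0 := by
  rw [eq_sum_words hf, map_sum, map_sum]
  refine Finset.sum_eq_zero fun J _ => ?_
  rw [map_smul, map_smul]
  have h1 : homogeneousComponent a (E (Xw J)) = 0 := by
    rw [eq_sum_words (homogeneousComponent_isHomogeneous a (E (Xw J)))]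
    refine Finset.sum_eq_zero fun I _ => ?_
    rw [coeff_homogeneousComponent, if_pos (PolyOp_wt_deg I)]
    have h2 : coeff (wt I) (E (Xw J)) / nw I = 0 := congrFun (congrFun h I) J
    rw [h2, zero_smul]
  rw [h1, smul_zero]

theorem opT_comp (hF : ∀ f : MvPolynomial (Fin k) ℝ, f.IsHomogeneous a → (F f).IsHomogeneous a) :
    opT a a (E ∘ₗ F) = opT a a E * opT a a F := by
  funext I J
  rw [Matrix.mul_apply]
  have h1 := eq_sum_words (hF (Xw J) (PolyOp_Xw_hom J))
  have h2 : opT a a (E ∘ₗ F) I J = coeff (wt I) (E (F (Xw J))) / nw I := rfl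
  rw [h2, h1, map_sum, coeff_sum, Finset.sum_div]
  refine Finset.sum_congr rfl fun L _ => ?_
  rw [map_smul, coeff_smul, smul_eq_mul]
  unfold opT
  ring

theorem opT_add : opT a b (E + F) = opT a b E + opT a b F := by
  funext I J
  rw [Matrix.add_apply]
  unfold opT
  rw [LinearMap.add_apply, coeff_add, add_div]

theorem opT_smul (c : ℝ) : opT a b (c • E) = c • opT a b E := by
  funext I J
  rw [Matrix.smul_apply]
  unfold opT
  rw [LinearMap.smul_apply, coeff_smul, smul_eq_mul, smul_eq_mul, mul_div_assoc]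

theorem opT_eq_zero_of (h : ∀ f : MvPolynomial (Fin k) ℝ, f.IsHomogeneous b → E f = 0) :
    opT a b E = 0 := by
  funext I J
  unfold opT
  rw [h _ (PolyOp_Xw_hom J), coeff_zero, zero_div]
  rfl

end Pool.Agent.ChM
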