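import Pool.Agent.ChM.PolyDefs
import Pool.Agent.ChM.BSymm
import Pool.Agent.ChM.PolyOp

/-!
# The real tensor of a complex operator between homogeneous polynomials

Let `F(v, ξ) = eval v (E ((∑ i, ξ i X i) ^ b))` for real `v, ξ`, a complex number.
As `(∑ i, C (ξ i) * X i) ^ b = ∑ J, (∏ j, ξ (J j)) • ∏ j, X (J j)` (words `J : Fin b → Fin k`) and
`E (∏ j, X (J j))` is homogeneous of degree `a`, hence a linear combination of the `∏ j, X (I j)`
(words `I : Fin a → Fin k`) with complex coefficients `B I J`, one has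
`F(v, ξ) = ∑ I J, B I J (∏ v) (∏ ξ)`, so the real and imaginary parts of `F` are `bpoly` of the real
and imaginary parts of `B`.  By `exists_bmul`, `bpoly_add`, `exists_bsym` there is a bisymmetric `A`
of type `(a + a, b + b)` with `bpoly A v ξ = |F(v, ξ)|²` (`Complex.normSq`).

`A ≠ 0`: otherwise `F = 0` for all real `v, ξ`; polynomials vanishing at all real points are zero,
so `∑ J, (∏ j, ξ (J j)) E (∏ j, X (J j)) = 0` for all real `ξ`, and comparing the coefficients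
of the monomials in `ξ` (words with equal content have equal monomials)
`E (∏ j, X (J j)) = 0` for all words `J`; these span the homogeneous polynomials of degree `b`.

Equivariance: put `ζ = (g⁻¹)ᵀ ξ`, `ξ = gᵀ ζ`; then
`polySubst ℂ g ((∑ i, ζ i X i) ^ b) = (∑ i, ξ i X i) ^ b`, so `F(v, ξ) = c * F(g v, ζ)`, and
`bpoly (bpull A g g⁻¹) v ξ = bpoly A (g v) ζ = |F(g v, ζ)|²`.  If `c ≠ 0` this is
`|c|⁻² bpoly A v ξ` (`BSym.ext`); if `c = 0` then `F = 0`, so `bpoly A = 0` and `A = 0`.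
-/

namespace Pool.Agent.ChM

open Matrix MvPolynomial Pool.Agent.ChP

variable {k a b : ℕ}

/-- the complex monomial of a word -/
private noncomputable def PolyOpC_Xw {a k : ℕ} (J : Fin a → Fin k) : MvPolynomial (Fin k) ℂ :=
  ∏ j, X (J j)

private theorem PolyOpC_word {n : ℕ} (d : ℕ) : ∀ m : Fin n →₀ ℕ, (∑ i, m i) = d →
    ∃ I : Fin d → Fin n, (∑ k, Finsupp.single (I k) 1 : Fin n →₀ ℕ) = m := by
  classical
  induction d with
  | zero =>
    intro m hm
    refine ⟨Fin.elim0, ?_⟩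
    ext i
    have h1 : m i ≤ ∑ j, m j := Finset.single_le_sum (fun _ _ => Nat.zero_le _) (Finset.mem_univ i)
    rw [hm] at h1
    simp
    omega
  | succ d ih =>
    intro m hm
    have hex : ∃ i, m i ≠ 0 := by
      by_contra hcon
      push Not at hcon
      rw [Finset.sum_eq_zero fun i _ => hcon i] at hm
      omega
    obtain ⟨i, hi⟩ := hex
    have hle : Finsupp.single i 1 ≤ m := by
      rw [Finsupp.single_le_iff]
      omega
    have hdec : m - Finsupp.single i 1 + Finsupp.single i 1 = m := tsub_add_cancel_of_le hle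
    have hsum : (∑ j, (m - Finsupp.single i 1 : Fin n →₀ ℕ) j) = d := by
      have h1 : (∑ j, (m - Finsupp.single i 1 + Finsupp.single i 1 : Fin n →₀ ℕ) j) = d + 1 := by
        rw [hdec, hm]
      simp only [Finsupp.add_apply, Finset.sum_add_distrib] at h1
      have h2 : (∑ j, (Finsupp.single i 1 : Fin n →₀ ℕ) j) = 1 := by
        simp [Finsupp.single_apply]
      omega
    obtain ⟨I, hI⟩ := ih _ hsum
    refine ⟨Fin.cons i I, ?_⟩
    rw [Fin.sum_univ_succ]
    simp only [Fin.cons_zero, Fin.cons_succ]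
    rw [hI, add_comm]
    exact hdec

private theorem PolyOpC_deg {n : ℕ} (m : Fin n →₀ ℕ) : m.degree = ∑ i, m i := by
  rw [Finsupp.degree_eq_sum]

private theorem PolyOpC_wt_deg {a k : ℕ} (I : Fin a → Fin k) : (wt I).degree = a := by
  unfold wt
  rw [map_sum]
  simp

private theorem PolyOpC_Xw_eq {a k : ℕ} (J : Fin a → Fin k) :
    PolyOpC_Xw J = monomial (wt J) (1 : ℂ) := by
  unfold PolyOpC_Xw wt
  rw [monomial_sum_one]
  rfl

private theorem PolyOpC_Xw_hom {a k : ℕ} (J : Fin a → Fin k) :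
    (PolyOpC_Xw J).IsHomogeneous a := by
  rw [PolyOpC_Xw_eq]
  apply isHomogeneous_monomial
  exact PolyOpC_wt_deg J

private theorem PolyOpC_eval_Xw {a k : ℕ} (J : Fin a → Fin k) (v : Fin k → ℂ) :
    eval v (PolyOpC_Xw J) = ∏ j, v (J j) := by
  unfold PolyOpC_Xw
  rw [map_prod]
  simp

private theorem PolyOpC_eval_subst (A : Matrix (Fin k) (Fin k) ℝ) (f : MvPolynomial (Fin k) ℂ)
    (v : Fin k → ℝ) : eval (fun i => (v i : ℂ)) (polySubst ℂ A f) =
      eval (fun i => ((A *ᵥ v) i : ℂ)) f := by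
  have h : (aeval (fun i => (v i : ℂ)) : MvPolynomial (Fin k) ℂ →ₐ[ℂ] ℂ).comp (polySubst ℂ A) =
      aeval (fun i => ((A *ᵥ v) i : ℂ)) := by
    apply MvPolynomial.algHom_ext
    intro i
    rw [AlgHom.comp_apply]
    unfold polySubst
    rw [aeval_X, aeval_X, map_sum]
    simp [Matrix.mulVec, dotProduct]
  have h1 := AlgHom.congr_fun h f
  rw [AlgHom.comp_apply] at h1
  have h2 : ∀ (w : Fin k → ℂ) (p : MvPolynomial (Fin k) ℂ), aeval w p = eval w p := by
    intro w p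
    rw [← coe_aeval_eq_eval]
    rfl
  rwa [h2, h2] at h1

private theorem PolyOpC_nw_pos {a k : ℕ} (I : Fin a → Fin k) : 0 < nw I := by
  unfold nw
  rw [Nat.card_pos_iff]
  exact ⟨⟨⟨I, rfl⟩⟩, Subtype.finite⟩

private theorem PolyOpC_words {f : MvPolynomial (Fin k) ℂ} (hf : f.IsHomogeneous a) :
    f = ∑ I : Fin a → Fin k, (coeff (wt I) f / nw I) • PolyOpC_Xw I := by
  classical
  ext m
  rw [coeff_sum]
  have h1 : ∀ I : Fin a → Fin k, coeff m ((coeff (wt I) f / nw I) • PolyOpC_Xw I) =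
      if wt I = m then coeff m f / nw I else 0 := by
    intro I
    rw [coeff_smul, PolyOpC_Xw_eq, coeff_monomial]
    split_ifs with h
    · rw [smul_eq_mul, mul_one, h]
    · rw [smul_zero]
  rw [Finset.sum_congr rfl fun I _ => h1 I, ← Finset.sum_filter]
  by_cases hm : ∃ I : Fin a → Fin k, wt I = m
  · obtain ⟨I0, hI0⟩ := hm
    have h2 : ∀ I ∈ Finset.univ.filter (fun I : Fin a → Fin k => wt I = m),
        coeff m f / (nw I : ℂ) = coeff m f / (nw I0 : ℂ) := by
      intro I hI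
      rw [Finset.mem_filter] at hI
      have : nw I = nw I0 := by
        unfold nw
        rw [hI.2, hI0]
      rw [this]
    rw [Finset.sum_congr rfl h2, Finset.sum_const, nsmul_eq_mul]
    have h3 : (Finset.univ.filter (fun I : Fin a → Fin k => wt I = m)).card = nw I0 := by
      unfold nw
      rw [hI0, Nat.card_eq_fintype_card, Fintype.card_subtype]
    have h4 : (nw I0 : ℂ) ≠ 0 := by
      have := PolyOpC_nw_pos I0
      exact_mod_cast this.ne'
    rw [h3, mul_div_cancel₀ _ h4]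
  · have h2 : coeff m f = 0 := by
      by_contra hne
      apply hm
      have h3 : m.degree = a := by
        by_contra hd
        exact hne (hf.coeff_eq_zero hd)
      rw [PolyOpC_deg] at h3
      exact PolyOpC_word a m h3
    rw [h2]
    simp

private theorem PolyOpC_pow (ξ : Fin k → ℂ) :
    (∑ i, C (ξ i) * X i : MvPolynomial (Fin k) ℂ) ^ b =
      ∑ J : Fin b → Fin k, (∏ j, ξ (J j)) • PolyOpC_Xw J := by
  have h1 : (∑ i, C (ξ i) * X i : MvPolynomial (Fin k) ℂ) ^ b =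
      ∏ _j : Fin b, ∑ i, C (ξ i) * X i := by
    rw [Finset.prod_const, Finset.card_univ, Fintype.card_fin]
  rw [h1, Finset.prod_univ_sum, Fintype.piFinset_univ]
  refine Finset.sum_congr rfl fun J _ => ?_
  rw [Finset.prod_mul_distrib, smul_eq_C_mul, map_prod]
  rfl

private theorem PolyOpC_pow_hom (ξ : Fin k → ℂ) :
    ((∑ i, C (ξ i) * X i : MvPolynomial (Fin k) ℂ) ^ b).IsHomogeneous b := by
  rw [PolyOpC_pow]
  apply IsHomogeneous.sum
  intro J _
  rw [smul_eq_C_mul]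
  have := (isHomogeneous_C (Fin k) (∏ j, ξ (J j))).mul (PolyOpC_Xw_hom J)
  rwa [zero_add] at this

private theorem PolyOpC_subst_lin (g : Matrix (Fin k) (Fin k) ℝ) (ζ : Fin k → ℝ) :
    polySubst ℂ g (∑ i, C (ζ i : ℂ) * X i) = ∑ i, C ((gᵀ *ᵥ ζ) i : ℂ) * X i := by
  unfold polySubst
  rw [map_sum]
  have h1 : ∀ i, aeval (fun i => ∑ j, C (algebraMap ℝ ℂ (g i j)) * X j)
      (C (ζ i : ℂ) * X i : MvPolynomial (Fin k) ℂ) =
      ∑ j, C ((g i j * ζ i : ℝ) : ℂ) * (X j : MvPolynomial (Fin k) ℂ) := by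
    intro i
    rw [map_mul, aeval_X, ← algebraMap_eq, AlgHom.commutes, Finset.mul_sum]
    refine Finset.sum_congr rfl fun j _ => ?_
    simp only [algebraMap_eq, Complex.coe_algebraMap, Complex.ofReal_mul, C_mul]
    ring
  rw [Finset.sum_congr rfl fun i _ => h1 i, Finset.sum_comm]
  refine Finset.sum_congr rfl fun j _ => ?_
  rw [← Finset.sum_mul, ← map_sum]
  congr 2
  rw [← Complex.ofReal_sum]
  rfl

private theorem PolyOpC_real_infinite : (Set.range (fun x : ℝ => (x : ℂ))).Infinite :=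
  Set.infinite_range_of_injective Complex.ofReal_injective

private theorem PolyOpC_zero {p : MvPolynomial (Fin k) ℂ}
    (h : ∀ v : Fin k → ℝ, eval (fun i => (v i : ℂ)) p = 0) : p = 0 := by
  refine MvPolynomial.funext_set (fun _ => Set.range (fun x : ℝ => (x : ℂ)))
    (fun _ => PolyOpC_real_infinite) fun x hx => ?_
  rw [map_zero]
  have h1 : ∀ i, ∃ y : ℝ, (y : ℂ) = x i := fun i => hx i (Set.mem_univ i)
  choose y hy using h1
  have h2 : x = fun i => (y i : ℂ) := by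
    funext i
    exact (hy i).symm
  rw [h2]
  exact h y

private theorem PolyOpC_bpoly_zero (v ξ : Fin k → ℝ) :
    bpoly (0 : BTen a b k) v ξ = 0 := by
  unfold bpoly
  refine Finset.sum_eq_zero fun I _ => Finset.sum_eq_zero fun J _ => ?_
  rw [Matrix.zero_apply]
  ring

private theorem PolyOpC_bsym_zero : BSym (0 : BTen a b k) := ⟨fun _ _ _ => rfl, fun _ _ _ => rfl⟩

/-- the complex number of the two real vectors -/
private noncomputable def PolyOpC_F (b : ℕ)
    (E : MvPolynomial (Fin k) ℂ →ₗ[ℂ] MvPolynomial (Fin k) ℂ) (v ξ : Fin k → ℝ) : ℂ :=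
  eval (fun i => (v i : ℂ)) (E ((∑ i, C (ξ i : ℂ) * X i) ^ b))

private theorem PolyOpC_F_eq (E : MvPolynomial (Fin k) ℂ →ₗ[ℂ] MvPolynomial (Fin k) ℂ)
    (hE : ∀ f : MvPolynomial (Fin k) ℂ, f.IsHomogeneous b → (E f).IsHomogeneous a)
    (v ξ : Fin k → ℝ) :
    PolyOpC_F b E v ξ = ∑ I : Fin a → Fin k, ∑ J : Fin b → Fin k,
      (coeff (wt I) (E (PolyOpC_Xw J)) / nw I) * ((∏ j, v (I j) : ℝ) : ℂ) *
        ((∏ j, ξ (J j) : ℝ) : ℂ) := by
  unfold PolyOpC_F
  rw [PolyOpC_pow, map_sum, map_sum, Finset.sum_comm]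
  refine Finset.sum_congr rfl fun J _ => ?_
  rw [map_smul, smul_eval]
  have h1 := PolyOpC_words (hE (PolyOpC_Xw J) (PolyOpC_Xw_hom J))
  conv_lhs => rw [h1]
  rw [map_sum, Finset.mul_sum]
  refine Finset.sum_congr rfl fun I _ => ?_
  rw [smul_eval, PolyOpC_eval_Xw]
  push_cast
  ring

private theorem PolyOpC_re (B : Matrix (Fin a → Fin k) (Fin b → Fin k) ℂ) (v ξ : Fin k → ℝ) :
    (∑ I : Fin a → Fin k, ∑ J : Fin b → Fin k, B I J * ((∏ j, v (I j) : ℝ) : ℂ) *
      ((∏ j, ξ (J j) : ℝ) : ℂ)).re =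
      bpoly (fun I J => (B I J).re : BTen a b k) v ξ := by
  unfold bpoly
  rw [Complex.re_sum]
  refine Finset.sum_congr rfl fun I _ => ?_
  rw [Complex.re_sum]
  refine Finset.sum_congr rfl fun J _ => ?_
  rw [Complex.re_mul_ofReal, Complex.re_mul_ofReal]

private theorem PolyOpC_im (B : Matrix (Fin a → Fin k) (Fin b → Fin k) ℂ) (v ξ : Fin k → ℝ) :
    (∑ I : Fin a → Fin k, ∑ J : Fin b → Fin k, B I J * ((∏ j, v (I j) : ℝ) : ℂ) *
      ((∏ j, ξ (J j) : ℝ) : ℂ)).im =
      bpoly (fun I J => (B I J).im : BTen a b k) v ξ := by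
  unfold bpoly
  rw [Complex.im_sum]
  refine Finset.sum_congr rfl fun I _ => ?_
  rw [Complex.im_sum]
  refine Finset.sum_congr rfl fun J _ => ?_
  rw [Complex.im_mul_ofReal, Complex.im_mul_ofReal]

private theorem PolyOpC_vanish (E : MvPolynomial (Fin k) ℂ →ₗ[ℂ] MvPolynomial (Fin k) ℂ)
    (h : ∀ v ξ, PolyOpC_F b E v ξ = 0) (f : MvPolynomial (Fin k) ℂ) (hf : f.IsHomogeneous b) :
    E f = 0 := by
  classical
  have h1 : ∀ ξ : Fin k → ℝ, ∑ J : Fin b → Fin k, (∏ j, (ξ (J j) : ℂ)) • E (PolyOpC_Xw J) = 0 := by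
    intro ξ
    have h2 : E ((∑ i, C (ξ i : ℂ) * X i) ^ b) = 0 := PolyOpC_zero fun v => h v ξ
    rw [PolyOpC_pow, map_sum] at h2
    rw [← h2]
    refine Finset.sum_congr rfl fun J _ => ?_
    rw [map_smul]
  have h3 : ∀ J0 : Fin b → Fin k, E (PolyOpC_Xw J0) = 0 := by
    intro J0
    ext m
    rw [coeff_zero]
    have h4 : (∑ J : Fin b → Fin k, coeff m (E (PolyOpC_Xw J)) • PolyOpC_Xw J :
        MvPolynomial (Fin k) ℂ) = 0 := by
      refine PolyOpC_zero fun ξ => ?_
      rw [map_sum]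
      have h5 := congrArg (coeff m) (h1 ξ)
      rw [coeff_sum, coeff_zero] at h5
      rw [← h5]
      refine Finset.sum_congr rfl fun J _ => ?_
      rw [smul_eval, PolyOpC_eval_Xw, coeff_smul, smul_eq_mul, mul_comm]
    have h6 := congrArg (coeff (wt J0)) h4
    rw [coeff_sum, coeff_zero] at h6
    have h7 : ∀ J : Fin b → Fin k, coeff (wt J0) (coeff m (E (PolyOpC_Xw J)) • PolyOpC_Xw J) =
        if wt J = wt J0 then coeff m (E (PolyOpC_Xw J0)) else 0 := by
      intro J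
      rw [coeff_smul, PolyOpC_Xw_eq J, coeff_monomial]
      split_ifs with hJ
      · rw [smul_eq_mul, mul_one, PolyOpC_Xw_eq J0, hJ]
      · rw [smul_zero]
    rw [Finset.sum_congr rfl fun J _ => h7 J, ← Finset.sum_filter, Finset.sum_const,
      nsmul_eq_mul] at h6
    rcases mul_eq_zero.1 h6 with h8 | h8
    · exfalso
      have h9 : (Finset.univ.filter fun J : Fin b → Fin k => wt J = wt J0).card = 0 := by
        exact_mod_cast h8
      rw [Finset.card_eq_zero] at h9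
      have h10 : J0 ∈ Finset.univ.filter fun J : Fin b → Fin k => wt J = wt J0 :=
        Finset.mem_filter.2 ⟨Finset.mem_univ _, rfl⟩
      rw [h9] at h10
      exact absurd h10 (Finset.notMem_empty _)
    · exact h8
  rw [PolyOpC_words hf, map_sum]
  refine Finset.sum_eq_zero fun J _ => ?_
  rw [map_smul, h3, smul_zero]

theorem exists_real_bten {k a b : ℕ}
    (E : MvPolynomial (Fin k) ℂ →ₗ[ℂ] MvPolynomial (Fin k) ℂ)
    (hE : ∀ f : MvPolynomial (Fin k) ℂ, f.IsHomogeneous b → (E f).IsHomogeneous a)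
    (hne : ∃ f : MvPolynomial (Fin k) ℂ, f.IsHomogeneous b ∧ E f ≠ 0) :
    ∃ A : BTen (a + a) (b + b) k, BSym A ∧ A ≠ 0 ∧
      ∀ g : Matrix (Fin k) (Fin k) ℝ, g.det ≠ 0 →
        (∃ c : ℂ, ∀ f : MvPolynomial (Fin k) ℂ, f.IsHomogeneous b →
          E (polySubst ℂ g f) = c • polySubst ℂ g (E f)) →
        ∃ c' : ℝ, bpull A g g⁻¹ = c' • A := by
  set B : Matrix (Fin a → Fin k) (Fin b → Fin k) ℂ :=
    fun I J => coeff (wt I) (E (PolyOpC_Xw J)) / nw I with hB
  set Br : BTen a b k := fun I J => (B I J).re with hBr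
  set Bi : BTen a b k := fun I J => (B I J).im with hBi
  obtain ⟨C1, hC1⟩ := exists_bmul Br Br
  obtain ⟨C2, hC2⟩ := exists_bmul Bi Bi
  obtain ⟨A, hA, hAp⟩ := exists_bsym (C1 + C2)
  have hF : ∀ v ξ, bpoly A v ξ = Complex.normSq (PolyOpC_F b E v ξ) := by
    intro v ξ
    rw [hAp, bpoly_add, hC1, hC2, PolyOpC_F_eq E hE, Complex.normSq_apply]
    have e1 := PolyOpC_re B v ξ
    have e2 := PolyOpC_im B v ξ
    rw [hBr, hBi, ← e1, ← e2]
  have hA0 : A ≠ 0 := by
    intro h0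
    obtain ⟨f, hf, hfE⟩ := hne
    refine hfE (PolyOpC_vanish E (fun v ξ => ?_) f hf)
    have h1 := hF v ξ
    rw [h0, PolyOpC_bpoly_zero] at h1
    exact Complex.normSq_eq_zero.1 h1.symm
  refine ⟨A, hA, hA0, fun g hg hc => ?_⟩
  obtain ⟨c, hc⟩ := hc
  have hu : IsUnit g.det := isUnit_iff_ne_zero.2 hg
  have key : ∀ v ξ, bpoly A v ξ = Complex.normSq c * bpoly (bpull A g g⁻¹) v ξ := by
    intro v ξ
    rw [bpoly_bpull, hF, hF, ← Complex.normSq_mul]
    congr 1
    unfold PolyOpC_F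
    rw [← PolyOpC_eval_subst]
    have h1 : (∑ i, C (ξ i : ℂ) * X i : MvPolynomial (Fin k) ℂ) =
        polySubst ℂ g (∑ i, C ((((g⁻¹)ᵀ *ᵥ ξ) i : ℝ) : ℂ) * X i) := by
      rw [PolyOpC_subst_lin, mulVec_mulVec, ← transpose_mul, Matrix.nonsing_inv_mul g hu,
        transpose_one, one_mulVec]
    rw [h1, ← map_pow, hc _ (PolyOpC_pow_hom _), smul_eval]
  by_cases hc0 : c = 0
  · exfalso
    apply hA0
    refine hA.ext PolyOpC_bsym_zero fun v ξ => ?_
    rw [key, hc0, Complex.normSq_zero, zero_mul, PolyOpC_bpoly_zero]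
  · refine ⟨(Complex.normSq c)⁻¹, ?_⟩
    have hn : Complex.normSq c ≠ 0 := fun h => hc0 (Complex.normSq_eq_zero.1 h)
    refine (hA.bpull g g⁻¹).ext (hA.smul _) fun v ξ => ?_
    rw [bpoly_smul, key, ← mul_assoc, inv_mul_cancel₀ hn, one_mul]

end Pool.Agent.ChM
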