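import Pool.Agent.ChM.MainB
import Pool.Agent.ChM.PolyMain
import Pool.Agent.ChM.PolyOpC

/-!
# Operators on polynomials commuting with the linear holonomy
-/

namespace Pool.Agent.ChM

open Matrix Filter Topology Pool.Agent.ChP

theorem lin_mulVec {n : ℕ} (K : AffineTriangulation n) (γ : K.Γ) (v : Fin n → ℝ) :
    K.lin γ *ᵥ v = (K.hol γ).linear v := by
  have : K.lin γ =
      LinearMap.toMatrix' ((K.hol γ).linear : (Fin n → ℝ) →ₗ[ℝ] (Fin n → ℝ)) := rfl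
  rw [this, ← Matrix.toLin'_apply, Matrix.toLin'_toMatrix']
  rfl

variable {n : ℕ} (K : AffineTriangulation n)

/-- a surjective linear image determines a homomorphism -/
private theorem final_hom (H : Subgroup K.Γ) (W : Submodule ℝ (Fin n → ℝ))
    (hW : ∀ γ ∈ H, ∀ v ∈ W, (K.hol γ).linear v ∈ W) {k : ℕ} (π : W →ₗ[ℝ] (Fin k → ℝ))
    (hπ : Function.Surjective π) (τ : K.Γ → Matrix (Fin k) (Fin k) ℝ)
    (hτ : ∀ γ (hγ : γ ∈ H) (v : Fin n → ℝ) (hv : v ∈ W),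
      π ⟨(K.hol γ).linear v, hW γ hγ v hv⟩ = τ γ *ᵥ π ⟨v, hv⟩) :
    ∃ τ' : H →* Matrix (Fin k) (Fin k) ℝ, ∀ γ : H, τ' γ = τ γ := by
  have hext : ∀ A B : Matrix (Fin k) (Fin k) ℝ,
      (∀ w : W, A *ᵥ π w = B *ᵥ π w) → A = B := by
    intro A B h
    apply Matrix.toLin'.injective
    refine LinearMap.ext fun x => ?_
    obtain ⟨w, rfl⟩ := hπ x
    rw [Matrix.toLin'_apply, Matrix.toLin'_apply]
    exact h w
  refine ⟨⟨⟨fun γ => τ γ, ?_⟩, ?_⟩, fun γ => rfl⟩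
  · apply hext
    intro w
    have h1 := hτ ((1 : H) : K.Γ) (1 : H).2 w.1 w.2
    have h2 : π ⟨(K.hol ((1 : H) : K.Γ)).linear w.1, hW _ (1 : H).2 w.1 w.2⟩ = π w := by
      congr 1
      apply Subtype.ext
      show (K.hol ((1 : H) : K.Γ)).linear w.1 = w.1
      rw [← lin_mulVec, Subgroup.coe_one, map_one, Matrix.one_mulVec]
    rw [← h1, h2, Matrix.one_mulVec]
  · intro x y
    apply hext
    intro w
    have h1 := hτ _ (x * y).2 w.1 w.2
    have h2 := hτ _ y.2 w.1 w.2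
    have h3 := hτ _ x.2 ((K.hol (y : K.Γ)).linear w.1) (hW _ y.2 w.1 w.2)
    have h4 : π ⟨(K.hol ((x * y : H) : K.Γ)).linear w.1, hW _ (x * y).2 w.1 w.2⟩ =
        π ⟨(K.hol (x : K.Γ)).linear ((K.hol (y : K.Γ)).linear w.1),
          hW _ x.2 _ (hW _ y.2 w.1 w.2)⟩ := by
      congr 1
      apply Subtype.ext
      show (K.hol ((x * y : H) : K.Γ)).linear w.1 =
        (K.hol (x : K.Γ)).linear ((K.hol (y : K.Γ)).linear w.1)
      rw [← lin_mulVec, ← lin_mulVec, ← lin_mulVec, Subgroup.coe_mul, map_mul,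
        Matrix.mulVec_mulVec]
    show τ ((x * y : H) : K.Γ) *ᵥ π w = (τ (x : K.Γ) * τ (y : K.Γ)) *ᵥ π w
    rw [← h1, h4, h3, h2, Matrix.mulVec_mulVec]

/-- the commutant of the linear holonomy in the operators on the polynomials -/
private noncomputable def finalAlg {k : ℕ} (s : Set (Matrix (Fin k) (Fin k) ℝ)) :
    Subalgebra ℝ (Module.End ℝ (MvPolynomial (Fin k) ℝ)) :=
  Subalgebra.centralizer ℝ
    {T : Module.End ℝ (MvPolynomial (Fin k) ℝ) | ∃ g ∈ s, T = (polySubst ℝ g).toLinearMap}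

private theorem mem_finalAlg {k : ℕ} {s : Set (Matrix (Fin k) (Fin k) ℝ)}
    {E : Module.End ℝ (MvPolynomial (Fin k) ℝ)} :
    E ∈ finalAlg s ↔ ∀ g ∈ s, ∀ f, E (polySubst ℝ g f) = polySubst ℝ g (E f) := by
  unfold finalAlg
  rw [Subalgebra.mem_centralizer_iff]
  constructor
  · intro h g hg f
    have h1 := h _ ⟨g, hg, rfl⟩
    exact (LinearMap.congr_fun h1 f).symm
  · rintro h _ ⟨g, hg, rfl⟩
    refine LinearMap.ext fun f => ?_
    exact (h g hg f).symm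

/-- degree preservation -/
private theorem final_graded {k : ℕ} (E : Module.End ℝ (MvPolynomial (Fin k) ℝ))
    (h : ∀ a b : ℕ, a ≠ b → opT a b E = 0) (b : ℕ) (f : MvPolynomial (Fin k) ℝ)
    (hf : f.IsHomogeneous b) : (E f).IsHomogeneous b := by
  have h1 : E f = MvPolynomial.homogeneousComponent b (E f) := by
    conv_lhs => rw [← MvPolynomial.sum_homogeneousComponent (E f)]
    by_cases hb : b ∈ Finset.range ((E f).totalDegree + 1)
    · rw [Finset.sum_eq_single b]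
      · intro a _ hab
        exact opT_eq_zero E (h a b hab) f hf
      · intro hn
        exact absurd hb hn
    · have h2 : MvPolynomial.homogeneousComponent b (E f) = 0 := by
        apply MvPolynomial.homogeneousComponent_eq_zero
        rw [Finset.mem_range] at hb
        omega
      rw [h2]
      refine Finset.sum_eq_zero fun a ha => ?_
      refine opT_eq_zero E (h a b ?_) f hf
      rintro rfl
      exact hb ha
  rw [h1]
  exact MvPolynomial.homogeneousComponent_isHomogeneous b (E f)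

/-- The theorem for the whole group of deck transformations. -/
theorem final_full (hχ : K.eulerChar ≠ 0) {k : ℕ} (τ : K.Γ →* Matrix (Fin k) (Fin k) ℝ)
    (hτ : SubDeg K.lin τ) :
    (∀ a b : ℕ, a ≠ b → ∀ E : MvPolynomial (Fin k) ℂ →ₗ[ℂ] MvPolynomial (Fin k) ℂ,
      (∀ f, f.IsHomogeneous b → (E f).IsHomogeneous a) →
      (∀ γ : K.Γ, ∃ c : ℂ, ∀ f, f.IsHomogeneous b →
        E (polySubst ℂ (τ γ) f) = c • polySubst ℂ (τ γ) (E f)) →
      ∀ f, f.IsHomogeneous b → E f = 0) ∧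
    (∀ E F : MvPolynomial (Fin k) ℝ →ₗ[ℝ] MvPolynomial (Fin k) ℝ,
      (∀ γ : K.Γ, ∀ f, E (polySubst ℝ (τ γ) f) = polySubst ℝ (τ γ) (E f)) →
      (∀ γ : K.Γ, ∀ f, F (polySubst ℝ (τ γ) f) = polySubst ℝ (τ γ) (F f)) →
      E ∘ₗ F = F ∘ₗ E ∧ ⨆ μ : ℝ, Module.End.eigenspace E μ = ⊤) := by
  have hdet : ∀ γ : K.Γ, (τ γ).det ≠ 0 := fun γ => rep_det_ne_zero τ γ
  refine ⟨?_, ?_⟩
  · intro a b hab E hE hEq f hf
    by_contra hne
    obtain ⟨A, hA, hA0, hg⟩ := exists_real_bten E hE ⟨f, hf, hne⟩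
    exact hχ (eulerChar_of_ne K τ hτ (a := a + a) (b := b + b)
      (by omega) A hA hA0 fun γ => hg (τ γ) (hdet γ) (hEq γ))
  · obtain ⟨s, hs⟩ : ∃ s : Set (Matrix (Fin k) (Fin k) ℝ), s = {g | ∃ γ : K.Γ, g = τ γ} :=
      ⟨_, rfl⟩
    have hmem : ∀ E : Module.End ℝ (MvPolynomial (Fin k) ℝ),
        (∀ γ : K.Γ, ∀ f, E (polySubst ℝ (τ γ) f) = polySubst ℝ (τ γ) (E f)) →
        E ∈ finalAlg s := by
      intro E hE
      rw [mem_finalAlg, hs]
      rintro _ ⟨γ, rfl⟩ f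
      exact hE γ f
    have hinv : ∀ E ∈ finalAlg s, ∀ a b : ℕ, ∀ γ : K.Γ,
        bpull (opT a b E) (τ γ) (τ γ)⁻¹ = opT a b E := by
      intro E hE a b γ
      rw [mem_finalAlg, hs] at hE
      exact bpull_opT E (hdet γ) (hE (τ γ) ⟨γ, rfl⟩)
    have hzero : ∀ E ∈ finalAlg s, ∀ a b : ℕ, a ≠ b → opT a b E = 0 := by
      intro E hE a b hab
      by_contra h0
      refine hχ (eulerChar_of_ne K τ hτ hab (opT a b E)
        (opT_bsym E) h0 fun γ => ⟨1, ?_⟩)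
      rw [one_smul]
      exact hinv E hE a b γ
    have hgr : ∀ E ∈ finalAlg s, ∀ (b : ℕ) (f : MvPolynomial (Fin k) ℝ), f.IsHomogeneous b →
        (E f).IsHomogeneous b := fun E hE b f hf => final_graded E (hzero E hE) b f hf
    have htr : ∀ E ∈ finalAlg s, ∀ a : ℕ, opT a a E ≠ 0 →
        0 < Matrix.trace (opT a a E * opT a a E) := by
      intro E hE a h0
      by_contra hle
      exact hχ (eulerChar_of_trace K τ hτ (opT a a E)
        (opT_bsym E) h0 (hinv E hE a a) (not_lt.1 hle))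
    intro E F hE hF
    exact ⟨comm_of_graded (finalAlg s) hgr htr E F (hmem E hE) (hmem F hF),
      iSup_eigenspace_of_graded (finalAlg s) hgr htr E (hmem E hE)⟩

/-- The theorem for a subgroup of finite index. -/
theorem main_theorem (hχ : K.eulerChar ≠ 0) (H : Subgroup K.Γ) (hH : H.FiniteIndex)
    (W : Submodule ℝ (Fin n → ℝ)) (hW : ∀ γ ∈ H, ∀ v ∈ W, (K.hol γ).linear v ∈ W)
    {k : ℕ} (π : W →ₗ[ℝ] (Fin k → ℝ)) (hπ : Function.Surjective π)
    (τ : K.Γ → Matrix (Fin k) (Fin k) ℝ)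
    (hτ : ∀ γ (hγ : γ ∈ H) (v : Fin n → ℝ) (hv : v ∈ W),
      π ⟨(K.hol γ).linear v, hW γ hγ v hv⟩ = τ γ *ᵥ π ⟨v, hv⟩) :
    (∀ a b : ℕ, a ≠ b → ∀ E : MvPolynomial (Fin k) ℂ →ₗ[ℂ] MvPolynomial (Fin k) ℂ,
      (∀ f, f.IsHomogeneous b → (E f).IsHomogeneous a) →
      (∀ γ ∈ H, ∃ c : ℂ, ∀ f, f.IsHomogeneous b →
        E (polySubst ℂ (τ γ) f) = c • polySubst ℂ (τ γ) (E f)) →
      ∀ f, f.IsHomogeneous b → E f = 0) ∧
    (∀ E F : MvPolynomial (Fin k) ℝ →ₗ[ℝ] MvPolynomial (Fin k) ℝ,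
      (∀ γ ∈ H, ∀ f, E (polySubst ℝ (τ γ) f) = polySubst ℝ (τ γ) (E f)) →
      (∀ γ ∈ H, ∀ f, F (polySubst ℝ (τ γ) f) = polySubst ℝ (τ γ) (F f)) →
      E ∘ₗ F = F ∘ₗ E ∧ ⨆ μ : ℝ, Module.End.eigenspace E μ = ⊤) := by
  have hχ' : (K.restrict H).eulerChar ≠ 0 := by
    rw [K.restrict_eulerChar H]
    exact mul_ne_zero (by exact_mod_cast hH.index_ne_zero) hχ
  obtain ⟨τ', hτ'⟩ := final_hom K H W hW π hπ τ hτ
  have hlin : ∀ γ : H, ∀ v, (K.restrict H).lin γ *ᵥ v = (K.hol (γ : K.Γ)).linear v := by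
    intro γ v
    exact lin_mulVec (K.restrict H) γ v
  have hWH : ∀ γ : H, ∀ v ∈ W, (K.restrict H).lin γ *ᵥ v ∈ W := by
    intro γ v hv
    rw [hlin]
    exact hW γ γ.2 v hv
  have hτH : ∀ (γ : H) (v : Fin n → ℝ) (hv : v ∈ W),
      π ⟨(K.restrict H).lin γ *ᵥ v, hWH γ v hv⟩ = τ' γ *ᵥ π ⟨v, hv⟩ := by
    intro γ v hv
    have h1 := hτ γ γ.2 v hv
    rw [hτ', ← h1]
    congr 1
    exact Subtype.ext (hlin γ v)
  obtain ⟨h1, h2⟩ := final_full (K.restrict H) hχ' τ'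
    (exists_subquot (K.restrict H).lin W hWH π hπ τ' hτH)
  refine ⟨fun a b hab E hE hEq => ?_, fun E F hE hF => ?_⟩
  · have h3 : ∀ γ : H, ∃ c : ℂ, ∀ f, f.IsHomogeneous b →
        E (polySubst ℂ (τ' γ) f) = c • polySubst ℂ (τ' γ) (E f) := by
      intro γ
      rw [hτ' γ]
      exact hEq γ γ.2
    exact h1 a b hab E hE h3
  · have h3 : ∀ γ : H, ∀ f, E (polySubst ℝ (τ' γ) f) = polySubst ℝ (τ' γ) (E f) := by
      intro γ
      rw [hτ' γ]
      exact hE γ γ.2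
    have h4 : ∀ γ : H, ∀ f, F (polySubst ℝ (τ' γ) f) = polySubst ℝ (τ' γ) (F f) := by
      intro γ
      rw [hτ' γ]
      exact hF γ γ.2
    exact h2 E F h3 h4

end Pool.Agent.ChM
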