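import Pool.Agent.ChM.PolyDefs
import Pool.Agent.ChP.TriDefs

/-!
# Subquotients of the linear holonomy and operators on polynomials
-/

namespace Pool.Agent.ChM

open Pool.Agent.ChP MvPolynomial
open scoped Matrix

/-- The linear holonomy of `γ`: the linear part of its affine holonomy, applied to `v`. -/
def dhol {n : ℕ} (K : AffineTriangulation n) (γ : K.Γ) (v : Fin n → ℝ) : Fin n → ℝ :=
  (K.hol γ).linear v

/-- A chain of subquotients of the linear holonomy of the subgroup `H`: linear subspaces `W j` of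
`ℝ^n`, `j : Fin r`, linear maps `π j` from `ℝ^n` to `ℝ^(k j)` which map `W j` onto `ℝ^(k j)`, and
matrices `τ γ j` such that the linear holonomy of every `γ ∈ H` maps `W j` into itself and induces
`τ γ j` on `π j (W j) = ℝ^(k j)`; for `i < j` the subspace `W i` is contained in `W j` and in the
kernel of `π j`. -/
structure Pieces {n : ℕ} (K : AffineTriangulation n) (H : Subgroup K.Γ) where
  /-- the number of subquotients -/
  r : ℕ
  /-- their dimensions -/
  k : Fin r → ℕ
  /-- the invariant subspaces -/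
  W : Fin r → Submodule ℝ (Fin n → ℝ)
  /-- the projections to the subquotients (only their restrictions to the `W j` matter) -/
  π : ∀ j, Matrix (Fin (k j)) (Fin n) ℝ
  surj : ∀ j x, ∃ v ∈ W j, π j *ᵥ v = x
  chain : ∀ i j, i < j → ∀ v ∈ W i, v ∈ W j ∧ π j *ᵥ v = 0
  /-- the action on the subquotients -/
  τ : K.Γ → ∀ j, Matrix (Fin (k j)) (Fin (k j)) ℝ
  act : ∀ γ ∈ H, ∀ j, ∀ v ∈ W j, dhol K γ v ∈ W j ∧ π j *ᵥ dhol K γ v = τ γ j *ᵥ π j *ᵥ v

namespace Pieces

variable {n : ℕ} {K : AffineTriangulation n} {H : Subgroup K.Γ} (P : Pieces K H)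

/-- The index set of the coordinates of the direct sum `V = ⊕ j, ℝ^(k j)`. -/
abbrev Ix : Type := Σ j : Fin P.r, Fin (P.k j)

/-- The matrix of the action of `γ` on the direct sum `V = ⊕ j, ℝ^(k j)`. -/
noncomputable def mat (γ : K.Γ) : Matrix P.Ix P.Ix ℝ :=
  Matrix.blockDiagonal' (P.τ γ)

end Pieces

/-- The linear operators on the polynomials in the variables `X i`, `i : σ`, with coefficients
in `R`. -/
abbrev Op (R : Type) [CommRing R] (σ : Type) : Type :=
  MvPolynomial σ R →ₗ[R] MvPolynomial σ R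

section

variable {R : Type} [CommRing R] {σ : Type}

/-- `E` maps forms (homogeneous polynomials) of degree `b` to forms of degree `a`. -/
def MapsForms (E : Op R σ) (b a : ℕ) : Prop :=
  ∀ f, f.IsHomogeneous b → (E f).IsHomogeneous a

/-- `E f ≠ 0` for some form `f` of degree `b`. -/
def NonzeroOn (E : Op R σ) (b : ℕ) : Prop :=
  ∃ f, f.IsHomogeneous b ∧ E f ≠ 0

/-- `E (f ∘ γ) = c γ • (E f) ∘ γ` for all forms `f` of degree `b` and all `γ ∈ H`, where `γ` acts
on the space with coordinates `X i` by the matrix `τ γ`. -/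
def SemiEquivariant [Algebra ℝ R] [Fintype σ] {Γ : Type} [Group Γ] (H : Subgroup Γ)
    (τ : Γ → Matrix σ σ ℝ) (b : ℕ) (E : Op R σ) (c : Γ → R) : Prop :=
  ∀ γ ∈ H, ∀ f, f.IsHomogeneous b → E (polySubst R (τ γ) f) = c γ • polySubst R (τ γ) (E f)

/-- `E (f ∘ γ) = (E f) ∘ γ` for all polynomials `f` and all `γ ∈ H`, where `γ` acts on the space
with coordinates `X i` by the matrix `τ γ`. -/
def Equivariant [Algebra ℝ R] [Fintype σ] {Γ : Type} [Group Γ] (H : Subgroup Γ)
    (τ : Γ → Matrix σ σ ℝ) (E : Op R σ) : Prop :=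
  ∀ γ ∈ H, ∀ f, E (polySubst R (τ γ) f) = polySubst R (τ γ) (E f)

/-- The linear operator `E` is diagonalisable over `R`. -/
def Diagonalisable (E : Op R σ) : Prop :=
  (⨆ μ : R, Module.End.eigenspace E μ) = ⊤

end

end Pool.Agent.ChM
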