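import Pool.Agent.ChM.FinalMult
import Pool.Agent.ChM.Pieces

/-!
# The final theorems for chains of subquotients
-/

namespace Pool.Agent.ChM

open Matrix Filter Topology MvPolynomial Pool.Agent.ChP

/-- reindexing -/
theorem subDeg_of_index {n N : ℕ} {σ : Type} [Fintype σ] [DecidableEq σ] (e : σ ≃ Fin N)
    {Γ : Type} [Group Γ] (ρ : Γ →* Matrix (Fin n) (Fin n) ℝ) (M : Γ → Matrix σ σ ℝ)
    (h : ∃ (ρ₀ : Γ →* Matrix (Fin n) (Fin n) ℝ) (p : Matrix σ (Fin n) ℝ)
      (q : Matrix (Fin n) σ ℝ), p * q = 1 ∧ (∀ γ, p * ρ₀ γ = M γ * p) ∧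
      (∀ γ, ρ₀ γ * q = q * M γ) ∧
      ∀ κ : Γ →* ℝ, NoEul (scaleRep κ ρ₀) → NoEul (scaleRep κ ρ)) :
    ∃ τ : Γ →* Matrix (Fin N) (Fin N) ℝ, (∀ γ, τ γ = (M γ).submatrix e.symm e.symm) ∧
      SubDeg ρ τ := by
  obtain ⟨ρ₀, p, q, hpq, hp, hq, hlim⟩ := h
  have hM : ∀ γ, M γ = p * ρ₀ γ * q := by
    intro γ
    rw [hp, Matrix.mul_assoc, hpq, Matrix.mul_one]
  have h1 : M 1 = 1 := by rw [hM, map_one, Matrix.mul_one, hpq]
  have hmul : ∀ γ δ, M (γ * δ) = M γ * M δ := by
    intro γ δ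
    rw [hM (γ * δ), map_mul, ← Matrix.mul_assoc, hp, Matrix.mul_assoc (M γ * p), hq,
      ← Matrix.mul_assoc, Matrix.mul_assoc (M γ), hpq, Matrix.mul_one]
  refine ⟨⟨⟨fun γ => (M γ).submatrix e.symm e.symm, ?_⟩, ?_⟩, fun γ => rfl, ρ₀,
    p.submatrix e.symm id, q.submatrix id e.symm, ?_, ?_, ?_, hlim⟩
  · rw [h1, Matrix.submatrix_one_equiv]
  · intro γ δ
    show (M (γ * δ)).submatrix e.symm e.symm = _
    rw [hmul, Matrix.submatrix_mul_equiv]
  · have := Matrix.submatrix_mul p q e.symm id e.symm Function.bijective_id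
    rw [← this, hpq, Matrix.submatrix_one_equiv]
  · intro γ
    show p.submatrix e.symm id * ρ₀ γ = (M γ).submatrix e.symm e.symm * p.submatrix e.symm id
    rw [Matrix.submatrix_mul_equiv, ← hp]
    exact (Matrix.submatrix_mul p (ρ₀ γ) e.symm id id Function.bijective_id).symm
  · intro γ
    show ρ₀ γ * q.submatrix id e.symm = q.submatrix id e.symm * (M γ).submatrix e.symm e.symm
    rw [Matrix.submatrix_mul_equiv, ← hq]
    exact (Matrix.submatrix_mul (ρ₀ γ) q id id e.symm Function.bijective_id).symm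

variable {n : ℕ} {K : AffineTriangulation n} {H : Subgroup K.Γ}

theorem Pieces.exists_subDeg [H.FiniteIndex] (P : Pieces K H) :
    ∃ (N : ℕ) (e : P.Ix ≃ Fin N) (τ : (K.restrict H).Γ →* Matrix (Fin N) (Fin N) ℝ),
      (∀ γ : H, τ γ = (P.mat γ).submatrix e.symm e.symm) ∧ SubDeg (K.restrict H).lin τ := by
  have hlin : ∀ γ : H, ∀ v, (K.restrict H).lin γ *ᵥ v = dhol K (γ : K.Γ) v := by
    intro γ v
    exact lin_mulVec (K.restrict H) γ v
  have h := exists_chain (K.restrict H).lin P.W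
    (fun j => (Matrix.mulVecLin (P.π j)).comp (P.W j).subtype)
    (fun j x => by
      obtain ⟨v, hv, hx⟩ := P.surj j x
      exact ⟨⟨v, hv⟩, hx⟩)
    (fun i j hij v hv => ⟨(P.chain i j hij v hv).1, (P.chain i j hij v hv).2⟩)
    (fun γ => P.τ (H.subtype γ)) (fun γ j v hv => by
      obtain ⟨h, he⟩ := P.act (H.subtype γ) (Subtype.property (p := fun x => x ∈ H) γ) j v hv
      have h' : (K.restrict H).lin γ *ᵥ v ∈ P.W j := by
        rw [hlin]
        exact h
      refine ⟨h', ?_⟩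
      show P.π j *ᵥ ((K.restrict H).lin γ *ᵥ v) = _
      rw [hlin]
      exact he)
  obtain ⟨τ, h1, h2⟩ := subDeg_of_index (Fintype.equivFin P.Ix) (K.restrict H).lin
    (fun γ => P.mat (H.subtype γ)) h
  exact ⟨_, _, τ, fun γ => h1 γ, h2⟩

/-! ### Renaming the variables of an operator -/

section ext

variable {R : Type} [CommRing R] {σ ι : Type}

/-- the operator on the polynomials in the variables `ι` -/
noncomputable def reOp (e : σ ≃ ι) (E : Op R σ) : Op R ι :=
  (rename e).toLinearMap ∘ₗ E ∘ₗ (rename e.symm).toLinearMap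

theorem reOp_apply (e : σ ≃ ι) (E : Op R σ) (f : MvPolynomial ι R) :
    reOp e E f = rename e (E (rename e.symm f)) := rfl

private theorem re_symm (e : σ ≃ ι) (f : MvPolynomial σ R) :
    rename e.symm (rename e f) = f := by
  rw [rename_rename, Equiv.symm_comp_self, rename_id, AlgHom.id_apply]

private theorem re_symm' (e : σ ≃ ι) (f : MvPolynomial ι R) :
    rename e (rename e.symm f) = f := by
  rw [rename_rename, Equiv.self_comp_symm, rename_id, AlgHom.id_apply]

theorem reOp_rename (e : σ ≃ ι) (E : Op R σ) (f : MvPolynomial σ R) :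
    reOp e E (rename e f) = rename e (E f) := by
  rw [reOp_apply, re_symm]

end ext

/-- Linear maps between forms commuting with the linear holonomy up to scalars. -/
theorem theoremA (K : AffineTriangulation n) (hχ : K.eulerChar ≠ 0) (H : Subgroup K.Γ)
    (hH : H.FiniteIndex) (P : Pieces K H) {a b : ℕ} (E : Op ℂ P.Ix) (hE : MapsForms E b a)
    (h0 : NonzeroOn E b) (c : K.Γ → ℂ) (hc : SemiEquivariant H P.mat b E c) :
    a = b ∧ ∃ N : ℕ, 0 < N ∧ ∀ γ ∈ H, c γ ^ N = 1 := by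
  have hχ' : (K.restrict H).eulerChar ≠ 0 := by
    rw [K.restrict_eulerChar H]
    exact mul_ne_zero (by exact_mod_cast hH.index_ne_zero) hχ
  obtain ⟨N, e, τ, hτ, hsub⟩ := P.exists_subDeg
  obtain ⟨f, hf, hfE⟩ := h0
  have h := final_mult (K.restrict H) hχ' τ hsub (reOp e E)
    (fun f hf => (hE _ hf.rename_isHomogeneous).rename_isHomogeneous)
    ⟨rename e f, hf.rename_isHomogeneous, by
      rw [reOp_rename]
      intro h
      exact hfE (rename_injective e e.injective (by rw [h, map_zero]))⟩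
    (fun γ => c (H.subtype γ)) (by
      intro γ f hf
      have hγ : H.subtype γ ∈ H := Subtype.property (p := fun x => x ∈ H) γ
      rw [hτ γ]
      show reOp e E (polySubst ℂ ((P.mat (H.subtype γ)).submatrix e.symm e.symm) _) = _ •
        polySubst ℂ ((P.mat (H.subtype γ)).submatrix e.symm e.symm) _
      have h1 := hc (H.subtype γ) hγ (rename e.symm f) hf.rename_isHomogeneous
      obtain ⟨f', rfl⟩ : ∃ f', f = rename e f' := ⟨rename e.symm f, (re_symm' e f).symm⟩
      rw [re_symm] at h1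
      rw [← rename_polySubst, reOp_rename, reOp_rename, ← rename_polySubst, ← map_smul, ← h1])
  refine ⟨h.1, ?_⟩
  obtain ⟨M, hM, h2⟩ := h.2
  exact ⟨M, hM, fun γ hγ => h2 (⟨γ, hγ⟩ : H)⟩

/-- The commutant of the linear holonomy on polynomials. -/
theorem theoremB (K : AffineTriangulation n) (hχ : K.eulerChar ≠ 0) (H : Subgroup K.Γ)
    (hH : H.FiniteIndex) (P : Pieces K H) (E F : Op ℝ P.Ix) (hE : Equivariant H P.mat E)
    (hF : Equivariant H P.mat F) : E ∘ₗ F = F ∘ₗ E ∧ Diagonalisable E := by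
  have hχ' : (K.restrict H).eulerChar ≠ 0 := by
    rw [K.restrict_eulerChar H]
    exact mul_ne_zero (by exact_mod_cast hH.index_ne_zero) hχ
  obtain ⟨N, e, τ, hτ, hsub⟩ := P.exists_subDeg
  have hcomm : ∀ E : Op ℝ P.Ix, Equivariant H P.mat E → ∀ (γ : H) (f : MvPolynomial (Fin N) ℝ),
      reOp e E (polySubst ℝ (τ γ) f) = polySubst ℝ (τ γ) (reOp e E f) := by
    intro E hE γ f
    rw [hτ γ]
    obtain ⟨f', rfl⟩ : ∃ f', f = rename e f' := ⟨rename e.symm f, (re_symm' e f).symm⟩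
    rw [← rename_polySubst, reOp_rename, reOp_rename, ← rename_polySubst, hE _ γ.2]
  have h := (final_full (K.restrict H) hχ' τ hsub).2 (reOp e E) (reOp e F)
    (fun γ f => hcomm E hE γ f) (fun γ f => hcomm F hF γ f)
  refine ⟨?_, ?_⟩
  · refine LinearMap.ext fun f => ?_
    have h1 := LinearMap.congr_fun h.1 (rename e f)
    rw [LinearMap.comp_apply, LinearMap.comp_apply, reOp_rename, reOp_rename, reOp_rename,
      reOp_rename] at h1
    exact rename_injective e e.injective h1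
  · have hs : Function.Surjective (rename e.symm : MvPolynomial (Fin N) ℝ → MvPolynomial P.Ix ℝ) :=
      fun f => ⟨rename e f, re_symm e f⟩
    have h2 : (⊤ : Submodule ℝ (MvPolynomial P.Ix ℝ)) =
        Submodule.map (rename e.symm : MvPolynomial (Fin N) ℝ →ₐ[ℝ] MvPolynomial P.Ix ℝ).toLinearMap
          ⊤ := by
      rw [Submodule.map_top, LinearMap.range_eq_top.2 hs]
    show (⨆ μ : ℝ, Module.End.eigenspace E μ) = ⊤
    rw [eq_top_iff, h2, ← h.2, Submodule.map_iSup]
    refine iSup_mono fun μ => ?_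
    rintro _ ⟨g, hg, rfl⟩
    rw [SetLike.mem_coe, Module.End.mem_eigenspace_iff] at hg
    rw [Module.End.mem_eigenspace_iff]
    have h3 := congrArg (rename e.symm) hg
    rw [reOp_apply, re_symm, map_smul] at h3
    exact h3

theorem theoremA' (K : AffineTriangulation n) (H : Subgroup K.Γ) (hH : H.FiniteIndex)
    (P : Pieces K H) (a b : ℕ) (E : Op ℂ P.Ix) (hE : MapsForms E b a) (h0 : NonzeroOn E b)
    (c : K.Γ → ℂ) (hc : SemiEquivariant H P.mat b E c)
    (h : a ≠ b ∨ ∀ N : ℕ, 0 < N → ∃ γ ∈ H, c γ ^ N ≠ 1) : K.eulerChar = 0 := by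
  by_contra hχ
  obtain ⟨h1, N, hN, h2⟩ := theoremA K hχ H hH P E hE h0 c hc
  rcases h with h | h
  · exact h h1
  · obtain ⟨γ, hγ, h3⟩ := h N hN
    exact h3 (h2 γ hγ)

theorem theoremB' (K : AffineTriangulation n) (H : Subgroup K.Γ) (hH : H.FiniteIndex)
    (P : Pieces K H) (E F : Op ℝ P.Ix) (hE : Equivariant H P.mat E)
    (hF : Equivariant H P.mat F) (h : E ∘ₗ F ≠ F ∘ₗ E ∨ ¬ Diagonalisable E) :
    K.eulerChar = 0 := by
  by_contra hχ
  obtain ⟨h1, h2⟩ := theoremB K hχ H hH P E F hE hF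
  exact h.elim (fun h => h h1) (fun h => h h2)

end Pool.Agent.ChM
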