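import Pool.Agent.ChM.PolyDefs

/-!
# Linear substitutions in polynomials: renaming of variables, degrees
-/

namespace Pool.Agent.ChM

open MvPolynomial

section

variable {R : Type*} [CommRing R] [Algebra ℝ R] {σ ι : Type*} [Fintype σ] [Fintype ι]

theorem rename_polySubst (e : σ ≃ ι) (A : Matrix σ σ ℝ) (f : MvPolynomial σ R) :
    rename e (polySubst R A f) = polySubst R (A.submatrix e.symm e.symm) (rename e f) := by
  have h : (rename e : MvPolynomial σ R →ₐ[R] MvPolynomial ι R).comp (polySubst R A) =
      (polySubst R (A.submatrix e.symm e.symm)).comp (rename e) := by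
    apply MvPolynomial.algHom_ext
    intro i
    unfold polySubst
    rw [AlgHom.comp_apply, AlgHom.comp_apply, aeval_X, rename_X, aeval_X, map_sum]
    rw [← e.sum_comp (fun j => C (algebraMap ℝ R (A.submatrix e.symm e.symm (e i) j)) *
      (X j : MvPolynomial ι R))]
    refine Finset.sum_congr rfl fun j _ => ?_
    rw [map_mul, rename_X, rename_C, Matrix.submatrix_apply, Equiv.symm_apply_apply,
      Equiv.symm_apply_apply]
  exact DFunLike.congr_fun h f

theorem polySubst_isHomogeneous (A : Matrix σ σ ℝ) {f : MvPolynomial σ R} {b : ℕ}
    (hf : f.IsHomogeneous b) : (polySubst R A f).IsHomogeneous b := by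
  unfold polySubst
  have h := hf.aeval (S := R) (fun i => ∑ j, C (algebraMap ℝ R (A i j)) * (X j : MvPolynomial σ R))
    (n := 1) (fun i => by
      apply IsHomogeneous.sum
      intro j _
      have := (isHomogeneous_C σ (algebraMap ℝ R (A i j))).mul (isHomogeneous_X R j)
      rwa [zero_add] at this)
  rwa [one_mul] at h

theorem polySubst_homogeneousComponent (A : Matrix σ σ ℝ) (f : MvPolynomial σ R) (b : ℕ) :
    homogeneousComponent b (polySubst R A f) = polySubst R A (homogeneousComponent b f) := by
  conv_lhs => rw [← sum_homogeneousComponent f, map_sum, map_sum]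
  have h1 : ∀ i ∈ Finset.range (f.totalDegree + 1),
      homogeneousComponent b (polySubst R A (homogeneousComponent i f)) =
        if i = b then polySubst R A (homogeneousComponent b f) else 0 := by
    intro i _
    have h2 := polySubst_isHomogeneous A (homogeneousComponent_isHomogeneous i f)
    have h3 := homogeneousComponent_of_mem (m := b)
      ((mem_homogeneousSubmodule i (polySubst R A (homogeneousComponent i f))).2 h2)
    rw [h3]
    by_cases hib : i = b
    · subst hib
      simp
    · rw [if_neg hib, if_neg (fun h => hib h.symm)]
  rw [Finset.sum_congr rfl h1, Finset.sum_ite_eq']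
  split_ifs with hb
  · rfl
  · rw [Finset.mem_range] at hb
    rw [homogeneousComponent_eq_zero b f (by omega), map_zero]

end

end Pool.Agent.ChM
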