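import Pool.Agent.ChM.NoEulMult
import Pool.Agent.ChM.PolyOpCx
import Pool.Agent.ChM.PolyRe
import Pool.Agent.ChM.Chain
import Pool.Agent.ChM.Final

/-!
# Linear maps between forms commuting with the linear holonomy up to scalars
-/

namespace Pool.Agent.ChM

open Matrix Filter Topology MvPolynomial Pool.Agent.ChP

section tensors

variable {n : ℕ} (K : AffineTriangulation n)

private theorem finalMult_pull {n k a b : ℕ} (A : BTen a b k)
    {R : Matrix (Fin n) (Fin n) ℝ} (hR : R.det ≠ 0) {t : Matrix (Fin k) (Fin k) ℝ}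
    (ht : t.det ≠ 0) {p : Matrix (Fin k) (Fin n) ℝ} {q : Matrix (Fin n) (Fin k) ℝ}
    (hp : p * R = t * p) (hq : R * q = q * t) :
    bpull (bpull A p q) R R⁻¹ = bpull (bpull A t t⁻¹) p q := by
  have := mainB_pull A 1 one_ne_zero hR ht hp hq
  rwa [one_smul, one_smul] at this

private theorem finalMult_add {n k a b : ℕ} (A B : BTen a b k) (p : Matrix (Fin k) (Fin n) ℝ)
    (q : Matrix (Fin n) (Fin k) ℝ) : bpull (A + B) p q = bpull A p q + bpull B p q := by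
  unfold bpull
  rw [Matrix.mul_add, Matrix.add_mul]

private theorem finalMult_sub {n k a b : ℕ} (A B : BTen a b k) (p : Matrix (Fin k) (Fin n) ℝ)
    (q : Matrix (Fin n) (Fin k) ℝ) : bpull (A - B) p q = bpull A p q - bpull B p q := by
  unfold bpull
  rw [Matrix.mul_sub, Matrix.sub_mul]

private theorem finalMult_scaleRep {n : ℕ} {Γ : Type} [Group Γ]
    (ρ : Γ →* Matrix (Fin n) (Fin n) ℝ) : scaleRep 1 ρ = ρ := by
  ext γ : 1
  show (1 : ℝ) • ρ γ = ρ γ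
  rw [one_smul]

/-- real tensors with multipliers -/
theorem eulerChar_of_modulus {k : ℕ} (τ : K.Γ →* Matrix (Fin k) (Fin k) ℝ)
    (hτ : SubDeg K.lin τ) {a b : ℕ} (A : BTen a b k) (hA : BSym A) (hA0 : A ≠ 0) (c : K.Γ → ℝ)
    (h : ∀ γ, bpull A (τ γ) (τ γ)⁻¹ = c γ • A) (γ₀ : K.Γ) (hγ : c γ₀ ^ 2 ≠ 1) :
    K.eulerChar = 0 := by
  obtain ⟨ρ₀, p, q, hpq, hp, hq, hlim⟩ := hτ
  have hn : 0 < n := by
    rcases Nat.eq_zero_or_pos n with rfl | hn
    · exfalso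
      have hk : IsEmpty (Fin k) := by
        refine ⟨fun i => ?_⟩
        have h1 : (p * q) i i = (1 : Matrix (Fin k) (Fin k) ℝ) i i := by rw [hpq]
        rw [Matrix.mul_apply, Matrix.one_apply_eq] at h1
        simp at h1
      have h1 := h γ₀
      rw [Subsingleton.elim (τ γ₀) 1, inv_one, bpull_one] at h1
      have h2 : (1 - c γ₀) • A = 0 := by rw [sub_smul, one_smul, ← h1, sub_self]
      rcases smul_eq_zero.1 h2 with h3 | h3
      · apply hγ
        rw [← sub_eq_zero.1 h3, one_pow]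
      · exact hA0 h3
    · exact hn
  refine eulerChar_eq_zero_of_noEul K hn 1 (fun γ => one_pos) (scaleRep 1 K.lin) (fun γ => rfl)
    (hlim 1 ?_)
  rw [finalMult_scaleRep]
  refine noEul_of_modulus ρ₀ (bpull A p q) (hA.bpull p q) (mainB_ne hA0 hpq) c (fun γ => ?_)
    γ₀ hγ
  rw [finalMult_pull A (rep_det_ne_zero ρ₀ γ) (rep_det_ne_zero τ γ) (hp γ) (hq γ), h, bpull_smul]

/-- complex tensors with multipliers of absolute value one -/
theorem eulerChar_of_phase {k : ℕ} (τ : K.Γ →* Matrix (Fin k) (Fin k) ℝ)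
    (hτ : SubDeg K.lin τ) {a : ℕ} (A₁ A₂ : BTen a a k) (hA₁ : BSym A₁) (hA₂ : BSym A₂)
    (hA0 : A₁ ≠ 0 ∨ A₂ ≠ 0) (c : K.Γ → ℂ) (hc : ∀ γ, ‖c γ‖ = 1)
    (h1 : ∀ γ, bpull A₁ (τ γ) (τ γ)⁻¹ = (c γ).re • A₁ - (c γ).im • A₂)
    (h2 : ∀ γ, bpull A₂ (τ γ) (τ γ)⁻¹ = (c γ).im • A₁ + (c γ).re • A₂) (γ₀ : K.Γ)
    (hγ : c γ₀ ^ (2 * (Fintype.card (Fin a → Fin n)).factorial) ≠ 1) : K.eulerChar = 0 := by
  obtain ⟨ρ₀, p, q, hpq, hp, hq, hlim⟩ := hτ
  have hn : 0 < n := by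
    rcases Nat.eq_zero_or_pos n with rfl | hn
    · exfalso
      have hk : IsEmpty (Fin k) := by
        refine ⟨fun i => ?_⟩
        have h1 : (p * q) i i = (1 : Matrix (Fin k) (Fin k) ℝ) i i := by rw [hpq]
        rw [Matrix.mul_apply, Matrix.one_apply_eq] at h1
        simp at h1
      have e1 := h1 γ₀
      have e2 := h2 γ₀
      rw [Subsingleton.elim (τ γ₀) 1, inv_one, bpull_one] at e1 e2
      -- `A₁ = re A₁ - im A₂`, `A₂ = im A₁ + re A₂`
      have e3 : ((c γ₀).re - 1) * ((c γ₀).re - 1) + (c γ₀).im * (c γ₀).im = 0 := by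
        by_contra hne
        have e1' : ((c γ₀).re - 1) • A₁ - (c γ₀).im • A₂ = 0 := by
          rw [sub_smul, one_smul]
          nth_rewrite 2 [e1]
          abel
        have e2' : (c γ₀).im • A₁ + ((c γ₀).re - 1) • A₂ = 0 := by
          rw [sub_smul, one_smul]
          nth_rewrite 2 [e2]
          abel
        have e4 : (((c γ₀).re - 1) * ((c γ₀).re - 1) + (c γ₀).im * (c γ₀).im) • A₁ = 0 := by
          have : ((c γ₀).re - 1) • (((c γ₀).re - 1) • A₁ - (c γ₀).im • A₂) +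
              (c γ₀).im • ((c γ₀).im • A₁ + ((c γ₀).re - 1) • A₂) = 0 := by
            rw [e1', e2', smul_zero, smul_zero, add_zero]
          rw [smul_sub, smul_add, smul_smul, smul_smul, smul_smul, smul_smul,
            mul_comm (c γ₀).im ((c γ₀).re - 1)] at this
          rw [add_smul, ← this]
          abel
        have e5 : (((c γ₀).re - 1) * ((c γ₀).re - 1) + (c γ₀).im * (c γ₀).im) • A₂ = 0 := by
          have : ((c γ₀).re - 1) • ((c γ₀).im • A₁ + ((c γ₀).re - 1) • A₂) -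
              (c γ₀).im • (((c γ₀).re - 1) • A₁ - (c γ₀).im • A₂) = 0 := by
            rw [e1', e2', smul_zero, smul_zero, sub_zero]
          rw [smul_sub, smul_add, smul_smul, smul_smul, smul_smul, smul_smul,
            mul_comm (c γ₀).im ((c γ₀).re - 1)] at this
          rw [add_smul, ← this]
          abel
        rcases hA0 with h3 | h3
        · exact h3 ((smul_eq_zero.1 e4).resolve_left hne)
        · exact h3 ((smul_eq_zero.1 e5).resolve_left hne)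
      apply hγ
      have e6 : (c γ₀).re = 1 := by nlinarith [mul_self_nonneg ((c γ₀).re - 1), mul_self_nonneg (c γ₀).im]
      have e7 : (c γ₀).im = 0 := by nlinarith [mul_self_nonneg ((c γ₀).re - 1), mul_self_nonneg (c γ₀).im]
      have e8 : c γ₀ = 1 := Complex.ext e6 e7
      rw [e8, one_pow]
    · exact hn
  refine eulerChar_eq_zero_of_noEul K hn 1 (fun γ => one_pos) (scaleRep 1 K.lin) (fun γ => rfl)
    (hlim 1 ?_)
  rw [finalMult_scaleRep]
  refine noEul_of_phase ρ₀ (bpull A₁ p q) (bpull A₂ p q) (hA₁.bpull p q) (hA₂.bpull p q)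
    (hA0.imp (fun h => mainB_ne h hpq) (fun h => mainB_ne h hpq)) c hc (fun γ => ?_) (fun γ => ?_)
    γ₀ hγ
  · rw [finalMult_pull A₁ (rep_det_ne_zero ρ₀ γ) (rep_det_ne_zero τ γ) (hp γ) (hq γ), h1,
      finalMult_sub, bpull_smul, bpull_smul]
  · rw [finalMult_pull A₂ (rep_det_ne_zero ρ₀ γ) (rep_det_ne_zero τ γ) (hp γ) (hq γ), h2,
      finalMult_add, bpull_smul, bpull_smul]

/-- Linear maps between forms commuting with the linear holonomy up to scalars. -/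
theorem final_mult (hχ : K.eulerChar ≠ 0) {k : ℕ} (τ : K.Γ →* Matrix (Fin k) (Fin k) ℝ)
    (hτ : SubDeg K.lin τ) {a b : ℕ} (E : MvPolynomial (Fin k) ℂ →ₗ[ℂ] MvPolynomial (Fin k) ℂ)
    (hE : ∀ f : MvPolynomial (Fin k) ℂ, f.IsHomogeneous b → (E f).IsHomogeneous a)
    (hne : ∃ f : MvPolynomial (Fin k) ℂ, f.IsHomogeneous b ∧ E f ≠ 0) (c : K.Γ → ℂ)
    (hc : ∀ γ, ∀ f : MvPolynomial (Fin k) ℂ, f.IsHomogeneous b →
      E (polySubst ℂ (τ γ) f) = c γ • polySubst ℂ (τ γ) (E f)) :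
    a = b ∧ ∃ N : ℕ, 0 < N ∧ ∀ γ, c γ ^ N = 1 := by
  have hdet : ∀ γ : K.Γ, (τ γ).det ≠ 0 := fun γ => rep_det_ne_zero τ γ
  have hab : a = b := by
    by_contra hab
    obtain ⟨f, hf, hfE⟩ := hne
    exact hfE ((final_full K hχ τ hτ).1 a b hab E hE (fun γ => ⟨c γ, hc γ⟩) f hf)
  subst hab
  refine ⟨rfl, 2 * (Fintype.card (Fin a → Fin n)).factorial,
    Nat.mul_pos two_pos (Nat.factorial_pos _), ?_⟩
  obtain ⟨A₁, A₂, hA₁, hA₂, hA0, hg⟩ := exists_cx_bten E hE hne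
  have h0 : ∀ γ, c γ ≠ 0 := fun γ => (hg (τ γ) (hdet γ) (c γ) (hc γ)).1
  have h1 : ∀ γ, bpull A₁ (τ γ) (τ γ)⁻¹ = ((c γ)⁻¹).re • A₁ - ((c γ)⁻¹).im • A₂ :=
    fun γ => (hg (τ γ) (hdet γ) (c γ) (hc γ)).2.1
  have h2 : ∀ γ, bpull A₂ (τ γ) (τ γ)⁻¹ = ((c γ)⁻¹).im • A₁ + ((c γ)⁻¹).re • A₂ :=
    fun γ => (hg (τ γ) (hdet γ) (c γ) (hc γ)).2.2
  have hnorm : ∀ γ, ‖(c γ)⁻¹‖ = 1 := by
    intro γ
    obtain ⟨A, hA, hAne, hAg⟩ := exists_normsq A₁ A₂ hA₁ hA₂ hA0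
    by_contra hn
    refine hχ (eulerChar_of_modulus K τ hτ A hA hAne (fun γ => Complex.normSq ((c γ)⁻¹))
      (fun γ => hAg _ _ (h1 γ) (h2 γ)) γ fun h => ?_)
    rw [Complex.normSq_eq_norm_sq, ← pow_mul] at h
    exact hn ((pow_eq_one_iff_of_nonneg (norm_nonneg _) (by norm_num)).1 h)
  intro γ
  by_contra hγ
  refine hχ (eulerChar_of_phase K τ hτ A₁ A₂ hA₁ hA₂ hA0 (fun γ => (c γ)⁻¹) hnorm h1 h2 γ ?_)
  rw [inv_pow]
  intro h
  exact hγ (inv_eq_one.1 h)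

end tensors

end Pool.Agent.ChM
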