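import Pool.Agent.ChM.GaussPoly
import Pool.Agent.ChM.Defs
import Pool.Agent.ChP.GaussBase

/-!
# The Gaussian functional as an integral

`gE n f = ∫ f(x) gdens 1 x dx`.  One variable: `∫ t^k gaussianPDFReal 0 1 t = mu k`
(integration by parts on the line: `t e^{-t²/2}` is the derivative of `- e^{-t²/2}`, or the moments
of the standard Gaussian in Mathlib if present); `gdens_one_eq` and Fubini
(`integral_fintype_prod_volume_eq_prod`, see `ChP/GaussBase.lean`) give the formula for monomials;
integrability of polynomials by `integrable_poly_gdens` or `Integrable.fintype_prod`.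

`eq_zero_of_gE_sq`: if `f` has purely imaginary values at the real points then `f x ^ 2 = -|f x|^2`
and `gE n (f * f) = - ∫ |f x|^2 gdens 1 x`; a continuous non-negative function with integral zero
against a positive continuous density vanishes, so `f` vanishes at all real points, so `f = 0`.

`gE_det`: `det (Y_1 x, ..., Y_n x)` is the value of the polynomial.
-/

namespace Pool.Agent.ChM

open MeasureTheory Matrix MvPolynomial Pool.Agent.ChP

private theorem gaussInt_pdf (t : ℝ) : ProbabilityTheory.gaussianPDFReal 0 1 t =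
    (Real.sqrt (2 * Real.pi))⁻¹ * Real.exp (-(1 / 2) * t ^ 2) := by
  unfold ProbabilityTheory.gaussianPDFReal
  simp only [NNReal.coe_one, mul_one, sub_zero]
  congr 2
  ring

private theorem gaussInt_deriv (t : ℝ) : HasDerivAt (ProbabilityTheory.gaussianPDFReal 0 1)
    (-(t * ProbabilityTheory.gaussianPDFReal 0 1 t)) t := by
  have h : ProbabilityTheory.gaussianPDFReal 0 1 = fun t =>
    (Real.sqrt (2 * Real.pi))⁻¹ * Real.exp (-(1 / 2) * t ^ 2) := funext gaussInt_pdf
  rw [h]
  have h1 : HasDerivAt (fun t : ℝ => -(1 / 2) * t ^ 2) (-t) t := by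
    have := (hasDerivAt_pow 2 t).const_mul (-(1 / 2 : ℝ))
    refine this.congr_deriv ?_
    push_cast
    ring
  have h2 := (h1.exp).const_mul (Real.sqrt (2 * Real.pi))⁻¹
  refine h2.congr_deriv ?_
  ring

private theorem gaussInt_integrable (k : ℕ) :
    Integrable (fun t : ℝ => t ^ k * ProbabilityTheory.gaussianPDFReal 0 1 t) := by
  have h1 := (integrable_rpow_mul_exp_neg_mul_sq (b := 1 / 2) (by norm_num) (s := (k : ℝ))
    (by have : (0 : ℝ) ≤ k := Nat.cast_nonneg k
        linarith)).const_mul (Real.sqrt (2 * Real.pi))⁻¹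
  refine h1.congr (Filter.Eventually.of_forall fun t => ?_)
  show (Real.sqrt (2 * Real.pi))⁻¹ * (t ^ (k : ℝ) * Real.exp (-(1 / 2) * t ^ 2)) =
    t ^ k * ProbabilityTheory.gaussianPDFReal 0 1 t
  rw [gaussInt_pdf, Real.rpow_natCast]
  ring

theorem integral_pow_gauss (k : ℕ) :
    ∫ t : ℝ, t ^ k * ProbabilityTheory.gaussianPDFReal 0 1 t = mu k := by
  induction k using Nat.strong_induction_on with
  | _ k ih =>
    match k, ih with
    | 0, _ =>
      simp only [pow_zero, one_mul, mu]
      exact ProbabilityTheory.integral_gaussianPDFReal_eq_one 0 one_ne_zero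
    | 1, _ =>
      have h := integral_eq_zero_of_hasDerivAt_of_integrable (f := ProbabilityTheory.gaussianPDFReal 0 1)
        (f' := fun t => -(t ^ 1 * ProbabilityTheory.gaussianPDFReal 0 1 t))
        (fun t => by rw [pow_one]; exact gaussInt_deriv t) (gaussInt_integrable 1).neg
        (ProbabilityTheory.integrable_gaussianPDFReal 0 1)
      rw [integral_neg, neg_eq_zero] at h
      rw [h]
      rfl
    | k + 2, ih =>
      have hk := ih k (by omega)
      have h := integral_eq_zero_of_hasDerivAt_of_integrable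
        (f := fun t => t ^ (k + 1) * ProbabilityTheory.gaussianPDFReal 0 1 t)
        (f' := fun t => ((k : ℝ) + 1) * (t ^ k * ProbabilityTheory.gaussianPDFReal 0 1 t)
          - t ^ (k + 2) * ProbabilityTheory.gaussianPDFReal 0 1 t)
        (fun t => by
          have h1 := (hasDerivAt_pow (k + 1) t).mul (gaussInt_deriv t)
          refine h1.congr_deriv ?_
          push_cast
          ring)
        (((gaussInt_integrable k).const_mul _).sub (gaussInt_integrable (k + 2)))
        (gaussInt_integrable (k + 1))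
      rw [integral_sub ((gaussInt_integrable k).const_mul _) (gaussInt_integrable (k + 2)),
        integral_const_mul, hk] at h
      have h2 : mu (k + 2) = ((k : ℝ) + 1) * mu k := rfl
      rw [h2]
      linarith

private theorem gaussInt_prod {n : ℕ} (m : Fin n →₀ ℕ) (c : ℂ) :
    (fun x : Fin n → ℝ => eval (fun i => (x i : ℂ)) (monomial m c) *
      ((gdens (1 : Matrix (Fin n) (Fin n) ℝ) x : ℝ) : ℂ)) =
    fun x => c * ∏ i, ((x i ^ m i * ProbabilityTheory.gaussianPDFReal 0 1 (x i) : ℝ) : ℂ) := by
  funext x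
  rw [eval_monomial, Finsupp.prod_fintype _ _ (fun i => pow_zero _), gdens_one_eq]
  push_cast
  rw [Finset.prod_mul_distrib]
  ring

theorem integrable_eval_gdens {n : ℕ} (f : MvPolynomial (Fin n) ℂ) :
    Integrable (fun x : Fin n → ℝ => eval (fun i => (x i : ℂ)) f *
      ((gdens (1 : Matrix (Fin n) (Fin n) ℝ) x : ℝ) : ℂ)) := by
  induction f using MvPolynomial.induction_on' with
  | add p q hp hq =>
    refine (hp.add hq).congr (Filter.Eventually.of_forall fun x => ?_)
    simp only [Pi.add_apply, map_add, add_mul]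
  | monomial m c =>
    have h := gaussInt_prod m c
    rw [h]
    exact (Integrable.fintype_prod (f := fun i (t : ℝ) =>
      ((t ^ m i * ProbabilityTheory.gaussianPDFReal 0 1 t : ℝ) : ℂ))
      fun i => (gaussInt_integrable (m i)).ofReal).const_mul c

theorem gE_eq_integral {n : ℕ} (f : MvPolynomial (Fin n) ℂ) :
    gE n f = ∫ x : Fin n → ℝ, eval (fun i => (x i : ℂ)) f *
      ((gdens (1 : Matrix (Fin n) (Fin n) ℝ) x : ℝ) : ℂ) := by
  induction f using MvPolynomial.induction_on' with
  | add p q hp hq =>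
    rw [map_add, hp, hq, ← integral_add (integrable_eval_gdens p) (integrable_eval_gdens q)]
    congr 1
    funext x
    rw [map_add, add_mul]
  | monomial m c =>
    rw [gE_monomial, gaussInt_prod m c, integral_const_mul,
      integral_fintype_prod_volume_eq_prod (fun i (t : ℝ) =>
        ((t ^ m i * ProbabilityTheory.gaussianPDFReal 0 1 t : ℝ) : ℂ))]
    congr 1
    rw [Complex.ofReal_prod]
    refine Finset.prod_congr rfl fun i _ => ?_
    rw [integral_complex_ofReal, integral_pow_gauss]

/-- a polynomial which vanishes at all real points is zero -/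
theorem eq_zero_of_eval_real {n : ℕ} (f : MvPolynomial (Fin n) ℂ)
    (h : ∀ x : Fin n → ℝ, eval (fun i => (x i : ℂ)) f = 0) : f = 0 := by
  have hs : ∀ i : Fin n, (Set.range (fun t : ℝ => (t : ℂ))).Infinite := fun i =>
    Set.infinite_range_of_injective Complex.ofReal_injective
  refine MvPolynomial.funext_set (fun _ => Set.range (fun t : ℝ => (t : ℂ))) hs ?_
  intro x hx
  have h1 : ∀ i, ∃ t : ℝ, (t : ℂ) = x i := fun i => hx i (Set.mem_univ i)
  choose t ht using h1
  have h2 : x = fun i => (t i : ℂ) := funext fun i => (ht i).symm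
  rw [h2, h t, map_zero]

theorem eq_zero_of_gE_sq {n : ℕ} (f : MvPolynomial (Fin n) ℂ)
    (hf : ∀ x : Fin n → ℝ, (eval (fun i => (x i : ℂ)) f).re = 0) (h : gE n (f * f) = 0) :
    f = 0 := by
  have hcont : Continuous fun x : Fin n → ℝ => eval (fun i => (x i : ℂ)) f :=
    f.continuous_eval.comp (continuous_pi fun i => Complex.continuous_ofReal.comp (continuous_apply i))
  have hpos : ∀ x : Fin n → ℝ, 0 < gdens (1 : Matrix (Fin n) (Fin n) ℝ) x := by
    intro x
    rw [gdens_one_eq']
    positivity
  have hval : ∀ x : Fin n → ℝ, eval (fun i => (x i : ℂ)) (f * f) *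
      ((gdens (1 : Matrix (Fin n) (Fin n) ℝ) x : ℝ) : ℂ) =
      ((-((eval (fun i => (x i : ℂ)) f).im ^ 2 * gdens (1 : Matrix (Fin n) (Fin n) ℝ) x) : ℝ) : ℂ) := by
    intro x
    rw [map_mul]
    have h1 : eval (fun i => (x i : ℂ)) f = ((eval (fun i => (x i : ℂ)) f).im : ℂ) * Complex.I := by
      apply Complex.ext
      · simp [hf x]
      · simp
    obtain ⟨z, hz⟩ : ∃ z, z = (eval (fun i => (x i : ℂ)) f).im := ⟨_, rfl⟩
    rw [← hz] at h1 ⊢
    rw [h1]
    push_cast
    have : (z : ℂ) * Complex.I * ((z : ℂ) * Complex.I) = - (z : ℂ) ^ 2 := by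
      have := Complex.I_mul_I
      linear_combination (z : ℂ) ^ 2 * this
    rw [this]
    ring
  have hint : Integrable fun x : Fin n → ℝ =>
      (eval (fun i => (x i : ℂ)) f).im ^ 2 * gdens (1 : Matrix (Fin n) (Fin n) ℝ) x := by
    have h1 := (integrable_eval_gdens (f * f)).re.neg
    refine h1.congr (Filter.Eventually.of_forall fun x => ?_)
    show -(RCLike.re _) = _
    rw [hval x, RCLike.re_to_complex, Complex.ofReal_re, neg_neg]
  rw [gE_eq_integral] at h
  have h2 : ∫ x : Fin n → ℝ, (eval (fun i => (x i : ℂ)) f).im ^ 2 *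
      gdens (1 : Matrix (Fin n) (Fin n) ℝ) x = 0 := by
    rw [show (fun x : Fin n → ℝ => eval (fun i => (x i : ℂ)) (f * f) *
      ((gdens (1 : Matrix (Fin n) (Fin n) ℝ) x : ℝ) : ℂ)) = _ from funext hval, integral_complex_ofReal,
      integral_neg] at h
    have h3 := Complex.ofReal_eq_zero.1 h
    linarith
  have hnn : (0 : (Fin n → ℝ) → ℝ) ≤ fun x : Fin n → ℝ => (eval (fun i => (x i : ℂ)) f).im ^ 2 *
      gdens (1 : Matrix (Fin n) (Fin n) ℝ) x := fun x => mul_nonneg (sq_nonneg _) (hpos x).le
  rw [integral_eq_zero_iff_of_nonneg hnn hint] at h2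
  have hc : Continuous fun x : Fin n → ℝ => (eval (fun i => (x i : ℂ)) f).im ^ 2 *
      gdens (1 : Matrix (Fin n) (Fin n) ℝ) x :=
    ((Complex.continuous_im.comp hcont).pow 2).mul (continuous_gdens _)
  have h3 := (Continuous.ae_eq_iff_eq (volume : Measure (Fin n → ℝ)) hc continuous_zero).1 h2
  refine eq_zero_of_eval_real f fun x => ?_
  have h4 : (eval (fun i => (x i : ℂ)) f).im ^ 2 * gdens (1 : Matrix (Fin n) (Fin n) ℝ) x = 0 :=
    congrFun h3 x
  have h5 : (eval (fun i => (x i : ℂ)) f).im = 0 := by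
    rcases mul_eq_zero.1 h4 with h5 | h5
    · exact pow_eq_zero_iff (two_ne_zero) |>.1 h5
    · exact absurd h5 (hpos x).ne'
  exact Complex.ext (hf x) h5

/-- The polynomial `det (Y_1 x, ..., Y_n x)`. -/
noncomputable def dl {n : ℕ} (Y : Fin n → Matrix (Fin n) (Fin n) ℝ) : MvPolynomial (Fin n) ℂ :=
  Matrix.det (Matrix.of fun i j : Fin n => ∑ l, C ((Y i j l : ℝ) : ℂ) * X l)

theorem gE_dl {n : ℕ} (Y : Fin n → Matrix (Fin n) (Fin n) ℝ) :
    gE n (dl Y) = ((JJ Y : ℝ) : ℂ) := by
  rw [gE_eq_integral]
  unfold JJ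
  rw [← integral_complex_ofReal]
  congr 1
  funext x
  have h1 : eval (fun i => (x i : ℂ)) (dl Y) =
      ((Matrix.det (Matrix.of fun i => Y i *ᵥ x) : ℝ) : ℂ) := by
    unfold dl
    rw [RingHom.map_det]
    have h2 : ((Matrix.det (Matrix.of fun i => Y i *ᵥ x) : ℝ) : ℂ) =
        Complex.ofRealHom (Matrix.det (Matrix.of fun i => Y i *ᵥ x)) := rfl
    rw [h2, RingHom.map_det]
    congr 1
    ext i j
    simp only [RingHom.mapMatrix_apply, Matrix.map_apply, Matrix.of_apply, map_sum, map_mul, eval_C, eval_X,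
      mulVec, dotProduct, Complex.ofRealHom_eq_coe]

  rw [h1]
  push_cast
  rfl

end Pool.Agent.ChM
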