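import Mathlib

/-!
# The Gaussian functional on polynomials

`mu k` is the `k`-th moment of the standard normal distribution and `gE n` the linear functional
with `gE n (X^m) = ∏ i, mu (m i)`.  Integration by parts: on monomials
`X i * X^m ↦ mu (m i + 1) ∏ ... = (m i) mu (m i - 1) ∏ ...` (`mu (k + 1) = k * mu (k - 1)`), which
is the value of `pderiv i X^m`.
-/

namespace Pool.Agent.ChM

open MvPolynomial

/-- The moments of the standard normal distribution. -/
noncomputable def mu : ℕ → ℝ
  | 0 => 1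
  | 1 => 0
  | (k + 2) => (k + 1) * mu k

/-- The Gaussian mean of a polynomial. -/
noncomputable def gE (n : ℕ) : MvPolynomial (Fin n) ℂ →ₗ[ℂ] ℂ :=
  (MvPolynomial.basisMonomials (Fin n) ℂ).constr ℂ fun m => ((∏ i, mu (m i) : ℝ) : ℂ)

theorem gE_monomial {n : ℕ} (m : Fin n →₀ ℕ) (c : ℂ) :
    gE n (monomial m c) = c * ((∏ i, mu (m i) : ℝ) : ℂ) := by
  have h : (monomial m c : MvPolynomial (Fin n) ℂ)
      = c • (MvPolynomial.basisMonomials (Fin n) ℂ) m := by
    rw [MvPolynomial.coe_basisMonomials, MvPolynomial.smul_monomial, smul_eq_mul, mul_one]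
  rw [h, map_smul, smul_eq_mul]
  unfold gE
  rw [Module.Basis.constr_basis]

theorem gE_C {n : ℕ} (c : ℂ) : gE n (C c) = c := by
  have h : (C c : MvPolynomial (Fin n) ℂ) = monomial 0 c := rfl
  rw [h, gE_monomial]
  simp [mu]

private lemma gaussPoly_mu (k : ℕ) : mu (1 + k) = (k : ℝ) * mu (k - 1) := by
  cases k with
  | zero => simp [mu]
  | succ k =>
    have h : 1 + (k + 1) = k + 2 := by omega
    rw [h]
    simp [mu]

theorem gE_X_mul {n : ℕ} (i : Fin n) (f : MvPolynomial (Fin n) ℂ) :
    gE n (X i * f) = gE n (pderiv i f) := by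
  induction f using MvPolynomial.induction_on' with
  | add p q hp hq => rw [mul_add, map_add, map_add, map_add, hp, hq]
  | monomial m c =>
    have h1 : (X i * monomial m c : MvPolynomial (Fin n) ℂ)
        = monomial (Finsupp.single i 1 + m) c := by
      rw [MvPolynomial.X, MvPolynomial.monomial_mul, one_mul]
    rw [h1, MvPolynomial.pderiv_monomial, gE_monomial, gE_monomial, mul_assoc]
    congr 1
    obtain ⟨m1, hm1⟩ : ∃ m1 : Fin n →₀ ℕ, m1 = Finsupp.single i 1 + m := ⟨_, rfl⟩
    obtain ⟨m2, hm2⟩ : ∃ m2 : Fin n →₀ ℕ, m2 = m - Finsupp.single i 1 := ⟨_, rfl⟩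
    rw [← hm1, ← hm2]
    rw [← Finset.mul_prod_erase Finset.univ (fun j => mu (m1 j)) (Finset.mem_univ i),
      ← Finset.mul_prod_erase Finset.univ (fun j => mu (m2 j)) (Finset.mem_univ i)]
    have h2 : mu (m1 i) = (m i : ℝ) * mu (m2 i) := by
      rw [hm1, hm2, Finsupp.add_apply, Finsupp.single_eq_same, Finsupp.tsub_apply, Finsupp.single_eq_same]
      exact gaussPoly_mu (m i)
    have h3 : ∏ j ∈ Finset.univ.erase i, mu (m1 j)
        = ∏ j ∈ Finset.univ.erase i, mu (m2 j) := by
      apply Finset.prod_congr rfl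
      intro j hj
      have hne : j ≠ i := (Finset.mem_erase.1 hj).1
      have h0 : (Finsupp.single i 1 : Fin n →₀ ℕ) j = 0 := by
        rw [Finsupp.single_apply, if_neg (Ne.symm hne)]
      rw [hm1, hm2, Finsupp.add_apply, Finsupp.tsub_apply, h0, zero_add, tsub_zero]
    rw [h2, h3]
    push_cast
    ring

end Pool.Agent.ChM
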