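import Pool.Agent.ChM.Rot

/-!
# The gradient of the determinant

Let `p = res P`, `H k l = res (∂_{y_k} ∂_{y_l} P)` (symmetric).  Differentiate
`rot (Y i) P = 0` (formula `rot_eq`) with respect to `y_k` and restrict to `y = 0`
(`res (X (natAdd n j)) = 0`, `res (X (castAdd n j)) = X j`, `res_pderiv`):
`∑ a, ∑ j, Y_i a j * X j * H k a = ∑ a, Y_i a k * ∂_a p`, i.e. (as `Y_i` is symmetric)
`H (Y_i x) = Y_i ∇p`.

Let `M i j = ∑ l, C (Y i j l) * X l`, so `dl Y = det M`, and let `𝒟 = ∑ k, (∂_k p) • ∂_k`, a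
derivation of `MvPolynomial (Fin n) ℂ`.  Then `𝒟 (M i j) = ∑ l, C (Y i j l) ∂_l p = (M * H) i j`,
so the matrix `𝒟 M` is `M * H`.  Jacobi's formula for a derivation (Leibniz rule in
`Matrix.det_apply`) gives `𝒟 (det M) = trace (adjugate M * 𝒟 M) = trace (adjugate M * M * H)
= det M * trace H`.
-/

namespace Pool.Agent.ChM

open Matrix MvPolynomial

/-- Leibniz rule for a product. -/
theorem gradDl_prod {ι R : Type*} [DecidableEq ι] [CommRing R] [Algebra ℂ R]
    (D : Derivation ℂ R R) (f : ι → R) (s : Finset ι) :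
    D (∏ i ∈ s, f i) = ∑ i ∈ s, (∏ j ∈ s.erase i, f j) * D (f i) := by
  induction s using Finset.induction_on with
  | empty => simp
  | insert a s ha ih =>
    rw [Finset.prod_insert ha, D.leibniz, ih, Finset.sum_insert ha, Finset.erase_insert ha,
      smul_eq_mul, smul_eq_mul, Finset.mul_sum, add_comm]
    congr 1
    refine Finset.sum_congr rfl fun i hi => ?_
    have hai : a ≠ i := fun h => ha (h ▸ hi)
    rw [Finset.erase_insert_of_ne hai, Finset.prod_insert (fun h => ha (Finset.mem_of_mem_erase h))]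
    ring

/-- Jacobi's formula for derivations. -/
theorem derivation_det {n : ℕ} {R : Type*} [CommRing R] [Algebra ℂ R] (D : Derivation ℂ R R)
    (M : Matrix (Fin n) (Fin n) R) :
    D M.det = Matrix.trace (M.adjugate * Matrix.of fun i j => D (M i j)) := by
  have h1 : D M.det = ∑ i, (M.updateCol i fun k => D (M k i)).det := by
    simp only [Matrix.det_apply, map_sum]
    rw [Finset.sum_comm]
    refine Finset.sum_congr rfl fun σ _ => ?_
    rw [Units.smul_def, map_zsmul, gradDl_prod, Finset.smul_sum]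
    refine Finset.sum_congr rfl fun i _ => ?_
    rw [Units.smul_def]
    congr 1
    rw [← Finset.mul_prod_erase Finset.univ _ (Finset.mem_univ i), Matrix.updateCol_self, mul_comm]
    congr 1
    refine Finset.prod_congr rfl fun j hj => ?_
    rw [Matrix.updateCol_ne (Finset.ne_of_mem_erase hj)]
  rw [h1, Matrix.trace]
  refine Finset.sum_congr rfl fun i _ => ?_
  rw [← Matrix.cramer_apply, Matrix.cramer_eq_adjugate_mulVec, Matrix.diag_apply,
    Matrix.mul_apply]
  rfl

/-- The differentiated relation restricted to `y = 0`. -/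
theorem gradDl_rel {n : ℕ} (Y : Matrix (Fin n) (Fin n) ℝ)
    (P : MvPolynomial (Fin (n + n)) ℂ) (hP : rot Y P = 0) (k : Fin n) :
    ∑ a, ∑ j, C ((Y a j : ℝ) : ℂ) *
        (X j * res (pderiv (Fin.natAdd n k) (pderiv (Fin.natAdd n a) P))) =
      ∑ a, C ((Y a k : ℝ) : ℂ) * pderiv a (res P) := by
  have h1 : pderiv (Fin.natAdd n k) (rot Y P) = 0 := by rw [hP, map_zero]
  rw [rot_eq] at h1
  have h2 := congrArg (res (n := n)) h1
  have hX1 : ∀ j : Fin n, res (X (Fin.castAdd n j) : MvPolynomial (Fin (n + n)) ℂ) = X j := by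
    intro j
    rw [res, aeval_X, Fin.append_left]
  have hX2 : ∀ j : Fin n, res (X (Fin.natAdd n j) : MvPolynomial (Fin (n + n)) ℂ) = 0 := by
    intro j
    rw [res, aeval_X, Fin.append_right]
  have hC : ∀ c : ℂ, res (n := n) (C c) = C c := by
    intro c
    exact AlgHom.commutes _ c
  have hne : ∀ j : Fin n, Fin.castAdd n j ≠ Fin.natAdd n k := by
    intro j h
    have h3 := congrArg Fin.val h
    simp at h3
    omega
  have hd1 : ∀ j : Fin n, pderiv (Fin.natAdd n k)
      (X (Fin.castAdd n j) : MvPolynomial (Fin (n + n)) ℂ) = 0 := by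
    intro j
    rw [pderiv_X_of_ne]
    exact hne j
  have hd2 : ∀ j : Fin n, pderiv (Fin.natAdd n k)
      (X (Fin.natAdd n j) : MvPolynomial (Fin (n + n)) ℂ) = if j = k then 1 else 0 := by
    intro j
    split_ifs with h
    · rw [h, pderiv_X_self]
    · rw [pderiv_X_of_ne]
      intro h3
      exact h (by simpa using h3)
  simp only [map_sum, Derivation.leibniz, map_sub, map_add, smul_eq_mul, map_mul, pderiv_C,
    mul_zero, hd1, hd2, hX1, hX2, hC, add_zero, map_zero, zero_mul, zero_add, mul_ite,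
    mul_one] at h2
  have h4 : ∀ a j : Fin n, (C ((Y a j : ℝ) : ℂ) *
      (X j * res (pderiv (Fin.natAdd n k) (pderiv (Fin.natAdd n a) P)) -
        res (if j = k then pderiv (Fin.castAdd n a) P else 0)) : MvPolynomial (Fin n) ℂ) =
      C ((Y a j : ℝ) : ℂ) *
        (X j * res (pderiv (Fin.natAdd n k) (pderiv (Fin.natAdd n a) P))) -
      if j = k then C ((Y a k : ℝ) : ℂ) * pderiv a (res P) else 0 := by
    intro a j
    split_ifs with h
    · rw [h, res_pderiv]
      ring
    · rw [map_zero]
      ring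
  simp only [h4, Finset.sum_sub_distrib, Finset.sum_ite_eq', Finset.mem_univ, if_true] at h2
  exact sub_eq_zero.1 h2

theorem grad_dl {n : ℕ} (Y : Fin n → Matrix (Fin n) (Fin n) ℝ) (hY : ∀ i, (Y i)ᵀ = Y i)
    (P : MvPolynomial (Fin (n + n)) ℂ) (hP : ∀ i, rot (Y i) P = 0) :
    ∑ k, pderiv k (res P) * pderiv k (dl Y) =
      res (∑ k, pderiv (Fin.natAdd n k) (pderiv (Fin.natAdd n k) P)) * dl Y := by
  set M : Matrix (Fin n) (Fin n) (MvPolynomial (Fin n) ℂ) :=
    Matrix.of fun i j : Fin n => ∑ l, C ((Y i j l : ℝ) : ℂ) * X l with hM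
  set H : Matrix (Fin n) (Fin n) (MvPolynomial (Fin n) ℂ) :=
    Matrix.of fun k l : Fin n =>
      res (pderiv (Fin.natAdd n k) (pderiv (Fin.natAdd n l) P)) with hH
  set D : Derivation ℂ (MvPolynomial (Fin n) ℂ) (MvPolynomial (Fin n) ℂ) :=
    ∑ k, (pderiv k (res P)) • (pderiv k : Derivation ℂ (MvPolynomial (Fin n) ℂ) _) with hD
  have hDa : ∀ f, D f = ∑ k, pderiv k (res P) * pderiv k f := by
    intro f
    have h0 : D f = Derivation.coeFnAddMonoidHom D f := rfl
    rw [h0, hD, map_sum, Finset.sum_apply]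
    rfl
  have h1 : (Matrix.of fun i j => D (M i j)) = M * H := by
    ext1 i j
    rw [Matrix.of_apply, hDa, Matrix.mul_apply]
    have h3 := gradDl_rel (Y i) P (hP i) j
    have h4 : ∀ k : Fin n, pderiv k (M i j) = C ((Y i j k : ℝ) : ℂ) := by
      intro k
      rw [hM, Matrix.of_apply, map_sum, Finset.sum_eq_single k]
      · rw [Derivation.leibniz, pderiv_C, pderiv_X_self, smul_zero, add_zero, smul_eq_mul, mul_one]
      · intro l _ hl
        rw [Derivation.leibniz, pderiv_C, pderiv_X_of_ne hl, smul_zero, smul_zero, add_zero]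
      · intro h
        exact absurd (Finset.mem_univ k) h
    calc ∑ k, pderiv k (res P) * pderiv k (M i j)
        = ∑ a, C ((Y i a j : ℝ) : ℂ) * pderiv a (res P) := by
          refine Finset.sum_congr rfl fun a _ => ?_
          have h5 : Y i a j = Y i j a := congrFun (congrFun (hY i) j) a
          rw [h4, h5, mul_comm]
      _ = ∑ a, M i a * H a j := by
          rw [← h3]
          refine Finset.sum_congr rfl fun a _ => ?_
          rw [hM, hH, Matrix.of_apply, Matrix.of_apply, Finset.sum_mul]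
          refine Finset.sum_congr rfl fun l _ => ?_
          rw [pderiv_comm' (Fin.natAdd n j)]
          ring
  have h2 : D (dl Y) = M.det * Matrix.trace H := by
    show D M.det = _
    rw [derivation_det, h1, ← Matrix.mul_assoc, Matrix.adjugate_mul, Matrix.smul_mul, Matrix.one_mul,
      Matrix.trace_smul, smul_eq_mul]
  rw [← hDa, h2, mul_comm, map_sum]
  rfl

end Pool.Agent.ChM
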