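import Pool.Agent.ChM.Core
import Pool.Agent.ChP.WL
import Pool.Agent.ChP.GenW
import Pool.Agent.ChP.EpsLim
import Pool.Agent.ChP.LocIdx
import Pool.Agent.ChP.Restrict

/-!
# The Euler characteristic vanishes if the holonomy has no Euler number

As in `Pool.Agent.ChP.IndexLim`, with the hypothesis that `κ • lin` has no Euler number.
-/

set_option linter.all false

namespace Pool.Agent.ChM

open Matrix Pool.Agent.ChP
open scoped Pointwise

/-- positive factors do not matter for the convex hull condition -/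
private theorem IndexLim_hull {n : ℕ} {ι : Type*} (c : ι → ℝ) (hc : ∀ i, 0 < c i)
    (s : ι → Fin n → ℝ) (J : Set ι) (h : (0 : Fin n → ℝ) ∉ convexHull ℝ (s '' J)) :
    (0 : Fin n → ℝ) ∉ convexHull ℝ ((fun i => c i • s i) '' J) := by
  intro h0
  apply h
  have hconv : Convex ℝ {x : Fin n → ℝ | ∃ l : ℝ, 0 < l ∧ l • x ∈ convexHull ℝ (s '' J)} := by
    rintro x ⟨l, hl, hx⟩ y ⟨m, hm, hy⟩ a b ha hb hab
    have hpos : 0 < a / l + b / m := by
      rcases ha.eq_or_lt with h1 | h1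
      · have hb1 : b = 1 := by linarith
        rw [← h1, hb1, zero_div, zero_add]
        positivity
      · have h2 := div_pos h1 hl
        have h3 := div_nonneg hb hm.le
        linarith
    refine ⟨(a / l + b / m)⁻¹, inv_pos.2 hpos, ?_⟩
    have e : (a / l + b / m)⁻¹ • (a • x + b • y) =
        ((a / l + b / m)⁻¹ * (a / l)) • (l • x) + ((a / l + b / m)⁻¹ * (b / m)) • (m • y) := by
      rw [smul_add, smul_smul, smul_smul, smul_smul, smul_smul]
      congr 2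
      · field_simp
      · field_simp
    rw [e]
    refine (convex_convexHull ℝ _) hx hy ?_ ?_ ?_
    · exact mul_nonneg (inv_nonneg.2 hpos.le) (div_nonneg ha hl.le)
    · exact mul_nonneg (inv_nonneg.2 hpos.le) (div_nonneg hb hm.le)
    · rw [← mul_add, inv_mul_cancel₀ hpos.ne']
  have hsub : ((fun i => c i • s i) '' J) ⊆
      {x : Fin n → ℝ | ∃ l : ℝ, 0 < l ∧ l • x ∈ convexHull ℝ (s '' J)} := by
    rintro _ ⟨i, hi, rfl⟩
    refine ⟨(c i)⁻¹, inv_pos.2 (hc i), ?_⟩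
    show (c i)⁻¹ • (c i • s i) ∈ _
    rw [smul_smul, inv_mul_cancel₀ (hc i).ne', one_smul]
    exact subset_convexHull ℝ _ ⟨i, hi, rfl⟩
  obtain ⟨l, hl, hmem⟩ := convexHull_min hsub hconv h0
  rwa [smul_zero] at hmem

private theorem IndexLim_chi {n : ℕ} {Γ : Type*} [Group Γ] (κ : Γ →* ℝ)
    (ρ ρ₁ : Γ →* Matrix (Fin n) (Fin n) ℝ) (hρ : ∀ γ, ρ₁ γ = κ γ • ρ γ) (hκ : ∀ γ, 0 < κ γ) :
    chi ρ₁ = chi ρ := by
  funext γ
  show Real.sign (ρ₁ γ).det = Real.sign (ρ γ).det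
  rw [hρ, Matrix.det_smul]
  have h1 : 0 < κ γ ^ Fintype.card (Fin n) := pow_pos (hκ γ) _
  rcases lt_trichotomy (ρ γ).det 0 with h | h | h
  · rw [Real.sign_of_neg h, Real.sign_of_neg (mul_neg_of_pos_of_neg h1 h)]
  · rw [h, mul_zero]
  · rw [Real.sign_of_pos h, Real.sign_of_pos (mul_pos h1 h)]

variable {n : ℕ} (K : AffineTriangulation n)

private theorem IndexLim_section {R : Finset (Finset K.V)} (hR : K.Reps R) :
    ∃ g : K.Iv → K.Γ, ∀ (γ : K.Γ) (x : K.Iv), g (γ • x) = γ * g x := by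
  classical
  choose p hp huniq using hR.2
  refine ⟨fun x => (p x.1.2 x.2.2.2).1, fun γ x => ?_⟩
  have h1 := hp x.1.2 x.2.2.2
  have h2 := huniq (γ • x).1.2 (γ • x).2.2.2
    (γ * (p x.1.2 x.2.2.2).1, (p x.1.2 x.2.2.2).2) ⟨h1.1, by
      show (γ * (p x.1.2 x.2.2.2).1) • (p x.1.2 x.2.2.2).2 = (γ • x).1.2
      rw [mul_smul, h1.2, AffineTriangulation.smul_upper]⟩
  exact (congrArg Prod.fst h2).symm

private theorem index_zero_noEul (hn : 0 < n) (κ : K.Γ →* ℝ) (hκ : ∀ γ, 0 < κ γ)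
    (ρ : K.Γ →* Matrix (Fin n) (Fin n) ℝ) (hρ : ∀ γ, ρ γ = κ γ • K.lin γ) (hno : NoEul ρ)
    {R : Finset (Finset K.V)} (hR : K.Reps R) (w : Finset K.V → Fin n → ℝ)
    (hw : ∀ (γ : K.Γ), ∀ σ ∈ K.faces, w (γ • σ) = K.lin γ *ᵥ w σ)
    (hg : ∀ σ ∈ K.faces, K.Generic w σ) :
    ∑ t ∈ K.chainReps R, K.mor t * eps (fun i => K.sec w (t i)) = 0 := by
  classical
  obtain ⟨g, hgeq⟩ := IndexLim_section K hR
  have hdet : ∀ γ, (ρ γ).det ≠ 0 := rep_det_ne_zero ρ
  -- the vectors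
  obtain ⟨s', hs'⟩ : ∃ s' : K.Iv → Fin n → ℝ, s' = fun x => κ (g x) • K.sec w x := ⟨_, rfl⟩
  have hs'eq : ∀ (γ : K.Γ) (x : K.Iv), s' (γ • x) = ρ γ *ᵥ s' x := by
    intro γ x
    rw [hs']
    show κ (g (γ • x)) • K.sec w (γ • x) = ρ γ *ᵥ (κ (g x) • K.sec w x)
    rw [hgeq, map_mul, K.sec_smul hw, hρ, Matrix.mulVec_smul, Matrix.smul_mulVec, smul_smul,
      mul_comm]
  obtain ⟨a, ha⟩ : ∃ a : K.Iv → Fin n → ℝ, a = fun x => ρ (g x)⁻¹ *ᵥ s' x := ⟨_, rfl⟩
  have haeq : ∀ (γ : K.Γ) (x : K.Iv), a (γ • x) = a x := by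
    intro γ x
    rw [ha]
    show ρ (g (γ • x))⁻¹ *ᵥ s' (γ • x) = ρ (g x)⁻¹ *ᵥ s' x
    rw [hgeq, hs'eq, Matrix.mulVec_mulVec, ← map_mul]
    congr 2
    group
  have hAa : ∀ x, ρ (g x) *ᵥ a x = s' x := by
    intro x
    rw [ha]
    show ρ (g x) *ᵥ (ρ (g x)⁻¹ *ᵥ s' x) = s' x
    rw [Matrix.mulVec_mulVec, ← map_mul, mul_inv_cancel, map_one, Matrix.one_mulVec]
  -- the sum vanishes for every r > 0
  have hcyc : WCycle (chi ρ) (fun k : {t // t ∈ K.chainReps R} => (k : Fin (n + 1) → K.Iv))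
      (fun k => K.mor k) := by
    rw [IndexLim_chi κ K.lin ρ hρ hκ]
    exact K.wcycle_interval hn hR
  have hsum : ∀ r : ℝ, 0 < r → ∑ k : {t // t ∈ K.chainReps R}, K.mor k *
      CC (fun i => push (ρ (g (k.1 i))) (sg r (a (k.1 i)))) = 0 := by
    intro r hr
    refine hno.sum_CC g hgeq
      (fun k : {t // t ∈ K.chainReps R} => (k : Fin (n + 1) → K.Iv)) (fun k => K.mor k) hcyc
      (fun x => push (ρ (g x)) (sg r (a x))) (fun x => integrable_push (hdet _) (integrable_sg hr _))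
      (fun x => by rw [integral_push (hdet _), integral_sg hr]) (fun γ x => ?_)
    rw [hgeq, haeq, map_mul, push_push]
  -- the limit
  have hlim : Filter.Tendsto (fun r : ℝ => ∑ k : {t // t ∈ K.chainReps R}, K.mor k *
      CC (fun i => push (ρ (g (k.1 i))) (sg r (a (k.1 i))))) (nhdsWithin 0 (Set.Ioi 0))
      (nhds (∑ k : {t // t ∈ K.chainReps R}, K.mor k * eps (fun i => K.sec w (k.1 i)))) := by
    refine tendsto_finset_sum _ fun k _ => ?_
    have hk := k.2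
    unfold AffineTriangulation.chainReps at hk
    rw [Finset.mem_biUnion] at hk
    obtain ⟨σ, hσ, hk⟩ := hk
    rw [K.mem_chainsFrom] at hk
    have hgen : K.Generic w (k.1 0).1.1 := by
      rw [hk.2]
      exact hg σ (hR.1 σ hσ)
    have hvec : (fun i => ρ (g (k.1 i)) *ᵥ a (k.1 i)) =
        fun i => κ (g (k.1 i)) • K.sec w (k.1 i) := by
      funext i
      rw [hAa, hs']
    have hs : ∀ j, (0 : Fin n → ℝ) ∉
        convexHull ℝ ((fun i => ρ (g (k.1 i)) *ᵥ a (k.1 i)) '' {i | i ≠ j}) := by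
      intro j
      rw [hvec]
      exact IndexLim_hull (fun i => κ (g (k.1 i))) (fun i => hκ _) (fun i => K.sec w (k.1 i)) _
        (K.zero_notMem_convexHull hk.1 hgen j)
    have ht := tendsto_CC_sg (fun i => ρ (g (k.1 i))) (fun i => hdet _) (fun i => a (k.1 i)) hs
    rw [hvec, eps_smul _ (fun i => hκ _)] at ht
    exact ht.const_mul _
  have hzero : Filter.Tendsto (fun r : ℝ => ∑ k : {t // t ∈ K.chainReps R}, K.mor k *
      CC (fun i => push (ρ (g (k.1 i))) (sg r (a (k.1 i))))) (nhdsWithin 0 (Set.Ioi 0))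
      (nhds 0) := by
    refine tendsto_const_nhds.congr' ?_
    filter_upwards [self_mem_nhdsWithin] with r hr
    exact (hsum r hr).symm
  have hfin := tendsto_nhds_unique hlim hzero
  rw [← hfin]
  exact (Finset.sum_coe_sort (K.chainReps R)
    (fun t => K.mor t * eps (fun i => K.sec w (t i)))).symm

/-- If `κ • lin` has no Euler number, the Euler characteristic vanishes. -/
theorem eulerChar_eq_zero_of_noEul {n : ℕ} (K : AffineTriangulation n) (hn : 0 < n)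
    (κ : K.Γ →* ℝ) (hκ : ∀ γ, 0 < κ γ) (ρ : K.Γ →* Matrix (Fin n) (Fin n) ℝ)
    (hρ : ∀ γ, ρ γ = κ γ • K.lin γ) (hno : NoEul ρ) : K.eulerChar = 0 := by
  obtain ⟨R, hR⟩ := K.exists_reps
  obtain ⟨w, hw, hg⟩ := K.exists_generic hR
  have hz := index_zero_noEul K hn κ hκ ρ hρ hno hR w hw hg
  have hdisj : ∀ σ ∈ R, ∀ τ ∈ R, σ ≠ τ → Disjoint (K.chainsFrom σ) (K.chainsFrom τ) := by
    intro σ _ τ _ hne
    rw [Finset.disjoint_left]
    intro t ht ht'
    rw [K.mem_chainsFrom] at ht ht'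
    exact hne (ht.2.symm.trans ht'.2)
  classical
  rw [AffineTriangulation.chainReps, Finset.sum_biUnion hdisj,
    Finset.sum_congr rfl (fun σ hσ => K.local_index (hR.1 σ hσ) (hg σ (hR.1 σ hσ)))] at hz
  have he := K.eulerChar_eq hR
  have hr : (K.eulerChar : ℝ) = (-1) ^ n * ∑ σ ∈ R, (-1 : ℝ) ^ (n + 1 - σ.card) := by
    rw [he]
    push_cast
    rw [Finset.mul_sum]
    refine Finset.sum_congr rfl fun σ hσ => ?_
    have hc := K.card_le (hR.1 σ hσ)
    rw [← pow_add]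
    have h2 : (-1 : ℝ) ^ (σ.card + 1) * (-1) ^ (n + (n + 1 - σ.card)) = 1 := by
      rw [← pow_add]
      have : σ.card + 1 + (n + (n + 1 - σ.card)) = 2 * (n + 1) := by omega
      rw [this, pow_mul]
      simp
    have h3 : (-1 : ℝ) ^ (σ.card + 1) * (-1) ^ (σ.card + 1) = 1 := by
      rw [← pow_add, ← two_mul, pow_mul]
      simp
    have h4 : (-1 : ℝ) ^ (σ.card + 1) ≠ 0 := by simp
    exact mul_left_cancel₀ h4 (h3.trans h2.symm)
  rw [hz, mul_zero] at hr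
  exact_mod_cast hr

end Pool.Agent.ChM
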