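import Pool.Agent.ChM.LocalEst
import Pool.Agent.ChP.Iter

/-!
# The Euler number vanishes if a good set is preserved

Version of `Pool.Agent.ChP.eul_eq_zero_of_fixes` for good sets of positive definite matrices.
-/

namespace Pool.Agent.ChM

open MeasureTheory Matrix Pool.Agent.ChP

private theorem iter_wcycle_map {n : ℕ} {Γ X Y ι : Type*} [Group Γ] [MulAction Γ X]
    [MulAction Γ Y] [Fintype ι] {χ : Γ → ℝ} {t : ι → Fin (n + 1) → Y} {m : ι → ℝ}
    (h : WCycle χ t m) (f : Y → X) (hf : ∀ (γ : Γ) (y : Y), f (γ • y) = γ • f y) :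
    WCycle χ (fun k i => f (t k i)) m := by
  intro φ hφ
  refine h (fun y => φ (fun i => f (y i))) ?_
  intro γ y
  rw [← hφ γ]
  congr 1
  funext i
  exact hf γ (y i)

private theorem iter_abs_sgnA {n : ℕ} (a : Fin n → Bool) : |sgnA a| = 1 := by
  unfold sgnA
  rw [abs_pow, abs_neg, abs_one, one_pow]

private theorem iter_main {n : ℕ} {Γ : Type} [Group Γ] {S : Set (Matrix (Fin n) (Fin n) ℝ)}
    (hS : Good S) (ρ : Γ →* Matrix (Fin n) (Fin n) ℝ)
    (hdet : ∀ γ, (ρ γ).det ≠ 0)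
    [MulAction Γ {P : Matrix (Fin n) (Fin n) ℝ // P ∈ S}]
    (hA : ∀ (γ : Γ) (P : {P : Matrix (Fin n) (Fin n) ℝ // P ∈ S}),
      (γ • P).1 = ρ γ * P.1 * (ρ γ)ᵀ)
    (C : ℝ) (hC : ∀ (x : Fin (n + 1) → Matrix (Fin n) (Fin n) ℝ) (δ : ℝ),
      (∀ i, x i ∈ S) → 0 ≤ δ → (∀ i, Close δ (x 0) (x i)) →
      |CC fun i => gdens (x i)| ≤ C * δ ^ (n + 1)) (j : ℕ) :
    ∀ (ι : Type) [Fintype ι]
      (t : ι → Fin (n + 1) → {P : Matrix (Fin n) (Fin n) ℝ // P ∈ S}) (m : ι → ℝ) (δ : ℝ),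
      0 ≤ δ → WCycle (chi ρ) t m → (∀ k, PathBound (fun i => (t k i).1) δ) →
      |∑ k, m k * CC (fun i => gdens (t k i).1)| ≤
        C * (∑ k, |m k|) * δ ^ (n + 1) / 2 ^ j := by
  induction j with
  | zero =>
    intro ι _ t m δ hδ _ hp
    rw [pow_zero, div_one]
    refine (Finset.abs_sum_le_sum_abs _ _).trans ?_
    rw [mul_assoc, mul_comm C, Finset.sum_mul, Finset.sum_mul]
    refine Finset.sum_le_sum fun k _ => ?_
    rw [abs_mul]
    have h1 := hC (fun i => (t k i).1) δ (fun i => (t k i).2) hδ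
      (fun i => PathBound.close (fun i => hS.pos _ (t k i).2) (hp k) i)
    calc |m k| * |CC fun i => gdens (t k i).1| ≤ |m k| * (C * δ ^ (n + 1)) :=
          mul_le_mul_of_nonneg_left h1 (abs_nonneg _)
      _ = |m k| * δ ^ (n + 1) * C := by ring
  | succ j ih =>
    intro ι _ t m δ hδ hw hp
    -- the geometric mean as an equivariant map
    let f : {P : Matrix (Fin n) (Fin n) ℝ // P ∈ S} ×
        {P : Matrix (Fin n) (Fin n) ℝ // P ∈ S} →
        {P : Matrix (Fin n) (Fin n) ℝ // P ∈ S} :=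
      fun x => ⟨gm x.1.1 x.2.1, hS.gm_mem x.1.2 x.2.2⟩
    have hf : ∀ (γ : Γ) (x : {P : Matrix (Fin n) (Fin n) ℝ // P ∈ S} ×
        {P : Matrix (Fin n) (Fin n) ℝ // P ∈ S}), f (γ • x) = γ • f x := by
      intro γ x
      refine Subtype.ext ?_
      rw [hA]
      change gm (γ • x.1).1 (γ • x.2).1 = _
      rw [hA, hA]
      exact gm_conj (hS.pos _ x.1.2) (hS.pos _ x.2.2) (hdet γ)
    have hdouble := CC_double ρ t m hw (fun P => gdens P.1) (fun x => gdens (f x).1)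
      (fun P => integrable_gdens (hS.pos _ P.2)) (fun x => integrable_gdens (hS.pos _ (f x).2))
      (fun P => integral_gdens (hS.pos _ P.2)) (fun x => integral_gdens (hS.pos _ (f x).2))
      (fun γ P => by
        change gdens (γ • P).1 = push (ρ γ) (gdens P.1)
        rw [hA, push_gdens (hdet γ) (hS.pos _ P.2)])
      (fun γ x => by
        change gdens (f (γ • x)).1 = push (ρ γ) (gdens (f x).1)
        rw [hf, hA, push_gdens (hdet γ) (hS.pos _ (f x).2)])
    rw [hdouble]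
    have hw' := iter_wcycle_map hw.path f hf
    have h1 := ih (ι × (Fin n → Bool)) (fun k i => f (ChP.path (t k.1) k.2 i))
      (fun k => m k.1 * sgnA k.2) (δ / 2) (by linarith) hw' (fun k => by
        have h2 := PathBound.path (fun i => hS.pos _ (t k.1 i).2) (hp k.1) k.2
        exact h2)
    refine h1.trans (le_of_eq ?_)
    have h3 : ∑ k : ι × (Fin n → Bool), |m k.1 * sgnA k.2| = 2 ^ n * ∑ k, |m k| := by
      rw [Fintype.sum_prod_type]
      simp only [abs_mul, iter_abs_sgnA, mul_one, Finset.sum_const, Finset.card_univ,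
        Fintype.card_fun, Fintype.card_bool, Fintype.card_fin, nsmul_eq_mul]
      rw [← Finset.mul_sum]
      push_cast
      rfl
    rw [h3, div_pow, pow_succ (2 : ℝ) n, pow_succ (2 : ℝ) j]
    have h4 : (2 : ℝ) ^ n ≠ 0 := by positivity
    field_simp

theorem noEul_of_good {n : ℕ} {Γ : Type} [Group Γ] {S : Set (Matrix (Fin n) (Fin n) ℝ)}
    (hS : Good S) (ρ : Γ →* Matrix (Fin n) (Fin n) ℝ)
    (hst : ∀ γ, ∀ P ∈ S, ρ γ * P * (ρ γ)ᵀ ∈ S) : NoEul ρ := by
  intro ι _ t m h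
  have hdet : ∀ γ, (ρ γ).det ≠ 0 := by
    intro γ h1
    have h2 : (ρ γ * ρ γ⁻¹).det = 1 := by
      rw [← map_mul, mul_inv_cancel, map_one, det_one]
    rw [det_mul, h1, zero_mul] at h2
    exact zero_ne_one h2
  obtain ⟨C, hC0, hC⟩ := local_est hS
  let _ : MulAction Γ {P : Matrix (Fin n) (Fin n) ℝ // P ∈ S} :=
    { smul := fun γ P => ⟨ρ γ * P.1 * (ρ γ)ᵀ, hst γ P.1 P.2⟩
      one_smul := fun P => by
        refine Subtype.ext ?_
        change ρ 1 * P.1 * (ρ 1)ᵀ = P.1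
        rw [map_one, transpose_one, mul_one, one_mul]
      mul_smul := fun a b P => by
        refine Subtype.ext ?_
        change ρ (a * b) * P.1 * (ρ (a * b))ᵀ = ρ a * (ρ b * P.1 * (ρ b)ᵀ) * (ρ a)ᵀ
        rw [map_mul, transpose_mul]
        simp only [Matrix.mul_assoc] }
  have hA : ∀ (γ : Γ) (P : {P : Matrix (Fin n) (Fin n) ℝ // P ∈ S}),
      (γ • P).1 = ρ γ * P.1 * (ρ γ)ᵀ := fun γ P => rfl
  have h1mem : (1 : Matrix (Fin n) (Fin n) ℝ) ∈ S := hS.one
  let f : Γ → {P : Matrix (Fin n) (Fin n) ℝ // P ∈ S} := fun γ => γ • ⟨1, h1mem⟩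
  have hf : ∀ (γ y : Γ), f (γ • y) = γ • f y := by
    intro γ y
    change (γ * y) • _ = γ • (y • _)
    rw [mul_smul]
  have hw := iter_wcycle_map h f hf
  -- the initial path bound
  have hex : ∀ k : ι, ∃ δ : ℝ, 0 ≤ δ ∧ PathBound (fun i => (f (t k i)).1) δ := by
    intro k
    choose e he0 hec using fun i : Fin n =>
      exists_close (hS.pos _ (f (t k i.castSucc)).2) (hS.pos _ (f (t k i.succ)).2)
    exact ⟨∑ i, e i, Finset.sum_nonneg fun i _ => he0 i, e, he0, le_rfl, hec⟩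
  choose δ hδ0 hδ using hex
  have hpb : ∀ k : ι, PathBound (fun i => (f (t k i)).1) (∑ k, δ k) := by
    intro k
    obtain ⟨e, he0, hes, hec⟩ := hδ k
    exact ⟨e, he0, hes.trans (Finset.single_le_sum (fun i _ => hδ0 i) (Finset.mem_univ k)), hec⟩
  have hD : 0 ≤ ∑ k, δ k := Finset.sum_nonneg fun k _ => hδ0 k
  have heul : eul ρ t m = ∑ k, m k * CC (fun i => gdens (f (t k i)).1) := by
    unfold eul
    refine Finset.sum_congr rfl fun k _ => ?_
    congr 2
    funext i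
    change _ = gdens (ρ (t k i) * 1 * (ρ (t k i))ᵀ)
    rw [push_gdens (hdet _) PosDef.one]
  have hbound : ∀ j : ℕ, |eul ρ t m| ≤ C * (∑ k, |m k|) * (∑ k, δ k) ^ (n + 1) / 2 ^ j := by
    intro j
    rw [heul]
    exact iter_main hS ρ hdet hA C hC j ι (fun k i => f (t k i)) m (∑ k, δ k) hD hw hpb
  have hlim : Filter.Tendsto (fun j : ℕ => C * (∑ k, |m k|) * (∑ k, δ k) ^ (n + 1) / 2 ^ j)
      Filter.atTop (nhds 0) :=
    (tendsto_pow_atTop_atTop_of_one_lt (by norm_num : (1 : ℝ) < 2)).const_div_atTop _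
  have h5 : |eul ρ t m| ≤ 0 := ge_of_tendsto' hlim hbound
  exact abs_nonpos_iff.1 h5

end Pool.Agent.ChM
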