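import Pool.Agent.ChM.GradDl

/-!
# Gaussian means of invariant polynomials

Let `p = res P`.  By `gE_X_mul` (integration by parts)
`gE (∑ k, ∂_k p * ∂_k δ) = gE (∑ k, ∂_k (∂_k p * δ) - ∂_k ∂_k p * δ)
= gE ((∑ k, X k * ∂_k p) * δ) - gE (∑ k, ∂_k ∂_k p * δ)`, `δ = dl Y`.
With `grad_dl`, `res_pderiv` (`Fin.sum_univ_add` for `lap P`) and `euler_formula`:
`gE n (res (lap P) * δ) = m * gE n (res P * δ)`.  Likewise
`gE (n + n) (lap P) = gE (∑ i, X i * ∂_i P) = m * gE (n + n) P`.
Induction on `m` (strong; `m - 2`): `lap P` is again invariant (`lap_rot`, `map_zero`-type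
argument `lap 0 = 0`) and homogeneous of degree `m - 2`.  For `m = 0`, `P = C c`
(`gE_C`).  For `m = 1` both sides are `0` (`lap_eq_zero`).  For `m ≥ 2`
`m * gE (res P * δ) = gE (res (lap P) * δ) = gE (lap P) * gE δ = m * gE P * gE δ`.
-/

namespace Pool.Agent.ChM

open Matrix MvPolynomial

theorem jalg_lap_zero {N : ℕ} : lap (0 : MvPolynomial (Fin N) ℂ) = 0 := by
  unfold lap
  simp

theorem jalg_full {n m : ℕ} {P : MvPolynomial (Fin n) ℂ} (hm : P.IsHomogeneous m) :
    gE n (lap P) = m * gE n P := by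
  unfold lap
  rw [map_sum]
  have h1 : ∀ i : Fin n, gE n (pderiv i (pderiv i P)) = gE n (X i * pderiv i P) := fun i =>
    (gE_X_mul i _).symm
  simp only [h1]
  rw [← map_sum, euler_formula hm]
  have h2 : (m : MvPolynomial (Fin n) ℂ) * P = (m : ℂ) • P := by
    rw [MvPolynomial.smul_eq_C_mul]
    simp
  rw [h2, map_smul, smul_eq_mul]

theorem jalg_res {n : ℕ} (Y : Fin n → Matrix (Fin n) (Fin n) ℝ) (hY : ∀ i, (Y i)ᵀ = Y i) {m : ℕ}
    {P : MvPolynomial (Fin (n + n)) ℂ} (hm : P.IsHomogeneous m) (hP : ∀ i, rot (Y i) P = 0) :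
    gE n (res (lap P) * dl Y) = m * gE n (res P * dl Y) := by
  have h1 := grad_dl Y hY P hP
  have h2 : res (lap P) = ∑ k, pderiv k (pderiv k (res P)) +
      res (∑ k, pderiv (Fin.natAdd n k) (pderiv (Fin.natAdd n k) P)) := by
    unfold lap
    rw [Fin.sum_univ_add, map_add]
    congr 1
    rw [map_sum]
    refine Finset.sum_congr rfl fun k _ => ?_
    rw [res_pderiv, res_pderiv]
  rw [h2, add_mul, ← h1, map_add]
  have h3 : ∀ k : Fin n, pderiv k (pderiv k (res P)) * dl Y +
      pderiv k (res P) * pderiv k (dl Y) = pderiv k (pderiv k (res P) * dl Y) := by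
    intro k
    rw [Derivation.leibniz, smul_eq_mul, smul_eq_mul]
    ring
  rw [← map_add, Finset.sum_mul, ← Finset.sum_add_distrib]
  simp only [h3]
  rw [map_sum]
  have h4 : ∀ k : Fin n, gE n (pderiv k (pderiv k (res P) * dl Y)) =
      gE n (X k * pderiv k (res P) * dl Y) := by
    intro k
    rw [← gE_X_mul, mul_assoc]
  simp only [h4]
  rw [← map_sum, ← Finset.sum_mul, euler_formula (isHomogeneous_res hm)]
  have h5 : (m : MvPolynomial (Fin n) ℂ) * res P * dl Y = (m : ℂ) • (res P * dl Y) := by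
    rw [MvPolynomial.smul_eq_C_mul, mul_assoc]
    simp
  rw [h5, map_smul, smul_eq_mul]

theorem gE_res {n : ℕ} (Y : Fin n → Matrix (Fin n) (Fin n) ℝ) (hY : ∀ i, (Y i)ᵀ = Y i) (m : ℕ)
    (P : MvPolynomial (Fin (n + n)) ℂ) (hm : P.IsHomogeneous m) (hP : ∀ i, rot (Y i) P = 0) :
    gE n (res P * dl Y) = gE (n + n) P * gE n (dl Y) := by
  induction m using Nat.strong_induction_on generalizing P with
  | _ m ih =>
    rcases Nat.lt_or_ge m 2 with hm2 | hm2
    · have hl : lap P = 0 := lap_eq_zero hm hm2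
      rcases Nat.eq_zero_or_pos m with h0 | h0
      · subst h0
        obtain ⟨c, rfl⟩ : ∃ c : ℂ, P = C c := ⟨_, (MvPolynomial.totalDegree_eq_zero_iff_eq_C.mp
          (Nat.le_zero.mp hm.totalDegree_le))⟩
        rw [gE_C]
        have : res (C c : MvPolynomial (Fin (n + n)) ℂ) = C c := AlgHom.commutes _ c
        rw [this, ← MvPolynomial.smul_eq_C_mul, map_smul, smul_eq_mul]
      · have h1 := jalg_res Y hY hm hP
        have h2 := jalg_full hm
        rw [hl, map_zero] at h2
        rw [hl, map_zero, zero_mul, map_zero] at h1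
        have hm0 : (m : ℂ) ≠ 0 := by exact_mod_cast h0.ne'
        have h3 : gE n (res P * dl Y) = 0 := by
          rcases mul_eq_zero.mp h1.symm with h | h
          · exact absurd h hm0
          · exact h
        have h4 : gE (n + n) P = 0 := by
          rcases mul_eq_zero.mp h2.symm with h | h
          · exact absurd h hm0
          · exact h
        rw [h3, h4, zero_mul]
    · obtain ⟨k, rfl⟩ : ∃ k, m = k + 2 := ⟨m - 2, by omega⟩
      have h1 := jalg_res Y hY hm hP
      have h2 := jalg_full hm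
      have h3 := ih k (by omega) (lap P) (isHomogeneous_lap hm) (fun i => by
        rw [lap_rot (Y i) (hY i), hP i, jalg_lap_zero])
      rw [h1, h2] at h3
      have hm0 : ((k + 2 : ℕ) : ℂ) ≠ 0 := by
        have : (k + 2 : ℕ) ≠ 0 := by omega
        exact_mod_cast this
      rw [mul_assoc] at h3
      exact mul_left_cancel₀ hm0 h3

end Pool.Agent.ChM
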