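import Pool.Agent.ChM.Rot
import Pool.Agent.ChM.BlSpec
import Pool.Agent.ChP.PSet

/-!
# The complex polynomials of a real tensor on `V ⊕ V*`

`qp T` is `tpoly T (x + I y, x - I y)` and `qm T` is `tpoly T (x - I y, x + I y)`.

`tangent_ten`: `P^s` fixes `T` for all real `s` if `P` does (`cfc_mem_PSet`), so
`tpoly T (P^s w) = tpoly T w`; differentiate at `s = 0`.  This is `PSet_tangent` in
`ChP/PSet.lean` (private there, copy the proof) with `(lg P *ᵥ w) (I k)` written as a sum.

`rot_qp`: let `L = lg (bl P) = bd (lg P) (- lg P)` (`lg_bl`).  One computes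
`rot (lg P) (zp a) = C Complex.I * ∑ b, C (L a b) * zp b` (and `- C Complex.I * ...` for `zm`) for
all `a : Fin (n + n)` (`Fin.addCases`, `bd_apply_cc` etc.).  By the Leibniz rule for products
(`Derivation.leibniz_prod` or induction)
`rot (lg P) (qp T) = C Complex.I * ∑ I, C (T I) * ∑ k, (∑ b, C (L (I k) b) * zp b) *
  ∏ j ∈ univ.erase k, zp (I j)`.  The polynomial
`∑ I, C (T I) * ∑ k, (∑ b, C (L (I k) b) * X b) * ∏ j ∈ univ.erase k, X (I j)` in
`MvPolynomial (Fin (n + n)) ℝ` vanishes at all points by `tangent_ten`, so it is zero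
(`MvPolynomial.funext`); substitute `zp` (`MvPolynomial.aeval`).

`qp_ne`: evaluate `qp T`, `qm T` at the complex point `x = (v + ξ)/2`, `y = (v - ξ)/(2 I)`: the
values of `zp` are `(v, ξ)`, those of `zm` are `(ξ, v)`.
-/

namespace Pool.Agent.ChM

open Matrix MvPolynomial Pool.Agent.ChP

/-- `(x + I y, x - I y)` -/
noncomputable def zp {n : ℕ} : Fin (n + n) → MvPolynomial (Fin (n + n)) ℂ :=
  Fin.append (fun i => X (Fin.castAdd n i) + C Complex.I * X (Fin.natAdd n i))
    (fun i => X (Fin.castAdd n i) - C Complex.I * X (Fin.natAdd n i))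

/-- `(x - I y, x + I y)` -/
noncomputable def zm {n : ℕ} : Fin (n + n) → MvPolynomial (Fin (n + n)) ℂ :=
  Fin.append (fun i => X (Fin.castAdd n i) - C Complex.I * X (Fin.natAdd n i))
    (fun i => X (Fin.castAdd n i) + C Complex.I * X (Fin.natAdd n i))

/-- The value of the polynomial of `T` at `z`. -/
noncomputable def tz {d N : ℕ} (T : Ten d N) (z : Fin N → MvPolynomial (Fin N) ℂ) :
    MvPolynomial (Fin N) ℂ :=
  ∑ I : Fin d → Fin N, C ((T I : ℝ) : ℂ) * ∏ k, z (I k)

/-- the derivative of `tpoly T` at `v` -/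
private noncomputable def TenPoly_D {d N : ℕ} (T : Ten d N) (v w : Fin N → ℝ) : ℝ :=
  ∑ I : Fin d → Fin N, T I * ∑ k : Fin d, (∏ j ∈ Finset.univ.erase k, v (I j)) * w (I k)

private theorem TenPoly_spec {N : ℕ} {P : Matrix (Fin N) (Fin N) ℝ} (hP : P.PosDef) :
    ∃ (U : Matrix (Fin N) (Fin N) ℝ) (l : Fin N → ℝ), U * Uᵀ = 1 ∧ Uᵀ * U = 1 ∧
      P = U * diagonal l * Uᵀ ∧ ∀ i, 0 < l i := by
  obtain ⟨U, l, h1, h2, h3⟩ := exists_spec P (by
    have := hP.isHermitian
    rwa [IsHermitian, conjTranspose_eq_transpose_of_trivial] at this)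
  exact ⟨U, l, h1, h2, h3, (posDef_iff_spec h2 h3).1 hP⟩

private theorem TenPoly_deriv {d N : ℕ} (T : Ten d N) {γ : ℝ → Fin N → ℝ} {w : Fin N → ℝ}
    (h : ∀ i, HasDerivAt (fun s => γ s i) (w i) 0) :
    HasDerivAt (fun s => tpoly T (γ s)) (TenPoly_D T (γ 0) w) 0 := by
  unfold tpoly TenPoly_D
  refine HasDerivAt.fun_sum fun I _ => ?_
  refine HasDerivAt.const_mul _ ?_
  have := HasDerivAt.fun_finsetProd (u := Finset.univ) (f := fun (k : Fin d) (s : ℝ) => γ s (I k))
    (f' := fun k => w (I k)) (x := 0) (fun k _ => h (I k))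
  simpa only [smul_eq_mul] using this

private theorem TenPoly_tangent {d N : ℕ} {T : Ten d N} {P : Matrix (Fin N) (Fin N) ℝ}
    (hP : P ∈ PSet T) (v : Fin N → ℝ) : TenPoly_D T v (lg P *ᵥ v) = 0 := by
  obtain ⟨U, l, h1, h2, h3, h4⟩ := TenPoly_spec hP.1
  have hcfc := cfc_conj_diagonal h2 h3
  obtain ⟨γ, hγ⟩ : ∃ γ : ℝ → Fin N → ℝ, γ = fun s => cfc (fun x : ℝ => x ^ s) P *ᵥ v := ⟨_, rfl⟩
  have hexp : ∀ (m : Fin N → ℝ) (i : Fin N), ((U * diagonal m * Uᵀ) *ᵥ v) i =
      ∑ j, U i j * (m j * (Uᵀ *ᵥ v) j) := by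
    intro m i
    rw [← Matrix.mulVec_mulVec, ← Matrix.mulVec_mulVec]
    rw [Matrix.mulVec, dotProduct]
    refine Finset.sum_congr rfl fun j _ => ?_
    rw [Matrix.mulVec_diagonal]
  have hγ0 : γ 0 = v := by
    rw [hγ]
    simp only
    rw [hcfc]
    have : (fun i => l i ^ (0 : ℝ)) = fun _ => (1 : ℝ) := by
      funext i
      rw [Real.rpow_zero]
    rw [this, Matrix.diagonal_one, mul_one, h1, Matrix.one_mulVec]
  have hd : ∀ i, HasDerivAt (fun s => γ s i) ((lg P *ᵥ v) i) 0 := by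
    intro i
    rw [hγ]
    unfold lg
    simp only
    have e : (fun s : ℝ => (cfc (fun x : ℝ => x ^ s) P *ᵥ v) i) =
        fun s : ℝ => ∑ j, U i j * (l j ^ s * (Uᵀ *ᵥ v) j) := by
      funext s
      rw [hcfc, hexp]
    rw [e, hcfc Real.log, hexp]
    refine HasDerivAt.fun_sum fun j _ => ?_
    refine HasDerivAt.const_mul _ ?_
    refine HasDerivAt.mul_const ?_ _
    have := (Real.hasStrictDerivAt_const_rpow (h4 j) 0).hasDerivAt
    rwa [Real.rpow_zero, one_mul] at this
  have h5 := TenPoly_deriv T hd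
  have h6 : (fun s => tpoly T (γ s)) = fun _ => tpoly T v := by
    funext s
    rw [hγ]
    simp only
    rw [← tpoly_tact, (cfc_mem_PSet hP s).2]
  rw [h6] at h5
  rw [hγ0] at h5
  exact h5.unique (hasDerivAt_const _ _)

theorem tangent_ten {d N : ℕ} {T : Ten d N} {G : Matrix (Fin N) (Fin N) ℝ} (hG : G.PosDef)
    (hT : tact T G = T) (w : Fin N → ℝ) :
    ∑ I : Fin d → Fin N, T I * ∑ k : Fin d, (∑ b, lg G (I k) b * w b) *
      ∏ j ∈ Finset.univ.erase k, w (I j) = 0 := by
  have h := TenPoly_tangent (T := T) (P := G) ⟨hG, hT⟩ w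
  unfold TenPoly_D at h
  rw [← h]
  refine Finset.sum_congr rfl fun I _ => ?_
  congr 1
  refine Finset.sum_congr rfl fun k _ => ?_
  rw [mul_comm]
  rfl

private theorem TenPoly_leib {N : ℕ}
    (D : Derivation ℂ (MvPolynomial (Fin N) ℂ) (MvPolynomial (Fin N) ℂ)) {ι : Type}
    [DecidableEq ι] (s : Finset ι) (f : ι → MvPolynomial (Fin N) ℂ) :
    D (∏ i ∈ s, f i) = ∑ k ∈ s, D (f k) * ∏ j ∈ s.erase k, f j := by
  induction s using Finset.induction_on with
  | empty => simp
  | insert a s ha ih =>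
    rw [Finset.prod_insert ha, Derivation.leibniz, ih, Finset.sum_insert ha,
      Finset.erase_insert ha, smul_eq_mul, smul_eq_mul, add_comm]
    congr 1
    · ring
    · rw [Finset.mul_sum]
      refine Finset.sum_congr rfl fun k hk => ?_
      have hne : k ≠ a := fun h => ha (h ▸ hk)
      rw [Finset.erase_insert_of_ne hne.symm, Finset.prod_insert (by
        intro h
        exact ha (Finset.mem_of_mem_erase h))]
      ring

private noncomputable def TenPoly_Q {d N : ℕ} (T : Ten d N) (L : Matrix (Fin N) (Fin N) ℝ) :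
    MvPolynomial (Fin N) ℝ :=
  ∑ I : Fin d → Fin N, C (T I) * ∑ k : Fin d, (∑ b, C (L (I k) b) * X b) *
    ∏ j ∈ Finset.univ.erase k, X (I j)

private theorem TenPoly_Q_zero {d N : ℕ} {T : Ten d N} {G : Matrix (Fin N) (Fin N) ℝ}
    (hG : G.PosDef) (hT : tact T G = T) : TenPoly_Q T (lg G) = 0 := by
  apply MvPolynomial.funext
  intro w
  unfold TenPoly_Q
  simp only [map_sum, map_mul, map_prod, eval_C, eval_X, map_zero]
  exact tangent_ten hG hT w

private theorem TenPoly_D_tz {d N : ℕ}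
    (D : Derivation ℂ (MvPolynomial (Fin N) ℂ) (MvPolynomial (Fin N) ℂ)) (T : Ten d N)
    (z : Fin N → MvPolynomial (Fin N) ℂ) (L : Matrix (Fin N) (Fin N) ℝ) (c : ℂ)
    (h : ∀ a, D (z a) = C c * ∑ b, C ((L a b : ℝ) : ℂ) * z b) (h0 : TenPoly_Q T L = 0) :
    D (tz T z) = 0 := by
  have h1 : eval₂Hom ((C : ℂ →+* MvPolynomial (Fin N) ℂ).comp Complex.ofRealHom) z
      (TenPoly_Q T L) = 0 := by
    rw [h0, map_zero]
  unfold TenPoly_Q at h1
  simp only [map_sum, map_mul, map_prod, eval₂Hom_C, eval₂Hom_X', RingHom.comp_apply,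
    Complex.ofRealHom_eq_coe] at h1
  have h2 : D (tz T z) = C c * ∑ I : Fin d → Fin N, C ((T I : ℝ) : ℂ) *
      ∑ k : Fin d, (∑ b, C ((L (I k) b : ℝ) : ℂ) * z b) *
        ∏ j ∈ Finset.univ.erase k, z (I j) := by
    unfold tz
    rw [map_sum, Finset.mul_sum]
    refine Finset.sum_congr rfl fun I _ => ?_
    rw [Derivation.leibniz, TenPoly_leib D Finset.univ (fun k => z (I k)), smul_eq_mul,
      smul_eq_mul]
    have h3 : D (C ((T I : ℝ) : ℂ)) = 0 := by
      rw [← MvPolynomial.algebraMap_eq, Derivation.map_algebraMap]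
    rw [h3, mul_zero, add_zero, Finset.mul_sum, Finset.mul_sum, Finset.mul_sum]
    refine Finset.sum_congr rfl fun k _ => ?_
    rw [h (I k)]
    ring
  rw [h2, h1, mul_zero]

/-- the two substitutions at once -/
private noncomputable def TenPoly_zc {n : ℕ} (c : ℂ) :
    Fin (n + n) → MvPolynomial (Fin (n + n)) ℂ :=
  Fin.append (fun i => X (Fin.castAdd n i) + C c * X (Fin.natAdd n i))
    (fun i => X (Fin.castAdd n i) - C c * X (Fin.natAdd n i))

private theorem TenPoly_zp {n : ℕ} : (zp : Fin (n + n) → _) = TenPoly_zc Complex.I := rfl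

private theorem TenPoly_zm {n : ℕ} : (zm : Fin (n + n) → _) = TenPoly_zc (-Complex.I) := by
  funext a
  unfold zm TenPoly_zc
  refine Fin.addCases (fun i => ?_) (fun i => ?_) a
  · rw [Fin.append_left, Fin.append_left, map_neg]
    ring
  · rw [Fin.append_right, Fin.append_right, map_neg]
    ring

private theorem TenPoly_rot_zc {n : ℕ} (Y : Matrix (Fin n) (Fin n) ℝ) {c : ℂ} (hc : c * c = -1)
    (a : Fin (n + n)) : rot Y (TenPoly_zc c a) =
      C c * ∑ b, C ((bd Y (-Y) a b : ℝ) : ℂ) * TenPoly_zc c b := by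
  have hC : (C c : MvPolynomial (Fin (n + n)) ℂ) * C c = -1 := by
    rw [← C_mul, hc, C_neg, C_1]
  have hD : rot Y (C c) = 0 := by
    rw [← MvPolynomial.algebraMap_eq, Derivation.map_algebraMap]
  have hx : ∀ i : Fin n, rot Y (X (Fin.castAdd n i)) =
      -∑ j, C ((Y i j : ℝ) : ℂ) * X (Fin.natAdd n j) := fun i => by
    unfold rot
    rw [mkDerivation_X, Fin.append_left]
  have hy : ∀ i : Fin n, rot Y (X (Fin.natAdd n i)) =
      ∑ j, C ((Y i j : ℝ) : ℂ) * X (Fin.castAdd n j) := fun i => by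
    unfold rot
    rw [mkDerivation_X, Fin.append_right]
  rw [Fin.sum_univ_add]
  unfold TenPoly_zc
  refine Fin.addCases (fun i => ?_) (fun i => ?_) a
  · simp only [Fin.append_left, Fin.append_right, bd_apply_cc, bd_apply_cn, Complex.ofReal_zero,
      C_0, zero_mul, Finset.sum_const_zero, add_zero]
    rw [map_add, Derivation.leibniz, hD, hx, hy, smul_zero, add_zero, smul_eq_mul]
    simp only [mul_add, Finset.sum_add_distrib]
    rw [Finset.mul_sum, Finset.mul_sum, ← Finset.sum_neg_distrib, ← Finset.sum_add_distrib,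
      ← Finset.sum_add_distrib]
    refine Finset.sum_congr rfl fun j _ => ?_
    linear_combination (-(C ((Y i j : ℝ) : ℂ) * X (Fin.natAdd n j))) * hC
  · simp only [Fin.append_left, Fin.append_right, bd_apply_nc, bd_apply_nn, Complex.ofReal_zero,
      C_0, zero_mul, Finset.sum_const_zero, zero_add, Matrix.neg_apply, Complex.ofReal_neg, C_neg]
    rw [map_sub, Derivation.leibniz, hD, hx, hy, smul_zero, add_zero, smul_eq_mul]
    simp only [mul_sub, Finset.sum_sub_distrib]
    rw [Finset.mul_sum, Finset.mul_sum, Finset.mul_sum, ← Finset.sum_neg_distrib,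
      ← Finset.sum_sub_distrib, ← Finset.sum_sub_distrib]
    refine Finset.sum_congr rfl fun j _ => ?_
    linear_combination (-(C ((Y i j : ℝ) : ℂ) * X (Fin.natAdd n j))) * hC

private theorem TenPoly_rot_tz {d n : ℕ} {T : Ten d (n + n)} {P : Matrix (Fin n) (Fin n) ℝ}
    (hP : P.PosDef) (hT : tact T (bl P) = T) {c : ℂ} (hc : c * c = -1) :
    rot (lg P) (tz T (TenPoly_zc c)) = 0 := by
  have h0 := TenPoly_Q_zero (bl_posDef hP) hT
  rw [lg_bl hP] at h0
  exact TenPoly_D_tz (rot (lg P)) T (TenPoly_zc c) _ c (TenPoly_rot_zc (lg P) hc) h0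

theorem rot_qp {d n : ℕ} {T : Ten d (n + n)} {P : Matrix (Fin n) (Fin n) ℝ} (hP : P.PosDef)
    (hT : tact T (bl P) = T) : rot (lg P) (tz T zp) = 0 := by
  rw [TenPoly_zp]
  exact TenPoly_rot_tz hP hT Complex.I_mul_I

theorem rot_qm {d n : ℕ} {T : Ten d (n + n)} {P : Matrix (Fin n) (Fin n) ℝ} (hP : P.PosDef)
    (hT : tact T (bl P) = T) : rot (lg P) (tz T zm) = 0 := by
  rw [TenPoly_zm]
  exact TenPoly_rot_tz hP hT (by rw [neg_mul_neg, Complex.I_mul_I])

private theorem TenPoly_hom {d n : ℕ} (T : Ten d (n + n)) (c : ℂ) :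
    (tz T (TenPoly_zc c)).IsHomogeneous d := by
  unfold tz
  apply MvPolynomial.IsHomogeneous.sum
  intro I _
  have h1 : (∏ k : Fin d, (TenPoly_zc c : Fin (n + n) → _) (I k)).IsHomogeneous
      (∑ _k : Fin d, 1) := by
    apply MvPolynomial.IsHomogeneous.prod
    intro k _
    unfold TenPoly_zc
    have h2 : ∀ i : Fin n, (C c * X (Fin.natAdd n i) :
        MvPolynomial (Fin (n + n)) ℂ).IsHomogeneous 1 := fun i => by
      have := (isHomogeneous_C (Fin (n + n)) c).mul (isHomogeneous_X ℂ (Fin.natAdd n i))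
      rwa [zero_add] at this
    refine Fin.addCases (fun i => ?_) (fun i => ?_) (I k)
    · rw [Fin.append_left]
      exact (isHomogeneous_X ℂ _).add (h2 i)
    · rw [Fin.append_right]
      exact (isHomogeneous_X ℂ _).sub (h2 i)
  have h3 := (isHomogeneous_C (Fin (n + n)) ((T I : ℝ) : ℂ)).mul h1
  simpa using h3

theorem isHomogeneous_qp {d n : ℕ} (T : Ten d (n + n)) : (tz T zp).IsHomogeneous d := by
  rw [TenPoly_zp]
  exact TenPoly_hom T _

theorem isHomogeneous_qm {d n : ℕ} (T : Ten d (n + n)) : (tz T zm).IsHomogeneous d := by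
  rw [TenPoly_zm]
  exact TenPoly_hom T _

private theorem TenPoly_res {n : ℕ} (c : ℂ) (a : Fin (n + n)) :
    res (TenPoly_zc c a) = Fin.append X X a := by
  unfold TenPoly_zc res
  refine Fin.addCases (fun i => ?_) (fun i => ?_) a
  · rw [Fin.append_left, Fin.append_left, map_add, map_mul, aeval_X, aeval_X, Fin.append_left,
      Fin.append_right, mul_zero, add_zero]
  · rw [Fin.append_right, Fin.append_right, map_sub, map_mul, aeval_X, aeval_X, Fin.append_left,
      Fin.append_right, mul_zero, sub_zero]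

private theorem TenPoly_res_tz {d n : ℕ} (T : Ten d (n + n)) (c : ℂ) :
    res (tz T (TenPoly_zc c)) =
      ∑ I : Fin d → Fin (n + n), res (C ((T I : ℝ) : ℂ)) * ∏ k, Fin.append X X (I k) := by
  unfold tz
  rw [map_sum]
  refine Finset.sum_congr rfl fun I _ => ?_
  rw [map_mul, map_prod]
  congr 1
  exact Finset.prod_congr rfl fun k _ => TenPoly_res c (I k)

theorem res_qp {d n : ℕ} (T : Ten d (n + n)) : res (tz T zp) = res (tz T zm) := by
  rw [TenPoly_zp, TenPoly_zm, TenPoly_res_tz, TenPoly_res_tz]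

private theorem TenPoly_eval_tz {d N : ℕ} (T : Ten d N) (z : Fin N → MvPolynomial (Fin N) ℂ)
    (p : Fin N → ℂ) :
    eval p (tz T z) = ∑ I : Fin d → Fin N, ((T I : ℝ) : ℂ) * ∏ k, eval p (z (I k)) := by
  unfold tz
  simp only [map_sum, map_mul, map_prod, eval_C]

theorem eval_qm {d n : ℕ} (T : Ten d (n + n)) (x : Fin (n + n) → ℝ) :
    eval (fun i => (x i : ℂ)) (tz T zm) =
      (starRingEnd ℂ) (eval (fun i => (x i : ℂ)) (tz T zp)) := by
  rw [TenPoly_eval_tz, TenPoly_eval_tz, map_sum]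
  refine Finset.sum_congr rfl fun I _ => ?_
  rw [map_mul, map_prod, Complex.conj_ofReal]
  congr 1
  refine Finset.prod_congr rfl fun k _ => ?_
  unfold zp zm
  refine Fin.addCases (fun i => ?_) (fun i => ?_) (I k)
  · rw [Fin.append_left, Fin.append_left]
    simp only [map_add, map_sub, map_mul, eval_X, eval_C, Complex.conj_ofReal, Complex.conj_I]
    ring
  · rw [Fin.append_right, Fin.append_right]
    simp only [map_add, map_sub, map_mul, eval_X, eval_C, Complex.conj_ofReal, Complex.conj_I]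
    ring

private theorem TenPoly_eval_real {d N : ℕ} (T : Ten d N) (z : Fin N → MvPolynomial (Fin N) ℂ)
    (p : Fin N → ℂ) (w : Fin N → ℝ) (h : ∀ a, eval p (z a) = (w a : ℂ)) :
    eval p (tz T z) = ((tpoly T w : ℝ) : ℂ) := by
  rw [TenPoly_eval_tz]
  unfold tpoly
  rw [Complex.ofReal_sum]
  refine Finset.sum_congr rfl fun I _ => ?_
  rw [Complex.ofReal_mul, Complex.ofReal_prod]
  congr 1
  exact Finset.prod_congr rfl fun k _ => h (I k)

theorem qp_ne {d n : ℕ} (T : Ten d (n + n)) (v ξ : Fin n → ℝ)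
    (h : tpoly T (Fin.append v ξ) ≠ tpoly T (Fin.append ξ v)) : tz T zp ≠ tz T zm := by
  intro he
  apply h
  obtain ⟨p, hp⟩ : ∃ p : Fin (n + n) → ℂ, p = Fin.append
      (fun i => ((v i : ℂ) + (ξ i : ℂ)) / 2)
      (fun i => -(Complex.I * (((v i : ℂ) - (ξ i : ℂ)) / 2))) := ⟨_, rfl⟩
  have hI : Complex.I * Complex.I = -1 := Complex.I_mul_I
  have h1 : eval p (tz T zp) = ((tpoly T (Fin.append v ξ) : ℝ) : ℂ) := by
    apply TenPoly_eval_real
    intro a
    unfold zp
    refine Fin.addCases (fun i => ?_) (fun i => ?_) a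
    · rw [Fin.append_left, Fin.append_left]
      simp only [map_add, map_mul, eval_X, eval_C, hp, Fin.append_left, Fin.append_right]
      linear_combination (-((v i : ℂ) - (ξ i : ℂ)) / 2) * hI
    · rw [Fin.append_right, Fin.append_right]
      simp only [map_sub, map_mul, eval_X, eval_C, hp, Fin.append_left, Fin.append_right]
      linear_combination (((v i : ℂ) - (ξ i : ℂ)) / 2) * hI
  have h2 : eval p (tz T zm) = ((tpoly T (Fin.append ξ v) : ℝ) : ℂ) := by
    apply TenPoly_eval_real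
    intro a
    unfold zm
    refine Fin.addCases (fun i => ?_) (fun i => ?_) a
    · rw [Fin.append_left, Fin.append_left]
      simp only [map_sub, map_mul, eval_X, eval_C, hp, Fin.append_left, Fin.append_right]
      linear_combination (((v i : ℂ) - (ξ i : ℂ)) / 2) * hI
    · rw [Fin.append_right, Fin.append_right]
      simp only [map_add, map_mul, eval_X, eval_C, hp, Fin.append_left, Fin.append_right]
      linear_combination (-((v i : ℂ) - (ξ i : ℂ)) / 2) * hI
  have h3 : ((tpoly T (Fin.append v ξ) : ℝ) : ℂ) = ((tpoly T (Fin.append ξ v) : ℝ) : ℂ) := by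
    rw [← h1, ← h2, he]
  exact Complex.ofReal_injective h3

end Pool.Agent.ChM
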