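import Pool.Agent.ChM.JAlg
import Pool.Agent.ChM.TenPoly

/-!
# The mean of the determinant vanishes
-/

namespace Pool.Agent.ChM

open Matrix MvPolynomial Pool.Agent.ChP

theorem jj_eq_zero {d n : ℕ} (T : Ten d (n + n)) (P : Fin n → Matrix (Fin n) (Fin n) ℝ)
    (hP : ∀ i, (P i).PosDef) (hT : ∀ i, tact T (bl (P i)) = T) (v ξ : Fin n → ℝ)
    (hne : tpoly T (Fin.append v ξ) ≠ tpoly T (Fin.append ξ v)) :
    JJ (fun i => lg (P i)) = 0 := by
  by_contra hJ
  have hsym : ∀ i, (lg (P i))ᵀ = lg (P i) := fun i => lg_transpose (hP i)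
  obtain ⟨R, hR⟩ : ∃ R : MvPolynomial (Fin (n + n)) ℂ, R = tz T zp - tz T zm := ⟨_, rfl⟩
  have hrot : ∀ i, rot (lg (P i)) R = 0 := by
    intro i
    rw [hR, map_sub, rot_qp (hP i) (hT i), rot_qm (hP i) (hT i), sub_zero]
  have hrot2 : ∀ i, rot (lg (P i)) (R * R) = 0 := by
    intro i
    rw [Derivation.leibniz, hrot i]
    simp
  have hhom : (R * R).IsHomogeneous (d + d) := by
    have h1 : R.IsHomogeneous d := by
      rw [hR]
      exact (isHomogeneous_qp T).sub (isHomogeneous_qm T)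
    exact h1.mul h1
  have hres : res R = 0 := by
    rw [hR, map_sub, res_qp, sub_self]
  have h1 := gE_res (fun i => lg (P i)) hsym (d + d) (R * R) hhom hrot2
  have hres2 : res (R * R) = 0 := by rw [map_mul, hres, zero_mul]
  rw [hres2, zero_mul, map_zero, gE_dl] at h1
  have h2 : gE (n + n) (R * R) = 0 := by
    rcases mul_eq_zero.1 h1.symm with h3 | h3
    · exact h3
    · exact absurd (by exact_mod_cast h3) hJ
  have h3 : R = 0 := by
    refine eq_zero_of_gE_sq R (fun x => ?_) h2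
    rw [hR, map_sub, eval_qm]
    simp
  exact qp_ne T v ξ hne (by rw [← sub_eq_zero, ← hR, h3])

end Pool.Agent.ChM
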