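import Pool.Agent.ChM.GradDl

/-!
# The mean of the determinant does not see central parts

`JJ` is multilinear in the matrices, so it suffices to show `JJ Y = 0` if for some `a` the matrix
`Y a = Z` commutes with all `Y j` (`jj_central`): replace the `Y i` by `Y i - s i • Z` one after the
other; two rows proportional to `Z η` give determinant `0`, and `Z` commutes with the
`Y j - s j • Z`.

`jj_central`: by `gE_dl` it suffices that `gE n (dl Y) = 0`.  Let `M i j = ∑ l, C (Y i j l) * X l`,
`dl Y = det M = ∑ k, M a k * det (M with row a replaced by e_k)` (expansion along the row `a`,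
`Matrix.det_updateRow...` / linearity in the row `a`), `M a k = ∑ l, C (Z k l) * X l`.  By
`gE_X_mul` `gE (X l * D_k) = gE (pderiv l D_k)`, `D_k = det (updateRow M a e_k)`.  `pderiv l D_k
= ∑ j ≠ a, det (row a: e_k, row j: the column l of Y j)` (derivative of a determinant, row by row).
So the sum is `∑ j ≠ a, ∑ k l, Z k l * det (row a: e_k, row j: (Y j) _ l)
= ∑ j ≠ a, ∑ k q, (∑ l, Z k l * Y j q l) * det (row a: e_k, row j: e_q)`.  The matrix
`Z * (Y j)ᵀ = Z * Y j` is symmetric (commuting symmetric matrices) and the determinant is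
antisymmetric in `k, q`, so each summand over `j` is `0`.
-/

namespace Pool.Agent.ChM

open Matrix MvPolynomial Pool.Agent.ChP

private noncomputable def LemmaZ_M {n : ℕ} (Y : Fin n → Matrix (Fin n) (Fin n) ℝ) :
    Matrix (Fin n) (Fin n) (MvPolynomial (Fin n) ℂ) :=
  Matrix.of fun i j : Fin n => ∑ l, C ((Y i j l : ℝ) : ℂ) * X l

private theorem LemmaZ_M_apply {n : ℕ} (Y : Fin n → Matrix (Fin n) (Fin n) ℝ) (i j : Fin n) :
    LemmaZ_M Y i j = ∑ l, C ((Y i j l : ℝ) : ℂ) * X l := rfl

private theorem LemmaZ_exp {n : ℕ} (Y : Fin n → Matrix (Fin n) (Fin n) ℝ) (a : Fin n)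
    (A : Matrix (Fin n) (Fin n) ℝ) : dl (Function.update Y a A) =
      ∑ k, (∑ l, C ((A k l : ℝ) : ℂ) * X l) *
        ((LemmaZ_M Y).updateRow a (Pi.single k 1)).det := by
  have e : LemmaZ_M (Function.update Y a A) =
      (LemmaZ_M Y).updateRow a (fun j => ∑ l, C ((A j l : ℝ) : ℂ) * X l) := by
    refine Matrix.ext fun i j => ?_
    by_cases h : i = a
    · rw [h, Matrix.updateRow_self, LemmaZ_M_apply, Function.update_self]
    · rw [Matrix.updateRow_ne h, LemmaZ_M_apply, LemmaZ_M_apply, Function.update_of_ne h]
  change (LemmaZ_M (Function.update Y a A)).det = _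
  rw [Matrix.det_eq_sum_mul_adjugate_row _ a]
  refine Finset.sum_congr rfl fun k _ => ?_
  rw [Matrix.adjugate_apply, e, Matrix.updateRow_self, Matrix.updateRow_idem]

private theorem LemmaZ_anti {n : ℕ} {R : Type*} [CommRing R] (M : Matrix (Fin n) (Fin n) R)
    {a j : Fin n} (h : j ≠ a) (u v : Fin n → R) :
    ((M.updateRow a u).updateRow j v).det = - ((M.updateRow a v).updateRow j u).det := by
  have e : (M.updateRow a u).updateRow j v =
      ((M.updateRow a v).updateRow j u).submatrix (Equiv.swap a j) id := by
    refine Matrix.ext fun i c => ?_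
    rw [Matrix.submatrix_apply, id]
    by_cases hj : i = j
    · rw [hj, Equiv.swap_apply_right, Matrix.updateRow_self, Matrix.updateRow_ne h.symm,
        Matrix.updateRow_self]
    · by_cases ha : i = a
      · rw [ha, Equiv.swap_apply_left, Matrix.updateRow_ne h.symm, Matrix.updateRow_self,
          Matrix.updateRow_self]
      · rw [Equiv.swap_apply_of_ne_of_ne ha hj, Matrix.updateRow_ne hj, Matrix.updateRow_ne ha,
          Matrix.updateRow_ne hj, Matrix.updateRow_ne ha]
  rw [e, Matrix.det_permute, Equiv.Perm.sign_swap h.symm]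
  simp

private theorem LemmaZ_pd {n : ℕ} (Y : Fin n → Matrix (Fin n) (Fin n) ℝ) (a k l : Fin n) :
    pderiv l ((LemmaZ_M Y).updateRow a (Pi.single k 1)).det =
      ∑ j, if j = a then 0 else ∑ q, C ((Y j q l : ℝ) : ℂ) *
        (((LemmaZ_M Y).updateRow a (Pi.single k 1)).updateRow j (Pi.single q 1)).det := by
  rw [derivation_det, Matrix.trace, Finset.sum_congr rfl (fun q _ => by
    rw [Matrix.diag_apply, Matrix.mul_apply]), Finset.sum_comm]
  refine Finset.sum_congr rfl fun j _ => ?_
  split_ifs with h
  · refine Finset.sum_eq_zero fun q _ => ?_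
    have h0 : pderiv l ((Pi.single k 1 : Fin n → MvPolynomial (Fin n) ℂ) q) = 0 := by
      by_cases hq : q = k
      · rw [hq, Pi.single_eq_same]
        exact Derivation.map_one_eq_zero _
      · rw [Pi.single_eq_of_ne hq, map_zero]
    rw [Matrix.of_apply, h, Matrix.updateRow_self, h0, mul_zero]
  · refine Finset.sum_congr rfl fun q _ => ?_
    rw [Matrix.of_apply, Matrix.updateRow_ne h, Matrix.adjugate_apply, mul_comm]
    congr 1
    rw [LemmaZ_M_apply, map_sum, Finset.sum_eq_single l]
    · rw [Derivation.leibniz, pderiv_C, pderiv_X_self, smul_zero, add_zero, smul_eq_mul, mul_one]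
    · intro m _ hm
      rw [Derivation.leibniz, pderiv_C, pderiv_X_of_ne hm, smul_zero, smul_zero, add_zero]
    · intro h
      exact absurd (Finset.mem_univ l) h

private theorem LemmaZ_gC {n : ℕ} (c : ℂ) (f : MvPolynomial (Fin n) ℂ) :
    gE n (C c * f) = c * gE n f := by
  rw [MvPolynomial.C_mul', map_smul, smul_eq_mul]

/-- the mean of the determinant with the matrix number `a` replaced by `A` -/
private theorem LemmaZ_gE {n : ℕ} (Y : Fin n → Matrix (Fin n) (Fin n) ℝ) (a : Fin n)
    (A : Matrix (Fin n) (Fin n) ℝ) : gE n (dl (Function.update Y a A)) =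
      ∑ k, ∑ l, ((A k l : ℝ) : ℂ) *
        gE n (pderiv l ((LemmaZ_M Y).updateRow a (Pi.single k 1)).det) := by
  rw [LemmaZ_exp, map_sum]
  refine Finset.sum_congr rfl fun k _ => ?_
  rw [Finset.sum_mul, map_sum]
  refine Finset.sum_congr rfl fun l _ => ?_
  rw [mul_assoc, LemmaZ_gC, gE_X_mul]

private theorem LemmaZ_lin {n : ℕ} (Y : Fin n → Matrix (Fin n) (Fin n) ℝ) (a : Fin n)
    (A B : Matrix (Fin n) (Fin n) ℝ) (s : ℝ) :
    JJ (Function.update Y a (A - s • B)) =
      JJ (Function.update Y a A) - s * JJ (Function.update Y a B) := by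
  have h : ((JJ (Function.update Y a (A - s • B)) : ℝ) : ℂ) =
      ((JJ (Function.update Y a A) - s * JJ (Function.update Y a B) : ℝ) : ℂ) := by
    rw [Complex.ofReal_sub, Complex.ofReal_mul, ← gE_dl, ← gE_dl, ← gE_dl, LemmaZ_gE, LemmaZ_gE,
      LemmaZ_gE, Finset.mul_sum, ← Finset.sum_sub_distrib]
    refine Finset.sum_congr rfl fun k _ => ?_
    rw [Finset.mul_sum, ← Finset.sum_sub_distrib]
    refine Finset.sum_congr rfl fun l _ => ?_
    rw [Matrix.sub_apply, Matrix.smul_apply, smul_eq_mul, Complex.ofReal_sub, Complex.ofReal_mul]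
    ring
  exact_mod_cast h

theorem jj_central {n : ℕ} (Y : Fin n → Matrix (Fin n) (Fin n) ℝ) (hY : ∀ i, (Y i)ᵀ = Y i)
    (a : Fin n) (h : ∀ j, Y a * Y j = Y j * Y a) : JJ Y = 0 := by
  have key : gE n (dl Y) = 0 := by
    have h0 := LemmaZ_gE Y a (Y a)
    rw [Function.update_eq_self] at h0
    rw [h0]
    have h1 : ∀ k l : Fin n, ((Y a k l : ℝ) : ℂ) *
        gE n (pderiv l ((LemmaZ_M Y).updateRow a (Pi.single k 1)).det) =
        ∑ j, if j = a then 0 else ∑ q, ((Y a k l * Y j q l : ℝ) : ℂ) *
          gE n (((LemmaZ_M Y).updateRow a (Pi.single k 1)).updateRow j (Pi.single q 1)).det := by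
      intro k l
      rw [LemmaZ_pd, map_sum, Finset.mul_sum]
      refine Finset.sum_congr rfl fun j _ => ?_
      split_ifs with hj
      · rw [map_zero, mul_zero]
      · rw [map_sum, Finset.mul_sum]
        refine Finset.sum_congr rfl fun q _ => ?_
        rw [LemmaZ_gC, Complex.ofReal_mul]
        ring
    rw [Finset.sum_congr rfl (fun k _ => Finset.sum_congr rfl (fun l _ => h1 k l)),
      Finset.sum_congr rfl (fun k _ => Finset.sum_comm), Finset.sum_comm]
    refine Finset.sum_eq_zero fun j _ => ?_
    by_cases hj : j = a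
    · simp [hj]
    · simp only [hj, if_false]
      set w : Fin n → Fin n → ℂ := fun k q =>
        gE n (((LemmaZ_M Y).updateRow a (Pi.single k 1)).updateRow j (Pi.single q 1)).det with hw
      have hanti : ∀ k q, w k q = - w q k := by
        intro k q
        rw [hw]
        change gE n _ = - gE n _
        rw [LemmaZ_anti (LemmaZ_M Y) hj (Pi.single k 1) (Pi.single q 1), map_neg]
      have hS : ∀ k q : Fin n, (∑ l, ((Y a k l * Y j q l : ℝ) : ℂ)) =
          (((Y a * Y j) k q : ℝ) : ℂ) := by
        intro k q
        rw [Matrix.mul_apply, Complex.ofReal_sum]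
        refine Finset.sum_congr rfl fun l _ => ?_
        have h5 : Y j q l = Y j l q := congrFun (congrFun (hY j) l) q
        rw [h5]
      have hsymm : ∀ k q : Fin n, (Y a * Y j) k q = (Y a * Y j) q k := by
        intro k q
        have h6 : (Y a * Y j)ᵀ = Y a * Y j := by
          rw [Matrix.transpose_mul, hY, hY, h j]
        exact congrFun (congrFun h6 q) k
      have h7 : ∑ k, ∑ l, ∑ q, ((Y a k l * Y j q l : ℝ) : ℂ) * w k q =
          ∑ k, ∑ q, (((Y a * Y j) k q : ℝ) : ℂ) * w k q := by
        refine Finset.sum_congr rfl fun k _ => ?_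
        rw [Finset.sum_comm]
        refine Finset.sum_congr rfl fun q _ => ?_
        rw [← Finset.sum_mul, hS]
      change ∑ k, ∑ l, ∑ q, ((Y a k l * Y j q l : ℝ) : ℂ) * w k q = 0
      rw [h7]
      have h8 : ∑ k, ∑ q, (((Y a * Y j) k q : ℝ) : ℂ) * w k q =
          - ∑ k, ∑ q, (((Y a * Y j) k q : ℝ) : ℂ) * w k q := by
        conv_lhs => rw [Finset.sum_comm]
        rw [← Finset.sum_neg_distrib]
        refine Finset.sum_congr rfl fun q _ => ?_
        rw [← Finset.sum_neg_distrib]
        refine Finset.sum_congr rfl fun k _ => ?_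
        rw [hanti k q, hsymm k q]
        ring
      exact self_eq_neg.mp h8
  rw [gE_dl] at key
  exact_mod_cast key

theorem jj_sub_central {n : ℕ} (Y : Fin n → Matrix (Fin n) (Fin n) ℝ) (hY : ∀ i, (Y i)ᵀ = Y i)
    (Z : Matrix (Fin n) (Fin n) ℝ) (hZ : Zᵀ = Z) (hc : ∀ j, Z * Y j = Y j * Z)
    (s : Fin n → ℝ) : JJ (fun i => Y i - s i • Z) = JJ Y := by
  classical
  have step : ∀ F : Finset (Fin n),
      JJ (fun i => if i ∈ F then Y i - s i • Z else Y i) = JJ Y := by
    intro F
    induction F using Finset.induction_on with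
    | empty => simp
    | insert a F ha ih =>
      have e1 : (fun i => if i ∈ insert a F then Y i - s i • Z else Y i) =
          Function.update (fun i => if i ∈ F then Y i - s i • Z else Y i) a (Y a - s a • Z) := by
        funext i
        by_cases hi : i = a
        · rw [hi, Function.update_self, if_pos (Finset.mem_insert_self a F)]
        · rw [Function.update_of_ne hi]
          simp only [Finset.mem_insert, hi, false_or]
      have e2 : Function.update (fun i => if i ∈ F then Y i - s i • Z else Y i) a (Y a) =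
          fun i => if i ∈ F then Y i - s i • Z else Y i := by
        funext i
        by_cases hi : i = a
        · rw [hi, Function.update_self, if_neg ha]
        · rw [Function.update_of_ne hi]
      have e3 : JJ (Function.update (fun i => if i ∈ F then Y i - s i • Z else Y i) a Z) = 0 := by
        apply jj_central _ _ a
        · intro j
          rw [Function.update_self]
          by_cases hj : j = a
          · rw [hj, Function.update_self]
          · rw [Function.update_of_ne hj]
            split_ifs with hF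
            · rw [Matrix.mul_sub, Matrix.sub_mul, Matrix.mul_smul, Matrix.smul_mul, hc]
            · exact hc j
        · intro i
          by_cases hi : i = a
          · rw [hi, Function.update_self, hZ]
          · rw [Function.update_of_ne hi]
            split_ifs with hF
            · rw [Matrix.transpose_sub, Matrix.transpose_smul, hY, hZ]
            · exact hY i
      rw [e1, LemmaZ_lin, e2, e3, ih, mul_zero, sub_zero]
  have h := step Finset.univ
  simpa using h

end Pool.Agent.ChM
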