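import Pool.Agent.ChM.BlSpec
import Pool.Agent.ChM.Core
import Pool.Agent.ChP.LimitRep
import Pool.Agent.ChP.PSet

/-!
# A limit representation which is self-adjoint for a limit tensor on `V ⊕ V*`

This is `Pool.Agent.ChP.exists_limit_rep` (file `ChP/LimitRep.lean`; copy its proof and its private
lemmas) for the representation `bl ∘ ρ`: apply `exists_balanced_limit` to the generators `s ∈ S`,
`B s = ρ s`.  The set of `γ` for which `g_m * ρ γ * g_m⁻¹` converges is a subgroup containing `S`;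
the limits form a homomorphism `ρ'`.  Put `T_m = tact T (bl (g_m⁻¹))`, `c_m = ‖T_m‖⁻¹`; pass to a
subsequence with `c_m • T_m → T'`.
`tact T_m (bl (g_m ρ γ g_m⁻¹)) = ± T_m` (`bl_mul`) with a sign which does not depend on `m`, so
`Fixes T' (bl (ρ' γ))` (`continuous_tact'`, `tendsto_bl`).  Apply `fixes_transpose_of_balanced` to
the matrices `bl (B' s)`: `bl B * (bl B)ᵀ = bl (B * Bᵀ)`, `lg (bl P) = bd (lg P) (- lg P)`
(`lg_bl`), `bd_sum`.  Hence (`Fixes.mul`, `Fixes.inv`) all `bl ((ρ' γ)ᵀ)` fix `T'`.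
-/

namespace Pool.Agent.ChM

open Matrix Filter Topology Pool.Agent.ChP

private theorem LimitRepBl_det {n : ℕ} {Γ : Type} [Group Γ] (ρ : Γ →* Matrix (Fin n) (Fin n) ℝ)
    (γ : Γ) : (ρ γ).det ≠ 0 := by
  intro h
  have h1 : ρ γ * ρ γ⁻¹ = 1 := by
    rw [← map_mul, mul_inv_cancel, map_one]
  have h2 := congrArg Matrix.det h1
  rw [Matrix.det_mul, h, zero_mul, Matrix.det_one] at h2
  exact zero_ne_one h2

private theorem LimitRepBl_inv {n : ℕ} {Γ : Type} [Group Γ] (ρ : Γ →* Matrix (Fin n) (Fin n) ℝ)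
    (γ : Γ) : ρ γ⁻¹ = (ρ γ)⁻¹ := by
  symm
  apply Matrix.inv_eq_right_inv
  rw [← map_mul, mul_inv_cancel, map_one]

private theorem LimitRepBl_tendsto_inv {n : ℕ} {A : ℕ → Matrix (Fin n) (Fin n) ℝ}
    {L : Matrix (Fin n) (Fin n) ℝ} (h : Tendsto A atTop (𝓝 L)) (hL : L.det ≠ 0) :
    Tendsto (fun m => (A m)⁻¹) atTop (𝓝 L⁻¹) := by
  have h1 : Tendsto (fun m => (A m).det) atTop (𝓝 L.det) :=
    ((continuous_id.matrix_det).tendsto L).comp h
  have h2 : Tendsto (fun m => (A m).adjugate) atTop (𝓝 L.adjugate) :=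
    ((continuous_id.matrix_adjugate).tendsto L).comp h
  have h3 := (h1.inv₀ hL).smul h2
  simp only [Matrix.inv_def, Ring.inverse_eq_inv']
  exact h3

private theorem LimitRepBl_lim {n : ℕ} {Γ : Type} [Group Γ] (S : Finset Γ)
    (hS : Subgroup.closure (S : Set Γ) = ⊤) (ρ : Γ →* Matrix (Fin n) (Fin n) ℝ)
    (g : ℕ → Matrix (Fin n) (Fin n) ℝ) (hg : ∀ m, (g m).det ≠ 0)
    (hl : ∀ s ∈ S, ∃ L, Tendsto (fun m => g m * ρ s * (g m)⁻¹) atTop (𝓝 L)) :
    ∃ ρ' : Γ →* Matrix (Fin n) (Fin n) ℝ,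
      ∀ γ, Tendsto (fun m => g m * ρ γ * (g m)⁻¹) atTop (𝓝 (ρ' γ)) := by
  have hgi : ∀ m, (g m)⁻¹ * g m = 1 := fun m =>
    Matrix.nonsing_inv_mul _ (isUnit_iff_ne_zero.2 (hg m))
  have hgi' : ∀ m, g m * (g m)⁻¹ = 1 := fun m =>
    Matrix.mul_nonsing_inv _ (isUnit_iff_ne_zero.2 (hg m))
  have hmul : ∀ (γ δ : Γ) (m : ℕ), (g m * ρ γ * (g m)⁻¹) * (g m * ρ δ * (g m)⁻¹) =
      g m * ρ (γ * δ) * (g m)⁻¹ := by
    intro γ δ m
    calc (g m * ρ γ * (g m)⁻¹) * (g m * ρ δ * (g m)⁻¹)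
        = g m * ρ γ * ((g m)⁻¹ * g m) * ρ δ * (g m)⁻¹ := by simp only [mul_assoc]
      _ = g m * ρ (γ * δ) * (g m)⁻¹ := by
        rw [hgi, mul_one, map_mul, mul_assoc (g m)]
  have hone : ∀ m : ℕ, g m * ρ 1 * (g m)⁻¹ = 1 := by
    intro m
    rw [map_one, mul_one, hgi']
  have hdet : ∀ (γ : Γ) (m : ℕ), (g m * ρ γ * (g m)⁻¹).det = (ρ γ).det := by
    intro γ m
    rw [Matrix.det_mul, Matrix.det_mul, mul_comm (g m).det, mul_assoc, ← Matrix.det_mul, hgi',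
      Matrix.det_one, mul_one]
  let H : Subgroup Γ :=
    { carrier := {γ | ∃ L, Tendsto (fun m => g m * ρ γ * (g m)⁻¹) atTop (𝓝 L)}
      mul_mem' := by
        rintro γ δ ⟨L, h1⟩ ⟨M, h2⟩
        refine ⟨L * M, ?_⟩
        have h3 := h1.mul h2
        simp only [hmul] at h3
        exact h3
      one_mem' := by
        refine ⟨1, ?_⟩
        simp only [hone]
        exact tendsto_const_nhds
      inv_mem' := by
        rintro γ ⟨L, h1⟩
        have h2 : L.det = (ρ γ).det := by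
          have h3 : Tendsto (fun m => (g m * ρ γ * (g m)⁻¹).det) atTop (𝓝 L.det) :=
            ((continuous_id.matrix_det).tendsto L).comp h1
          simp only [hdet] at h3
          exact tendsto_nhds_unique h3 tendsto_const_nhds
        refine ⟨L⁻¹, ?_⟩
        have h3 := LimitRepBl_tendsto_inv h1 (by rw [h2]; exact LimitRepBl_det ρ γ)
        have h4 : ∀ m, (g m * ρ γ * (g m)⁻¹)⁻¹ = g m * ρ γ⁻¹ * (g m)⁻¹ := by
          intro m
          apply Matrix.inv_eq_right_inv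
          rw [hmul, mul_inv_cancel, hone]
        simp only [h4] at h3
        exact h3 }
  have hH : ∀ γ, γ ∈ H := by
    have h1 : Subgroup.closure (S : Set Γ) ≤ H := by
      rw [Subgroup.closure_le]
      exact fun s hs => hl s hs
    rw [hS] at h1
    exact fun γ => h1 (Subgroup.mem_top γ)
  choose L hL using hH
  refine ⟨⟨⟨L, ?_⟩, ?_⟩, hL⟩
  · refine tendsto_nhds_unique (hL 1) ?_
    simp only [hone]
    exact tendsto_const_nhds
  · intro γ δ
    refine tendsto_nhds_unique (hL (γ * δ)) ?_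
    have h3 := (hL γ).mul (hL δ)
    simp only [hmul] at h3
    exact h3

private theorem LimitRepBl_fixes {d n : ℕ} {Γ : Type} [Group Γ] (S : Finset Γ)
    (hS : Subgroup.closure (S : Set Γ) = ⊤) (ρ : Γ →* Matrix (Fin n) (Fin n) ℝ)
    (T : Ten d (n + n)) (h : ∀ s ∈ S, Fixes T (bl (ρ s)ᵀ)) (γ : Γ) : Fixes T (bl (ρ γ)ᵀ) := by
  have hone : Fixes T (1 : Matrix (Fin (n + n)) (Fin (n + n)) ℝ) := Or.inl (tact_one T)
  let H : Subgroup Γ :=
    { carrier := {γ | Fixes T (bl (ρ γ)ᵀ)}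
      mul_mem' := by
        intro γ δ h1 h2
        change Fixes T (bl (ρ (γ * δ))ᵀ)
        rw [map_mul, Matrix.transpose_mul, ← bl_mul]
        exact Fixes.mul h2 h1
      one_mem' := by
        change Fixes T (bl (ρ 1)ᵀ)
        rw [map_one, Matrix.transpose_one, bl_one]
        exact hone
      inv_mem' := by
        intro γ h1
        have hd : (ρ γ)ᵀ.det ≠ 0 := by
          rw [Matrix.det_transpose]
          exact LimitRepBl_det ρ γ
        change Fixes T (bl (ρ γ⁻¹)ᵀ)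
        rw [LimitRepBl_inv, Matrix.transpose_nonsing_inv, ← bl_inv hd]
        refine Fixes.inv h1 ?_
        rw [bl_det hd]
        exact one_ne_zero }
  have h1 : Subgroup.closure (S : Set Γ) ≤ H := by
    rw [Subgroup.closure_le]
    exact fun s hs => h s hs
  rw [hS] at h1
  exact h1 (Subgroup.mem_top γ)

private theorem LimitRepBl_posDef {n : ℕ} {C : Matrix (Fin n) (Fin n) ℝ} (hC : C.det ≠ 0) :
    (Cᵀ * C).PosDef := by
  have h : Function.Injective C.mulVec := Matrix.mulVec_injective_iff_isUnit.2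
    ((Matrix.isUnit_iff_isUnit_det C).2 (isUnit_iff_ne_zero.2 hC))
  have h1 := Matrix.PosDef.conjTranspose_mul_self C h
  rwa [Matrix.conjTranspose_eq_transpose_of_trivial] at h1

private theorem LimitRepBl_lg {n : ℕ} {C : Matrix (Fin n) (Fin n) ℝ} (hC : C.det ≠ 0) :
    lg (bl C * (bl C)ᵀ) - lg ((bl C)ᵀ * bl C) =
      bd (lg (C * Cᵀ) - lg (Cᵀ * C)) (-(lg (C * Cᵀ) - lg (Cᵀ * C))) := by
  have h1 : (C * Cᵀ).PosDef := by
    have h2 := LimitRepBl_posDef (C := Cᵀ) (by rwa [Matrix.det_transpose])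
    rwa [Matrix.transpose_transpose] at h2
  rw [bl_transpose, bl_mul, bl_mul, lg_bl h1, lg_bl (LimitRepBl_posDef hC), bd_sub]
  congr 1
  abel

theorem exists_limit_rep_bl {d n : ℕ} {Γ : Type} [Group Γ] (S : Finset Γ)
    (hS : Subgroup.closure (S : Set Γ) = ⊤) (ρ : Γ →* Matrix (Fin n) (Fin n) ℝ)
    (T : Ten d (n + n)) (h0 : T ≠ 0) (hρ : ∀ γ, Fixes T (bl (ρ γ))) :
    ∃ (g : ℕ → Matrix (Fin n) (Fin n) ℝ) (c : ℕ → ℝ) (ρ' : Γ →* Matrix (Fin n) (Fin n) ℝ)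
      (T' : Ten d (n + n)),
      (∀ m, 0 < (g m).det) ∧
      (∀ γ, Tendsto (fun m => g m * ρ γ * (g m)⁻¹) atTop (𝓝 (ρ' γ))) ∧
      Tendsto (fun m => c m • tact T (bl (g m)⁻¹)) atTop (𝓝 T') ∧ T' ≠ 0 ∧
      (∀ γ, Fixes T' (bl (ρ' γ))) ∧ (∀ γ, Fixes T' (bl (ρ' γ)ᵀ)) := by
  obtain ⟨g, B', hg, hdB, hlim, hW⟩ := exists_balanced_limit (S := {s // s ∈ S})
    (fun s => ρ s.1) (fun s => LimitRepBl_det ρ s.1)
  obtain ⟨ρ', hρ'⟩ := LimitRepBl_lim S hS ρ g (fun m => (hg m).ne')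
    (fun s hs => ⟨B' ⟨s, hs⟩, hlim ⟨s, hs⟩⟩)
  have hB' : ∀ s : {s // s ∈ S}, B' s = ρ' s.1 := fun s =>
    tendsto_nhds_unique (hlim s) (hρ' s.1)
  have hgi : ∀ m, (g m)⁻¹ * g m = 1 := fun m =>
    Matrix.nonsing_inv_mul _ (isUnit_iff_ne_zero.2 (hg m).ne')
  have hTm : ∀ m, tact T (bl (g m)⁻¹) ≠ 0 := by
    intro m h
    apply h0
    have h1 : tact (tact T (bl (g m)⁻¹)) (bl (g m)) = T := by
      rw [tact_mul, bl_mul, hgi, bl_one, tact_one]
    have h2 : tact (0 : Ten d (n + n)) (bl (g m)) = 0 := by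
      have h3 := tact_smul 0 (0 : Ten d (n + n)) (bl (g m))
      rwa [zero_smul, zero_smul] at h3
    rw [← h1, h, h2]
  let U : ℕ → Ten d (n + n) := fun m => (‖tact T (bl (g m)⁻¹)‖)⁻¹ • tact T (bl (g m)⁻¹)
  have hU : ∀ m, U m ∈ Metric.sphere (0 : Ten d (n + n)) 1 := by
    intro m
    rw [mem_sphere_zero_iff_norm]
    change ‖(‖tact T (bl (g m)⁻¹)‖)⁻¹ • tact T (bl (g m)⁻¹)‖ = 1
    rw [norm_smul, norm_inv, norm_norm, inv_mul_cancel₀ (norm_ne_zero_iff.2 (hTm m))]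
  obtain ⟨T', hT'1, φ, hφ, hT'2⟩ :=
    (isCompact_sphere (0 : Ten d (n + n)) 1).tendsto_subseq hU
  have hT'0 : T' ≠ 0 := by
    rintro rfl
    rw [mem_sphere_zero_iff_norm, norm_zero] at hT'1
    exact zero_ne_one hT'1
  have hfix : ∀ γ, Fixes T' (bl (ρ' γ)) := by
    intro γ
    have hlimact : Tendsto (fun m => tact ((U ∘ φ) m) (bl (g (φ m) * ρ γ * (g (φ m))⁻¹))) atTop
        (𝓝 (tact T' (bl (ρ' γ)))) :=
      ((continuous_tact' d (n + n)).tendsto (T', bl (ρ' γ))).comp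
        (hT'2.prodMk_nhds (tendsto_bl ((hρ' γ).comp hφ.tendsto_atTop) (LimitRepBl_det ρ' γ)))
    have hcomp : ∀ m, tact ((U ∘ φ) m) (bl (g (φ m) * ρ γ * (g (φ m))⁻¹)) =
        (‖tact T (bl (g (φ m))⁻¹)‖)⁻¹ • tact (tact T (bl (ρ γ))) (bl (g (φ m))⁻¹) := by
      intro m
      change tact ((‖tact T (bl (g (φ m))⁻¹)‖)⁻¹ • tact T (bl (g (φ m))⁻¹)) _ = _
      rw [tact_smul, tact_mul, tact_mul, bl_mul, bl_mul]
      congr 3
      rw [← mul_assoc, ← mul_assoc, hgi, one_mul]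
    simp only [hcomp] at hlimact
    rcases hρ γ with h1 | h1
    · left
      simp only [h1] at hlimact
      exact tendsto_nhds_unique hlimact hT'2
    · right
      simp only [h1, tact_neg, smul_neg] at hlimact
      exact tendsto_nhds_unique hlimact hT'2.neg
  refine ⟨g ∘ φ, fun m => (‖tact T (bl (g (φ m))⁻¹)‖)⁻¹, ρ', T', fun m => hg _,
    fun γ => (hρ' γ).comp hφ.tendsto_atTop, hT'2, hT'0, hfix, ?_⟩
  refine LimitRepBl_fixes S hS ρ' T' ?_
  intro s hs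
  have hdbl : ∀ s : {s // s ∈ S}, (bl (B' s)).det ≠ 0 := by
    intro s
    rw [bl_det (hdB s)]
    exact one_ne_zero
  have hWbl : ∑ s : {s // s ∈ S}, (lg (bl (B' s) * (bl (B' s))ᵀ) -
      lg ((bl (B' s))ᵀ * bl (B' s))) = 0 := by
    have h1 : ∀ s : {s // s ∈ S}, lg (bl (B' s) * (bl (B' s))ᵀ) -
        lg ((bl (B' s))ᵀ * bl (B' s)) =
        bd (lg (B' s * (B' s)ᵀ) - lg ((B' s)ᵀ * B' s))
          (-(lg (B' s * (B' s)ᵀ) - lg ((B' s)ᵀ * B' s))) := fun s => LimitRepBl_lg (hdB s)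
    simp only [h1]
    rw [bd_sum, Finset.sum_neg_distrib, hW, neg_zero, bd_zero]
  have h1 := fixes_transpose_of_balanced T' (fun s : {s // s ∈ S} => bl (B' s)) hdbl
    (fun s => by
      change Fixes T' (bl (B' s))
      rw [hB' s]
      exact hfix s.1) hWbl ⟨s, hs⟩
  change Fixes T' (bl (B' ⟨s, hs⟩))ᵀ at h1
  rwa [bl_transpose, hB' ⟨s, hs⟩] at h1

end Pool.Agent.ChM
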