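import Pool.Agent.ChP.SelfAdj

/-!
# Balanced tuples: complex tensors and complex multipliers

A complex tensor is given by its real part `T₁` and imaginary part `T₂`; `CxRel T₁ T₂ B c` says
`T ∘ B = c T` for `T = T₁ + i T₂`.

`cx_transpose_of_balanced`: version with complex multipliers of
`Pool.Agent.ChP.fixes_transpose_of_balanced` (see `ChP/SelfAdj.lean`, copy the proof with its
private lemmas).  If `T₁ = T₂ = 0` everything is `0`.  Otherwise `c s ≠ 0` as `B s` is invertible.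
Let `B = B s`, `c = c s`, `r = |c|²`, `B * Bᵀ = U diag(l) Uᵀ`, `T'_j = tact T_j U` (`j = 1, 2`),
`l_I = ∏ k, l (I k) > 0`, `w_I = T'₁ I ^ 2 + T'₂ I ^ 2`.
`r ∑ w_I = ‖c T‖² = ‖tact T₁ B‖² + ‖tact T₂ B‖² = ∑_j ⟨T_j, tact T_j (B * Bᵀ)⟩ = ∑ l_I w_I`, so
`∑ (l_I / r - 1) w_I = 0`; as `log x ≤ x / r - 1 + log r` with equality only for `x = r`,
`tq T₁ (lg (B * Bᵀ)) + tq T₂ (lg (B * Bᵀ)) = ∑ (log l_I) w_I ≤ log r * ∑ w_I`, with equality only
if `l_I = r` whenever `w_I ≠ 0`, i.e. only if `tact T_j (B * Bᵀ) = r • T_j` for `j = 1, 2`.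
Applying this to `B⁻¹` (multiplier `c⁻¹`) gives the inequality
`tq T₁ (lg (Bᵀ * B)) + tq T₂ (lg (Bᵀ * B)) ≥ log r * ∑ w_I`.  Summing over `s` and using the
hypothesis all these are equalities.  So `r T = T ∘ (B * Bᵀ) = (T ∘ B) ∘ Bᵀ = c (T ∘ Bᵀ)`
(complex notation), hence `T ∘ Bᵀ = conj c T`.
-/

namespace Pool.Agent.ChM

open Matrix Pool.Agent.ChP

/-- `T ∘ B = c T` for the complex tensor `T = T₁ + i T₂`. -/
def CxRel {d N : ℕ} (T₁ T₂ : Ten d N) (B : Matrix (Fin N) (Fin N) ℝ) (c : ℂ) : Prop :=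
  tact T₁ B = c.re • T₁ - c.im • T₂ ∧ tact T₂ B = c.im • T₁ + c.re • T₂

private theorem selfAdjCx_zero {d n : ℕ} (T : Ten d n) :
    tq T (0 : Matrix (Fin n) (Fin n) ℝ) = 0 := by
  have h := tq_smul T 0 (0 : Matrix (Fin n) (Fin n) ℝ)
  rwa [zero_smul, zero_mul] at h

private theorem selfAdjCx_neg {d n : ℕ} (T : Ten d n) (Y : Matrix (Fin n) (Fin n) ℝ) :
    tq T (-Y) = -tq T Y := by
  have h := tq_smul T (-1) Y
  rwa [neg_one_smul, neg_one_mul] at h

private theorem selfAdjCx_sum {d n : ℕ} {S : Type} [Fintype S] (T : Ten d n)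
    (Y : S → Matrix (Fin n) (Fin n) ℝ) : tq T (∑ s, Y s) = ∑ s, tq T (Y s) :=
  map_sum ({ toFun := tq T, map_zero' := selfAdjCx_zero T, map_add' := tq_add T } :
    Matrix (Fin n) (Fin n) ℝ →+ ℝ) Y Finset.univ

private theorem selfAdjCx_tact_add {d n : ℕ} (T S : Ten d n) (g : Matrix (Fin n) (Fin n) ℝ) :
    tact (T + S) g = tact T g + tact S g := by
  funext I
  simp [tact, add_mul, Finset.sum_add_distrib]

private theorem selfAdjCx_lin {d n : ℕ} (T S : Ten d n) (a b : ℝ)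
    (g : Matrix (Fin n) (Fin n) ℝ) :
    tact (a • T + b • S) g = a • tact T g + b • tact S g := by
  rw [selfAdjCx_tact_add, tact_smul, tact_smul]

private theorem selfAdjCx_lin' {d n : ℕ} (T S : Ten d n) (a b : ℝ)
    (g : Matrix (Fin n) (Fin n) ℝ) :
    tact (a • T - b • S) g = a • tact T g - b • tact S g := by
  have h : a • T - b • S = a • T + (-b) • S := by
    rw [neg_smul, sub_eq_add_neg]
  rw [h, selfAdjCx_lin, neg_smul, sub_eq_add_neg]

/-- Solving the two linear equations. -/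
private theorem selfAdjCx_solve {d n : ℕ} {X₁ X₂ R₁ R₂ : Ten d n} {a b : ℝ}
    (hr : a ^ 2 + b ^ 2 ≠ 0) (h1 : R₁ = a • X₁ - b • X₂) (h2 : R₂ = b • X₁ + a • X₂) :
    X₁ = (a ^ 2 + b ^ 2)⁻¹ • (a • R₁ + b • R₂) ∧ X₂ = (a ^ 2 + b ^ 2)⁻¹ • (a • R₂ - b • R₁) := by
  constructor
  · funext I
    rw [h1, h2]
    simp only [Pi.smul_apply, Pi.add_apply, Pi.sub_apply, smul_eq_mul]
    field_simp
    ring
  · funext I
    rw [h1, h2]
    simp only [Pi.smul_apply, Pi.add_apply, Pi.sub_apply, smul_eq_mul]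
    field_simp
    ring

/-- the estimate for one matrix. -/
private theorem selfAdjCx_key {d n : ℕ} (T₁ T₂ : Ten d n) {B : Matrix (Fin n) (Fin n) ℝ}
    (hB : B.det ≠ 0) {c : ℂ} (hc : c ≠ 0) (hT : CxRel T₁ T₂ B c) :
    tq T₁ (lg (B * Bᵀ)) + tq T₂ (lg (B * Bᵀ)) ≤
        Real.log (c.re ^ 2 + c.im ^ 2) * ∑ I, (T₁ I * T₁ I + T₂ I * T₂ I) ∧
    (tq T₁ (lg (B * Bᵀ)) + tq T₂ (lg (B * Bᵀ)) =
        Real.log (c.re ^ 2 + c.im ^ 2) * ∑ I, (T₁ I * T₁ I + T₂ I * T₂ I) →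
      tact T₁ (B * Bᵀ) = (c.re ^ 2 + c.im ^ 2) • T₁ ∧
      tact T₂ (B * Bᵀ) = (c.re ^ 2 + c.im ^ 2) • T₂) := by
  have hrpos : 0 < c.re ^ 2 + c.im ^ 2 := by
    by_contra hcon
    have h1 : c.re ^ 2 = 0 := by nlinarith [sq_nonneg c.re, sq_nonneg c.im]
    have h2 : c.im ^ 2 = 0 := by nlinarith [sq_nonneg c.re, sq_nonneg c.im]
    exact hc (Complex.ext (pow_eq_zero_iff (two_ne_zero) |>.1 h1)
      (pow_eq_zero_iff (two_ne_zero) |>.1 h2))
  set r : ℝ := c.re ^ 2 + c.im ^ 2 with hr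
  have hsym : (B * Bᵀ)ᵀ = B * Bᵀ := by
    rw [transpose_mul, transpose_transpose]
  obtain ⟨U, l, hU1, hU2, hP⟩ := exists_spec (B * Bᵀ) hsym
  have hpd : (B * Bᵀ).PosDef := by
    have hu : IsUnit B := (Matrix.isUnit_iff_isUnit_det B).2 (isUnit_iff_ne_zero.2 hB)
    have h1 := Matrix.PosDef.mul_conjTranspose_self B
      (Matrix.vecMul_injective_iff_isUnit.2 hu)
    rwa [conjTranspose_eq_transpose_of_trivial] at h1
  have hl : ∀ i, 0 < l i := (posDef_iff_spec hU2 hP).1 hpd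
  set L : (Fin d → Fin n) → ℝ := fun I => ∏ k, l (I k) with hL
  have hLpos : ∀ I, 0 < L I := fun I => Finset.prod_pos fun k _ => hl _
  have f1 : ∀ T : Ten d n, ∑ I, tact T U I * tact T U I = ∑ I, T I * T I := by
    intro T
    rw [tact_adjoint, tact_mul, hU1, tact_one]
  have f2 : ∀ T : Ten d n, ∑ I, T I * tact T (B * Bᵀ) I = ∑ I, tact T B I * tact T B I := by
    intro T
    rw [← tact_mul, ← tact_adjoint]
  have f3 : ∀ T : Ten d n, tact T (B * Bᵀ) = tact (tact (tact T U) (diagonal l)) Uᵀ := by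
    intro T
    rw [hP, tact_mul, tact_mul, Matrix.mul_assoc]
  have f4 : ∀ T : Ten d n, ∑ I, tact T U I * (L I * tact T U I) =
      ∑ I, tact T B I * tact T B I := by
    intro T
    rw [← f2, f3, ← tact_adjoint]
    refine Finset.sum_congr rfl fun I _ => ?_
    rw [tact_diagonal]
  have f5 : ∀ T : Ten d n, tq T (lg (B * Bᵀ)) = ∑ I, Real.log (L I) * (tact T U I) ^ 2 := by
    intro T
    have h1 : lg (B * Bᵀ) = U * diagonal (fun i => Real.log (l i)) * Uᵀ :=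
      cfc_conj_diagonal hU2 hP Real.log
    rw [h1, tq_conj_diagonal T hU1]
    refine Finset.sum_congr rfl fun I _ => ?_
    rw [hL]
    simp only []
    rw [Real.log_prod (fun k _ => (hl (I k)).ne')]
  set w : (Fin d → Fin n) → ℝ := fun I => (tact T₁ U I) ^ 2 + (tact T₂ U I) ^ 2 with hw
  have hw0 : ∀ I, 0 ≤ w I := fun I => add_nonneg (sq_nonneg _) (sq_nonneg _)
  have e1 : ∑ I, w I = ∑ I, (T₁ I * T₁ I + T₂ I * T₂ I) := by
    have h1 : ∑ I, (T₁ I * T₁ I + T₂ I * T₂ I) =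
        ∑ I, (tact T₁ U I * tact T₁ U I + tact T₂ U I * tact T₂ U I) := by
      rw [Finset.sum_add_distrib, Finset.sum_add_distrib, f1 T₁, f1 T₂]
    rw [h1]
    refine Finset.sum_congr rfl fun I _ => ?_
    rw [hw]
    ring
  have e2 : ∑ I, L I * w I = r * ∑ I, (T₁ I * T₁ I + T₂ I * T₂ I) := by
    have h1 : ∑ I, L I * w I = ∑ I, tact T₁ U I * (L I * tact T₁ U I) +
        ∑ I, tact T₂ U I * (L I * tact T₂ U I) := by
      rw [← Finset.sum_add_distrib]
      refine Finset.sum_congr rfl fun I _ => ?_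
      rw [hw]
      ring
    rw [h1, f4, f4, ← Finset.sum_add_distrib, Finset.mul_sum, hT.1, hT.2]
    refine Finset.sum_congr rfl fun I _ => ?_
    simp only [Pi.smul_apply, Pi.add_apply, Pi.sub_apply, smul_eq_mul]
    rw [hr]
    ring
  have e5 : tq T₁ (lg (B * Bᵀ)) + tq T₂ (lg (B * Bᵀ)) = ∑ I, Real.log (L I) * w I := by
    rw [f5, f5, ← Finset.sum_add_distrib]
    refine Finset.sum_congr rfl fun I _ => ?_
    rw [hw]
    ring
  have e6 : ∑ I, (L I / r - 1 + Real.log r) * w I =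
      Real.log r * ∑ I, (T₁ I * T₁ I + T₂ I * T₂ I) := by
    have h1 : ∑ I, (L I / r - 1 + Real.log r) * w I =
        (∑ I, L I * w I) / r - ∑ I, w I + Real.log r * ∑ I, w I := by
      rw [Finset.sum_div, Finset.mul_sum, ← Finset.sum_sub_distrib, ← Finset.sum_add_distrib]
      refine Finset.sum_congr rfl fun I _ => ?_
      ring
    rw [h1, e2, e1, mul_div_cancel_left₀ _ hrpos.ne', sub_self, zero_add]
  have hlog : ∀ I, Real.log (L I) = Real.log (L I / r) + Real.log r := by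
    intro I
    rw [Real.log_div (hLpos I).ne' hrpos.ne']
    ring
  have hle : ∀ I, Real.log (L I) * w I ≤ (L I / r - 1 + Real.log r) * w I := by
    intro I
    refine mul_le_mul_of_nonneg_right ?_ (hw0 I)
    rw [hlog I]
    have := Real.log_le_sub_one_of_pos (div_pos (hLpos I) hrpos)
    linarith
  refine ⟨?_, fun h0 => ?_⟩
  · rw [e5, ← e6]
    exact Finset.sum_le_sum fun I _ => hle I
  · rw [e5] at h0
    have h1 : ∀ I ∈ Finset.univ, Real.log (L I) * w I = (L I / r - 1 + Real.log r) * w I :=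
      (Finset.sum_eq_sum_iff_of_le fun I _ => hle I).1 (h0.trans e6.symm)
    have hLr : ∀ I, w I ≠ 0 → L I = r := by
      intro I hI
      have h2 := mul_right_cancel₀ hI (h1 I (Finset.mem_univ I))
      rw [hlog I] at h2
      have h3 : Real.log (L I / r) = L I / r - 1 := by linarith
      have h4 : L I / r = 1 := by
        by_contra hne
        have h5 := Real.log_lt_sub_one_of_pos (div_pos (hLpos I) hrpos) hne
        rw [h3] at h5
        exact lt_irrefl _ h5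
      exact (div_eq_one_iff_eq hrpos.ne').1 h4
    have h2 : ∀ T : Ten d n, (∀ I, w I = 0 → tact T U I = 0) → tact T (B * Bᵀ) = r • T := by
      intro T hT0
      have h3 : tact (tact T U) (diagonal l) = r • tact T U := by
        funext I
        rw [tact_diagonal]
        by_cases hI : w I = 0
        · rw [Pi.smul_apply, hT0 I hI, mul_zero, smul_zero]
        · have h4 : (∏ k, l (I k)) = r := hLr I hI
          rw [h4, Pi.smul_apply, smul_eq_mul]
      rw [f3, h3, tact_smul, tact_mul, hU1, tact_one]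
    constructor
    · apply h2
      intro I hI
      have h3 : (tact T₁ U I) ^ 2 = 0 := by
        have h4 : (tact T₁ U I) ^ 2 + (tact T₂ U I) ^ 2 = 0 := hI
        nlinarith [sq_nonneg (tact T₁ U I), sq_nonneg (tact T₂ U I)]
      exact (pow_eq_zero_iff two_ne_zero).1 h3
    · apply h2
      intro I hI
      have h3 : (tact T₂ U I) ^ 2 = 0 := by
        have h4 : (tact T₁ U I) ^ 2 + (tact T₂ U I) ^ 2 = 0 := hI
        nlinarith [sq_nonneg (tact T₁ U I), sq_nonneg (tact T₂ U I)]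
      exact (pow_eq_zero_iff two_ne_zero).1 h3

private theorem selfAdjCx_inv {d n : ℕ} {T₁ T₂ : Ten d n} {B : Matrix (Fin n) (Fin n) ℝ}
    (hB : B.det ≠ 0) {c : ℂ} (hc : c.re ^ 2 + c.im ^ 2 ≠ 0) (hT : CxRel T₁ T₂ B c) :
    CxRel T₁ T₂ B⁻¹ c⁻¹ := by
  have hback : ∀ T : Ten d n, tact (tact T B) B⁻¹ = T := by
    intro T
    rw [tact_mul, Matrix.mul_nonsing_inv _ (isUnit_iff_ne_zero.2 hB), tact_one]
  have h1 : T₁ = c.re • tact T₁ B⁻¹ - c.im • tact T₂ B⁻¹ := by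
    rw [← selfAdjCx_lin', ← hT.1, hback]
  have h2 : T₂ = c.im • tact T₁ B⁻¹ + c.re • tact T₂ B⁻¹ := by
    rw [← selfAdjCx_lin, ← hT.2, hback]
  obtain ⟨h3, h4⟩ := selfAdjCx_solve hc h1 h2
  have hre : (c⁻¹).re = (c.re ^ 2 + c.im ^ 2)⁻¹ * c.re := by
    rw [Complex.inv_re, Complex.normSq_apply, div_eq_inv_mul, ← sq, ← sq]
  have him : (c⁻¹).im = -((c.re ^ 2 + c.im ^ 2)⁻¹ * c.im) := by
    rw [Complex.inv_im, Complex.normSq_apply, neg_div, div_eq_inv_mul, ← sq, ← sq]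
  constructor
  · rw [h3, hre, him]
    funext I
    simp only [Pi.smul_apply, Pi.add_apply, Pi.sub_apply, smul_eq_mul]
    ring
  · rw [h4, hre, him]
    funext I
    simp only [Pi.smul_apply, Pi.add_apply, Pi.sub_apply, smul_eq_mul]
    ring

theorem cx_transpose_of_balanced {d N : ℕ} {S : Type} [Fintype S] (T₁ T₂ : Ten d N)
    (B : S → Matrix (Fin N) (Fin N) ℝ) (hB : ∀ s, (B s).det ≠ 0) (c : S → ℂ)
    (hT : ∀ s, CxRel T₁ T₂ (B s) (c s))
    (hW : ∑ s, (lg (B s * (B s)ᵀ) - lg ((B s)ᵀ * B s)) = 0) (s : S) :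
    CxRel T₁ T₂ (B s)ᵀ ((starRingEnd ℂ) (c s)) := by
  have hback : ∀ (T : Ten d N) (s : S), tact (tact T (B s)) (B s)⁻¹ = T := by
    intro T s
    rw [tact_mul, Matrix.mul_nonsing_inv _ (isUnit_iff_ne_zero.2 (hB s)), tact_one]
  have htz : ∀ g : Matrix (Fin N) (Fin N) ℝ, tact (0 : Ten d N) g = 0 := by
    intro g
    have h := tact_smul 0 (0 : Ten d N) g
    rwa [zero_smul, zero_smul] at h
  by_cases h0 : T₁ = 0 ∧ T₂ = 0
  · obtain ⟨rfl, rfl⟩ := h0
    constructor <;> simp [htz]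
  have hc : ∀ s, c s ≠ 0 := by
    intro s hs
    have h1 := hT s
    rw [hs] at h1
    apply h0
    constructor
    · have h2 : tact T₁ (B s) = 0 := by
        rw [h1.1]; simp
      rw [← hback T₁ s, h2, htz]
    · have h2 : tact T₂ (B s) = 0 := by
        rw [h1.2]; simp
      rw [← hback T₂ s, h2, htz]
  have hr : ∀ s, (c s).re ^ 2 + (c s).im ^ 2 ≠ 0 := by
    intro s hs
    have h1 : (c s).re ^ 2 = 0 := by nlinarith [sq_nonneg (c s).re, sq_nonneg (c s).im]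
    have h2 : (c s).im ^ 2 = 0 := by nlinarith [sq_nonneg (c s).re, sq_nonneg (c s).im]
    exact hc s (Complex.ext (pow_eq_zero_iff (two_ne_zero) |>.1 h1)
      (pow_eq_zero_iff (two_ne_zero) |>.1 h2))
  set M : ℝ := ∑ I, (T₁ I * T₁ I + T₂ I * T₂ I) with hM
  have hf : ∀ s, tq T₁ (lg (B s * (B s)ᵀ)) + tq T₂ (lg (B s * (B s)ᵀ)) ≤
      Real.log ((c s).re ^ 2 + (c s).im ^ 2) * M :=
    fun s => (selfAdjCx_key T₁ T₂ (hB s) (hc s) (hT s)).1
  have hg : ∀ s, Real.log ((c s).re ^ 2 + (c s).im ^ 2) * M ≤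
      tq T₁ (lg ((B s)ᵀ * B s)) + tq T₂ (lg ((B s)ᵀ * B s)) := by
    intro s
    have hdi : (B s)⁻¹.det ≠ 0 := by
      rw [Matrix.det_nonsing_inv, Ring.inverse_eq_inv']
      exact inv_ne_zero (hB s)
    have h1 := (selfAdjCx_key T₁ T₂ hdi (inv_ne_zero (hc s))
      (selfAdjCx_inv (hB s) (hr s) (hT s))).1
    have h2 : (B s)⁻¹ * ((B s)⁻¹)ᵀ = ((B s)ᵀ * B s)⁻¹ := by
      rw [Matrix.mul_inv_rev, Matrix.transpose_nonsing_inv]
    have hpd : ((B s)ᵀ * B s).PosDef := by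
      have hu : IsUnit (B s) :=
        (Matrix.isUnit_iff_isUnit_det (B s)).2 (isUnit_iff_ne_zero.2 (hB s))
      have h3 := Matrix.PosDef.conjTranspose_mul_self (B s)
        (Matrix.mulVec_injective_iff_isUnit.2 hu)
      rwa [conjTranspose_eq_transpose_of_trivial] at h3
    have h4 : ((c s)⁻¹).re ^ 2 + ((c s)⁻¹).im ^ 2 = ((c s).re ^ 2 + (c s).im ^ 2)⁻¹ := by
      have h5 : Complex.normSq ((c s)⁻¹) = (Complex.normSq (c s))⁻¹ := map_inv₀ _ _
      rw [Complex.normSq_apply, Complex.normSq_apply] at h5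
      rw [sq, sq, sq, sq]
      exact h5
    rw [h2, lg_inv hpd, selfAdjCx_neg, selfAdjCx_neg, h4, Real.log_inv] at h1
    linarith
  have hz1 : tq T₁ (∑ s, (lg (B s * (B s)ᵀ) - lg ((B s)ᵀ * B s))) = 0 := by
    rw [hW]
    exact selfAdjCx_zero T₁
  have hz2 : tq T₂ (∑ s, (lg (B s * (B s)ᵀ) - lg ((B s)ᵀ * B s))) = 0 := by
    rw [hW]
    exact selfAdjCx_zero T₂
  rw [selfAdjCx_sum] at hz1 hz2
  have hs : ∀ (T : Ten d N) (s : S), tq T (lg (B s * (B s)ᵀ) - lg ((B s)ᵀ * B s)) =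
      tq T (lg (B s * (B s)ᵀ)) - tq T (lg ((B s)ᵀ * B s)) := by
    intro T s
    rw [sub_eq_add_neg, tq_add, selfAdjCx_neg]
    ring
  have hz : ∑ s, (tq T₁ (lg (B s * (B s)ᵀ) - lg ((B s)ᵀ * B s)) +
      tq T₂ (lg (B s * (B s)ᵀ) - lg ((B s)ᵀ * B s))) = 0 := by
    rw [Finset.sum_add_distrib, hz1, hz2, add_zero]
  have hle : ∀ s, tq T₁ (lg (B s * (B s)ᵀ) - lg ((B s)ᵀ * B s)) +
      tq T₂ (lg (B s * (B s)ᵀ) - lg ((B s)ᵀ * B s)) ≤ 0 := by
    intro s
    rw [hs, hs]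
    linarith [hf s, hg s]
  have h1 := (Finset.sum_eq_zero_iff_of_nonpos fun s _ => hle s).1 hz s (Finset.mem_univ s)
  rw [hs, hs] at h1
  have h2 : tq T₁ (lg (B s * (B s)ᵀ)) + tq T₂ (lg (B s * (B s)ᵀ)) =
      Real.log ((c s).re ^ 2 + (c s).im ^ 2) * M := by
    linarith [hf s, hg s]
  obtain ⟨h3, h4⟩ := (selfAdjCx_key T₁ T₂ (hB s) (hc s) (hT s)).2 h2
  rw [← tact_mul, (hT s).1, selfAdjCx_lin'] at h3
  rw [← tact_mul, (hT s).2, selfAdjCx_lin] at h4
  obtain ⟨h5, h6⟩ := selfAdjCx_solve (hr s) h3.symm h4.symm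
  have hrs := hr s
  constructor
  · rw [h5, Complex.conj_re, Complex.conj_im]
    funext I
    simp only [Pi.smul_apply, Pi.add_apply, Pi.sub_apply, smul_eq_mul]
    field_simp
    ring
  · rw [h6, Complex.conj_re, Complex.conj_im]
    funext I
    simp only [Pi.smul_apply, Pi.add_apply, Pi.sub_apply, smul_eq_mul]
    field_simp
    ring

end Pool.Agent.ChM
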