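import Pool.Agent.ChM.LimitRep
import Pool.Agent.ChM.SelfAdjCx

/-!
# A limit representation which is self-adjoint for a limit tensor: complex version

As `exists_limit_rep_bl` in `ChM/LimitRep.lean` (copy the proof and its private lemmas), with
`Fixes` replaced by `CxRel` and `fixes_transpose_of_balanced` by `cx_transpose_of_balanced`.

Let `T_{j,m} = tact T_j (bl (g_m)⁻¹)`, `e_m = (‖T_{1,m}‖ + ‖T_{2,m}‖)⁻¹`; pass to a subsequence for
which `e_m • T_{1,m}` and `e_m • T_{2,m}` converge (the pairs lie in a compact set); the limits are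
not both zero.  By `bl_mul`, `tact_mul`: `CxRel T_{1,m} T_{2,m} (bl (g_m ρ γ g_m⁻¹)) (c γ)` for all
`m`; take the limit (`continuous_tact'`, `tendsto_bl`).  So `CxRel T₁' T₂' (bl (ρ' γ)) (c γ)`.
For the generators `s ∈ S` `cx_transpose_of_balanced` (applied to `bl (ρ' s)`) gives
`CxRel T₁' T₂' (bl (ρ' s)ᵀ) (conj (c s))`.  The set of `γ` with this property is a subgroup: `c` is
multiplicative and does not vanish, because `T₁', T₂'` are not both zero (compare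
`CxRel T₁' T₂' (bl (ρ' (γ δ))) (c (γ δ))` with the composition of the relations for `γ` and `δ`).
-/

namespace Pool.Agent.ChM

open Matrix Filter Topology Pool.Agent.ChP

private theorem LimitRepCx_det {n : ℕ} {Γ : Type} [Group Γ] (ρ : Γ →* Matrix (Fin n) (Fin n) ℝ)
    (γ : Γ) : (ρ γ).det ≠ 0 := by
  intro h
  have h1 : ρ γ * ρ γ⁻¹ = 1 := by
    rw [← map_mul, mul_inv_cancel, map_one]
  have h2 := congrArg Matrix.det h1
  rw [Matrix.det_mul, h, zero_mul, Matrix.det_one] at h2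
  exact zero_ne_one h2

private theorem LimitRepCx_inv {n : ℕ} {Γ : Type} [Group Γ] (ρ : Γ →* Matrix (Fin n) (Fin n) ℝ)
    (γ : Γ) : ρ γ⁻¹ = (ρ γ)⁻¹ := by
  symm
  apply Matrix.inv_eq_right_inv
  rw [← map_mul, mul_inv_cancel, map_one]

private theorem LimitRepCx_tendsto_inv {n : ℕ} {A : ℕ → Matrix (Fin n) (Fin n) ℝ}
    {L : Matrix (Fin n) (Fin n) ℝ} (h : Tendsto A atTop (𝓝 L)) (hL : L.det ≠ 0) :
    Tendsto (fun m => (A m)⁻¹) atTop (𝓝 L⁻¹) := by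
  have h1 : Tendsto (fun m => (A m).det) atTop (𝓝 L.det) :=
    ((continuous_id.matrix_det).tendsto L).comp h
  have h2 : Tendsto (fun m => (A m).adjugate) atTop (𝓝 L.adjugate) :=
    ((continuous_id.matrix_adjugate).tendsto L).comp h
  have h3 := (h1.inv₀ hL).smul h2
  simp only [Matrix.inv_def, Ring.inverse_eq_inv']
  exact h3

private theorem LimitRepCx_lim {n : ℕ} {Γ : Type} [Group Γ] (S : Finset Γ)
    (hS : Subgroup.closure (S : Set Γ) = ⊤) (ρ : Γ →* Matrix (Fin n) (Fin n) ℝ)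
    (g : ℕ → Matrix (Fin n) (Fin n) ℝ) (hg : ∀ m, (g m).det ≠ 0)
    (hl : ∀ s ∈ S, ∃ L, Tendsto (fun m => g m * ρ s * (g m)⁻¹) atTop (𝓝 L)) :
    ∃ ρ' : Γ →* Matrix (Fin n) (Fin n) ℝ,
      ∀ γ, Tendsto (fun m => g m * ρ γ * (g m)⁻¹) atTop (𝓝 (ρ' γ)) := by
  have hgi : ∀ m, (g m)⁻¹ * g m = 1 := fun m =>
    Matrix.nonsing_inv_mul _ (isUnit_iff_ne_zero.2 (hg m))
  have hgi' : ∀ m, g m * (g m)⁻¹ = 1 := fun m =>
    Matrix.mul_nonsing_inv _ (isUnit_iff_ne_zero.2 (hg m))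
  have hmul : ∀ (γ δ : Γ) (m : ℕ), (g m * ρ γ * (g m)⁻¹) * (g m * ρ δ * (g m)⁻¹) =
      g m * ρ (γ * δ) * (g m)⁻¹ := by
    intro γ δ m
    calc (g m * ρ γ * (g m)⁻¹) * (g m * ρ δ * (g m)⁻¹)
        = g m * ρ γ * ((g m)⁻¹ * g m) * ρ δ * (g m)⁻¹ := by simp only [mul_assoc]
      _ = g m * ρ (γ * δ) * (g m)⁻¹ := by
        rw [hgi, mul_one, map_mul, mul_assoc (g m)]
  have hone : ∀ m : ℕ, g m * ρ 1 * (g m)⁻¹ = 1 := by
    intro m
    rw [map_one, mul_one, hgi']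
  have hdet : ∀ (γ : Γ) (m : ℕ), (g m * ρ γ * (g m)⁻¹).det = (ρ γ).det := by
    intro γ m
    rw [Matrix.det_mul, Matrix.det_mul, mul_comm (g m).det, mul_assoc, ← Matrix.det_mul, hgi',
      Matrix.det_one, mul_one]
  let H : Subgroup Γ :=
    { carrier := {γ | ∃ L, Tendsto (fun m => g m * ρ γ * (g m)⁻¹) atTop (𝓝 L)}
      mul_mem' := by
        rintro γ δ ⟨L, h1⟩ ⟨M, h2⟩
        refine ⟨L * M, ?_⟩
        have h3 := h1.mul h2
        simp only [hmul] at h3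
        exact h3
      one_mem' := by
        refine ⟨1, ?_⟩
        simp only [hone]
        exact tendsto_const_nhds
      inv_mem' := by
        rintro γ ⟨L, h1⟩
        have h2 : L.det = (ρ γ).det := by
          have h3 : Tendsto (fun m => (g m * ρ γ * (g m)⁻¹).det) atTop (𝓝 L.det) :=
            ((continuous_id.matrix_det).tendsto L).comp h1
          simp only [hdet] at h3
          exact tendsto_nhds_unique h3 tendsto_const_nhds
        refine ⟨L⁻¹, ?_⟩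
        have h3 := LimitRepCx_tendsto_inv h1 (by rw [h2]; exact LimitRepCx_det ρ γ)
        have h4 : ∀ m, (g m * ρ γ * (g m)⁻¹)⁻¹ = g m * ρ γ⁻¹ * (g m)⁻¹ := by
          intro m
          apply Matrix.inv_eq_right_inv
          rw [hmul, mul_inv_cancel, hone]
        simp only [h4] at h3
        exact h3 }
  have hH : ∀ γ, γ ∈ H := by
    have h1 : Subgroup.closure (S : Set Γ) ≤ H := by
      rw [Subgroup.closure_le]
      exact fun s hs => hl s hs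
    rw [hS] at h1
    exact fun γ => h1 (Subgroup.mem_top γ)
  choose L hL using hH
  refine ⟨⟨⟨L, ?_⟩, ?_⟩, hL⟩
  · refine tendsto_nhds_unique (hL 1) ?_
    simp only [hone]
    exact tendsto_const_nhds
  · intro γ δ
    refine tendsto_nhds_unique (hL (γ * δ)) ?_
    have h3 := (hL γ).mul (hL δ)
    simp only [hmul] at h3
    exact h3

private theorem LimitRepCx_posDef {n : ℕ} {C : Matrix (Fin n) (Fin n) ℝ} (hC : C.det ≠ 0) :
    (Cᵀ * C).PosDef := by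
  have h : Function.Injective C.mulVec := Matrix.mulVec_injective_iff_isUnit.2
    ((Matrix.isUnit_iff_isUnit_det C).2 (isUnit_iff_ne_zero.2 hC))
  have h1 := Matrix.PosDef.conjTranspose_mul_self C h
  rwa [Matrix.conjTranspose_eq_transpose_of_trivial] at h1

private theorem LimitRepCx_lg {n : ℕ} {C : Matrix (Fin n) (Fin n) ℝ} (hC : C.det ≠ 0) :
    lg (bl C * (bl C)ᵀ) - lg ((bl C)ᵀ * bl C) =
      bd (lg (C * Cᵀ) - lg (Cᵀ * C)) (-(lg (C * Cᵀ) - lg (Cᵀ * C))) := by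
  have h1 : (C * Cᵀ).PosDef := by
    have h2 := LimitRepCx_posDef (C := Cᵀ) (by rwa [Matrix.det_transpose])
    rwa [Matrix.transpose_transpose] at h2
  rw [bl_transpose, bl_mul, bl_mul, lg_bl h1, lg_bl (LimitRepCx_posDef hC), bd_sub]
  congr 1
  abel

private theorem LimitRepCx_lin {d n : ℕ} (T S : Ten d n) (a b : ℝ)
    (g : Matrix (Fin n) (Fin n) ℝ) :
    tact (a • T + b • S) g = a • tact T g + b • tact S g := by
  have h : tact (a • T + b • S) g = tact (a • T) g + tact (b • S) g := by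
    funext I
    simp [tact, add_mul, Finset.sum_add_distrib]
  rw [h, tact_smul, tact_smul]

private theorem LimitRepCx_lin' {d n : ℕ} (T S : Ten d n) (a b : ℝ)
    (g : Matrix (Fin n) (Fin n) ℝ) :
    tact (a • T - b • S) g = a • tact T g - b • tact S g := by
  have h : a • T - b • S = a • T + (-b) • S := by
    rw [neg_smul, sub_eq_add_neg]
  rw [h, LimitRepCx_lin, neg_smul, sub_eq_add_neg]

private theorem LimitRepCx_iff {d N : ℕ} (T₁ T₂ : Ten d N) (B : Matrix (Fin N) (Fin N) ℝ) (c : ℂ) :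
    CxRel T₁ T₂ B c ↔
      ∀ I, (⟨tact T₁ B I, tact T₂ B I⟩ : ℂ) = c * (⟨T₁ I, T₂ I⟩ : ℂ) := by
  constructor
  · rintro ⟨h1, h2⟩ I
    apply Complex.ext
    · rw [Complex.mul_re]
      change tact T₁ B I = c.re * T₁ I - c.im * T₂ I
      rw [h1]
      rfl
    · rw [Complex.mul_im]
      change tact T₂ B I = c.re * T₂ I + c.im * T₁ I
      rw [h2, add_comm]
      rfl
  · intro h
    constructor
    · funext I
      have h1 := congrArg Complex.re (h I)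
      rw [Complex.mul_re] at h1
      exact h1
    · funext I
      have h1 := congrArg Complex.im (h I)
      rw [Complex.mul_im] at h1
      change tact T₂ B I = c.re * T₂ I + c.im * T₁ I at h1
      rw [h1, add_comm]
      rfl

private theorem LimitRepCx_mul {d N : ℕ} {T₁ T₂ : Ten d N} {A B : Matrix (Fin N) (Fin N) ℝ}
    {a b : ℂ} (hA : CxRel T₁ T₂ A a) (hB : CxRel T₁ T₂ B b) : CxRel T₁ T₂ (A * B) (a * b) := by
  constructor
  · rw [← tact_mul, hA.1, LimitRepCx_lin', hB.1, hB.2, Complex.mul_re, Complex.mul_im]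
    funext I
    simp only [Pi.smul_apply, Pi.add_apply, Pi.sub_apply, smul_eq_mul]
    ring
  · rw [← tact_mul, hA.2, LimitRepCx_lin, hB.1, hB.2, Complex.mul_re, Complex.mul_im]
    funext I
    simp only [Pi.smul_apply, Pi.add_apply, Pi.sub_apply, smul_eq_mul]
    ring

private theorem LimitRepCx_uniq {d N : ℕ} {T₁ T₂ : Ten d N} (h0 : T₁ ≠ 0 ∨ T₂ ≠ 0)
    {A : Matrix (Fin N) (Fin N) ℝ} {a b : ℂ} (hA : CxRel T₁ T₂ A a) (hB : CxRel T₁ T₂ A b) :
    a = b := by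
  by_contra hab
  have h1 : ∀ I, (⟨T₁ I, T₂ I⟩ : ℂ) = 0 := by
    intro I
    have h2 := (LimitRepCx_iff T₁ T₂ A a).1 hA I
    have h3 := (LimitRepCx_iff T₁ T₂ A b).1 hB I
    have h4 : (a - b) * (⟨T₁ I, T₂ I⟩ : ℂ) = 0 := by
      rw [sub_mul, ← h2, ← h3, sub_self]
    exact (mul_eq_zero.1 h4).resolve_left (sub_ne_zero.2 hab)
  rcases h0 with h | h
  · exact h (funext fun I => congrArg Complex.re (h1 I))
  · exact h (funext fun I => congrArg Complex.im (h1 I))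

private theorem LimitRepCx_one {d N : ℕ} (T₁ T₂ : Ten d N) :
    CxRel T₁ T₂ (1 : Matrix (Fin N) (Fin N) ℝ) 1 := by
  rw [LimitRepCx_iff]
  intro I
  rw [tact_one, tact_one, one_mul]

private theorem LimitRepCx_rinv {d N : ℕ} {T₁ T₂ : Ten d N} {A B : Matrix (Fin N) (Fin N) ℝ}
    {a : ℂ} (ha : a ≠ 0) (hAB : A * B = 1) (hA : CxRel T₁ T₂ A a) : CxRel T₁ T₂ B a⁻¹ := by
  have h1 : T₁ = a.re • tact T₁ B - a.im • tact T₂ B := by
    rw [← LimitRepCx_lin', ← hA.1, tact_mul, hAB, tact_one]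
  have h2 : T₂ = a.im • tact T₁ B + a.re • tact T₂ B := by
    rw [← LimitRepCx_lin, ← hA.2, tact_mul, hAB, tact_one]
  rw [LimitRepCx_iff]
  intro I
  have h3 : (⟨T₁ I, T₂ I⟩ : ℂ) = a * (⟨tact T₁ B I, tact T₂ B I⟩ : ℂ) := by
    apply Complex.ext
    · rw [Complex.mul_re]
      change T₁ I = a.re * tact T₁ B I - a.im * tact T₂ B I
      exact congrFun h1 I
    · rw [Complex.mul_im]
      change T₂ I = a.re * tact T₂ B I + a.im * tact T₁ B I
      rw [add_comm]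
      exact congrFun h2 I
  rw [h3, ← mul_assoc, inv_mul_cancel₀ ha, one_mul]

/-- the multipliers form a homomorphism and the transposed relations extend to the group -/
private theorem LimitRepCx_ext {d n : ℕ} {Γ : Type} [Group Γ] (S : Finset Γ)
    (hS : Subgroup.closure (S : Set Γ) = ⊤) (ρ : Γ →* Matrix (Fin n) (Fin n) ℝ)
    (T₁ T₂ : Ten d (n + n)) (h0 : T₁ ≠ 0 ∨ T₂ ≠ 0) (c : Γ → ℂ)
    (hρ : ∀ γ, CxRel T₁ T₂ (bl (ρ γ)) (c γ))
    (h : ∀ s ∈ S, CxRel T₁ T₂ (bl (ρ s)ᵀ) ((starRingEnd ℂ) (c s))) (γ : Γ) :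
    CxRel T₁ T₂ (bl (ρ γ)ᵀ) ((starRingEnd ℂ) (c γ)) := by
  have hc1 : c 1 = 1 := by
    refine LimitRepCx_uniq h0 (A := bl (ρ 1)) (hρ 1) ?_
    rw [map_one, bl_one]
    exact LimitRepCx_one T₁ T₂
  have hcm : ∀ γ δ, c (γ * δ) = c γ * c δ := by
    intro γ δ
    refine LimitRepCx_uniq h0 (A := bl (ρ (γ * δ))) (hρ _) ?_
    rw [map_mul, ← bl_mul]
    exact LimitRepCx_mul (hρ γ) (hρ δ)
  have hcc : ∀ γ, c γ * c γ⁻¹ = 1 := by
    intro γ
    rw [← hcm, mul_inv_cancel, hc1]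
  have hc0 : ∀ γ, c γ ≠ 0 := by
    intro γ h
    have := hcc γ
    rw [h, zero_mul] at this
    exact zero_ne_one this
  have hci : ∀ γ, c γ⁻¹ = (c γ)⁻¹ := by
    intro γ
    exact eq_inv_of_mul_eq_one_right (hcc γ)
  let H : Subgroup Γ :=
    { carrier := {γ | CxRel T₁ T₂ (bl (ρ γ)ᵀ) ((starRingEnd ℂ) (c γ))}
      mul_mem' := by
        intro γ δ h1 h2
        change CxRel T₁ T₂ (bl (ρ (γ * δ))ᵀ) ((starRingEnd ℂ) (c (γ * δ)))
        rw [map_mul, Matrix.transpose_mul, ← bl_mul, hcm, map_mul, mul_comm ((starRingEnd ℂ) (c γ))]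
        exact LimitRepCx_mul h2 h1
      one_mem' := by
        change CxRel T₁ T₂ (bl (ρ 1)ᵀ) ((starRingEnd ℂ) (c 1))
        rw [map_one, Matrix.transpose_one, bl_one, hc1, map_one]
        exact LimitRepCx_one T₁ T₂
      inv_mem' := by
        intro γ h1
        change CxRel T₁ T₂ (bl (ρ γ⁻¹)ᵀ) ((starRingEnd ℂ) (c γ⁻¹))
        rw [hci, map_inv₀]
        refine LimitRepCx_rinv ?_ ?_ h1
        · exact fun h2 => hc0 γ ((map_eq_zero (starRingEnd ℂ)).1 h2)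
        · rw [bl_mul, ← Matrix.transpose_mul, ← map_mul, inv_mul_cancel, map_one,
            Matrix.transpose_one, bl_one] }
  have h1 : Subgroup.closure (S : Set Γ) ≤ H := by
    rw [Subgroup.closure_le]
    exact fun s hs => h s hs
  rw [hS] at h1
  exact h1 (Subgroup.mem_top γ)

theorem exists_limit_rep_cx {d n : ℕ} {Γ : Type} [Group Γ] (S : Finset Γ)
    (hS : Subgroup.closure (S : Set Γ) = ⊤) (ρ : Γ →* Matrix (Fin n) (Fin n) ℝ)
    (T₁ T₂ : Ten d (n + n)) (h0 : T₁ ≠ 0 ∨ T₂ ≠ 0) (c : Γ → ℂ)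
    (hρ : ∀ γ, CxRel T₁ T₂ (bl (ρ γ)) (c γ)) :
    ∃ (g : ℕ → Matrix (Fin n) (Fin n) ℝ) (e : ℕ → ℝ) (ρ' : Γ →* Matrix (Fin n) (Fin n) ℝ)
      (T₁' T₂' : Ten d (n + n)),
      (∀ m, 0 < (g m).det) ∧
      (∀ γ, Tendsto (fun m => g m * ρ γ * (g m)⁻¹) atTop (𝓝 (ρ' γ))) ∧
      Tendsto (fun m => e m • tact T₁ (bl (g m)⁻¹)) atTop (𝓝 T₁') ∧
      Tendsto (fun m => e m • tact T₂ (bl (g m)⁻¹)) atTop (𝓝 T₂') ∧
      (T₁' ≠ 0 ∨ T₂' ≠ 0) ∧
      (∀ γ, CxRel T₁' T₂' (bl (ρ' γ)) (c γ)) ∧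
      (∀ γ, CxRel T₁' T₂' (bl (ρ' γ)ᵀ) ((starRingEnd ℂ) (c γ))) := by
  obtain ⟨g, B', hg, hdB, hlim, hW⟩ := exists_balanced_limit (S := {s // s ∈ S})
    (fun s => ρ s.1) (fun s => LimitRepCx_det ρ s.1)
  obtain ⟨ρ', hρ'⟩ := LimitRepCx_lim S hS ρ g (fun m => (hg m).ne')
    (fun s hs => ⟨B' ⟨s, hs⟩, hlim ⟨s, hs⟩⟩)
  have hB' : ∀ s : {s // s ∈ S}, B' s = ρ' s.1 := fun s =>
    tendsto_nhds_unique (hlim s) (hρ' s.1)
  have hgi : ∀ m, (g m)⁻¹ * g m = 1 := fun m =>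
    Matrix.nonsing_inv_mul _ (isUnit_iff_ne_zero.2 (hg m).ne')
  have hTm0 : ∀ (T : Ten d (n + n)) (m : ℕ), tact T (bl (g m)⁻¹) = 0 → T = 0 := by
    intro T m h
    have h1 : tact (tact T (bl (g m)⁻¹)) (bl (g m)) = T := by
      rw [tact_mul, bl_mul, hgi, bl_one, tact_one]
    have h2 : tact (0 : Ten d (n + n)) (bl (g m)) = 0 := by
      have h3 := tact_smul 0 (0 : Ten d (n + n)) (bl (g m))
      rwa [zero_smul, zero_smul] at h3
    rw [← h1, h, h2]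
  let V : ℕ → Ten d (n + n) × Ten d (n + n) := fun m =>
    (tact T₁ (bl (g m)⁻¹), tact T₂ (bl (g m)⁻¹))
  have hV : ∀ m, V m ≠ 0 := by
    intro m h
    have h1 : tact T₁ (bl (g m)⁻¹) = 0 := congrArg Prod.fst h
    have h2 : tact T₂ (bl (g m)⁻¹) = 0 := congrArg Prod.snd h
    rcases h0 with h0 | h0
    · exact h0 (hTm0 T₁ m h1)
    · exact h0 (hTm0 T₂ m h2)
  let U : ℕ → Ten d (n + n) × Ten d (n + n) := fun m => (‖V m‖)⁻¹ • V m
  have hU : ∀ m, U m ∈ Metric.sphere (0 : Ten d (n + n) × Ten d (n + n)) 1 := by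
    intro m
    rw [mem_sphere_zero_iff_norm]
    change ‖(‖V m‖)⁻¹ • V m‖ = 1
    rw [norm_smul, norm_inv, norm_norm, inv_mul_cancel₀ (norm_ne_zero_iff.2 (hV m))]
  obtain ⟨T', hT'1, φ, hφ, hT'2⟩ :=
    (isCompact_sphere (0 : Ten d (n + n) × Ten d (n + n)) 1).tendsto_subseq hU
  obtain ⟨T₁', T₂'⟩ := T'
  have hT'0 : T₁' ≠ 0 ∨ T₂' ≠ 0 := by
    by_contra hcon
    push Not at hcon
    obtain ⟨rfl, rfl⟩ := hcon
    rw [mem_sphere_zero_iff_norm] at hT'1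
    have : ((0, 0) : Ten d (n + n) × Ten d (n + n)) = 0 := rfl
    rw [this, norm_zero] at hT'1
    exact zero_ne_one hT'1
  have hlim1 : Tendsto (fun m => (‖V (φ m)‖)⁻¹ • tact T₁ (bl (g (φ m))⁻¹)) atTop (𝓝 T₁') :=
    (continuous_fst.tendsto _).comp hT'2
  have hlim2 : Tendsto (fun m => (‖V (φ m)‖)⁻¹ • tact T₂ (bl (g (φ m))⁻¹)) atTop (𝓝 T₂') :=
    (continuous_snd.tendsto _).comp hT'2
  have hact : ∀ (T : Ten d (n + n)) (T' : Ten d (n + n)),
      Tendsto (fun m => (‖V (φ m)‖)⁻¹ • tact T (bl (g (φ m))⁻¹)) atTop (𝓝 T') → ∀ γ,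
      Tendsto (fun m => (‖V (φ m)‖)⁻¹ • tact (tact T (bl (ρ γ))) (bl (g (φ m))⁻¹)) atTop
        (𝓝 (tact T' (bl (ρ' γ)))) := by
    intro T T' hT γ
    have hlimact : Tendsto (fun m => tact ((‖V (φ m)‖)⁻¹ • tact T (bl (g (φ m))⁻¹))
        (bl (g (φ m) * ρ γ * (g (φ m))⁻¹))) atTop (𝓝 (tact T' (bl (ρ' γ)))) :=
      ((continuous_tact' d (n + n)).tendsto (T', bl (ρ' γ))).comp
        (hT.prodMk_nhds (tendsto_bl ((hρ' γ).comp hφ.tendsto_atTop) (LimitRepCx_det ρ' γ)))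
    have hcomp : ∀ m, tact ((‖V (φ m)‖)⁻¹ • tact T (bl (g (φ m))⁻¹))
        (bl (g (φ m) * ρ γ * (g (φ m))⁻¹)) =
        (‖V (φ m)‖)⁻¹ • tact (tact T (bl (ρ γ))) (bl (g (φ m))⁻¹) := by
      intro m
      rw [tact_smul, tact_mul, tact_mul, bl_mul, bl_mul]
      congr 3
      rw [← mul_assoc, ← mul_assoc, hgi, one_mul]
    simp only [hcomp] at hlimact
    exact hlimact
  have hfix : ∀ γ, CxRel T₁' T₂' (bl (ρ' γ)) (c γ) := by
    intro γ
    constructor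
    · have h1 := hact T₁ T₁' hlim1 γ
      have h2 : ∀ m, (‖V (φ m)‖)⁻¹ • tact (tact T₁ (bl (ρ γ))) (bl (g (φ m))⁻¹) =
          (c γ).re • ((‖V (φ m)‖)⁻¹ • tact T₁ (bl (g (φ m))⁻¹)) -
          (c γ).im • ((‖V (φ m)‖)⁻¹ • tact T₂ (bl (g (φ m))⁻¹)) := by
        intro m
        rw [(hρ γ).1, LimitRepCx_lin', smul_sub, smul_comm, smul_comm _ (c γ).im]
      simp only [h2] at h1
      exact tendsto_nhds_unique h1 ((hlim1.const_smul _).sub (hlim2.const_smul _))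
    · have h1 := hact T₂ T₂' hlim2 γ
      have h2 : ∀ m, (‖V (φ m)‖)⁻¹ • tact (tact T₂ (bl (ρ γ))) (bl (g (φ m))⁻¹) =
          (c γ).im • ((‖V (φ m)‖)⁻¹ • tact T₁ (bl (g (φ m))⁻¹)) +
          (c γ).re • ((‖V (φ m)‖)⁻¹ • tact T₂ (bl (g (φ m))⁻¹)) := by
        intro m
        rw [(hρ γ).2, LimitRepCx_lin, smul_add, smul_comm, smul_comm _ (c γ).re]
      simp only [h2] at h1
      exact tendsto_nhds_unique h1 ((hlim1.const_smul _).add (hlim2.const_smul _))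
  refine ⟨g ∘ φ, fun m => (‖V (φ m)‖)⁻¹, ρ', T₁', T₂', fun m => hg _,
    fun γ => (hρ' γ).comp hφ.tendsto_atTop, hlim1, hlim2, hT'0, hfix, ?_⟩
  refine LimitRepCx_ext S hS ρ' T₁' T₂' hT'0 c hfix ?_
  intro s hs
  have hdbl : ∀ s : {s // s ∈ S}, (bl (B' s)).det ≠ 0 := by
    intro s
    rw [bl_det (hdB s)]
    exact one_ne_zero
  have hWbl : ∑ s : {s // s ∈ S}, (lg (bl (B' s) * (bl (B' s))ᵀ) -
      lg ((bl (B' s))ᵀ * bl (B' s))) = 0 := by
    have h1 : ∀ s : {s // s ∈ S}, lg (bl (B' s) * (bl (B' s))ᵀ) -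
        lg ((bl (B' s))ᵀ * bl (B' s)) =
        bd (lg (B' s * (B' s)ᵀ) - lg ((B' s)ᵀ * B' s))
          (-(lg (B' s * (B' s)ᵀ) - lg ((B' s)ᵀ * B' s))) := fun s => LimitRepCx_lg (hdB s)
    simp only [h1]
    rw [bd_sum, Finset.sum_neg_distrib, hW, neg_zero, bd_zero]
  have h1 := cx_transpose_of_balanced T₁' T₂' (fun s : {s // s ∈ S} => bl (B' s)) hdbl
    (fun s => c s.1)
    (fun s => by
      rw [hB' s]
      exact hfix s.1) hWbl ⟨s, hs⟩
  change CxRel T₁' T₂' (bl (B' ⟨s, hs⟩))ᵀ _ at h1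
  rwa [bl_transpose, hB' ⟨s, hs⟩] at h1

end Pool.Agent.ChM
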