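import Pool.Agent.ChM.BPull

/-!
# Normalisation of a semi-invariant tensor of type `(a, b)`

`exists_normalised_bten`: `c γ` is unique (`A ≠ 0`), `c 1 = 1`, `c (γ δ) = c γ * c δ`
(`bpull_bpull`, `Matrix.mul_inv_rev`), so `c γ ≠ 0`; put `κ γ = |c γ| ^ (1 / (b - a) : ℝ)`.  By
`bpull_smul_mat` (`(κ • τ)⁻¹ = κ⁻¹ • τ⁻¹`, `Matrix.inv_smul'`-type or `inv_eq_right_inv`)
`bpull A (κ • τ) (κ • τ)⁻¹ = (κ ^ a * κ⁻¹ ^ b * c) • A = (c / |c|) • A`.  See `exists_normalised`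
in `ChP/PolyTen.lean`.
-/

namespace Pool.Agent.ChM

open Matrix Pool.Agent.ChP

theorem exists_normalised_bten {a b k : ℕ} {Γ : Type} [Group Γ] (hab : a ≠ b)
    (τ : Γ →* Matrix (Fin k) (Fin k) ℝ) (A : BTen a b k) (hA0 : A ≠ 0)
    (h : ∀ γ, ∃ c : ℝ, bpull A (τ γ) (τ γ)⁻¹ = c • A) :
    ∃ κ : Γ →* ℝ, (∀ γ, 0 < κ γ) ∧ ∀ γ,
      bpull A (κ γ • τ γ) (κ γ • τ γ)⁻¹ = A ∨ bpull A (κ γ • τ γ) (κ γ • τ γ)⁻¹ = -A := by
  choose c hc using h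
  have huniq : ∀ s t : ℝ, s • A = t • A → s = t := by
    intro s t hst
    by_contra hne
    have h1 : (s - t) • A = 0 := by rw [sub_smul, hst, sub_self]
    rcases smul_eq_zero.1 h1 with h2 | h2
    · exact hne (sub_eq_zero.1 h2)
    · exact hA0 h2
  have hinv : ∀ γ, τ γ * (τ γ)⁻¹ = 1 := by
    intro γ
    have h1 : τ γ * τ γ⁻¹ = 1 := by rw [← map_mul, mul_inv_cancel, map_one]
    rw [Matrix.inv_eq_right_inv h1]
    exact h1
  have hc1 : c 1 = 1 := by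
    apply huniq
    rw [← hc, map_one, inv_one, bpull_one, one_smul]
  have hcm : ∀ γ δ, c (γ * δ) = c γ * c δ := by
    intro γ δ
    apply huniq
    rw [← hc, map_mul, Matrix.mul_inv_rev, ← bpull_bpull, hc, bpull_smul, hc, smul_smul]
  have hcne : ∀ γ, c γ ≠ 0 := by
    intro γ hz
    have h1 := hcm γ γ⁻¹
    rw [mul_inv_cancel, hc1, hz, zero_mul] at h1
    exact one_ne_zero h1
  have hba : (b : ℝ) - a ≠ 0 := by
    intro h1
    apply hab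
    have h2 : (a : ℝ) = b := by linarith
    exact_mod_cast h2
  have hpos : ∀ γ, 0 < |c γ| ^ (1 / ((b : ℝ) - a)) :=
    fun γ => Real.rpow_pos_of_pos (abs_pos.2 (hcne γ)) _
  refine ⟨{ toFun := fun γ => |c γ| ^ (1 / ((b : ℝ) - a)), map_one' := ?_, map_mul' := ?_ },
    hpos, ?_⟩
  · simp [hc1]
  · intro γ δ
    rw [hcm, abs_mul, Real.mul_rpow (abs_nonneg _) (abs_nonneg _)]
  · intro γ
    change bpull A (|c γ| ^ (1 / ((b : ℝ) - a)) • τ γ) (|c γ| ^ (1 / ((b : ℝ) - a)) • τ γ)⁻¹ = A ∨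
      bpull A (|c γ| ^ (1 / ((b : ℝ) - a)) • τ γ) (|c γ| ^ (1 / ((b : ℝ) - a)) • τ γ)⁻¹ = -A
    obtain ⟨κ, hκ⟩ : ∃ κ : ℝ, κ = |c γ| ^ (1 / ((b : ℝ) - a)) := ⟨_, rfl⟩
    have hκ0 : 0 < κ := by rw [hκ]; exact hpos γ
    rw [← hκ]
    have h1 : (κ • τ γ)⁻¹ = κ⁻¹ • (τ γ)⁻¹ := by
      apply Matrix.inv_eq_right_inv
      rw [Matrix.smul_mul, Matrix.mul_smul, hinv, smul_smul, mul_inv_cancel₀ hκ0.ne', one_smul]
    have h2 : κ ^ a * κ⁻¹ ^ b = |c γ|⁻¹ := by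
      have h3 : κ ^ a * κ⁻¹ ^ b = κ ^ ((a : ℝ) - b) := by
        rw [Real.rpow_sub hκ0, Real.rpow_natCast, Real.rpow_natCast, inv_pow]
        rfl
      rw [h3, hκ, ← Real.rpow_mul (abs_nonneg _)]
      have h4 : 1 / ((b : ℝ) - a) * ((a : ℝ) - b) = -1 := by
        rw [div_mul_eq_mul_div, div_eq_iff hba]
        ring
      rw [h4, Real.rpow_neg_one]
    rw [h1, bpull_smul_mat, hc, smul_smul, h2]
    rcases lt_or_gt_of_ne (hcne γ) with h5 | h5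
    · right
      rw [abs_of_neg h5]
      have h6 : (-c γ)⁻¹ * c γ = -1 := by
        rw [inv_neg, neg_mul, inv_mul_cancel₀ h5.ne]
      rw [h6, neg_one_smul]
    · left
      rw [abs_of_pos h5, inv_mul_cancel₀ h5.ne', one_smul]

end Pool.Agent.ChM
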