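import Pool.Agent.ChM.Core
import Pool.Agent.ChP.SubRep

/-!
# Subquotients

`noEul_block`: the conjugates of `κ • ρ` by `scaleP P (1 / (N + 1))` converge to `κ • ρ₀`
(`scaleP_conj`, see the end of the proof of `exists_limit_data` in `ChP/SubRep.lean`); use
`noEul_of_limit`.

`exists_subquot`: let `W' = ker π` (as a subspace of `ℝ^n`, `(LinearMap.ker π).map W.subtype`),
invariant under `ρ`.  Take projections `P` onto `W`, `P'` onto `W'` (`exists_projection`),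
`Q = P' * P`; then `P * P = P`, `Q * Q = Q`, `P * Q = Q * P = Q`, `Q` is a projection onto `W'`.
Let `ρ₁ = blockRep ρ P`, `ρ₀ = blockRep ρ₁ Q` (`Q * (ρ₁ γ * Q) = ρ₁ γ * Q` as `ρ₁ γ = ρ γ` on `W`).
Let `σ : ℝ^k → W` be a linear right inverse of `π`, `q v = (P - Q) (σ v)` and
`p v = π (P v)`.  On `E₂ = P - Q`: `π (E₂ v) = π (P v)`, so `p * q = 1`.  `ρ₀ γ` commutes with
`P` and `Q`, and `ρ₀ γ E₂ v = E₂ (ρ γ (E₂ v))`.  `p (ρ₀ γ v) = π (P ρ₀ γ v) = π (ρ₀ γ (P v))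
= π (ρ₀ γ (E₂ v)) = π (E₂ ρ γ (E₂ v)) = π (ρ γ (E₂ v)) = τ γ π (E₂ v) = τ γ p v`.
`ρ₀ γ q v = E₂ (ρ γ (q v))` and `q (τ γ v) = E₂ (σ (τ γ v))`; both are in `E₂ W` and have the same
image `τ γ v` under `π`, and `π` is injective on the image of `E₂`.
-/

namespace Pool.Agent.ChM

open Matrix Filter Topology Pool.Agent.ChP

/-- The representation `κ • ρ`. -/
noncomputable def scaleRep {n : ℕ} {Γ : Type} [Group Γ] (κ : Γ →* ℝ)
    (ρ : Γ →* Matrix (Fin n) (Fin n) ℝ) : Γ →* Matrix (Fin n) (Fin n) ℝ where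
  toFun γ := κ γ • ρ γ
  map_one' := by rw [map_one, map_one, one_smul]
  map_mul' a b := by
    rw [map_mul, map_mul, Matrix.smul_mul, Matrix.mul_smul, smul_smul]

theorem noEul_block {n : ℕ} {Γ : Type} [Group Γ] (ρ : Γ →* Matrix (Fin n) (Fin n) ℝ)
    (P : Matrix (Fin n) (Fin n) ℝ) (hP : P * P = P) (hA : ∀ γ, P * (ρ γ * P) = ρ γ * P)
    (κ : Γ →* ℝ) (h : NoEul (scaleRep κ (blockRep ρ P hP hA))) : NoEul (scaleRep κ ρ) := by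
  have hN : ∀ N : ℕ, (0 : ℝ) < 1 / ((N : ℝ) + 1) := fun N => by positivity
  refine noEul_of_limit (scaleRep κ ρ) (scaleRep κ (blockRep ρ P hP hA))
    (fun N => scaleP P (1 / ((N : ℝ) + 1))) (fun N => scaleP_det hP (hN N)) ?_ h
  intro γ
  have e1 : ∀ N : ℕ, scaleP P (1 / ((N : ℝ) + 1)) * (scaleRep κ ρ γ) *
      (scaleP P (1 / ((N : ℝ) + 1)))⁻¹ = scaleRep κ (blockRep ρ P hP hA) γ +
        (1 / ((N : ℝ) + 1)) • (P * (κ γ • ρ γ) * (1 - P)) := by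
    intro N
    show scaleP P (1 / ((N : ℝ) + 1)) * (κ γ • ρ γ) * (scaleP P (1 / ((N : ℝ) + 1)))⁻¹ = _
    rw [scaleP_conj hP _ (hN N).ne']
    · congr 1
      show _ = κ γ • (P * ρ γ * P + (1 - P) * ρ γ * (1 - P))
      rw [smul_add, Matrix.mul_smul, Matrix.smul_mul, Matrix.mul_smul, Matrix.smul_mul]
    · rw [Matrix.smul_mul, Matrix.mul_smul, hA]
  simp only [e1]
  have e2 : Tendsto (fun N : ℕ => scaleRep κ (blockRep ρ P hP hA) γ +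
      (1 / ((N : ℝ) + 1)) • (P * (κ γ • ρ γ) * (1 - P))) atTop
      (𝓝 (scaleRep κ (blockRep ρ P hP hA) γ + (0 : ℝ) • (P * (κ γ • ρ γ) * (1 - P)))) :=
    tendsto_const_nhds.add (tendsto_one_div_add_atTop_nhds_zero_nat.smul tendsto_const_nhds)
  rw [zero_smul, add_zero] at e2
  exact e2

private theorem scale_ext {m n : ℕ} {A B : Matrix (Fin m) (Fin n) ℝ}
    (h : ∀ v, A *ᵥ v = B *ᵥ v) : A = B := by
  apply Matrix.toLin'.injective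
  apply LinearMap.ext
  intro v
  rw [Matrix.toLin'_apply, Matrix.toLin'_apply]
  exact h v

/-- A subquotient of `ρ` becomes a direct summand of a limit of conjugates. -/
theorem exists_subquot {n k : ℕ} {Γ : Type} [Group Γ] (ρ : Γ →* Matrix (Fin n) (Fin n) ℝ)
    (W : Submodule ℝ (Fin n → ℝ)) (hW : ∀ γ, ∀ v ∈ W, ρ γ *ᵥ v ∈ W)
    (π : W →ₗ[ℝ] (Fin k → ℝ)) (hπ : Function.Surjective π)
    (τ : Γ →* Matrix (Fin k) (Fin k) ℝ)
    (hτ : ∀ γ (v : Fin n → ℝ) (hv : v ∈ W), π ⟨ρ γ *ᵥ v, hW γ v hv⟩ = τ γ *ᵥ π ⟨v, hv⟩) :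
    ∃ (ρ₀ : Γ →* Matrix (Fin n) (Fin n) ℝ) (p : Matrix (Fin k) (Fin n) ℝ)
      (q : Matrix (Fin n) (Fin k) ℝ), p * q = 1 ∧ (∀ γ, p * ρ₀ γ = τ γ * p) ∧
      (∀ γ, ρ₀ γ * q = q * τ γ) ∧
      ∀ κ : Γ →* ℝ, NoEul (scaleRep κ ρ₀) → NoEul (scaleRep κ ρ) := by
  classical
  obtain ⟨P, hP1, hP2⟩ := exists_projection W
  set K : Submodule ℝ (Fin n → ℝ) := (LinearMap.ker π).map W.subtype with hK
  obtain ⟨P', hP1', hP2'⟩ := exists_projection K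
  have hKW : ∀ v ∈ K, v ∈ W := by
    intro v hv
    rw [hK, Submodule.mem_map] at hv
    obtain ⟨w, -, rfl⟩ := hv
    exact w.2
  have hKπ : ∀ (v : Fin n → ℝ) (hv : v ∈ K), π ⟨v, hKW v hv⟩ = 0 := by
    intro v hv
    have hv' := hv
    rw [hK, Submodule.mem_map] at hv'
    obtain ⟨w, hw, hwv⟩ := hv'
    have : (⟨v, hKW v hv⟩ : W) = w := Subtype.ext hwv.symm
    rw [this]
    exact LinearMap.mem_ker.1 hw
  have hπK : ∀ (v : Fin n → ℝ) (hv : v ∈ W), π ⟨v, hv⟩ = 0 → v ∈ K := by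
    intro v hv h0
    rw [hK, Submodule.mem_map]
    exact ⟨⟨v, hv⟩, LinearMap.mem_ker.2 h0, rfl⟩
  have hρK : ∀ γ, ∀ v ∈ K, ρ γ *ᵥ v ∈ K := by
    intro γ v hv
    apply hπK _ (hW γ v (hKW v hv))
    rw [hτ γ v (hKW v hv), hKπ v hv, Matrix.mulVec_zero]
  have hPP : P * P = P := by
    apply scale_ext
    intro v
    rw [← Matrix.mulVec_mulVec]
    exact hP2 _ (hP1 v)
  have hA : ∀ γ, P * (ρ γ * P) = ρ γ * P := by
    intro γ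
    apply scale_ext
    intro v
    rw [← Matrix.mulVec_mulVec, ← Matrix.mulVec_mulVec]
    exact hP2 _ (hW γ _ (hP1 v))
  obtain ⟨Q, hQ⟩ : ∃ Q : Matrix (Fin n) (Fin n) ℝ, Q = P' * P := ⟨_, rfl⟩
  have hQ1 : ∀ v, Q *ᵥ v ∈ K := by
    intro v
    rw [hQ, ← Matrix.mulVec_mulVec]
    exact hP1' _
  have hQ2 : ∀ v ∈ K, Q *ᵥ v = v := by
    intro v hv
    rw [hQ, ← Matrix.mulVec_mulVec, hP2 v (hKW v hv), hP2' v hv]
  have hQQ : Q * Q = Q := by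
    apply scale_ext
    intro v
    rw [← Matrix.mulVec_mulVec]
    exact hQ2 _ (hQ1 v)
  have hPQ : P * Q = Q := by
    apply scale_ext
    intro v
    rw [← Matrix.mulVec_mulVec]
    exact hP2 _ (hKW _ (hQ1 v))
  have hQP : Q * P = Q := by
    rw [hQ, Matrix.mul_assoc, hPP]
  set ρ₁ := blockRep ρ P hPP hA with hρ₁
  have hρ₁W : ∀ γ, ∀ w ∈ W, ρ₁ γ *ᵥ w = ρ γ *ᵥ w := by
    intro γ w hw
    show (P * ρ γ * P + (1 - P) * ρ γ * (1 - P)) *ᵥ w = ρ γ *ᵥ w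
    have h1 : (1 - P) *ᵥ w = 0 := by
      rw [Matrix.sub_mulVec, Matrix.one_mulVec, hP2 w hw, sub_self]
    rw [Matrix.add_mulVec, ← Matrix.mulVec_mulVec, ← Matrix.mulVec_mulVec, hP2 w hw,
      ← Matrix.mulVec_mulVec, h1, Matrix.mulVec_zero, add_zero, hP2 _ (hW γ w hw)]
  have hρ₁P : ∀ γ, P * ρ₁ γ = ρ₁ γ * P := by
    intro γ
    show P * (P * ρ γ * P + (1 - P) * ρ γ * (1 - P)) =
      (P * ρ γ * P + (1 - P) * ρ γ * (1 - P)) * P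
    have h2 : P * (1 - P) = 0 := by rw [Matrix.mul_sub, hPP, Matrix.mul_one, sub_self]
    have h3 : (1 - P) * P = 0 := by rw [Matrix.sub_mul, hPP, Matrix.one_mul, sub_self]
    rw [Matrix.mul_add, Matrix.add_mul]
    have e1 : P * (P * ρ γ * P) = P * ρ γ * P := by
      rw [Matrix.mul_assoc P (ρ γ) P, ← Matrix.mul_assoc P P, hPP]
    have e2 : P * ((1 - P) * ρ γ * (1 - P)) = 0 := by
      rw [Matrix.mul_assoc (1 - P), ← Matrix.mul_assoc P (1 - P), h2, Matrix.zero_mul]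
    have e3 : P * ρ γ * P * P = P * ρ γ * P := by
      rw [Matrix.mul_assoc (P * ρ γ) P P, hPP]
    have e4 : (1 - P) * ρ γ * (1 - P) * P = 0 := by
      rw [Matrix.mul_assoc ((1 - P) * ρ γ), h3, Matrix.mul_zero]
    rw [e1, e2, e3, e4]
  have hB : ∀ γ, Q * (ρ₁ γ * Q) = ρ₁ γ * Q := by
    intro γ
    apply scale_ext
    intro v
    rw [← Matrix.mulVec_mulVec, ← Matrix.mulVec_mulVec, hρ₁W γ _ (hKW _ (hQ1 v))]
    exact hQ2 _ (hρK γ _ (hQ1 v))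
  set ρ₀ := blockRep ρ₁ Q hQQ hB with hρ₀
  obtain ⟨σ, hσ⟩ := π.exists_rightInverse_of_surjective (LinearMap.range_eq_top.2 hπ)
  have hσ' : ∀ v, π (σ v) = v := fun v => LinearMap.congr_fun hσ v
  set LP : (Fin n → ℝ) →ₗ[ℝ] (Fin k → ℝ) :=
    π ∘ₗ (LinearMap.codRestrict W (Matrix.mulVecLin P) (fun v => hP1 v)) with hLP
  have hLPv : ∀ v, LP v = π ⟨P *ᵥ v, hP1 v⟩ := fun v => rfl
  have hLPK : ∀ v ∈ K, LP v = 0 := by
    intro v hv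
    rw [hLPv]
    have : (⟨P *ᵥ v, hP1 v⟩ : W) = ⟨v, hKW v hv⟩ := Subtype.ext (hP2 v (hKW v hv))
    rw [this]
    exact hKπ v hv
  have hLPW : ∀ (v : Fin n → ℝ) (hv : v ∈ W), LP v = π ⟨v, hv⟩ := by
    intro v hv
    rw [hLPv]
    have : (⟨P *ᵥ v, hP1 v⟩ : W) = ⟨v, hv⟩ := Subtype.ext (hP2 v hv)
    rw [this]
  have hLPP : ∀ v, LP (P *ᵥ v) = LP v := by
    intro v
    rw [hLPW _ (hP1 v), hLPv]
  have hLPρ : ∀ γ, ∀ w ∈ W, LP (ρ γ *ᵥ w) = τ γ *ᵥ LP w := by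
    intro γ w hw
    rw [hLPW _ (hW γ w hw), hLPW w hw, hτ γ w hw]
  set Lq : (Fin k → ℝ) →ₗ[ℝ] (Fin n → ℝ) :=
    (Matrix.mulVecLin (P - Q)) ∘ₗ W.subtype ∘ₗ σ with hLq
  have hLqv : ∀ v, Lq v = (P - Q) *ᵥ (σ v : Fin n → ℝ) := fun v => rfl
  have hp : ∀ v, LinearMap.toMatrix' LP *ᵥ v = LP v := by
    intro v
    rw [← Matrix.toLin'_apply, Matrix.toLin'_toMatrix']
  have hq : ∀ v, LinearMap.toMatrix' Lq *ᵥ v = Lq v := by
    intro v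
    rw [← Matrix.toLin'_apply, Matrix.toLin'_toMatrix']
  have hE : ∀ v, (P - Q) *ᵥ v ∈ W := by
    intro v
    rw [Matrix.sub_mulVec]
    exact W.sub_mem (hP1 v) (hKW _ (hQ1 v))
  have hEK : ∀ v ∈ K, (P - Q) *ᵥ v = 0 := by
    intro v hv
    rw [Matrix.sub_mulVec, hP2 v (hKW v hv), hQ2 v hv, sub_self]
  have hLPE : ∀ v, LP ((P - Q) *ᵥ v) = LP v := by
    intro v
    rw [Matrix.sub_mulVec, map_sub, hLPP, hLPK _ (hQ1 v), sub_zero]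
  have hLPσ : ∀ v, LP (σ v : Fin n → ℝ) = v := by
    intro v
    rw [hLPW _ (σ v).2]
    exact hσ' v
  refine ⟨ρ₀, LinearMap.toMatrix' LP, LinearMap.toMatrix' Lq, ?_, ?_, ?_, ?_⟩
  · apply scale_ext
    intro v
    rw [← Matrix.mulVec_mulVec, hp, hq, hLqv, hLPE, hLPσ, Matrix.one_mulVec]
  · intro γ
    apply scale_ext
    intro v
    rw [← Matrix.mulVec_mulVec, ← Matrix.mulVec_mulVec, hp, hp]
    show LP ((Q * ρ₁ γ * Q + (1 - Q) * ρ₁ γ * (1 - Q)) *ᵥ v) = _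
    rw [Matrix.add_mulVec, map_add]
    have e1 : LP ((Q * ρ₁ γ * Q) *ᵥ v) = 0 := by
      rw [Matrix.mul_assoc, ← Matrix.mulVec_mulVec]
      exact hLPK _ (hQ1 _)
    have e2 : LP (((1 - Q) * ρ₁ γ * (1 - Q)) *ᵥ v) = LP ((ρ₁ γ * (1 - Q)) *ᵥ v) := by
      rw [Matrix.mul_assoc, ← Matrix.mulVec_mulVec, Matrix.sub_mulVec, Matrix.one_mulVec, map_sub,
        hLPK _ (hQ1 _), sub_zero]
    have e3 : LP ((ρ₁ γ * (1 - Q)) *ᵥ v) = LP (ρ γ *ᵥ ((P - Q) *ᵥ v)) := by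
      rw [← hLPP, Matrix.mulVec_mulVec, ← Matrix.mul_assoc, hρ₁P, Matrix.mul_assoc,
        Matrix.mul_sub P 1 Q, Matrix.mul_one, hPQ, ← Matrix.mulVec_mulVec, hρ₁W γ _ (hE v)]
    rw [e1, zero_add, e2, e3, hLPρ γ _ (hE v), hLPE]
  · intro γ
    apply scale_ext
    intro v
    rw [← Matrix.mulVec_mulVec, ← Matrix.mulVec_mulVec, hq, hq]
    set w : Fin n → ℝ := Lq v with hw
    have hwW : w ∈ W := by
      rw [hw, hLqv]
      exact hE _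
    have hQw : Q *ᵥ w = 0 := by
      rw [hw, hLqv, Matrix.mulVec_mulVec, Matrix.mul_sub, hQP, hQQ, sub_self, Matrix.zero_mulVec]
    have e1 : ρ₀ γ *ᵥ w = (P - Q) *ᵥ (ρ γ *ᵥ w) := by
      show (Q * ρ₁ γ * Q + (1 - Q) * ρ₁ γ * (1 - Q)) *ᵥ w = _
      have h1 : (1 - Q) *ᵥ w = w := by
        rw [Matrix.sub_mulVec, Matrix.one_mulVec, hQw, sub_zero]
      rw [Matrix.add_mulVec, ← Matrix.mulVec_mulVec, hQw, Matrix.mulVec_zero, zero_add,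
        ← Matrix.mulVec_mulVec, h1, ← Matrix.mulVec_mulVec, hρ₁W γ w hwW, Matrix.sub_mulVec,
        Matrix.sub_mulVec, Matrix.one_mulVec, hP2 _ (hW γ w hwW)]
    have e2 : Lq (τ γ *ᵥ v) = (P - Q) *ᵥ (σ (τ γ *ᵥ v) : Fin n → ℝ) := hLqv _
    rw [e1, e2, ← sub_eq_zero, ← Matrix.mulVec_sub]
    apply hEK
    apply hπK _ (W.sub_mem (hW γ w hwW) (σ (τ γ *ᵥ v)).2)
    rw [← hLPW, map_sub, hLPρ γ w hwW, hLPσ, hw, hLqv, hLPE, hLPσ, sub_self]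
  · intro κ h
    exact noEul_block ρ P hPP hA κ (noEul_block ρ₁ Q hQQ hB κ h)

end Pool.Agent.ChM
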