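import Pool.Agent.ChM.NoEulBTen
import Pool.Agent.ChM.Scale
import Pool.Agent.ChM.Norm
import Pool.Agent.ChM.Index

/-!
# Triangulated closed affine manifolds: tensors on subquotients of the linear holonomy
-/

namespace Pool.Agent.ChM

open Matrix Filter Topology Pool.Agent.ChP

/-- `τ` is a direct summand of a degeneration of `ρ`. -/
def SubDeg {n k : ℕ} {Γ : Type} [Group Γ] (ρ : Γ →* Matrix (Fin n) (Fin n) ℝ)
    (τ : Γ →* Matrix (Fin k) (Fin k) ℝ) : Prop :=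
  ∃ (ρ₀ : Γ →* Matrix (Fin n) (Fin n) ℝ) (p : Matrix (Fin k) (Fin n) ℝ)
    (q : Matrix (Fin n) (Fin k) ℝ), p * q = 1 ∧ (∀ γ, p * ρ₀ γ = τ γ * p) ∧
    (∀ γ, ρ₀ γ * q = q * τ γ) ∧
    ∀ κ : Γ →* ℝ, NoEul (scaleRep κ ρ₀) → NoEul (scaleRep κ ρ)

/-- pull back to the limit representation: the summand -/
theorem mainB_pull {n k a b : ℕ} (A : BTen a b k) (s : ℝ) (hs : s ≠ 0)
    {R : Matrix (Fin n) (Fin n) ℝ} (hR : R.det ≠ 0) {t : Matrix (Fin k) (Fin k) ℝ}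
    (ht : t.det ≠ 0) {p : Matrix (Fin k) (Fin n) ℝ} {q : Matrix (Fin n) (Fin k) ℝ}
    (hp : p * R = t * p) (hq : R * q = q * t) :
    bpull (bpull A p q) (s • R) (s • R)⁻¹ = bpull (bpull A (s • t) (s • t)⁻¹) p q := by
  have hRu : IsUnit R.det := isUnit_iff_ne_zero.2 hR
  have htu : IsUnit t.det := isUnit_iff_ne_zero.2 ht
  have h1 : (s • R)⁻¹ = s⁻¹ • R⁻¹ := by
    apply Matrix.inv_eq_right_inv
    rw [Matrix.smul_mul, Matrix.mul_smul, smul_smul, mul_inv_cancel₀ hs, one_smul,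
      Matrix.mul_nonsing_inv _ hRu]
  have h2 : (s • t)⁻¹ = s⁻¹ • t⁻¹ := by
    apply Matrix.inv_eq_right_inv
    rw [Matrix.smul_mul, Matrix.mul_smul, smul_smul, mul_inv_cancel₀ hs, one_smul,
      Matrix.mul_nonsing_inv _ htu]
  have h3 : R⁻¹ * q = q * t⁻¹ := by
    have e1 : R⁻¹ * (R * q) * t⁻¹ = R⁻¹ * (q * t) * t⁻¹ := by rw [hq]
    rw [← Matrix.mul_assoc, Matrix.nonsing_inv_mul _ hRu, Matrix.one_mul, Matrix.mul_assoc R⁻¹,
      Matrix.mul_assoc q, Matrix.mul_nonsing_inv _ htu, Matrix.mul_one] at e1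
    exact e1.symm
  rw [bpull_bpull, bpull_bpull, h1, h2]
  congr 1
  · rw [Matrix.mul_smul, Matrix.smul_mul, hp]
  · rw [Matrix.mul_smul, Matrix.smul_mul, h3]

private theorem mainB_fixes {n k a b : ℕ} (A : BTen a b k) (s : ℝ) (hs : s ≠ 0)
    {R : Matrix (Fin n) (Fin n) ℝ} (hR : R.det ≠ 0) {t : Matrix (Fin k) (Fin k) ℝ}
    (ht : t.det ≠ 0) {p : Matrix (Fin k) (Fin n) ℝ} {q : Matrix (Fin n) (Fin k) ℝ}
    (hp : p * R = t * p) (hq : R * q = q * t)
    (h : bpull A (s • t) (s • t)⁻¹ = A ∨ bpull A (s • t) (s • t)⁻¹ = -A) :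
    Fixes (bten (bpull A p q)) (bl (s • R)) := by
  unfold Fixes
  rw [tact_bten_bl, mainB_pull A s hs hR ht hp hq]
  rcases h with h | h
  · left; rw [h]
  · right
    rw [h, ← bten_neg]
    congr 1
    have := bpull_smul (-1) A p q
    rwa [neg_one_smul, neg_one_smul] at this

theorem mainB_ne {n k a b : ℕ} {A : BTen a b k} (hA0 : A ≠ 0)
    {p : Matrix (Fin k) (Fin n) ℝ} {q : Matrix (Fin n) (Fin k) ℝ} (hpq : p * q = 1) :
    bpull A p q ≠ 0 := by
  intro h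
  apply hA0
  have h1 : bpull (bpull A p q) q p = A := by
    rw [bpull_bpull, hpq, bpull_one]
  rw [← h1, h]
  have := bpull_smul 0 (0 : BTen a b n) q p
  rwa [zero_smul, zero_smul] at this

/-- In dimension zero there are only tensors of type `(0, 0)`. -/
theorem mainB_zero {k a b : ℕ} {A : BTen a b k} (hA0 : A ≠ 0)
    {p : Matrix (Fin k) (Fin 0) ℝ} {q : Matrix (Fin 0) (Fin k) ℝ} (hpq : p * q = 1) :
    a = 0 ∧ b = 0 := by
  have hk : IsEmpty (Fin k) := by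
    refine ⟨fun i => ?_⟩
    have h1 : (p * q) i i = (1 : Matrix (Fin k) (Fin k) ℝ) i i := by rw [hpq]
    rw [Matrix.mul_apply, Matrix.one_apply_eq] at h1
    simp at h1
  constructor
  · by_contra ha
    apply hA0
    funext I
    exact hk.elim (I ⟨0, Nat.pos_of_ne_zero ha⟩)
  · by_contra hb
    apply hA0
    funext I J
    exact hk.elim (J ⟨0, Nat.pos_of_ne_zero hb⟩)

variable {n : ℕ} (K : AffineTriangulation n)

/-- tensors of type `(a, b)`, `a ≠ b`, invariant up to scalars -/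
theorem eulerChar_of_ne {k : ℕ} (τ : K.Γ →* Matrix (Fin k) (Fin k) ℝ) (hτ : SubDeg K.lin τ)
    {a b : ℕ} (hab : a ≠ b) (A : BTen a b k) (hA : BSym A) (hA0 : A ≠ 0)
    (h : ∀ γ, ∃ c : ℝ, bpull A (τ γ) (τ γ)⁻¹ = c • A) : K.eulerChar = 0 := by
  obtain ⟨ρ₀, p, q, hpq, hp, hq, hlim⟩ := hτ
  have hn : 0 < n := by
    rcases Nat.eq_zero_or_pos n with rfl | hn
    · obtain ⟨h1, h2⟩ := mainB_zero hA0 hpq
      exact absurd (h1.trans h2.symm) hab
    · exact hn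
  obtain ⟨κ, hκ, hfix⟩ := exists_normalised_bten hab τ A hA0 h
  refine eulerChar_eq_zero_of_noEul K hn κ hκ (scaleRep κ K.lin) (fun γ => rfl) (hlim κ ?_)
  exact noEul_of_ne hab (scaleRep κ ρ₀) (bpull A p q) (hA.bpull p q) (mainB_ne hA0 hpq)
    fun γ => mainB_fixes A (κ γ) (hκ γ).ne' (rep_det_ne_zero ρ₀ γ) (rep_det_ne_zero τ γ)
      (hp γ) (hq γ) (hfix γ)

/-- tensors of type `(a, a)` with `trace (A²) ≤ 0` -/
theorem eulerChar_of_trace {k : ℕ} (τ : K.Γ →* Matrix (Fin k) (Fin k) ℝ) (hτ : SubDeg K.lin τ)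
    {a : ℕ} (A : BTen a a k) (hA : BSym A) (hA0 : A ≠ 0)
    (h : ∀ γ, bpull A (τ γ) (τ γ)⁻¹ = A) (htr : Matrix.trace (A * A) ≤ 0) :
    K.eulerChar = 0 := by
  obtain ⟨ρ₀, p, q, hpq, hp, hq, hlim⟩ := hτ
  have hn : 0 < n := by
    rcases Nat.eq_zero_or_pos n with rfl | hn
    · exfalso
      obtain ⟨rfl, -⟩ := mainB_zero hA0 hpq
      obtain ⟨I, J, hIJ⟩ : ∃ I J, A I J ≠ 0 := by
        by_contra hc
        push Not at hc
        exact hA0 (by funext I J; exact hc I J)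
      have h1 : Matrix.trace (A * A) = A I J * A I J := by
        rw [Matrix.trace, Fintype.sum_subsingleton _ I, Matrix.diag_apply, Matrix.mul_apply,
          Fintype.sum_subsingleton _ I, Subsingleton.elim J I]
      rw [h1] at htr
      exact absurd htr (not_le.2 (mul_self_pos.2 hIJ))
    · exact hn
  refine eulerChar_eq_zero_of_noEul K hn 1 (fun γ => one_pos) (scaleRep 1 K.lin) (fun γ => rfl)
    (hlim 1 ?_)
  refine noEul_of_trace (scaleRep 1 ρ₀) (bpull A p q) (hA.bpull p q) (mainB_ne hA0 hpq)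
    (fun γ => mainB_fixes A 1 one_ne_zero (rep_det_ne_zero ρ₀ γ) (rep_det_ne_zero τ γ)
      (hp γ) (hq γ) ?_) ?_
  · left
    rw [one_smul]
    exact h γ
  · rw [trace_bpull A p q hpq]
    exact htr

end Pool.Agent.ChM
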