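import Pool.Agent.ChM.LimitRep
import Pool.Agent.ChM.JLemma
import Pool.Agent.ChM.Iter
import Pool.Agent.ChM.BTen
import Pool.Agent.ChM.BSymm

/-!
# Representations fixing a tensor on `V ⊕ V*` which is not symmetric

The core of the argument.
-/

namespace Pool.Agent.ChM

open Matrix Filter Topology Pool.Agent.ChP

/-- The set of positive definite matrices fixing `T` is good. -/
theorem good_SM {d n : ℕ} {T : Ten d (n + n)} (h0 : T ≠ 0) (v ξ : Fin n → ℝ)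
    (hne : tpoly T (Fin.append v ξ) ≠ tpoly T (Fin.append ξ v)) : Good (SM T) where
  pos P hP := hP.1
  one := ⟨Matrix.PosDef.one, by rw [bl_one, tact_one]⟩
  pw P hP s := by
    have h1 := cfc_mem_PSet (T := T) ⟨bl_posDef hP.1, hP.2⟩ s
    rw [cfc_bl_rpow hP.1] at h1
    refine ⟨?_, h1.2⟩
    have hs : Pᵀ = P := by
      have := hP.1.1
      rwa [Matrix.IsHermitian, conjTranspose_eq_transpose_of_trivial] at this
    obtain ⟨U, l, _, hU, h⟩ := exists_spec P hs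
    have hl := (posDef_iff_spec hU h).1 hP.1
    exact (posDef_iff_spec hU (cfc_conj_diagonal hU h _)).2 fun i => Real.rpow_pos_of_pos (hl i) s
  conj P hP Q hQ := by
    have hs : Pᵀ = P := by
      have := hP.1.1
      rwa [Matrix.IsHermitian, conjTranspose_eq_transpose_of_trivial] at this
    refine ⟨?_, ?_⟩
    · have hu : IsUnit P := hP.1.isUnit
      have h3 := hQ.1.mul_mul_conjTranspose_same (B := P)
        (Matrix.vecMul_injective_iff_isUnit.2 hu)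
      rwa [conjTranspose_eq_transpose_of_trivial, hs] at h3
    · rw [← bl_mul, ← bl_mul, ← tact_mul, ← tact_mul, hP.2, hQ.2, hP.2]
  tan P hP := jj_eq_zero T P (fun i => (hP i).1) (fun i => (hP i).2) v ξ hne

/-- The set `SM T` is preserved by `ρ γ` if `bl (ρ γ)` and `bl (ρ γ)ᵀ` fix `T` up to sign. -/
theorem conj_mem_SM {d n : ℕ} {T : Ten d (n + n)} (h0 : T ≠ 0) {P g : Matrix (Fin n) (Fin n) ℝ}
    (hP : P ∈ SM T) (hd : g.det ≠ 0) (hg : Fixes T (bl g)) (hg' : Fixes T (bl gᵀ)) :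
    g * P * gᵀ ∈ SM T := by
  have h1 : g * P * gᵀ ∈ {Q : Matrix (Fin n) (Fin n) ℝ | Q.PosDef} := by
    have hu : IsUnit g := (Matrix.isUnit_iff_isUnit_det g).2 (isUnit_iff_ne_zero.2 hd)
    have h3 := hP.1.mul_mul_conjTranspose_same (B := g)
      (Matrix.vecMul_injective_iff_isUnit.2 hu)
    rwa [conjTranspose_eq_transpose_of_trivial] at h3
  refine ⟨h1, ?_⟩
  have h2 : Fixes T (bl (g * P * gᵀ)) := by
    rw [← bl_mul, ← bl_mul]
    exact (hg.mul (Or.inl hP.2)).mul hg'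
  exact (mem_PSet_of_fixes h0 (bl_posDef h1) h2).2

theorem noEul_of_asym {a b n : ℕ} {Γ : Type} [Group Γ] (ρ : Γ →* Matrix (Fin n) (Fin n) ℝ)
    (A : BTen a b n) (hA : BSym A) (hA0 : A ≠ 0) (hfix : ∀ γ, Fixes (bten A) (bl (ρ γ)))
    (hasym : ∀ (g : ℕ → Matrix (Fin n) (Fin n) ℝ) (c : ℕ → ℝ) (A' : BTen a b n),
      (∀ m, 0 < (g m).det) → Tendsto (fun m => c m • bpull A (g m)⁻¹ (g m)) atTop (𝓝 A') →
      A' ≠ 0 → BSym A' → ∃ v ξ, bpoly A' v ξ ≠ bpoly A' ξ v) :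
    NoEul ρ := by
  refine noEul_of_fg ρ fun H ⟨S, hS⟩ => ?_
  have h0 : bten A ≠ 0 := by
    intro h
    exact hA0 (bten_injective (h.trans bten_zero.symm))
  obtain ⟨g, c, ρ', T', hg, hlim, hT, hT0, hf, hf'⟩ := exists_limit_rep_bl S hS
    (ρ.comp H.subtype) (bten A) h0 (fun γ => hfix γ)
  have h1 : ∀ m, c m • tact (bten A) (bl (g m)⁻¹) = bten (c m • bpull A (g m)⁻¹ (g m)) := by
    intro m
    rw [tact_bten_bl, bten_smul, Matrix.nonsing_inv_nonsing_inv _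
      (isUnit_iff_ne_zero.2 (hg m).ne')]
  simp only [h1] at hT
  obtain ⟨A', hA', hAlim⟩ := bten_tendsto hT
  have hsym : BSym A' := BSym.of_tendsto (fun m => (hA.bpull _ _).smul _) hAlim
  have hA'0 : A' ≠ 0 := by
    rintro rfl
    exact hT0 (hA'.symm.trans bten_zero)
  obtain ⟨v, ξ, hne⟩ := hasym g c A' hg hAlim hA'0 hsym
  rw [← tpoly_bten, ← tpoly_bten, hA'] at hne
  refine noEul_of_limit _ ρ' g hg hlim ?_
  exact noEul_of_good (good_SM hT0 v ξ hne) ρ' fun γ P hP =>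
    conj_mem_SM hT0 hP (rep_det_ne_zero ρ' γ) (hf γ) (hf' γ)

/-- tensors of type `(a, b)` with `a ≠ b` -/
theorem noEul_of_ne {a b n : ℕ} {Γ : Type} [Group Γ] (hab : a ≠ b)
    (ρ : Γ →* Matrix (Fin n) (Fin n) ℝ)
    (A : BTen a b n) (hA : BSym A) (hA0 : A ≠ 0) (hfix : ∀ γ, Fixes (bten A) (bl (ρ γ))) :
    NoEul ρ :=
  noEul_of_asym ρ A hA hA0 hfix fun _ _ _ _ _ h1 h2 => asym_of_ne hab h2 h1

/-- tensors of type `(a, a)` with `trace (A²) ≤ 0` -/
theorem noEul_of_trace {a n : ℕ} {Γ : Type} [Group Γ] (ρ : Γ →* Matrix (Fin n) (Fin n) ℝ)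
    (A : BTen a a n) (hA : BSym A) (hA0 : A ≠ 0) (hfix : ∀ γ, Fixes (bten A) (bl (ρ γ)))
    (htr : Matrix.trace (A * A) ≤ 0) : NoEul ρ := by
  refine noEul_of_asym ρ A hA hA0 hfix fun g c A' hg hlim h1 h2 => asym_of_trace h2 h1 ?_
  have h3 : Tendsto (fun m => Matrix.trace ((c m • bpull A (g m)⁻¹ (g m)) *
      (c m • bpull A (g m)⁻¹ (g m)))) atTop (𝓝 (Matrix.trace (A' * A'))) :=
    ((continuous_id.matrix_trace).tendsto _).comp (hlim.mul hlim)
  refine le_of_tendsto' h3 fun m => ?_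
  have hu : IsUnit (g m).det := isUnit_iff_ne_zero.2 (hg m).ne'
  rw [Matrix.smul_mul, Matrix.mul_smul, smul_smul, Matrix.trace_smul,
    trace_bpull A _ _ (Matrix.nonsing_inv_mul _ hu), smul_eq_mul]
  exact mul_nonpos_of_nonneg_of_nonpos (mul_self_nonneg _) htr

end Pool.Agent.ChM
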