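import Mathlib

/-!
# Complex matrices semi-commuting with a matrix and its transpose

Let `E = A₁ + i A₂` (a complex `ι × ι` matrix), `G` real and invertible.  The hypotheses say
`G E = c E G`, `Gᵀ E = conj c E Gᵀ`.  Conjugate transpose of the second relation:
`Eᴴ G = c G Eᴴ`.

`phase_comm`: `c ≠ 0`.  So `Eᴴ E G = c⁻¹ Eᴴ G E = c⁻¹ c G Eᴴ E = G Eᴴ E` and
`E Eᴴ G = c E G Eᴴ = G E Eᴴ`.  The imaginary part of `Eᴴ E` is `A₁ᵀ A₂ - A₂ᵀ A₁`, that of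
`E Eᴴ` is `A₂ A₁ᵀ - A₁ A₂ᵀ`.

`phase_root`: now `Eᴴ E` and `E Eᴴ` are real.  Let `M = E Eᵀ`.  Then `G M = c² M G`: the transpose
of `Gᵀ E = conj c E Gᵀ` is `Eᵀ G = conj c G Eᵀ`, and `c * conj c = 1`, so `G Eᵀ = c Eᵀ G`.
`M * conj M = E (Eᵀ conj E) Eᴴ = E conj (Eᴴ E) Eᴴ = E Eᴴ E Eᴴ = (E Eᴴ)²`, and `conj M * M` is its
complex conjugate, the same matrix as `E Eᴴ` is real; so `M` and `conj M` commute.  If `M` were
nilpotent, then so would be `M * conj M = (E Eᴴ)²`, hence the hermitian matrix `E Eᴴ` would be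
nilpotent, so zero, so `E = 0`.  So `M` is not nilpotent and has an eigenvalue `z ≠ 0`.
The set of non-zero eigenvalues of `M` is finite with at most `card ι` elements and stable under
multiplication by `c²` (`M v = z v` gives `M (G v) = c⁻² G M v`, so stable under `c⁻²`, which
suffices).  Among `z, c⁻² z, ..., c^(-2 card ι) z` two are equal: `c ^ (2 j) = 1` for some
`1 ≤ j ≤ card ι`, and `j` divides `(card ι)!`.
-/

namespace Pool.Agent.ChM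

open Matrix

variable {ι : Type} [Fintype ι] [DecidableEq ι]

private lemma PhaseAlg_norm {c : ℂ} (hc : c ≠ 0) : c.re ^ 2 + c.im ^ 2 ≠ 0 := by
  intro h
  apply hc
  have h1 : c.re = 0 := by nlinarith [sq_nonneg c.re, sq_nonneg c.im]
  have h2 : c.im = 0 := by nlinarith [sq_nonneg c.re, sq_nonneg c.im]
  exact Complex.ext h1 h2

theorem phase_comm (A₁ A₂ G : Matrix ι ι ℝ) (c : ℂ) (hc : c ≠ 0)
    (h1 : G * A₁ = c.re • (A₁ * G) - c.im • (A₂ * G))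
    (h2 : G * A₂ = c.im • (A₁ * G) + c.re • (A₂ * G))
    (h3 : Gᵀ * A₁ = c.re • (A₁ * Gᵀ) + c.im • (A₂ * Gᵀ))
    (h4 : Gᵀ * A₂ = -(c.im • (A₁ * Gᵀ)) + c.re • (A₂ * Gᵀ)) :
    G * (A₁ᵀ * A₂ - A₂ᵀ * A₁) = (A₁ᵀ * A₂ - A₂ᵀ * A₁) * G ∧
    G * (A₂ * A₁ᵀ - A₁ * A₂ᵀ) = (A₂ * A₁ᵀ - A₁ * A₂ᵀ) * G := by
  have hn := PhaseAlg_norm hc
  set a := c.re
  set b := c.im
  have P1 : A₁ᵀ * G = a • (G * A₁ᵀ) + b • (G * A₂ᵀ) := by
    have := congrArg Matrix.transpose h3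
    simpa [Matrix.transpose_mul] using this
  have P2 : A₂ᵀ * G = -(b • (G * A₁ᵀ)) + a • (G * A₂ᵀ) := by
    have := congrArg Matrix.transpose h4
    simpa [Matrix.transpose_mul] using this
  have Q1 : (a ^ 2 + b ^ 2) • (G * A₁ᵀ) = a • (A₁ᵀ * G) - b • (A₂ᵀ * G) := by
    rw [P1, P2]
    module
  have Q2 : (a ^ 2 + b ^ 2) • (G * A₂ᵀ) = b • (A₁ᵀ * G) + a • (A₂ᵀ * G) := by
    rw [P1, P2]
    module
  constructor
  · apply smul_right_injective _ hn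
    show (a ^ 2 + b ^ 2) • (G * (A₁ᵀ * A₂ - A₂ᵀ * A₁)) =
      (a ^ 2 + b ^ 2) • ((A₁ᵀ * A₂ - A₂ᵀ * A₁) * G)
    have e1 : (a ^ 2 + b ^ 2) • (G * (A₁ᵀ * A₂)) =
        (a • A₁ᵀ - b • A₂ᵀ) * (b • (A₁ * G) + a • (A₂ * G)) := by
      rw [← mul_assoc, ← smul_mul_assoc, Q1, ← h2, sub_mul, sub_mul, smul_mul_assoc,
        smul_mul_assoc, smul_mul_assoc, smul_mul_assoc, mul_assoc, mul_assoc]
    have e2 : (a ^ 2 + b ^ 2) • (G * (A₂ᵀ * A₁)) =
        (b • A₁ᵀ + a • A₂ᵀ) * (a • (A₁ * G) - b • (A₂ * G)) := by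
      rw [← mul_assoc, ← smul_mul_assoc, Q2, ← h1, add_mul, add_mul, smul_mul_assoc,
        smul_mul_assoc, smul_mul_assoc, smul_mul_assoc, mul_assoc, mul_assoc]
    rw [mul_sub, smul_sub, e1, e2]
    simp only [sub_mul, mul_add, add_mul, mul_sub, smul_mul_assoc, mul_smul_comm, mul_assoc]
    module
  · apply smul_right_injective _ hn
    show (a ^ 2 + b ^ 2) • (G * (A₂ * A₁ᵀ - A₁ * A₂ᵀ)) =
      (a ^ 2 + b ^ 2) • ((A₂ * A₁ᵀ - A₁ * A₂ᵀ) * G)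
    have e1 : (a ^ 2 + b ^ 2) • (G * (A₂ * A₁ᵀ)) =
        (b • A₁ + a • A₂) * (a • (A₁ᵀ * G) - b • (A₂ᵀ * G)) := by
      rw [← Q1, ← mul_assoc, h2, mul_smul_comm, add_mul, add_mul, smul_mul_assoc,
        smul_mul_assoc, smul_mul_assoc, smul_mul_assoc, mul_assoc, mul_assoc]
    have e2 : (a ^ 2 + b ^ 2) • (G * (A₁ * A₂ᵀ)) =
        (a • A₁ - b • A₂) * (b • (A₁ᵀ * G) + a • (A₂ᵀ * G)) := by
      rw [← Q2, ← mul_assoc, h1, mul_smul_comm, sub_mul, sub_mul, smul_mul_assoc,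
        smul_mul_assoc, smul_mul_assoc, smul_mul_assoc, mul_assoc, mul_assoc]
    rw [mul_sub, smul_sub, e1, e2]
    simp only [sub_mul, mul_add, add_mul, mul_sub, smul_mul_assoc, mul_smul_comm, mul_assoc]
    module

open scoped Matrix.Norms.L2Operator in
private lemma PhaseAlg_eig (M : Matrix ι ι ℂ) (hM : Mᴴ * M = M * Mᴴ) (h0 : M ≠ 0) :
    ∃ z : ℂ, z ≠ 0 ∧ z ∈ spectrum ℂ M := by
  have hn : IsStarNormal M := ⟨hM⟩
  have hnt : Nontrivial (Matrix ι ι ℂ) := ⟨⟨M, 0, h0⟩⟩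
  obtain ⟨z, hz, hzn⟩ := spectrum.exists_nnnorm_eq_spectralRadius M
  refine ⟨z, ?_, hz⟩
  rintro rfl
  rw [IsStarNormal.spectralRadius_eq_nnnorm M] at hzn
  have h1 : ‖M‖₊ = 0 := by
    have : ((‖(0 : ℂ)‖₊ : NNReal) : ENNReal) = ‖M‖₊ := hzn
    simpa using this.symm
  exact h0 (nnnorm_eq_zero.1 h1)

open scoped ComplexOrder in
private lemma PhaseAlg_zero (A : Matrix ι ι ℂ) (h : Aᴴ * A = 0) : A = 0 :=
  (Matrix.conjTranspose_mul_self_eq_zero).1 h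

open scoped ComplexOrder in
private lemma PhaseAlg_zero' (A : Matrix ι ι ℂ) (h : A * Aᴴ = 0) : A = 0 :=
  (Matrix.self_mul_conjTranspose_eq_zero).1 h

/-- a real matrix as a complex matrix -/
private noncomputable def PhaseAlg_cx (A : Matrix ι ι ℝ) : Matrix ι ι ℂ := A.map (algebraMap ℝ ℂ)

private lemma PhaseAlg_cx_mul (A B : Matrix ι ι ℝ) :
    PhaseAlg_cx (A * B) = PhaseAlg_cx A * PhaseAlg_cx B := by
  unfold PhaseAlg_cx
  exact Matrix.map_mul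

private lemma PhaseAlg_cx_add (A B : Matrix ι ι ℝ) :
    PhaseAlg_cx (A + B) = PhaseAlg_cx A + PhaseAlg_cx B := by
  ext i j
  simp [PhaseAlg_cx]

private lemma PhaseAlg_cx_sub (A B : Matrix ι ι ℝ) :
    PhaseAlg_cx (A - B) = PhaseAlg_cx A - PhaseAlg_cx B := by
  ext i j
  simp [PhaseAlg_cx]

private lemma PhaseAlg_cx_neg (A : Matrix ι ι ℝ) :
    PhaseAlg_cx (-A) = -PhaseAlg_cx A := by
  ext i j
  simp [PhaseAlg_cx]

private lemma PhaseAlg_cx_smul (r : ℝ) (A : Matrix ι ι ℝ) :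
    PhaseAlg_cx (r • A) = (r : ℂ) • PhaseAlg_cx A := by
  ext i j
  simp [PhaseAlg_cx]

private lemma PhaseAlg_cx_tr (A : Matrix ι ι ℝ) :
    PhaseAlg_cx Aᵀ = (PhaseAlg_cx A)ᵀ := by
  ext i j
  simp [PhaseAlg_cx]

private lemma PhaseAlg_cx_ct (A : Matrix ι ι ℝ) :
    (PhaseAlg_cx A)ᴴ = PhaseAlg_cx Aᵀ := by
  ext i j
  simp [PhaseAlg_cx, Matrix.conjTranspose_apply]

theorem phase_root (A₁ A₂ G : Matrix ι ι ℝ) (c : ℂ) (hc : ‖c‖ = 1) (h0 : A₁ ≠ 0 ∨ A₂ ≠ 0)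
    (hG : G.det ≠ 0)
    (h1 : G * A₁ = c.re • (A₁ * G) - c.im • (A₂ * G))
    (h2 : G * A₂ = c.im • (A₁ * G) + c.re • (A₂ * G))
    (h3 : Gᵀ * A₁ = c.re • (A₁ * Gᵀ) + c.im • (A₂ * Gᵀ))
    (h4 : Gᵀ * A₂ = -(c.im • (A₁ * Gᵀ)) + c.re • (A₂ * Gᵀ))
    (h5 : A₁ᵀ * A₂ = A₂ᵀ * A₁) (h6 : A₂ * A₁ᵀ = A₁ * A₂ᵀ) :
    c ^ (2 * (Fintype.card ι).factorial) = 1 := by
  classical
  have hc0 : c ≠ 0 := by
    intro h
    rw [h, norm_zero] at hc
    exact zero_ne_one hc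
  set E : Matrix ι ι ℂ := PhaseAlg_cx A₁ + Complex.I • PhaseAlg_cx A₂ with hE
  set g : Matrix ι ι ℂ := PhaseAlg_cx G with hg
  have hcc : c * (starRingEnd ℂ) c = 1 := by
    rw [Complex.mul_conj, Complex.normSq_eq_norm_sq, hc]
    norm_num
  have hre : c = (c.re : ℂ) + c.im * Complex.I := (Complex.re_add_im c).symm
  have hre' : (starRingEnd ℂ) c = (c.re : ℂ) - c.im * Complex.I := by
    apply Complex.ext <;> simp
  have hI : Complex.I * Complex.I = -1 := Complex.I_mul_I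
  have R1 : g * E = c • (E * g) := by
    have e1 := congrArg PhaseAlg_cx h1
    have e2 := congrArg PhaseAlg_cx h2
    rw [PhaseAlg_cx_mul, PhaseAlg_cx_sub, PhaseAlg_cx_smul, PhaseAlg_cx_smul, PhaseAlg_cx_mul,
      PhaseAlg_cx_mul] at e1
    rw [PhaseAlg_cx_mul, PhaseAlg_cx_add, PhaseAlg_cx_smul, PhaseAlg_cx_smul, PhaseAlg_cx_mul,
      PhaseAlg_cx_mul] at e2
    rw [hE, mul_add, mul_smul_comm, e1, e2, add_mul, smul_mul_assoc]
    nth_rewrite 5 [hre]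
    rw [← sub_eq_zero]
    have : (c.re : ℂ) • (PhaseAlg_cx A₁ * g) - (c.im : ℂ) • (PhaseAlg_cx A₂ * g) +
        Complex.I • ((c.im : ℂ) • (PhaseAlg_cx A₁ * g) + (c.re : ℂ) • (PhaseAlg_cx A₂ * g)) -
        ((c.re : ℂ) + c.im * Complex.I) • (PhaseAlg_cx A₁ * g + Complex.I • (PhaseAlg_cx A₂ * g)) =
        (-(c.im : ℂ) * (1 + Complex.I * Complex.I)) • (PhaseAlg_cx A₂ * g) := by module
    rw [this, hI]
    simp
  have R3 : gᵀ * E = (starRingEnd ℂ) c • (E * gᵀ) := by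
    have e1 := congrArg PhaseAlg_cx h3
    have e2 := congrArg PhaseAlg_cx h4
    rw [PhaseAlg_cx_mul, PhaseAlg_cx_add, PhaseAlg_cx_smul, PhaseAlg_cx_smul, PhaseAlg_cx_mul,
      PhaseAlg_cx_mul, PhaseAlg_cx_tr] at e1
    rw [PhaseAlg_cx_mul, PhaseAlg_cx_add, PhaseAlg_cx_neg, PhaseAlg_cx_smul, PhaseAlg_cx_smul,
      PhaseAlg_cx_mul, PhaseAlg_cx_mul, PhaseAlg_cx_tr] at e2
    rw [hE, mul_add, mul_smul_comm, e1, e2, add_mul, smul_mul_assoc, hre']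
    rw [← sub_eq_zero]
    have : (c.re : ℂ) • (PhaseAlg_cx A₁ * gᵀ) + (c.im : ℂ) • (PhaseAlg_cx A₂ * gᵀ) +
        Complex.I • (-((c.im : ℂ) • (PhaseAlg_cx A₁ * gᵀ)) + (c.re : ℂ) • (PhaseAlg_cx A₂ * gᵀ)) -
        ((c.re : ℂ) - c.im * Complex.I) • (PhaseAlg_cx A₁ * gᵀ + Complex.I • (PhaseAlg_cx A₂ * gᵀ)) =
        ((c.im : ℂ) * (1 + Complex.I * Complex.I)) • (PhaseAlg_cx A₂ * gᵀ) := by module
    rw [this, hI]
    simp
  -- the matrix M
  obtain ⟨M, hMdef⟩ : ∃ M : Matrix ι ι ℂ, M = E * Eᵀ := ⟨_, rfl⟩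
  have R3' : g * Eᵀ = c • (Eᵀ * g) := by
    have e := congrArg Matrix.transpose R3
    rw [Matrix.transpose_mul, Matrix.transpose_transpose, Matrix.transpose_smul,
      Matrix.transpose_mul, Matrix.transpose_transpose] at e
    rw [e, smul_smul, hcc, one_smul]
  have hgM : g * M = (c * c) • (M * g) := by
    rw [hMdef, ← mul_assoc, R1, smul_mul_assoc, mul_assoc, R3', mul_smul_comm, smul_smul, mul_assoc]
  have hEH : Eᴴ = PhaseAlg_cx A₁ᵀ - Complex.I • PhaseAlg_cx A₂ᵀ := by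
    rw [hE, Matrix.conjTranspose_add, Matrix.conjTranspose_smul, PhaseAlg_cx_ct, PhaseAlg_cx_ct]
    rw [Complex.star_def, Complex.conj_I, neg_smul, sub_eq_add_neg]
  have real1 : Eᴴ * E = PhaseAlg_cx (A₁ᵀ * A₁ + A₂ᵀ * A₂) := by
    rw [hEH, hE, PhaseAlg_cx_add, PhaseAlg_cx_mul, PhaseAlg_cx_mul]
    have e5 := congrArg PhaseAlg_cx h5
    rw [PhaseAlg_cx_mul, PhaseAlg_cx_mul] at e5
    simp only [sub_mul, mul_add, smul_mul_assoc, mul_smul_comm, e5]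
    rw [← sub_eq_zero]
    have e : PhaseAlg_cx A₁ᵀ * PhaseAlg_cx A₁ - Complex.I • (PhaseAlg_cx A₂ᵀ * PhaseAlg_cx A₁) +
        (Complex.I • (PhaseAlg_cx A₂ᵀ * PhaseAlg_cx A₁) -
          Complex.I • (Complex.I • (PhaseAlg_cx A₂ᵀ * PhaseAlg_cx A₂))) -
        (PhaseAlg_cx A₁ᵀ * PhaseAlg_cx A₁ + PhaseAlg_cx A₂ᵀ * PhaseAlg_cx A₂) =
        (-(1 + Complex.I * Complex.I)) • (PhaseAlg_cx A₂ᵀ * PhaseAlg_cx A₂) := by module
    rw [hI] at e
    simp only [add_neg_cancel, neg_zero, zero_smul] at e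
    rw [← e]
    module
  have real2 : E * Eᴴ = PhaseAlg_cx (A₁ * A₁ᵀ + A₂ * A₂ᵀ) := by
    rw [hEH, hE, PhaseAlg_cx_add, PhaseAlg_cx_mul, PhaseAlg_cx_mul]
    have e6 := congrArg PhaseAlg_cx h6
    rw [PhaseAlg_cx_mul, PhaseAlg_cx_mul] at e6
    simp only [mul_sub, add_mul, smul_mul_assoc, mul_smul_comm, e6]
    rw [← sub_eq_zero]
    have e : PhaseAlg_cx A₁ * PhaseAlg_cx A₁ᵀ + Complex.I • (PhaseAlg_cx A₁ * PhaseAlg_cx A₂ᵀ) -
        (Complex.I • (PhaseAlg_cx A₁ * PhaseAlg_cx A₂ᵀ) +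
          Complex.I • (Complex.I • (PhaseAlg_cx A₂ * PhaseAlg_cx A₂ᵀ))) -
        (PhaseAlg_cx A₁ * PhaseAlg_cx A₁ᵀ + PhaseAlg_cx A₂ * PhaseAlg_cx A₂ᵀ) =
        (-(1 + Complex.I * Complex.I)) • (PhaseAlg_cx A₂ * PhaseAlg_cx A₂ᵀ) := by module
    rw [hI] at e
    simp only [add_neg_cancel, neg_zero, zero_smul] at e
    rw [← e]
    module
  have cj : ∀ A : Matrix ι ι ℝ, ((PhaseAlg_cx A)ᵀ)ᴴ = PhaseAlg_cx A := by
    intro A
    rw [← PhaseAlg_cx_tr, PhaseAlg_cx_ct, Matrix.transpose_transpose]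
  -- E^T conj(E) = E^H E and conj E E^T = E E^H
  have t1 : Eᵀ * (Eᵀ)ᴴ = Eᴴ * E := by
    have e : ((Eᴴ * E)ᵀ)ᴴ = Eᴴ * E := by rw [real1, cj]
    rw [Matrix.transpose_mul, Matrix.conjTranspose_mul] at e
    have e2 : ((Eᴴ)ᵀ)ᴴ = Eᵀ := by
      ext i j
      simp [Matrix.conjTranspose_apply]
    rw [e2] at e
    exact e
  have t2 : (Eᵀ)ᴴ * Eᵀ = E * Eᴴ := by
    have e : ((E * Eᴴ)ᵀ)ᴴ = E * Eᴴ := by rw [real2, cj]
    rw [Matrix.transpose_mul, Matrix.conjTranspose_mul] at e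
    have e2 : ((Eᴴ)ᵀ)ᴴ = Eᵀ := by
      ext i j
      simp [Matrix.conjTranspose_apply]
    rw [e2] at e
    exact e
  have hMH : Mᴴ = (Eᵀ)ᴴ * Eᴴ := by rw [hMdef, Matrix.conjTranspose_mul]
  have k1 : M * Mᴴ = (E * Eᴴ) * (E * Eᴴ) := by
    calc M * Mᴴ = E * (Eᵀ * (Eᵀ)ᴴ) * Eᴴ := by rw [hMH, hMdef]; simp only [mul_assoc]
      _ = (E * Eᴴ) * (E * Eᴴ) := by rw [t1]; simp only [mul_assoc]
  have hMsym : Mᵀ = M := by
    rw [hMdef, Matrix.transpose_mul, Matrix.transpose_transpose]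
  have k2 : Mᴴ * M = (E * Eᴴ) * (E * Eᴴ) := by
    have e3 : Mᴴ * M = ((M * Mᴴ)ᵀ)ᴴ := by
      rw [Matrix.transpose_mul, Matrix.conjTranspose_mul, hMsym]
      have e4 : ((Mᴴ)ᵀ)ᴴ = Mᵀ := by
        ext i j
        simp [Matrix.conjTranspose_apply]
      rw [e4, hMsym]
    rw [e3, k1, real2, ← PhaseAlg_cx_mul, cj]
  have hnorm : Mᴴ * M = M * Mᴴ := by rw [k1, k2]
  have hE0 : E ≠ 0 := by
    intro h
    have key : ∀ i j, (A₁ i j : ℂ) + Complex.I * A₂ i j = 0 := by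
      intro i j
      have := congrFun (congrFun h i) j
      simpa [hE, PhaseAlg_cx] using this
    have hh : A₁ = 0 ∧ A₂ = 0 := by
      constructor
      · ext i j
        have := congrArg Complex.re (key i j)
        simpa using this
      · ext i j
        have := congrArg Complex.im (key i j)
        simpa using this
    rcases h0 with h0 | h0
    · exact h0 hh.1
    · exact h0 hh.2
  have hM0 : M ≠ 0 := by
    intro h
    rw [h, zero_mul] at k1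
    have e1 : (E * Eᴴ)ᴴ * (E * Eᴴ) = 0 := by
      rw [Matrix.conjTranspose_mul, Matrix.conjTranspose_conjTranspose]
      exact k1.symm
    exact hE0 (PhaseAlg_zero' _ (PhaseAlg_zero _ e1))
  obtain ⟨z, hz0, hz⟩ := PhaseAlg_eig M hnorm hM0
  -- invariance of the spectrum
  have hgdet : IsUnit g := by
    rw [Matrix.isUnit_iff_isUnit_det]
    have : g.det = ((G.det : ℝ) : ℂ) := by
      rw [hg]
      unfold PhaseAlg_cx
      rw [← RingHom.mapMatrix_apply, ← RingHom.map_det]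
      rfl
    rw [this, isUnit_iff_ne_zero]
    exact_mod_cast hG
  obtain ⟨u, hu⟩ := hgdet
  have hcc0 : c * c ≠ 0 := mul_ne_zero hc0 hc0
  have hconj : (u : Matrix ι ι ℂ) * M * (↑u⁻¹ : Matrix ι ι ℂ) = (Units.mk0 (c * c) hcc0) • M := by
    rw [hu, hgM, smul_mul_assoc, mul_assoc, ← hu, Units.mul_inv, mul_one]
    rfl
  have hinv : ∀ w, w ∈ spectrum ℂ M → (c * c) * w ∈ spectrum ℂ M := by
    intro w hw
    have e1 : spectrum ℂ ((Units.mk0 (c * c) hcc0) • M) = spectrum ℂ M := by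
      rw [← hconj]
      exact spectrum.units_conjugate
    rw [spectrum.unit_smul_eq_smul] at e1
    rw [← e1]
    exact ⟨w, hw, rfl⟩
  have hpow : ∀ k : ℕ, (c * c) ^ k * z ∈ spectrum ℂ M := by
    intro k
    induction k with
    | zero => simpa using hz
    | succ k ih =>
      have := hinv _ ih
      rw [← mul_assoc, ← pow_succ'] at this
      exact this
  have hmem : ∀ k : ℕ, (c * c) ^ k * z ∈ M.charpoly.roots.toFinset := by
    intro k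
    rw [Multiset.mem_toFinset, Polynomial.mem_roots (Matrix.charpoly_monic M).ne_zero]
    exact (Matrix.mem_spectrum_iff_isRoot_charpoly).1 (hpow k)
  have hcard : M.charpoly.roots.toFinset.card ≤ Fintype.card ι := by
    calc M.charpoly.roots.toFinset.card ≤ Multiset.card M.charpoly.roots :=
          Multiset.toFinset_card_le _
      _ ≤ M.charpoly.natDegree := Polynomial.card_roots' _
      _ = Fintype.card ι := Matrix.charpoly_natDegree_eq_dim M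
  obtain ⟨i, hi, j, hj, hij, he⟩ := Finset.exists_ne_map_eq_of_card_lt_of_maps_to
    (s := Finset.range (Fintype.card ι + 1)) (t := M.charpoly.roots.toFinset)
    (f := fun k => (c * c) ^ k * z) (by rw [Finset.card_range]; omega) (fun k _ => hmem k)
  have hpw : ∀ i j : ℕ, i < j → j ≤ Fintype.card ι → (c * c) ^ i * z = (c * c) ^ j * z →
      c ^ (2 * (Fintype.card ι).factorial) = 1 := by
    intro i j hij hj he
    have e1 : (c * c) ^ i = (c * c) ^ j := mul_right_cancel₀ hz0 he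
    have e2 : (c * c) ^ (j - i) = 1 := by
      have e3 : (c * c) ^ i * (c * c) ^ (j - i) = (c * c) ^ i * 1 := by
        rw [← pow_add, Nat.add_sub_cancel' hij.le, mul_one, e1]
      exact mul_left_cancel₀ (pow_ne_zero _ hcc0) e3
    obtain ⟨k, hk⟩ : (j - i) ∣ (Fintype.card ι).factorial :=
      Nat.dvd_factorial (by omega) (by omega)
    rw [pow_mul, pow_two, hk, pow_mul, e2, one_pow]
  rw [Finset.mem_range] at hi hj
  rcases lt_or_gt_of_ne hij with h | h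
  · exact hpw i j h (by omega) he
  · exact hpw j i h (by omega) he.symm

end Pool.Agent.ChM
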