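import Pool.Agent.ChM.Central
import Pool.Agent.ChM.LemmaZ
import Pool.Agent.ChM.LimitRepCx
import Pool.Agent.ChM.PhaseAlg
import Pool.Agent.ChM.NoEulBTen

/-!
# Representations acting on a tensor of type `(a, b)` by multipliers

`noEul_of_modulus`: a real tensor with multipliers `c γ`, `c γ₀ ^ 2 ≠ 1` for some `γ₀`.
`noEul_of_phase`: a complex tensor of type `(a, a)` with multipliers of absolute value `1` such that
the multiplier of some `γ₀` does not have bounded order.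
-/

namespace Pool.Agent.ChM

open Matrix MvPolynomial Filter Topology Pool.Agent.ChP

/-! ### The mean of the determinant -/

theorem jj_eq_zero_inf {d n : ℕ} (T : Ten d (n + n)) (Y : Fin n → Matrix (Fin n) (Fin n) ℝ)
    (hY : ∀ i, (Y i)ᵀ = Y i) (hT : ∀ i, dact T (bd (Y i) (-Y i)) = 0) (v ξ : Fin n → ℝ)
    (hne : tpoly T (Fin.append v ξ) ≠ tpoly T (Fin.append ξ v)) : JJ Y = 0 := by
  by_contra hJ
  obtain ⟨R, hR⟩ : ∃ R : MvPolynomial (Fin (n + n)) ℂ, R = tz T zp - tz T zm := ⟨_, rfl⟩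
  have hz : ∀ z : Fin (n + n) → MvPolynomial (Fin (n + n)) ℂ, tz (0 : Ten d (n + n)) z = 0 := by
    intro z
    unfold tz
    refine Finset.sum_eq_zero fun I _ => ?_
    simp
  have hrot : ∀ i, rot (Y i) R = 0 := by
    intro i
    rw [hR, map_sub, rot_tz_zp, rot_tz_zm, hT i, hz, hz]
    simp
  have hrot2 : ∀ i, rot (Y i) (R * R) = 0 := by
    intro i
    rw [Derivation.leibniz, hrot i]
    simp
  have hhom : (R * R).IsHomogeneous (d + d) := by
    have h1 : R.IsHomogeneous d := by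
      rw [hR]
      exact (isHomogeneous_qp T).sub (isHomogeneous_qm T)
    exact h1.mul h1
  have hres : res R = 0 := by
    rw [hR, map_sub, res_qp, sub_self]
  have h1 := gE_res Y hY (d + d) (R * R) hhom hrot2
  have hres2 : res (R * R) = 0 := by rw [map_mul, hres, zero_mul]
  rw [hres2, zero_mul, map_zero, gE_dl] at h1
  have h2 : gE (n + n) (R * R) = 0 := by
    rcases mul_eq_zero.1 h1.symm with h3 | h3
    · exact h3
    · exact absurd (by exact_mod_cast h3) hJ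
  have h3 : R = 0 := by
    refine eq_zero_of_gE_sq R (fun x => ?_) h2
    rw [hR, map_sub, eval_qm]
    simp
  exact qp_ne T v ξ hne (by rw [← sub_eq_zero, ← hR, h3])

/-! ### The good set -/

/-- The positive definite matrices `P` such that `bl P` multiplies `T` by a scalar. -/
def SMC {d n : ℕ} (T : Ten d (n + n)) : Set (Matrix (Fin n) (Fin n) ℝ) :=
  {P | P.PosDef ∧ ∃ c : ℝ, tact T (bl P) = c • T}

private theorem mult_symm {N : ℕ} {P : Matrix (Fin N) (Fin N) ℝ} (hP : P.PosDef) : Pᵀ = P := by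
  have := hP.1
  rwa [Matrix.IsHermitian, conjTranspose_eq_transpose_of_trivial] at this

private theorem mult_prod {d N : ℕ} {T : Ten d N} {U : Matrix (Fin N) (Fin N) ℝ}
    {l : Fin N → ℝ} (hU' : Uᵀ * U = 1) {c : ℝ} (h : tact T (U * diagonal l * Uᵀ) = c • T)
    {I : Fin d → Fin N} (hI : tact T U I ≠ 0) : ∏ k, l (I k) = c := by
  have h1 : tact (tact T (U * diagonal l * Uᵀ)) U = tact (tact T U) (diagonal l) := by
    rw [tact_mul, tact_mul, mul_assoc, hU', mul_one]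
  rw [h, tact_smul] at h1
  have h2 := congrFun h1 I
  rw [tact_diagonal] at h2
  simp only [Pi.smul_apply, smul_eq_mul] at h2
  exact (mul_right_cancel₀ hI h2).symm

private theorem mult_smul {d N : ℕ} {T : Ten d N} {U : Matrix (Fin N) (Fin N) ℝ}
    {m : Fin N → ℝ} {c : ℝ} (hU : U * Uᵀ = 1) (h : ∀ I, tact T U I ≠ 0 → ∏ k, m (I k) = c) :
    tact T (U * diagonal m * Uᵀ) = c • T := by
  have h1 : tact (tact T U) (diagonal m) = c • tact T U := by
    funext I
    rw [tact_diagonal, Pi.smul_apply, smul_eq_mul]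
    by_cases hI : tact T U I = 0
    · rw [hI, mul_zero, mul_zero]
    · rw [h I hI]
  rw [← tact_mul, ← tact_mul, h1, tact_smul, tact_mul, hU, tact_one]

private theorem mult_rpow {d N : ℕ} {T : Ten d N} {G : Matrix (Fin N) (Fin N) ℝ}
    (hG : G.PosDef) {c : ℝ} (h : tact T G = c • T) (s : ℝ) :
    tact T (cfc (fun x : ℝ => x ^ s) G) = (c ^ s) • T := by
  obtain ⟨U, l, hU1, hU, hGe⟩ := exists_spec G (mult_symm hG)
  have hl := (posDef_iff_spec hU hGe).1 hG
  rw [cfc_conj_diagonal hU hGe]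
  apply mult_smul hU1
  intro I hI
  rw [Real.finsetProd_rpow _ _ (fun k _ => (hl (I k)).le), mult_prod hU (by rw [← hGe, h]) hI]

theorem good_SMC {d n : ℕ} {T : Ten d (n + n)} (h0 : T ≠ 0) (v ξ : Fin n → ℝ)
    (hne : tpoly T (Fin.append v ξ) ≠ tpoly T (Fin.append ξ v)) : Good (SMC T) where
  pos P hP := hP.1
  one := ⟨Matrix.PosDef.one, 1, by rw [bl_one, tact_one, one_smul]⟩
  pw P hP s := by
    obtain ⟨hP1, c, hc⟩ := hP
    have h1 := mult_rpow (bl_posDef hP1) hc s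
    rw [cfc_bl_rpow hP1] at h1
    refine ⟨?_, _, h1⟩
    obtain ⟨U, l, _, hU, h⟩ := exists_spec P (mult_symm hP1)
    have hl := (posDef_iff_spec hU h).1 hP1
    exact (posDef_iff_spec hU (cfc_conj_diagonal hU h _)).2 fun i => Real.rpow_pos_of_pos (hl i) s
  conj P hP Q hQ := by
    obtain ⟨hP1, c, hc⟩ := hP
    obtain ⟨hQ1, c', hc'⟩ := hQ
    refine ⟨?_, c * (c' * c), ?_⟩
    · have hu : IsUnit P := hP1.isUnit
      have h3 := hQ1.mul_mul_conjTranspose_same (B := P)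
        (Matrix.vecMul_injective_iff_isUnit.2 hu)
      rwa [conjTranspose_eq_transpose_of_trivial, mult_symm hP1] at h3
    · rw [← bl_mul, ← bl_mul, ← tact_mul, ← tact_mul, hc, tact_smul, tact_smul, hc', tact_smul,
        hc, smul_smul, smul_smul, mul_assoc]
  tan P hP := by
    have h1 : ∀ i, ∃ μ : ℝ, dact T (bd (lg (P i)) (-lg (P i))) = μ • T := by
      intro i
      obtain ⟨hP1, c, hc⟩ := hP i
      have h2 := (dact_lg h0 (bl_posDef hP1) hc).2
      rw [lg_bl hP1] at h2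
      exact ⟨_, h2⟩
    choose μ hμ using h1
    have hsym : ∀ i, (lg (P i))ᵀ = lg (P i) := fun i => lg_transpose (hP i).1
    obtain ⟨Z, s, hZ, hcomm, hz⟩ := exists_central T h0 (fun i => lg (P i)) hsym μ hμ
    rw [← jj_sub_central (fun i => lg (P i)) hsym Z hZ hcomm s]
    refine jj_eq_zero_inf T _ (fun i => ?_) hz v ξ hne
    rw [Matrix.transpose_sub, Matrix.transpose_smul, hsym, hZ]

theorem conj_mem_SMC {d n : ℕ} {T : Ten d (n + n)} {P g : Matrix (Fin n) (Fin n) ℝ}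
    (hP : P ∈ SMC T) (hd : g.det ≠ 0) {c c' : ℝ} (hg : tact T (bl g) = c • T)
    (hg' : tact T (bl gᵀ) = c' • T) : g * P * gᵀ ∈ SMC T := by
  obtain ⟨hP1, c₁, hc₁⟩ := hP
  refine ⟨?_, c * (c₁ * c'), ?_⟩
  · have hu : IsUnit g := (Matrix.isUnit_iff_isUnit_det g).2 (isUnit_iff_ne_zero.2 hd)
    have h3 := hP1.mul_mul_conjTranspose_same (B := g)
      (Matrix.vecMul_injective_iff_isUnit.2 hu)
    rwa [conjTranspose_eq_transpose_of_trivial] at h3
  · rw [← bl_mul, ← bl_mul, ← tact_mul, ← tact_mul, hg, tact_smul, tact_smul, hc₁, tact_smul,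
      hg', smul_smul, smul_smul, mul_assoc]

/-! ### Finitely generated subgroups containing a given element -/

theorem noEul_of_le {n : ℕ} {Γ : Type} [Group Γ] {ρ : Γ →* Matrix (Fin n) (Fin n) ℝ}
    {H H' : Subgroup Γ} (hle : H ≤ H') (h : NoEul (ρ.comp H'.subtype)) :
    NoEul (ρ.comp H.subtype) := by
  intro ι _ t m hW
  exact h ι (fun k i => Subgroup.inclusion hle (t k i)) m (by
    intro φ hφ
    exact hW (fun y => φ (fun i => Subgroup.inclusion hle (y i))) (by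
      intro γ y
      exact hφ (Subgroup.inclusion hle γ) (fun i => Subgroup.inclusion hle (y i))))

theorem noEul_of_fg_mem {n : ℕ} {Γ : Type} [Group Γ] (ρ : Γ →* Matrix (Fin n) (Fin n) ℝ)
    (γ₀ : Γ) (h : ∀ H : Subgroup Γ, (∃ S : Finset H, Subgroup.closure (S : Set H) = ⊤) →
      γ₀ ∈ H → NoEul (ρ.comp H.subtype)) : NoEul ρ := by
  classical
  refine noEul_of_fg ρ fun H ⟨S, hS⟩ => ?_
  obtain ⟨S', hS'⟩ : ∃ S' : Finset Γ, S' = insert γ₀ (S.image (fun x : H => (x : Γ))) := ⟨_, rfl⟩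
  have hle : H ≤ Subgroup.closure (S' : Set Γ) := by
    have h1 : H = Subgroup.map H.subtype (Subgroup.closure (S : Set H)) := by
      rw [hS, ← MonoidHom.range_eq_map, Subgroup.range_subtype]
    rw [h1, MonoidHom.map_closure]
    apply Subgroup.closure_mono
    rintro _ ⟨x, hx, rfl⟩
    rw [hS']
    exact Finset.mem_coe.2 (Finset.mem_insert_of_mem (Finset.mem_image_of_mem _ hx))
  refine noEul_of_le hle (h _ ?_ ?_)
  · refine ⟨S'.preimage (Subtype.val : Subgroup.closure (S' : Set Γ) → Γ)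
      (Subtype.val_injective.injOn), ?_⟩
    rw [Finset.coe_preimage]
    exact Subgroup.closure_closure_coe_preimage
  · apply Subgroup.subset_closure
    rw [hS']
    exact Finset.mem_coe.2 (Finset.mem_insert_self _ _)

/-! ### Real tensors with multipliers -/

private theorem mult_tact_zero {d N : ℕ} (g : Matrix (Fin N) (Fin N) ℝ) :
    tact (0 : Ten d N) g = 0 := by
  funext I
  simp [tact]

theorem noEul_of_modulus {a b n : ℕ} {Γ : Type} [Group Γ] (ρ : Γ →* Matrix (Fin n) (Fin n) ℝ)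
    (A : BTen a b n) (hA : BSym A) (hA0 : A ≠ 0) (c : Γ → ℝ)
    (h : ∀ γ, bpull A (ρ γ) (ρ γ)⁻¹ = c γ • A) (γ₀ : Γ) (hγ : c γ₀ ^ 2 ≠ 1) : NoEul ρ := by
  refine noEul_of_fg_mem ρ γ₀ fun H ⟨S, hS⟩ hmem => ?_
  have h0 : bten A ≠ 0 := by
    intro h
    exact hA0 (bten_injective (h.trans bten_zero.symm))
  have hrel : ∀ γ : H, CxRel (bten A) 0 (bl ((ρ.comp H.subtype) γ)) ((c γ : ℝ) : ℂ) := by
    intro γ
    refine ⟨?_, ?_⟩
    · rw [tact_bten_bl]
      show bten (bpull A (ρ γ) (ρ γ)⁻¹) = _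
      rw [h, bten_smul, Complex.ofReal_re, Complex.ofReal_im, smul_zero, sub_zero]
    · rw [mult_tact_zero, Complex.ofReal_im, zero_smul, smul_zero, add_zero]
  obtain ⟨g, e, ρ', T₁, T₂, hg, hlim, hT1, hT2, hT0, hr, hr'⟩ := exists_limit_rep_cx S hS
    (ρ.comp H.subtype) (bten A) 0 (Or.inl h0) (fun γ => ((c γ : ℝ) : ℂ)) hrel
  have hT2z : T₂ = 0 := by
    refine tendsto_nhds_unique hT2 ?_
    have : (fun m => e m • tact (0 : Ten (a + b) (n + n)) (bl (g m)⁻¹)) = fun _ => 0 := by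
      funext m
      rw [mult_tact_zero, smul_zero]
    rw [this]
    exact tendsto_const_nhds
  have hT1z : T₁ ≠ 0 := by
    rcases hT0 with h1 | h1
    · exact h1
    · exact absurd hT2z h1
  have h1 : ∀ m, e m • tact (bten A) (bl (g m)⁻¹) = bten (e m • bpull A (g m)⁻¹ (g m)) := by
    intro m
    rw [tact_bten_bl, bten_smul, Matrix.nonsing_inv_nonsing_inv _
      (isUnit_iff_ne_zero.2 (hg m).ne')]
  simp only [h1] at hT1
  obtain ⟨A', hA', hAlim⟩ := bten_tendsto hT1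
  have hsym : BSym A' := BSym.of_tendsto (fun m => (hA.bpull _ _).smul _) hAlim
  have hA'0 : A' ≠ 0 := by
    rintro rfl
    exact hT1z (hA'.symm.trans bten_zero)
  have hf : ∀ γ : H, tact T₁ (bl (ρ' γ)) = c γ • T₁ := by
    intro γ
    have := (hr γ).1
    rwa [Complex.ofReal_re, Complex.ofReal_im, zero_smul, sub_zero] at this
  have hf' : ∀ γ : H, tact T₁ (bl (ρ' γ)ᵀ) = c γ • T₁ := by
    intro γ
    have := (hr' γ).1
    rwa [Complex.conj_ofReal, Complex.ofReal_re, Complex.ofReal_im, zero_smul, sub_zero] at this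
  refine noEul_of_limit _ ρ' g hg hlim ?_
  -- asymmetry
  obtain ⟨v, ξ, hne⟩ : ∃ v ξ : Fin n → ℝ, bpoly A' v ξ ≠ bpoly A' ξ v := by
    by_contra hcon
    push Not at hcon
    set G : Matrix (Fin n) (Fin n) ℝ := ρ' ⟨γ₀, hmem⟩ with hG
    have hGu : IsUnit G.det := isUnit_iff_ne_zero.2 (rep_det_ne_zero ρ' _)
    set P : Matrix (Fin n) (Fin n) ℝ := G * Gᵀ with hP
    have hPT : Pᵀ = P := by rw [hP, Matrix.transpose_mul, Matrix.transpose_transpose]
    have hPu : IsUnit P.det := by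
      rw [hP, Matrix.det_mul, Matrix.det_transpose]
      exact hGu.mul hGu
    have hPi : (P⁻¹)ᵀ = P⁻¹ := by rw [Matrix.transpose_nonsing_inv, hPT]
    have hmul : tact T₁ (bl P) = (c γ₀ ^ 2) • T₁ := by
      rw [hP, ← bl_mul, ← tact_mul, hf, tact_smul, hf', smul_smul]
      show (c γ₀ * c γ₀) • T₁ = _
      rw [sq]
    have hpull : bpull A' P P⁻¹ = (c γ₀ ^ 2) • A' := by
      apply bten_injective
      rw [← tact_bten_bl, hA', hmul, bten_smul, hA']
    have hval : ∀ v ξ, bpoly A' (P *ᵥ v) (P⁻¹ *ᵥ ξ) = c γ₀ ^ 2 * bpoly A' v ξ := by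
      intro v ξ
      have h2 := bpoly_bpull A' P P⁻¹ v ξ
      rw [hpull, bpoly_smul, hPi] at h2
      exact h2.symm
    have hzero : ∀ v ξ, bpoly A' v ξ = 0 := by
      intro v ξ
      have h2 : bpoly A' (P⁻¹ *ᵥ ξ) (P *ᵥ v) = c γ₀ ^ 2 * bpoly A' ξ v := by
        rw [← hcon, hval, hcon]
      have h3 := hval (P⁻¹ *ᵥ ξ) (P *ᵥ v)
      rw [Matrix.mulVec_mulVec, Matrix.mulVec_mulVec, Matrix.mul_nonsing_inv _ hPu,
        Matrix.nonsing_inv_mul _ hPu, Matrix.one_mulVec, Matrix.one_mulVec, h2] at h3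
      have h4 : (1 - (c γ₀ ^ 2) ^ 2) * bpoly A' ξ v = 0 := by linarith
      rcases mul_eq_zero.1 h4 with h5 | h5
      · exfalso
        have h6 : (c γ₀ ^ 2 - 1) * (c γ₀ ^ 2 + 1) = 0 := by linarith
        rcases mul_eq_zero.1 h6 with h7 | h7
        · exact hγ (by linarith)
        · have := sq_nonneg (c γ₀)
          linarith
      · rw [hcon, h5]
    apply hA'0
    refine hsym.ext (B := 0) ⟨fun _ _ _ => rfl, fun _ _ _ => rfl⟩ fun v ξ => ?_
    rw [hzero]
    unfold bpoly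
    symm
    refine Finset.sum_eq_zero fun I _ => Finset.sum_eq_zero fun J _ => ?_
    rw [Matrix.zero_apply]
    ring
  rw [← tpoly_bten, ← tpoly_bten, hA'] at hne
  exact noEul_of_good (good_SMC hT1z v ξ hne) ρ' fun γ P hP =>
    conj_mem_SMC hP (rep_det_ne_zero ρ' γ) (hf γ) (hf' γ)

/-! ### Complex tensors with multipliers of absolute value one -/

private theorem mult_pw_transpose {a n m : ℕ} (g : Matrix (Fin n) (Fin m) ℝ) :
    pw a gᵀ = (pw a g)ᵀ := by
  ext I J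
  rfl

private theorem mult_bsym_transpose {a n : ℕ} {A : BTen a a n} (hA : BSym A) :
    BSym (a := a) (b := a) (n := n) Aᵀ :=
  ⟨fun e I J => hA.2 e J I, fun e I J => hA.1 e J I⟩

private theorem mult_bsym_mul {a n : ℕ} {A B : BTen a a n} (hA : BSym A) (hB : BSym B) :
    BSym (a := a) (b := a) (n := n) (A * B) := by
  refine ⟨fun e I J => ?_, fun e I J => ?_⟩
  · rw [Matrix.mul_apply, Matrix.mul_apply]
    exact Finset.sum_congr rfl fun K _ => by rw [hA.1]
  · rw [Matrix.mul_apply, Matrix.mul_apply]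
    exact Finset.sum_congr rfl fun K _ => by rw [hB.2]

private theorem mult_bsym_sub {a n : ℕ} {A B : BTen a a n} (hA : BSym A) (hB : BSym B) :
    BSym (a := a) (b := a) (n := n) (A - B) := by
  refine ⟨fun e I J => ?_, fun e I J => ?_⟩
  · rw [Matrix.sub_apply, Matrix.sub_apply, hA.1, hB.1]
  · rw [Matrix.sub_apply, Matrix.sub_apply, hA.2, hB.2]

/-- an antisymmetric invariant tensor -/
private theorem mult_anti {a n : ℕ} {Γ : Type} [Group Γ] (ρ : Γ →* Matrix (Fin n) (Fin n) ℝ)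
    (Y : BTen a a n) (hY : BSym Y) (hY0 : Y ≠ 0) (hanti : Yᵀ = -Y)
    (h1 : ∀ γ, (pw a (ρ γ))ᵀ * Y = Y * (pw a (ρ γ))ᵀ)
    (h2 : ∀ γ, pw a (ρ γ) * Y = Y * pw a (ρ γ)) : NoEul ρ := by
  have hpull : ∀ g : Matrix (Fin n) (Fin n) ℝ, IsUnit g.det →
      (pw a g)ᵀ * Y = Y * (pw a g)ᵀ → bpull Y g g⁻¹ = Y := by
    intro g hg h
    unfold bpull
    rw [h, Matrix.mul_assoc, ← Matrix.transpose_mul, ← pw_mul, Matrix.nonsing_inv_mul _ hg,
      pw_one, Matrix.transpose_one, Matrix.mul_one]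
  have htr : Matrix.trace (Y * Y) ≤ 0 := by
    have e1 : Matrix.trace (Y * Y) = -Matrix.trace (Yᵀ * Y) := by
      rw [hanti, Matrix.neg_mul, Matrix.trace_neg, neg_neg]
    rw [e1, neg_nonpos, Matrix.trace]
    refine Finset.sum_nonneg fun I _ => ?_
    rw [Matrix.diag_apply, Matrix.mul_apply]
    exact Finset.sum_nonneg fun J _ => mul_self_nonneg _
  obtain ⟨v, ξ, hne⟩ := asym_of_trace hY hY0 htr
  rw [← tpoly_bten, ← tpoly_bten] at hne
  have hT0 : bten Y ≠ 0 := by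
    intro h
    exact hY0 (bten_injective (h.trans bten_zero.symm))
  have hu : ∀ γ, IsUnit (ρ γ).det := fun γ => isUnit_iff_ne_zero.2 (rep_det_ne_zero ρ γ)
  refine noEul_of_good (good_SM hT0 v ξ hne) ρ fun γ P hP =>
    conj_mem_SM hT0 hP (rep_det_ne_zero ρ γ) (Or.inl ?_) (Or.inl ?_)
  · rw [tact_bten_bl, hpull _ (hu γ) (h1 γ)]
  · rw [tact_bten_bl, hpull]
    · rw [Matrix.det_transpose]
      exact hu γ
    · rw [mult_pw_transpose, Matrix.transpose_transpose]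
      exact h2 γ

theorem noEul_of_phase {a n : ℕ} {Γ : Type} [Group Γ] (ρ : Γ →* Matrix (Fin n) (Fin n) ℝ)
    (A₁ A₂ : BTen a a n) (hA₁ : BSym A₁) (hA₂ : BSym A₂) (hA0 : A₁ ≠ 0 ∨ A₂ ≠ 0) (c : Γ → ℂ)
    (hc : ∀ γ, ‖c γ‖ = 1)
    (h1 : ∀ γ, bpull A₁ (ρ γ) (ρ γ)⁻¹ = (c γ).re • A₁ - (c γ).im • A₂)
    (h2 : ∀ γ, bpull A₂ (ρ γ) (ρ γ)⁻¹ = (c γ).im • A₁ + (c γ).re • A₂) (γ₀ : Γ)
    (hγ : c γ₀ ^ (2 * (Fintype.card (Fin a → Fin n)).factorial) ≠ 1) : NoEul ρ := by
  refine noEul_of_fg_mem ρ γ₀ fun H ⟨S, hS⟩ hmem => ?_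
  have hz : ∀ A : BTen a a n, A ≠ 0 → bten A ≠ 0 := by
    intro A hA h
    exact hA (bten_injective (h.trans bten_zero.symm))
  have bsub : ∀ A B : BTen a a n, bten (A - B) = bten A - bten B := by
    intro A B
    funext K
    unfold bten
    rw [Pi.sub_apply, ← Finset.sum_sub_distrib]
    refine Finset.sum_congr rfl fun I _ => ?_
    rw [← Finset.sum_sub_distrib]
    refine Finset.sum_congr rfl fun J _ => ?_
    split_ifs
    · rfl
    · rw [sub_zero]
  have badd : ∀ A B : BTen a a n, bten (A + B) = bten A + bten B := by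
    intro A B
    have := bsub (A + B) B
    rw [add_sub_cancel_right] at this
    rw [this, sub_add_cancel]
  have hrel : ∀ γ : H, CxRel (bten A₁) (bten A₂) (bl ((ρ.comp H.subtype) γ)) (c γ) := by
    intro γ
    refine ⟨?_, ?_⟩
    · rw [tact_bten_bl]
      show bten (bpull A₁ (ρ γ) (ρ γ)⁻¹) = _
      rw [h1, bsub, bten_smul, bten_smul]
    · rw [tact_bten_bl]
      show bten (bpull A₂ (ρ γ) (ρ γ)⁻¹) = _
      rw [h2, badd, bten_smul, bten_smul]
  obtain ⟨g, e, ρ', T₁, T₂, hg, hlim, hT1, hT2, hT0, hr, hr'⟩ := exists_limit_rep_cx S hS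
    (ρ.comp H.subtype) (bten A₁) (bten A₂) (hA0.imp (hz _) (hz _)) (fun γ => c γ) hrel
  have hh : ∀ (A : BTen a a n) m, e m • tact (bten A) (bl (g m)⁻¹) =
      bten (e m • bpull A (g m)⁻¹ (g m)) := by
    intro A m
    rw [tact_bten_bl, bten_smul, Matrix.nonsing_inv_nonsing_inv _
      (isUnit_iff_ne_zero.2 (hg m).ne')]
  simp only [hh] at hT1 hT2
  obtain ⟨B₁, hB₁, hlim₁⟩ := bten_tendsto hT1
  obtain ⟨B₂, hB₂, hlim₂⟩ := bten_tendsto hT2
  have hs₁ : BSym B₁ := BSym.of_tendsto (fun m => (hA₁.bpull _ _).smul _) hlim₁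
  have hs₂ : BSym B₂ := BSym.of_tendsto (fun m => (hA₂.bpull _ _).smul _) hlim₂
  have hB0 : B₁ ≠ 0 ∨ B₂ ≠ 0 := by
    rcases hT0 with h | h
    · left
      rintro rfl
      exact h (hB₁.symm.trans bten_zero)
    · right
      rintro rfl
      exact h (hB₂.symm.trans bten_zero)
  -- the relations for matrices
  have key : ∀ (G : Matrix (Fin n) (Fin n) ℝ) (z : ℂ), IsUnit G.det →
      CxRel T₁ T₂ (bl G) z →
      (pw a G)ᵀ * B₁ = z.re • (B₁ * (pw a G)ᵀ) - z.im • (B₂ * (pw a G)ᵀ) ∧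
      (pw a G)ᵀ * B₂ = z.im • (B₁ * (pw a G)ᵀ) + z.re • (B₂ * (pw a G)ᵀ) := by
    intro G z hG hrel
    have hone : (pw a G⁻¹)ᵀ * (pw a G)ᵀ = 1 := by
      rw [← Matrix.transpose_mul, ← pw_mul, Matrix.mul_nonsing_inv _ hG, pw_one,
        Matrix.transpose_one]
    obtain ⟨e1, e2⟩ := hrel
    rw [← hB₁, ← hB₂, tact_bten_bl, ← bten_smul, ← bten_smul, ← bsub] at e1
    rw [← hB₁, ← hB₂, tact_bten_bl, ← bten_smul, ← bten_smul, ← badd] at e2
    have e3 := bten_injective e1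
    have e4 := bten_injective e2
    unfold bpull at e3 e4
    constructor
    · have := congrArg (fun M => M * (pw a G)ᵀ) e3
      simp only [Matrix.mul_assoc, hone, Matrix.mul_one, Matrix.sub_mul, Matrix.smul_mul] at this
      exact this
    · have := congrArg (fun M => M * (pw a G)ᵀ) e4
      simp only [Matrix.mul_assoc, hone, Matrix.mul_one, Matrix.add_mul, Matrix.smul_mul] at this
      exact this
  have hu : ∀ γ, IsUnit (ρ' γ).det := fun γ => isUnit_iff_ne_zero.2 (rep_det_ne_zero ρ' γ)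
  have k1 : ∀ γ : H, _ := fun γ => key (ρ' γ) (c γ) (hu γ) (hr γ)
  have k2 : ∀ γ : H, ((pw a (ρ' γ))ᵀ)ᵀ * B₁ = (c γ).re • (B₁ * ((pw a (ρ' γ))ᵀ)ᵀ) +
        (c γ).im • (B₂ * ((pw a (ρ' γ))ᵀ)ᵀ) ∧
      ((pw a (ρ' γ))ᵀ)ᵀ * B₂ = -((c γ).im • (B₁ * ((pw a (ρ' γ))ᵀ)ᵀ)) +
        (c γ).re • (B₂ * ((pw a (ρ' γ))ᵀ)ᵀ) := by
    intro γ
    have h := key (ρ' γ)ᵀ _ (by rw [Matrix.det_transpose]; exact hu γ) (hr' γ)
    rw [mult_pw_transpose, Complex.conj_re, Complex.conj_im] at h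
    obtain ⟨e1, e2⟩ := h
    rw [neg_smul, sub_neg_eq_add] at e1
    rw [neg_smul] at e2
    exact ⟨e1, e2⟩
  have hcne : ∀ γ, c γ ≠ 0 := by
    intro γ h
    have := hc γ
    rw [h, norm_zero] at this
    exact zero_ne_one this
  have kc : ∀ γ : H, _ := fun γ => phase_comm B₁ B₂ (pw a (ρ' γ))ᵀ (c γ) (hcne γ) (k1 γ).1
    (k1 γ).2 (k2 γ).1 (k2 γ).2
  refine noEul_of_limit _ ρ' g hg hlim ?_
  have hpinv : ∀ γ : H, ∃ δ : H, (pw a (ρ' δ))ᵀ * (pw a (ρ' γ))ᵀ = 1 ∧
      (pw a (ρ' γ))ᵀ * (pw a (ρ' δ))ᵀ = 1 := by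
    intro γ
    refine ⟨γ⁻¹, ?_, ?_⟩
    · rw [← Matrix.transpose_mul, ← pw_mul, ← map_mul, mul_inv_cancel, map_one, pw_one,
        Matrix.transpose_one]
    · rw [← Matrix.transpose_mul, ← pw_mul, ← map_mul, inv_mul_cancel, map_one, pw_one,
        Matrix.transpose_one]
  by_cases h5 : B₁ᵀ * B₂ - B₂ᵀ * B₁ = 0
  · by_cases h6 : B₂ * B₁ᵀ - B₁ * B₂ᵀ = 0
    · exfalso
      have hdet : ((pw a (ρ' ⟨γ₀, hmem⟩))ᵀ).det ≠ 0 := by
        obtain ⟨δ, h7, -⟩ := hpinv ⟨γ₀, hmem⟩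
        intro h
        have := congrArg Matrix.det h7
        rw [Matrix.det_mul, h, mul_zero, Matrix.det_one] at this
        exact zero_ne_one this
      exact hγ (phase_root B₁ B₂ _ (c γ₀) (hc γ₀) hB0 hdet (k1 ⟨γ₀, hmem⟩).1 (k1 ⟨γ₀, hmem⟩).2
        (k2 ⟨γ₀, hmem⟩).1 (k2 ⟨γ₀, hmem⟩).2 (sub_eq_zero.1 h5) (sub_eq_zero.1 h6))
    · refine mult_anti ρ' (B₂ * B₁ᵀ - B₁ * B₂ᵀ)
        (mult_bsym_sub (mult_bsym_mul hs₂ (mult_bsym_transpose hs₁))
          (mult_bsym_mul hs₁ (mult_bsym_transpose hs₂))) h6 ?_ (fun γ => (kc γ).2) fun γ => ?_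
      · rw [Matrix.transpose_sub, Matrix.transpose_mul, Matrix.transpose_mul,
          Matrix.transpose_transpose, Matrix.transpose_transpose, neg_sub]
      · have h7 := congrArg Matrix.transpose (kc γ).2
        rw [Matrix.transpose_mul, Matrix.transpose_mul, Matrix.transpose_transpose,
          Matrix.transpose_sub, Matrix.transpose_mul, Matrix.transpose_mul,
          Matrix.transpose_transpose, Matrix.transpose_transpose, ← neg_sub (B₂ * B₁ᵀ),
          Matrix.neg_mul, Matrix.mul_neg, neg_inj] at h7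
        exact h7.symm
  · refine mult_anti ρ' (B₁ᵀ * B₂ - B₂ᵀ * B₁)
      (mult_bsym_sub (mult_bsym_mul (mult_bsym_transpose hs₁) hs₂)
        (mult_bsym_mul (mult_bsym_transpose hs₂) hs₁)) h5 ?_ (fun γ => (kc γ).1) fun γ => ?_
    · rw [Matrix.transpose_sub, Matrix.transpose_mul, Matrix.transpose_mul,
        Matrix.transpose_transpose, Matrix.transpose_transpose, neg_sub]
    · have h7 := congrArg Matrix.transpose (kc γ).1
      rw [Matrix.transpose_mul, Matrix.transpose_mul, Matrix.transpose_transpose,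
        Matrix.transpose_sub, Matrix.transpose_mul, Matrix.transpose_mul,
        Matrix.transpose_transpose, Matrix.transpose_transpose, ← neg_sub (B₁ᵀ * B₂),
        Matrix.neg_mul, Matrix.mul_neg, neg_inj] at h7
      exact h7.symm

end Pool.Agent.ChM
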