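import Mathlib

/-!
# Linear substitutions in polynomials
-/

namespace Pool.Agent.ChM

open MvPolynomial

/-- The composition `f ∘ A` of a polynomial `f` in the variables `X i`, `i : σ`, with coefficients
in `R` (for example `R = ℝ` or `R = ℂ`) with the linear map given by the real matrix `A`. -/
noncomputable def polySubst (R : Type*) [CommRing R] [Algebra ℝ R] {σ : Type*} [Fintype σ]
    (A : Matrix σ σ ℝ) : MvPolynomial σ R →ₐ[R] MvPolynomial σ R :=
  aeval fun i => ∑ j, C (algebraMap ℝ R (A i j)) * X j

end Pool.Agent.ChM
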