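import Pool.Agent.ChM.GaussInt

/-!
# Infinitesimal rotations, Laplace operator, restriction to the real points

The variables of `MvPolynomial (Fin (n + n)) ℂ` are `x_i = X (castAdd n i)` and
`y_i = X (natAdd n i)`.

`lap_rot`: derivations are determined on the variables; `pderiv p (rot Y f) = rot Y (pderiv p f)
+ ∑ q, (∂_p (rot Y X_q)) * pderiv q f` (the commutator of two derivations is a derivation), where
`∂_p (rot Y X_q)` is a constant matrix which is antisymmetric as `Y` is symmetric.  Applying
`∂_p` twice and summing over `p` the additional terms are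
`2 ∑_{p,q} A_{p q} ∂_p ∂_q f = 0` (`pderiv p` and `pderiv q` commute).

`res_pderiv`: chain rule; both sides are derivations over `res` of `MvPolynomial (Fin (n+n)) ℂ`
with values in `MvPolynomial (Fin n) ℂ`, or induction on polynomials (`MvPolynomial.induction_on`).
-/

namespace Pool.Agent.ChM

open Matrix MvPolynomial

/-- The infinitesimal rotation `x ↦ -Y y`, `y ↦ Y x`. -/
noncomputable def rot {n : ℕ} (Y : Matrix (Fin n) (Fin n) ℝ) :
    Derivation ℂ (MvPolynomial (Fin (n + n)) ℂ) (MvPolynomial (Fin (n + n)) ℂ) :=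
  mkDerivation ℂ (Fin.append
    (fun i => -∑ j, C ((Y i j : ℝ) : ℂ) * X (Fin.natAdd n j))
    (fun i => ∑ j, C ((Y i j : ℝ) : ℂ) * X (Fin.castAdd n j)))

/-- The Laplace operator. -/
noncomputable def lap {N : ℕ} (f : MvPolynomial (Fin N) ℂ) : MvPolynomial (Fin N) ℂ :=
  ∑ i, pderiv i (pderiv i f)

/-- The restriction to `y = 0`. -/
noncomputable def res {n : ℕ} : MvPolynomial (Fin (n + n)) ℂ →ₐ[ℂ] MvPolynomial (Fin n) ℂ :=
  aeval (Fin.append X (fun _ => 0))

private theorem rot_sum_apply {N : ℕ} {ι : Type} (s : Finset ι)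
    (D : ι → Derivation ℂ (MvPolynomial (Fin N) ℂ) (MvPolynomial (Fin N) ℂ))
    (f : MvPolynomial (Fin N) ℂ) :
    (∑ i ∈ s, D i) f = ∑ i ∈ s, D i f := by
  classical
  induction s using Finset.induction_on with
  | empty => simp
  | insert a s ha ih => rw [Finset.sum_insert ha, Finset.sum_insert ha, Derivation.add_apply, ih]

private theorem rot_der {N : ℕ}
    (D : Derivation ℂ (MvPolynomial (Fin N) ℂ) (MvPolynomial (Fin N) ℂ))
    (f : MvPolynomial (Fin N) ℂ) :
    D f = ∑ i, pderiv i f * D (X i) := by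
  have h : D = ∑ i, D (X i) • pderiv i := by
    apply MvPolynomial.derivation_ext
    intro i
    rw [rot_sum_apply]
    simp only [Derivation.smul_apply, pderiv_X, smul_eq_mul]
    rw [Finset.sum_eq_single i]
    · simp
    · intro b _ hb
      rw [Pi.single_apply, if_neg (Ne.symm hb), mul_zero]
    · intro h; exact absurd (Finset.mem_univ i) h
  conv_lhs => rw [h]
  rw [rot_sum_apply]
  apply Finset.sum_congr rfl
  intro i _
  rw [Derivation.smul_apply, smul_eq_mul, mul_comm]

theorem rot_eq {n : ℕ} (Y : Matrix (Fin n) (Fin n) ℝ) (f : MvPolynomial (Fin (n + n)) ℂ) :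
    rot Y f = ∑ i, ∑ j, C ((Y i j : ℝ) : ℂ) *
      (X (Fin.castAdd n j) * pderiv (Fin.natAdd n i) f -
        X (Fin.natAdd n j) * pderiv (Fin.castAdd n i) f) := by
  rw [rot_der (rot Y) f, Fin.sum_univ_add, ← Finset.sum_add_distrib]
  apply Finset.sum_congr rfl
  intro i _
  simp only [rot, mkDerivation_X, Fin.append_left, Fin.append_right]
  rw [mul_neg, Finset.mul_sum, Finset.mul_sum, ← Finset.sum_neg_distrib,
    ← Finset.sum_add_distrib]
  apply Finset.sum_congr rfl
  intro j _
  ring

theorem pderiv_comm' {N : ℕ} (i j : Fin N) (f : MvPolynomial (Fin N) ℂ) :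
    pderiv i (pderiv j f) = pderiv j (pderiv i f) := by
  have h : ⁅(pderiv i : Derivation ℂ (MvPolynomial (Fin N) ℂ) (MvPolynomial (Fin N) ℂ)),
      (pderiv j : Derivation ℂ (MvPolynomial (Fin N) ℂ) (MvPolynomial (Fin N) ℂ))⁆ = 0 := by
    apply MvPolynomial.derivation_ext
    intro k
    rw [Derivation.commutator_apply, pderiv_X, pderiv_X, Pi.single_apply, Pi.single_apply]
    split_ifs <;> simp
  have h2 := congrArg (fun D => D f) h
  simp only [Derivation.commutator_apply, Derivation.coe_zero, Pi.zero_apply] at h2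
  exact sub_eq_zero.mp h2

/-- the constants of the rotation -/
private noncomputable def rotA {n : ℕ} (Y : Matrix (Fin n) (Fin n) ℝ) (p q : Fin (n + n)) : ℂ :=
  Fin.append (fun i => Fin.append (fun _ => (0 : ℂ)) (fun j => ((Y j i : ℝ) : ℂ)) q)
    (fun i => Fin.append (fun j => -((Y j i : ℝ) : ℂ)) (fun _ => (0 : ℂ)) q) p

private theorem rotA_anti {n : ℕ} (Y : Matrix (Fin n) (Fin n) ℝ) (hY : Yᵀ = Y)
    (p q : Fin (n + n)) : rotA Y q p = - rotA Y p q := by
  have hs : ∀ i j, Y i j = Y j i := fun i j => by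
    conv_lhs => rw [← hY]
    rfl
  unfold rotA
  refine Fin.addCases (fun i => ?_) (fun i => ?_) p <;>
  refine Fin.addCases (fun j => ?_) (fun j => ?_) q <;>
  simp only [Fin.append_left, Fin.append_right, neg_zero, neg_neg, hs i j]

private theorem pderiv_rot_X {n : ℕ} (Y : Matrix (Fin n) (Fin n) ℝ) (p q : Fin (n + n)) :
    pderiv p (rot Y (X q)) = C (rotA Y p q) := by
  unfold rotA rot
  rw [mkDerivation_X]
  refine Fin.addCases (fun i => ?_) (fun i => ?_) p <;>
  refine Fin.addCases (fun j => ?_) (fun j => ?_) q <;>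
  simp only [Fin.append_left, Fin.append_right, map_neg, map_sum, pderiv_C_mul, pderiv_X]
  · rw [Finset.sum_eq_zero, neg_zero, map_zero]
    intro k _
    rw [Pi.single_apply, if_neg, mul_zero]
    intro h
    simp [Fin.ext_iff] at h
    omega
  · rw [Finset.sum_eq_single i]
    · simp
    · intro b _ hb
      rw [Pi.single_apply, if_neg, mul_zero]
      intro h
      exact hb ((Fin.castAdd_injective n n) h)
    · intro h; exact absurd (Finset.mem_univ i) h
  · rw [Finset.sum_eq_single i]
    · simp
    · intro b _ hb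
      rw [Pi.single_apply, if_neg, mul_zero]
      intro h
      exact hb ((Fin.natAdd_injective n n) h)
    · intro h; exact absurd (Finset.mem_univ i) h
  · rw [Finset.sum_eq_zero, map_zero]
    intro k _
    rw [Pi.single_apply, if_neg, mul_zero]
    intro h
    simp [Fin.ext_iff] at h
    omega

private theorem pderiv_rot {n : ℕ} (Y : Matrix (Fin n) (Fin n) ℝ) (p : Fin (n + n))
    (f : MvPolynomial (Fin (n + n)) ℂ) :
    pderiv p (rot Y f) = rot Y (pderiv p f) + ∑ q, C (rotA Y p q) * pderiv q f := by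
  rw [rot_der (rot Y) f, rot_der (rot Y) (pderiv p f), map_sum, ← Finset.sum_add_distrib]
  apply Finset.sum_congr rfl
  intro q _
  rw [Derivation.leibniz, pderiv_rot_X, smul_eq_mul, smul_eq_mul, pderiv_comm' p q f]
  ring

theorem lap_rot {n : ℕ} (Y : Matrix (Fin n) (Fin n) ℝ) (hY : Yᵀ = Y)
    (f : MvPolynomial (Fin (n + n)) ℂ) : rot Y (lap f) = lap (rot Y f) := by
  have h1 : ∀ p : Fin (n + n), pderiv p (pderiv p (rot Y f)) =
      rot Y (pderiv p (pderiv p f)) +
        2 * ∑ q, C (rotA Y p q) * pderiv p (pderiv q f) := by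
    intro p
    rw [pderiv_rot, map_add, pderiv_rot, map_sum]
    have h2 : ∀ q : Fin (n + n), pderiv p (C (rotA Y p q) * pderiv q f) =
        C (rotA Y p q) * pderiv p (pderiv q f) := fun q => by
      rw [pderiv_C_mul]
    have h3 : ∀ q : Fin (n + n), C (rotA Y p q) * pderiv q (pderiv p f) =
        C (rotA Y p q) * pderiv p (pderiv q f) := fun q => by
      rw [pderiv_comm' q p f]
    rw [Finset.sum_congr rfl (fun q _ => h2 q), Finset.sum_congr rfl (fun q _ => h3 q)]
    ring
  have h4 : ∑ p : Fin (n + n), ∑ q, C (rotA Y p q) * pderiv p (pderiv q f) = 0 := by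
    have h5 : ∑ p : Fin (n + n), ∑ q, C (rotA Y p q) * pderiv p (pderiv q f) =
        - ∑ p : Fin (n + n), ∑ q, C (rotA Y p q) * pderiv p (pderiv q f) := by
      conv_lhs => rw [Finset.sum_comm]
      rw [← Finset.sum_neg_distrib]
      apply Finset.sum_congr rfl
      intro p _
      rw [← Finset.sum_neg_distrib]
      apply Finset.sum_congr rfl
      intro q _
      rw [rotA_anti Y hY p q, pderiv_comm' q p f, map_neg, neg_mul]
    exact self_eq_neg.mp h5
  unfold lap
  rw [map_sum, Finset.sum_congr rfl (fun p _ => h1 p), Finset.sum_add_distrib,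
    ← Finset.mul_sum, h4, mul_zero, add_zero]

theorem isHomogeneous_lap {N m : ℕ} {f : MvPolynomial (Fin N) ℂ} (hf : f.IsHomogeneous (m + 2)) :
    (lap f).IsHomogeneous m := by
  unfold lap
  apply MvPolynomial.IsHomogeneous.sum
  intro i _
  have h1 : (pderiv i f).IsHomogeneous (m + 1) := hf.pderiv
  exact h1.pderiv

theorem lap_eq_zero {N m : ℕ} {f : MvPolynomial (Fin N) ℂ} (hf : f.IsHomogeneous m) (hm : m < 2) :
    lap f = 0 := by
  unfold lap
  apply Finset.sum_eq_zero
  intro i _
  have h1 : (pderiv i f).IsHomogeneous (m - 1) := hf.pderiv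
  have h0 : m - 1 = 0 := by omega
  rw [h0] at h1
  have h2 : pderiv i f = C (coeff 0 (pderiv i f)) := by
    exact (MvPolynomial.totalDegree_eq_zero_iff_eq_C).mp (Nat.le_zero.mp (h1.totalDegree_le))
  rw [h2, pderiv_C]

theorem isHomogeneous_res {n m : ℕ} {f : MvPolynomial (Fin (n + n)) ℂ} (hf : f.IsHomogeneous m) :
    (res f).IsHomogeneous m := by
  have h := hf.aeval (σ := Fin (n + n)) (τ := Fin n)
    (Fin.append X (fun _ => (0 : MvPolynomial (Fin n) ℂ))) (n := 1) ?_
  · rw [one_mul] at h
    exact h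
  · intro i
    refine Fin.addCases (fun j => ?_) (fun j => ?_) i
    · rw [Fin.append_left]; exact isHomogeneous_X _ _
    · rw [Fin.append_right]; exact isHomogeneous_zero (Fin n) ℂ 1

theorem res_pderiv {n : ℕ} (k : Fin n) (f : MvPolynomial (Fin (n + n)) ℂ) :
    pderiv k (res f) = res (pderiv (Fin.castAdd n k) f) := by
  induction f using MvPolynomial.induction_on with
  | C a => simp [res]
  | add p q hp hq => rw [map_add, map_add, map_add, map_add, hp, hq]
  | mul_X p i hp =>
    rw [map_mul, Derivation.leibniz, Derivation.leibniz, hp, map_add]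
    simp only [smul_eq_mul, map_mul]
    congr 1
    congr 1
    refine Fin.addCases (fun j => ?_) (fun j => ?_) i
    · simp only [res, aeval_X, Fin.append_left, pderiv_X, Pi.single_apply]
      by_cases h : j = k
      · subst h; simp
      · rw [if_neg h, if_neg (fun h2 => h (Fin.castAdd_injective n n h2)), map_zero]
    · simp only [res, aeval_X, Fin.append_right, pderiv_X, Pi.single_apply, map_zero]
      rw [if_neg, map_zero]
      intro h
      simp [Fin.ext_iff] at h
      omega

/-- Euler's formula -/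
theorem euler_formula {N m : ℕ} {f : MvPolynomial (Fin N) ℂ} (hf : f.IsHomogeneous m) :
    ∑ i, X i * pderiv i f = (m : MvPolynomial (Fin N) ℂ) * f := by
  have h := hf.sum_X_mul_pderiv
  rw [h, nsmul_eq_mul]

end Pool.Agent.ChM
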